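import Mathlib

set_option autoImplicit false
open Finset

/-! Exact solution of a one-arm event for critical bond percolation on `ℤ²`: shared definitions.

`q` is a primitive cube root of unity (`q^2+q+1=0`), `a` satisfies `a^2 = -q^2`, so `a⁻¹ = -q a`.
Spin amplitudes on `2n+1` sites `1..2n+1` are indexed by the set `D` of down sites. -/

namespace Pool.Agent.H75.Exact

/-! ### Spin side -/

/-- The Temperley-Lieb generator `e_i` (loop weight one) in the spin-1/2 representation. -/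
noncomputable def E (q : ℂ) (i : ℕ) (Ψ : Finset ℕ → ℂ) (D : Finset ℕ) : ℂ :=
  if i ∈ D then
    if i + 1 ∈ D then 0 else -q * Ψ D + Ψ (insert (i + 1) (D.erase i))
  else
    if i + 1 ∈ D then Ψ (insert i (D.erase (i + 1))) - q⁻¹ * Ψ D else 0

/-- `Ψ` is an eigenvector of `∑ e_i` with eigenvalue `2n` on the sector with `n` down sites. -/
def HEig (q : ℂ) (n : ℕ) (Ψ : Finset ℕ → ℂ) : Prop :=
  ∀ D : Finset ℕ, D ⊆ Icc 1 (2 * n + 1) → D.card = n →
    ∑ i ∈ Icc 1 (2 * n), E q i Ψ D = 2 * n * Ψ D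

/-- One down site in each pair `(2k+2, 2k+3)`, `k < n`. -/
def DA (n : ℕ) (ε : Fin n → Bool) : Finset ℕ :=
  univ.image fun k : Fin n => 2 * (k : ℕ) + (if ε k then 2 else 3)

/-- Pairing with the vector `↑₁ ⊗ A₂₃ ⊗ A₄₅ ⊗ ⋯`, where `A = a ↑↓ + a⁻¹ ↓↑`. -/
noncomputable def fA (a : ℂ) (n : ℕ) (Ψ : Finset ℕ → ℂ) : ℂ :=
  ∑ ε : Fin n → Bool, (∏ k, if ε k then a⁻¹ else a) * Ψ (DA n ε)

/-- The site `2n+1` and one down site in each arc `(2k+2, 2k+3)`, `k+1 < m`, and
`(2k+3, 2k+4)`, `m ≤ k+1 < n`. -/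
def DC (n m : ℕ) (ε : Fin (n - 1) → Bool) : Finset ℕ :=
  insert (2 * n + 1) (univ.image fun k : Fin (n - 1) =>
    2 * (k : ℕ) + (if (k : ℕ) + 1 < m then 2 else 3) + (if ε k then 0 else 1))

/-- Pairing with the vector with defects `↑₁`, `↑_{2m}`, `↓_{2n+1}` and small arcs
`A₂₃ ⋯ A_{2m-2,2m-1}`, `A_{2m+1,2m+2} ⋯ A_{2n-1,2n}`, where `A = a ↑↓ + a⁻¹ ↓↑`. -/
noncomputable def fC (a : ℂ) (n m : ℕ) (Ψ : Finset ℕ → ℂ) : ℂ :=
  ∑ ε : Fin (n - 1) → Bool, (∏ k, if ε k then a⁻¹ else a) * Ψ (DC n m ε)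

open MvPolynomial in
/-- Generating polynomial of the explicit eigenvector. -/
noncomputable def Qp (q : ℂ) (n : ℕ) : MvPolynomial (Fin n) ℂ :=
  (∏ k : Fin n, (1 - C q * X k) * (1 - X k ^ 2) * (1 + X k + X k ^ 2)) *
  ∏ k : Fin n, ∏ l ∈ Ioi k,
    (X l - X k) * (1 + X l + X k * X l) * (1 - X k * X l) * (1 + X k + X l)

/-- The explicit eigenvector: if `D = {a_1 < ⋯ < a_n}` then `Psi D` is the coefficient of
`∏_k X_k ^ (2n+1 - a_{n-k})` (`k = 0, …, n-1`) in `Qp`. -/
noncomputable def Psi (q : ℂ) (n : ℕ) (D : Finset ℕ) : ℂ :=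
  if h : D.card = n then
    MvPolynomial.coeff
      (Finsupp.equivFunOnFinite.symm fun k : Fin n => 2 * n + 1 - D.orderEmbOfFin h (Fin.rev k))
      (Qp q n)
  else 0

/-! ### Partition side -/

/-- `n` columns, the wall and the source. -/
abbrev Pt (n : ℕ) := Option (Option (Fin n))

/-- Column `k`. -/
def col {n : ℕ} (k : Fin n) : Pt n := some (some k)
/-- The wall. -/
def W {n : ℕ} : Pt n := some none
/-- The source. -/
def S {n : ℕ} : Pt n := none

/-- Make `x` a singleton. -/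
def iso {n : ℕ} (x : Pt n) (c : Setoid (Pt n)) : Setoid (Pt n) where
  r u v := u = v ∨ (u ≠ x ∧ v ≠ x ∧ c u v)
  iseqv := by
    refine ⟨fun u => Or.inl rfl, ?_, ?_⟩
    · rintro u v (h | ⟨h1, h2, h3⟩)
      · exact Or.inl h.symm
      · exact Or.inr ⟨h2, h1, c.symm h3⟩
    · rintro u v w (rfl | ⟨h1, h2, h3⟩) (rfl | ⟨g1, g2, g3⟩)
      · exact Or.inl rfl
      · exact Or.inr ⟨g1, g2, g3⟩
      · exact Or.inr ⟨h1, h2, h3⟩
      · exact Or.inr ⟨h1, g2, c.trans h3 g3⟩

/-- Merge the classes of `x` and `y`. -/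
def join {n : ℕ} (x y : Pt n) (c : Setoid (Pt n)) : Setoid (Pt n) where
  r u v := c u v ∨ (c u x ∧ c v y) ∨ (c u y ∧ c v x)
  iseqv := by
    refine ⟨fun u => Or.inl (c.refl u), ?_, ?_⟩
    · rintro u v (h | ⟨h1, h2⟩ | ⟨h1, h2⟩)
      · exact Or.inl (c.symm h)
      · exact Or.inr (Or.inr ⟨h2, h1⟩)
      · exact Or.inr (Or.inl ⟨h2, h1⟩)
    · rintro u v w (h | ⟨h1, h2⟩ | ⟨h1, h2⟩) (g | ⟨g1, g2⟩ | ⟨g1, g2⟩)
      · exact Or.inl (c.trans h g)
      · exact Or.inr (Or.inl ⟨c.trans h g1, g2⟩)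
      · exact Or.inr (Or.inr ⟨c.trans h g1, g2⟩)
      · exact Or.inr (Or.inl ⟨h1, c.trans (c.symm g) h2⟩)
      · exact Or.inr (Or.inl ⟨h1, g2⟩)
      · exact Or.inl (c.trans h1 (c.symm g2))
      · exact Or.inr (Or.inr ⟨h1, c.trans (c.symm g) h2⟩)
      · exact Or.inl (c.trans h1 (c.symm g2))
      · exact Or.inr (Or.inr ⟨h1, g2⟩)

/-- The right neighbour of column `k`. -/
def nxt {n : ℕ} (k : Fin n) : Pt n := if h : (k : ℕ) + 1 < n then col ⟨(k : ℕ) + 1, h⟩ else W

/-- The operator `e_i` on partitions, `1 ≤ i ≤ 2n`: `e_{2k+1}` isolates column `k`, `e_{2k+2}` joins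
column `k` with its right neighbour; the identity for other `i`. -/
def ee (n : ℕ) (i : ℕ) (c : Setoid (Pt n)) : Setoid (Pt n) :=
  if h : 1 ≤ i ∧ (i - 1) / 2 < n then
    if i % 2 = 1 then iso (col ⟨(i - 1) / 2, h.2⟩) c
    else join (col ⟨(i - 1) / 2, h.2⟩) (nxt ⟨(i - 1) / 2, h.2⟩) c
  else c

/-- `h` is harmonic for the chain which applies a uniformly random `e_i`, equals `1` once source and
wall are in the same class and `0` once the source is a singleton. -/
def Harm (n : ℕ) (h : Setoid (Pt n) → ℝ) : Prop :=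
  (∀ c, c S W → h c = 1) ∧
  (∀ c, ¬ c S W → (∀ k : Fin n, ¬ c S (col k)) → h c = 0) ∧
  ∀ c, ∑ i ∈ Icc 1 (2 * n), h (ee n i c) = 2 * n * h c

/-- The source together with the first `m` columns. -/
def src (n m : ℕ) : Set (Pt n) := fun x => x = S ∨ ∃ k : Fin n, (k : ℕ) < m ∧ x = col k

/-- The initial partition: the source and the first `m` columns form one class, everything else is a
singleton. -/
def C0 (n m : ℕ) : Setoid (Pt n) where
  r u v := u = v ∨ (u ∈ src n m ∧ v ∈ src n m)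
  iseqv := by
    refine ⟨fun u => Or.inl rfl, ?_, ?_⟩
    · rintro u v (h | ⟨h1, h2⟩)
      · exact Or.inl h.symm
      · exact Or.inr ⟨h2, h1⟩
    · rintro u v w (rfl | ⟨h1, h2⟩) (rfl | ⟨g1, g2⟩)
      · exact Or.inl rfl
      · exact Or.inr ⟨g1, g2⟩
      · exact Or.inr ⟨h1, h2⟩
      · exact Or.inr ⟨h1, g2⟩

/-- The embedding of the points of the system with `n` columns into the one with `n+1` columns: the
new column is column `0`. -/
def emb {n : ℕ} : Pt n → Pt (n + 1)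
  | none => none
  | some none => some none
  | some (some k) => some (some k.succ)

/-- Add the new column `0` as a singleton. -/
def up {n : ℕ} (c : Setoid (Pt n)) : Setoid (Pt (n + 1)) where
  r u v := u = v ∨ ∃ u' v', emb u' = u ∧ emb v' = v ∧ c u' v'
  iseqv := by
    have inj : Function.Injective (emb (n := n)) := by
      rintro (_ | _ | k) (_ | _ | l) h <;> simp [emb] at h ⊢
      exact h
    refine ⟨fun u => Or.inl rfl, ?_, ?_⟩
    · rintro u v (h | ⟨u', v', h1, h2, h3⟩)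
      · exact Or.inl h.symm
      · exact Or.inr ⟨v', u', h2, h1, c.symm h3⟩
    · rintro u v w (rfl | ⟨u', v', h1, h2, h3⟩) (rfl | ⟨v'', w', g1, g2, g3⟩)
      · exact Or.inl rfl
      · exact Or.inr ⟨v'', w', g1, g2, g3⟩
      · exact Or.inr ⟨u', v', h1, h2, h3⟩
      · have : v' = v'' := inj (h2.trans g1.symm)
        subst this
        exact Or.inr ⟨u', w', h1, g2, c.trans h3 g3⟩

/-- Forget the new column `0`. -/
def down {n : ℕ} (c : Setoid (Pt (n + 1))) : Setoid (Pt n) := c.comap emb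

/-- Averaging over doing nothing and applying `op`. -/
noncomputable def R {α : Type*} (op : α → α) (g : α → ℝ) (c : α) : ℝ := (g c + g (op c)) / 2

/-- The indices of the operators in one layer of isotropic percolation: `2,3,…,2n+2`, then back. -/
def layer (n : ℕ) : List ℕ :=
  (List.range (2 * n + 1)).map (· + 2) ++ ((List.range (2 * n + 1)).map (· + 2)).reverse

/-- One layer of isotropic bond percolation (`p = 1/2`) acting on functions of partitions. -/
noncomputable def TT (n : ℕ) (h : Setoid (Pt n) → ℝ) (c : Setoid (Pt n)) : ℝ :=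
  (layer n).foldr (fun i g => R (ee (n + 1) i) g) (fun d => h (down d)) (up c)

/-- The exact value of the one-arm probability. -/
noncomputable def hval (n : ℕ) : ℝ :=
  ∏ k ∈ range n, ((3 * k + 5) * (2 * k + 1) : ℝ) / ((6 * k + 5) * (k + 2))

/-- The matrices `binom(α+i+j, 2i-j+1)`. -/
def bm (α n : ℕ) : Matrix (Fin n) (Fin n) ℚ := fun i j =>
  if (j : ℕ) ≤ 2 * i + 1 then (Nat.choose (α + i + j) (2 * i + 1 - j) : ℚ) else 0

end Pool.Agent.H75.Exact
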