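import Mathlib
import Pool.Agent.H75.Exact.Defs
import Pool.Agent.H65.Perc.HalfDefs

set_option autoImplicit false
open Finset

/-! Percolation in the half-infinite strip `{-1 ≤ x + y ≤ 2n, y ≤ x}` and the associated process of
partitions: definitions. -/

namespace Pool.Agent.H75.Exact

open Pool.Agent.H65.Perc (PConf planeMeasure)

/-- the vertices of the half-infinite strip -/
def InS (n : ℕ) (u : ℤ × ℤ) : Prop := -1 ≤ u.1 + u.2 ∧ u.1 + u.2 ≤ 2 * n ∧ u.2 ≤ u.1

/-- the graph of the open edges of the half-infinite strip -/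
def stripGraph (n : ℕ) (ω : PConf) : SimpleGraph (ℤ × ℤ) :=
  SimpleGraph.fromRel (fun u v => InS n u ∧ InS n v ∧
    ((v = (u.1 + 1, u.2) ∧ ω (u, true) = true) ∨ (v = (u.1, u.2 + 1) ∧ ω (u, false) = true)))

/-- one of the `m` first vertices `(j,j)` of the short side is connected to the long side
`{x + y = 2n}` -/
def StripArm (n m : ℕ) (ω : PConf) : Prop :=
  ∃ j : ℕ, j < m ∧ ∃ v : ℤ × ℤ, v.1 + v.2 = 2 * n ∧ (stripGraph n ω).Reachable ((j : ℤ), (j : ℤ)) v

/-- the edge of the operator `i` (`2 ≤ i ≤ 2n+2`) in the first sweep of layer `t` -/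
def eA (t i : ℕ) : (ℤ × ℤ) × Bool :=
  if i % 2 = 0 then ((((i / 2 - 1 : ℕ) : ℤ) + t, ((i / 2 - 1 : ℕ) : ℤ) - t - 1), false)
  else ((((i / 2 : ℕ) : ℤ) + t - 1, ((i / 2 : ℕ) : ℤ) - t - 1), true)

/-- the edge of the operator `i` (`2 ≤ i ≤ 2n+2`) in the second sweep of layer `t` -/
def eB (t i : ℕ) : (ℤ × ℤ) × Bool :=
  if i % 2 = 0 then ((((i / 2 - 1 : ℕ) : ℤ) + t, ((i / 2 - 1 : ℕ) : ℤ) - t - 1), true)
  else ((((i / 2 : ℕ) : ℤ) + t, ((i / 2 : ℕ) : ℤ) - t - 2), false)

/-- the operators of layer `t` in their order, with their edges -/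
def lay (n t : ℕ) : List (ℕ × ((ℤ × ℤ) × Bool)) :=
  ((List.range (2 * n + 1)).map fun j => (j + 2, eA t (j + 2))) ++
  ((List.range (2 * n + 1)).map fun j => (j + 2, eB t (j + 2))).reverse

/-- an even operator (a junction) acts if its edge is open, an odd one (an isolation) if its edge is
closed -/
noncomputable def stepE (n : ℕ) (ω : PConf) (c : Setoid (Pt (n + 1)))
    (p : ℕ × ((ℤ × ℤ) × Bool)) : Setoid (Pt (n + 1)) :=
  if ω p.2 = decide (p.1 % 2 = 0) then ee (n + 1) p.1 c else c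

/-- the partition after `t` layers, started from `C0 n m` -/
noncomputable def run (n m : ℕ) (ω : PConf) : ℕ → Setoid (Pt n)
  | 0 => C0 n m
  | t + 1 => down ((lay n t).foldl (stepE n ω) (up (run n m ω t)))

end Pool.Agent.H75.Exact
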