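import Mathlib
import Pool.Agent.H75.Exact.Strip

set_option autoImplicit false
open Finset

/-! Strip percolation and the process of partitions: the deterministic part. -/

namespace Pool.Agent.H75.Exact

open Pool.Agent.H65.Perc (PConf)

namespace Det

section Eqv

variable {α : Type*}

lemma eqv_add {G : α → α → Prop} {x y : α} {u v : α} :
    Relation.EqvGen (fun u v => G u v ∨ (u = x ∧ v = y)) u v ↔
      Relation.EqvGen G u v ∨ (Relation.EqvGen G u x ∧ Relation.EqvGen G v y) ∨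
        (Relation.EqvGen G u y ∧ Relation.EqvGen G v x) := by
  constructor
  · intro h
    induction h with
    | rel a b h =>
      rcases h with h | ⟨rfl, rfl⟩
      · exact Or.inl (.rel _ _ h)
      · exact Or.inr (Or.inl ⟨.refl _, .refl _⟩)
    | refl a => exact Or.inl (.refl _)
    | symm a b _ ih =>
      rcases ih with h | ⟨h1, h2⟩ | ⟨h1, h2⟩
      · exact Or.inl (.symm _ _ h)
      · exact Or.inr (Or.inr ⟨h2, h1⟩)
      · exact Or.inr (Or.inl ⟨h2, h1⟩)
    | trans a b c _ _ ih1 ih2 =>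
      rcases ih1 with h | ⟨h1, h2⟩ | ⟨h1, h2⟩ <;> rcases ih2 with g | ⟨g1, g2⟩ | ⟨g1, g2⟩
      · exact Or.inl (.trans _ _ _ h g)
      · exact Or.inr (Or.inl ⟨.trans _ _ _ h g1, g2⟩)
      · exact Or.inr (Or.inr ⟨.trans _ _ _ h g1, g2⟩)
      · exact Or.inr (Or.inl ⟨h1, .trans _ _ _ (.symm _ _ g) h2⟩)
      · exact Or.inr (Or.inl ⟨h1, g2⟩)
      · exact Or.inl (.trans _ _ _ h1 (.symm _ _ g2))
      · exact Or.inr (Or.inr ⟨h1, .trans _ _ _ (.symm _ _ g) h2⟩)
      · exact Or.inl (.trans _ _ _ h1 (.symm _ _ g2))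
      · exact Or.inr (Or.inr ⟨h1, g2⟩)
  · have mono : ∀ {a b : α}, Relation.EqvGen G a b →
        Relation.EqvGen (fun u v => G u v ∨ (u = x ∧ v = y)) a b :=
      fun h => Relation.EqvGen.mono (fun _ _ h => Or.inl h) _ _ h
    have hxy : Relation.EqvGen (fun u v => G u v ∨ (u = x ∧ v = y)) x y :=
      .rel _ _ (Or.inr ⟨rfl, rfl⟩)
    rintro (h | ⟨h1, h2⟩ | ⟨h1, h2⟩)
    · exact mono h
    · exact .trans _ _ _ (mono h1) (.trans _ _ _ hxy (.symm _ _ (mono h2)))
    · exact .trans _ _ _ (mono h1) (.trans _ _ _ (.symm _ _ hxy) (.symm _ _ (mono h2)))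

lemma eqv_fresh {G : α → α → Prop} {p : α} (h : ∀ v, ¬ G p v) (h' : ∀ v, ¬ G v p) {u v : α}
    (H : Relation.EqvGen G u v) : u = p ↔ v = p := by
  induction H with
  | rel a b hab =>
    constructor
    · rintro rfl; exact absurd hab (h _)
    · rintro rfl; exact absurd hab (h' _)
  | refl a => exact Iff.rfl
  | symm a b _ ih => exact ih.symm
  | trans a b c _ _ ih1 ih2 => exact ih1.trans ih2

end Eqv

/-- The head of an edge. -/
def tgt (e : (ℤ × ℤ) × Bool) : ℤ × ℤ := if e.2 then (e.1.1 + 1, e.1.2) else (e.1.1, e.1.2 + 1)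

/-- The generators of the connection relation inside a set `E` of edges. -/
def Gen (n m : ℕ) (ω : PConf) (E : Set ((ℤ × ℤ) × Bool)) (u v : ℤ × ℤ) : Prop :=
  (u.1 + u.2 = 2 * n ∧ v.1 + v.2 = 2 * n) ∨
  (∃ i j : ℕ, i < m ∧ j < m ∧ u = ((i : ℤ), (i : ℤ)) ∧ v = ((j : ℤ), (j : ℤ))) ∨
  (∃ e ∈ E, ω e = true ∧ u = e.1 ∧ v = tgt e)

/-- The connection relation. -/
abbrev Con (n m : ℕ) (ω : PConf) (E : Set ((ℤ × ℤ) × Bool)) : ℤ × ℤ → ℤ × ℤ → Prop :=
  Relation.EqvGen (Gen n m ω E)

section step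

variable {n m : ℕ} {ω : PConf} {E : Set ((ℤ × ℤ) × Bool)} {N : ℕ}

lemma gen_insert_open {e : (ℤ × ℤ) × Bool} (he : ω e = true) :
    Gen n m ω (insert e E) = fun u v => Gen n m ω E u v ∨ (u = e.1 ∧ v = tgt e) := by
  funext u v
  apply propext
  constructor
  · rintro (h | h | ⟨f, hf, h1, h2⟩)
    · exact Or.inl (Or.inl h)
    · exact Or.inl (Or.inr (Or.inl h))
    · rcases hf with rfl | hf
      · exact Or.inr h2
      · exact Or.inl (Or.inr (Or.inr ⟨f, hf, h1, h2⟩))
  · rintro ((h | h | ⟨f, hf, h⟩) | h)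
    · exact Or.inl h
    · exact Or.inr (Or.inl h)
    · exact Or.inr (Or.inr ⟨f, Or.inr hf, h⟩)
    · exact Or.inr (Or.inr ⟨e, Or.inl rfl, he, h⟩)

lemma gen_insert_closed {e : (ℤ × ℤ) × Bool} (he : ω e = false) :
    Gen n m ω (insert e E) = Gen n m ω E := by
  funext u v
  apply propext
  constructor
  · rintro (h | h | ⟨f, hf, h1, h2⟩)
    · exact Or.inl h
    · exact Or.inr (Or.inl h)
    · rcases hf with rfl | hf
      · rw [he] at h1; exact absurd h1 (by simp)
      · exact Or.inr (Or.inr ⟨f, hf, h1, h2⟩)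
  · rintro (h | h | ⟨f, hf, h⟩)
    · exact Or.inl h
    · exact Or.inr (Or.inl h)
    · exact Or.inr (Or.inr ⟨f, Or.inr hf, h⟩)

lemma step_join {φ : Pt N → ℤ × ℤ} {c : Setoid (Pt N)}
    (hc : ∀ a b, c a b ↔ Con n m ω E (φ a) (φ b)) {x y : Pt N} {e : (ℤ × ℤ) × Bool}
    (hx : Con n m ω E e.1 (φ x)) (hy : Con n m ω E (tgt e) (φ y)) (a b : Pt N) :
    (if ω e = true then join x y c else c) a b ↔ Con n m ω (insert e E) (φ a) (φ b) := by
  by_cases he : ω e = true
  · rw [if_pos he, Con, gen_insert_open he, eqv_add]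
    change (c a b ∨ (c a x ∧ c b y) ∨ (c a y ∧ c b x)) ↔ _
    have key : ∀ d, (c d x ↔ Relation.EqvGen (Gen n m ω E) (φ d) e.1) ∧
        (c d y ↔ Relation.EqvGen (Gen n m ω E) (φ d) (tgt e)) := by
      intro d
      refine ⟨?_, ?_⟩
      · rw [hc]
        exact ⟨fun h => .trans _ _ _ h (.symm _ _ hx), fun h => .trans _ _ _ h hx⟩
      · rw [hc]
        exact ⟨fun h => .trans _ _ _ h (.symm _ _ hy), fun h => .trans _ _ _ h hy⟩
    rw [(key a).1, (key a).2, (key b).1, (key b).2, hc]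
  · have he' : ω e = false := by simpa using he
    rw [if_neg he, Con, gen_insert_closed he', hc]

lemma step_iso {φ φ' : Pt N → ℤ × ℤ} {c : Setoid (Pt N)}
    (hc : ∀ a b, c a b ↔ Con n m ω E (φ a) (φ b)) {x : Pt N} {p : ℤ × ℤ}
    {e : (ℤ × ℤ) × Bool} (hx : φ' x = p) (hφ : ∀ b, b ≠ x → φ' b = φ b)
    (hne : ∀ b, b ≠ x → φ b ≠ p) (hf : ∀ v, ¬ Gen n m ω E p v) (hf' : ∀ v, ¬ Gen n m ω E v p)
    (he : (e.1 = φ x ∧ tgt e = p) ∨ (e.1 = p ∧ tgt e = φ x)) (a b : Pt N) :
    (if ω e = false then iso x c else c) a b ↔ Con n m ω (insert e E) (φ' a) (φ' b) := by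
  have fr : ∀ {u v : ℤ × ℤ}, Relation.EqvGen (Gen n m ω E) u v → (u = p ↔ v = p) :=
    fun h => eqv_fresh hf hf' h
  by_cases ho : ω e = false
  · rw [if_pos ho, Con, gen_insert_closed ho]
    change (a = b ∨ (a ≠ x ∧ b ≠ x ∧ c a b)) ↔ _
    by_cases ha : a = x
    · subst ha
      by_cases hb : b = a
      · subst hb
        exact ⟨fun _ => .refl _, fun _ => Or.inl rfl⟩
      · constructor
        · rintro (h | ⟨h, _⟩)
          · exact absurd h.symm hb
          · exact absurd rfl h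
        · intro h
          have := (fr h).1 hx
          rw [hφ b hb] at this
          exact absurd this (hne b hb)
    · by_cases hb : b = x
      · subst hb
        constructor
        · rintro (h | ⟨_, h, _⟩)
          · exact absurd h ha
          · exact absurd rfl h
        · intro h
          have := (fr h).2 hx
          rw [hφ a ha] at this
          exact absurd this (hne a ha)
      · rw [hφ a ha, hφ b hb]
        constructor
        · rintro (rfl | ⟨_, _, h⟩)
          · exact .refl _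
          · exact (hc _ _).1 h
        · intro h
          exact Or.inr ⟨ha, hb, (hc _ _).2 h⟩
  · have ho' : ω e = true := by simpa using ho
    rw [if_neg ho, Con, gen_insert_open ho', eqv_add]
    have key : (Relation.EqvGen (Gen n m ω E) (φ' a) (φ' b) ∨
        (Relation.EqvGen (Gen n m ω E) (φ' a) e.1 ∧ Relation.EqvGen (Gen n m ω E) (φ' b) (tgt e)) ∨
        (Relation.EqvGen (Gen n m ω E) (φ' a) (tgt e) ∧ Relation.EqvGen (Gen n m ω E) (φ' b) e.1)) ↔
        (Relation.EqvGen (Gen n m ω E) (φ' a) (φ' b) ∨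
        (Relation.EqvGen (Gen n m ω E) (φ' a) (φ x) ∧ Relation.EqvGen (Gen n m ω E) (φ' b) p) ∨
        (Relation.EqvGen (Gen n m ω E) (φ' a) p ∧
          Relation.EqvGen (Gen n m ω E) (φ' b) (φ x))) := by
      rcases he with ⟨h1, h2⟩ | ⟨h1, h2⟩
      · rw [h1, h2]
      · rw [h1, h2]; tauto
    rw [key, hc]
    have hpp : ∀ d, d ≠ x → ¬ Relation.EqvGen (Gen n m ω E) (φ d) p := fun d hd h =>
      hne d hd ((fr h).2 rfl)
    have hpp' : ∀ d, d ≠ x → ¬ Relation.EqvGen (Gen n m ω E) p (φ d) := fun d hd h =>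
      hne d hd ((fr h).1 rfl)
    by_cases ha : a = x
    · subst ha
      by_cases hb : b = a
      · subst hb
        exact ⟨fun _ => Or.inl (.refl _), fun _ => .refl _⟩
      · rw [hφ b hb, hx]
        constructor
        · intro h
          exact Or.inr (Or.inr ⟨.refl _, .symm _ _ h⟩)
        · rintro (h | ⟨_, h⟩ | ⟨_, h⟩)
          · exact absurd h (hpp' b hb)
          · exact absurd h (hpp b hb)
          · exact .symm _ _ h
    · by_cases hb : b = x
      · subst hb
        rw [hφ a ha, hx]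
        constructor
        · intro h
          exact Or.inr (Or.inl ⟨h, .refl _⟩)
        · rintro (h | ⟨h, _⟩ | ⟨h, _⟩)
          · exact absurd h (hpp a ha)
          · exact h
          · exact absurd h (hpp a ha)
      · rw [hφ a ha, hφ b hb]
        constructor
        · exact fun h => Or.inl h
        · rintro (h | ⟨_, h⟩ | ⟨h, _⟩)
          · exact h
          · exact absurd h (hpp b hb)
          · exact absurd h (hpp a ha)

end step

/-! ### Positions -/

/-- First position of column `k ≥ 1` in layer `t`. -/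
def XX (t k : ℕ) : ℤ × ℤ := ((k : ℤ) - 1 + t, (k : ℤ) - 1 - t)

/-- Second position of column `k` in layer `t`. -/
def YY (t k : ℕ) : ℤ × ℤ := ((k : ℤ) + t, (k : ℤ) - t - 1)

lemma eA_even (t k : ℕ) : eA t (2 * k + 2) = (YY t k, false) := by
  have h1 : (2 * k + 2) % 2 = 0 := by omega
  have h2 : (2 * k + 2) / 2 - 1 = k := by omega
  simp only [eA, h1, h2, if_true, YY]

lemma eA_odd (t k : ℕ) : eA t (2 * k + 1) = (XX t k, true) := by
  have h1 : ¬ (2 * k + 1) % 2 = 0 := by omega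
  have h2 : (2 * k + 1) / 2 = k := by omega
  simp only [eA, h1, h2, if_false, XX]
  exact Prod.ext (Prod.ext (by push_cast; omega) (by push_cast; omega)) rfl

lemma eB_even (t k : ℕ) : eB t (2 * k + 2) = (YY t k, true) := by
  have h1 : (2 * k + 2) % 2 = 0 := by omega
  have h2 : (2 * k + 2) / 2 - 1 = k := by omega
  simp only [eB, h1, h2, if_true, YY]

lemma eB_odd (t k : ℕ) : eB t (2 * k + 1) = (XX (t + 1) k, false) := by
  have h1 : ¬ (2 * k + 1) % 2 = 0 := by omega
  have h2 : (2 * k + 1) / 2 = k := by omega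
  simp only [eB, h1, h2, if_false, XX]
  exact Prod.ext (Prod.ext (by push_cast; omega) (by push_cast; omega)) rfl

lemma tgt_Y_false (t k : ℕ) : tgt (YY t k, false) = XX t (k + 1) := by
  simp only [tgt, YY, XX]
  exact Prod.ext (by push_cast; omega) (by push_cast; omega)

lemma tgt_X_true (t k : ℕ) : tgt (XX t k, true) = YY t k := by
  simp only [tgt, YY, XX]
  exact Prod.ext (by push_cast; omega) (by push_cast; omega)

lemma tgt_Y_true (t k : ℕ) : tgt (YY t k, true) = XX (t + 1) (k + 1) := by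
  simp only [tgt, YY, XX]
  exact Prod.ext (by push_cast; omega) (by push_cast; omega)

lemma tgt_X_false (t k : ℕ) : tgt (XX (t + 1) k, false) = YY t k := by
  simp only [tgt, YY, XX]
  exact Prod.ext (by push_cast; omega) (by push_cast; omega)

/-- The position map attached to positions of the columns. -/
def pos (n : ℕ) (f : ℕ → ℤ × ℤ) {N : ℕ} : Pt N → ℤ × ℤ
  | none => (0, 0)
  | some none => ((n : ℤ), (n : ℤ))
  | some (some k) => f k

/-- The edges of the layers before `t`. -/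
def EL (n t : ℕ) : Set ((ℤ × ℤ) × Bool) :=
  {e | ∃ s < t, ∃ i, 2 ≤ i ∧ i ≤ 2 * n + 2 ∧ (e = eA s i ∨ e = eB s i)}

/-- The explored edges during the first sweep. -/
def EA (n t j : ℕ) : Set ((ℤ × ℤ) × Bool) :=
  {e | e ∈ EL n t ∨ ∃ i, 2 ≤ i ∧ i ≤ j + 1 ∧ e = eA t i}

/-- The explored edges during the second sweep. -/
def EB (n t j : ℕ) : Set ((ℤ × ℤ) × Bool) :=
  {e | e ∈ EL n t ∨ (∃ i, 2 ≤ i ∧ i ≤ 2 * n + 2 ∧ e = eA t i) ∨
    ∃ i, 2 * n + 3 ≤ i + j ∧ 2 ≤ i ∧ i ≤ 2 * n + 2 ∧ e = eB t i}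

lemma EA_zero (n t : ℕ) : EA n t 0 = EL n t := by
  ext e
  constructor
  · rintro (h | ⟨i, h1, h2, _⟩)
    · exact h
    · omega
  · exact Or.inl

lemma EA_succ (n t j : ℕ) : EA n t (j + 1) = insert (eA t (j + 2)) (EA n t j) := by
  ext e
  constructor
  · rintro (h | ⟨i, h1, h2, h3⟩)
    · exact Or.inr (Or.inl h)
    · by_cases h : i = j + 2
      · subst h; exact Or.inl h3
      · exact Or.inr (Or.inr ⟨i, h1, by omega, h3⟩)
  · rintro (h | h | ⟨i, h1, h2, h3⟩)
    · exact Or.inr ⟨j + 2, by omega, by omega, h⟩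
    · exact Or.inl h
    · exact Or.inr ⟨i, h1, by omega, h3⟩

lemma EA_last (n t : ℕ) : EA n t (2 * n + 1) = EB n t 0 := by
  ext e
  constructor
  · rintro (h | ⟨i, h1, h2, h3⟩)
    · exact Or.inl h
    · exact Or.inr (Or.inl ⟨i, h1, by omega, h3⟩)
  · rintro (h | ⟨i, h1, h2, h3⟩ | ⟨i, h1, h2, h3, _⟩)
    · exact Or.inl h
    · exact Or.inr ⟨i, h1, by omega, h3⟩
    · omega

lemma EB_succ (n t j : ℕ) (hj : j ≤ 2 * n) :
    EB n t (j + 1) = insert (eB t (2 * n + 2 - j)) (EB n t j) := by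
  ext e
  constructor
  · rintro (h | h | ⟨i, h1, h2, h3, h4⟩)
    · exact Or.inr (Or.inl h)
    · exact Or.inr (Or.inr (Or.inl h))
    · by_cases h : i = 2 * n + 2 - j
      · subst h; exact Or.inl h4
      · exact Or.inr (Or.inr (Or.inr ⟨i, by omega, h2, h3, h4⟩))
  · rintro (h | h | h | ⟨i, h1, h2, h3, h4⟩)
    · exact Or.inr (Or.inr ⟨2 * n + 2 - j, by omega, by omega, by omega, h⟩)
    · exact Or.inl h
    · exact Or.inr (Or.inl h)
    · exact Or.inr (Or.inr ⟨i, by omega, h2, h3, h4⟩)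

lemma EB_last (n t : ℕ) : EB n t (2 * n + 1) = EL n (t + 1) := by
  ext e
  constructor
  · rintro (⟨s, hs, i, h1, h2, h3⟩ | ⟨i, h1, h2, h3⟩ | ⟨i, h1, h2, h3, h4⟩)
    · exact ⟨s, by omega, i, h1, h2, h3⟩
    · exact ⟨t, by omega, i, h1, h2, Or.inl h3⟩
    · exact ⟨t, by omega, i, h2, h3, Or.inr h4⟩
  · rintro ⟨s, hs, i, h1, h2, h3⟩
    by_cases h : s = t
    · subst h
      rcases h3 with h3 | h3
      · exact Or.inr (Or.inl ⟨i, h1, h2, h3⟩)
      · exact Or.inr (Or.inr ⟨i, by omega, h1, h2, h3⟩)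
    · exact Or.inl ⟨s, by omega, i, h1, h2, h3⟩

/-! ### Bounds for the endpoints -/

lemma exists_half (i : ℕ) (hi : 2 ≤ i) : (∃ k, i = 2 * k + 2) ∨ (∃ k, 1 ≤ k ∧ i = 2 * k + 1) := by
  rcases Nat.even_or_odd' i with ⟨c, h | h⟩
  · exact Or.inl ⟨c - 1, by omega⟩
  · exact Or.inr ⟨c, by omega, h⟩

/-- endpoints of an edge of the first sweep -/
lemma eA_ends (t i : ℕ) (hi : 2 ≤ i) :
    ∃ k : ℕ, (eA t i).1.1 - (eA t i).1.2 ≤ 2 * t + 1 ∧
      (tgt (eA t i)).1 - (tgt (eA t i)).2 ≤ 2 * t + 1 ∧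
      0 ≤ (eA t i).1.1 - (eA t i).1.2 ∧ 0 ≤ (tgt (eA t i)).1 - (tgt (eA t i)).2 ∧
      ((eA t i).1.1 - (eA t i).1.2 = 2 * t + 1 → (eA t i).1.1 + (eA t i).1.2 = 2 * k - 1) ∧
      ((tgt (eA t i)).1 - (tgt (eA t i)).2 = 2 * t + 1 →
        (tgt (eA t i)).1 + (tgt (eA t i)).2 = 2 * k - 1) ∧
      2 * k + 1 ≤ i ∧ i ≤ 2 * k + 2 ∧
      -1 ≤ (eA t i).1.1 + (eA t i).1.2 ∧ (eA t i).1.1 + (eA t i).1.2 ≤ i - 2 ∧
      -1 ≤ (tgt (eA t i)).1 + (tgt (eA t i)).2 ∧ (tgt (eA t i)).1 + (tgt (eA t i)).2 ≤ i - 2 := by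
  rcases exists_half i hi with ⟨k, rfl⟩ | ⟨k, hk, rfl⟩
  · refine ⟨k, ?_⟩
    rw [eA_even, tgt_Y_false]
    simp only [XX, YY]
    push_cast
    refine ⟨?_, ?_, ?_, ?_, ?_, ?_, ?_, ?_, ?_, ?_, ?_, ?_⟩ <;> omega
  · refine ⟨k, ?_⟩
    rw [eA_odd, tgt_X_true]
    simp only [XX, YY]
    push_cast
    refine ⟨?_, ?_, ?_, ?_, ?_, ?_, ?_, ?_, ?_, ?_, ?_, ?_⟩ <;> omega

/-- endpoints of an edge of the second sweep -/
lemma eB_ends (t i : ℕ) (hi : 2 ≤ i) :
    ∃ k : ℕ, (eB t i).1.1 - (eB t i).1.2 ≤ 2 * t + 2 ∧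
      (tgt (eB t i)).1 - (tgt (eB t i)).2 ≤ 2 * t + 2 ∧
      0 ≤ (eB t i).1.1 - (eB t i).1.2 ∧ 0 ≤ (tgt (eB t i)).1 - (tgt (eB t i)).2 ∧
      ((eB t i).1.1 - (eB t i).1.2 = 2 * t + 2 → (eB t i).1.1 + (eB t i).1.2 = 2 * k - 2) ∧
      ((tgt (eB t i)).1 - (tgt (eB t i)).2 = 2 * t + 2 →
        (tgt (eB t i)).1 + (tgt (eB t i)).2 = 2 * k - 2) ∧
      2 * k ≤ i ∧ i ≤ 2 * k + 1 ∧
      -1 ≤ (eB t i).1.1 + (eB t i).1.2 ∧ (eB t i).1.1 + (eB t i).1.2 ≤ i - 2 ∧
      -1 ≤ (tgt (eB t i)).1 + (tgt (eB t i)).2 ∧ (tgt (eB t i)).1 + (tgt (eB t i)).2 ≤ i - 2 := by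
  rcases exists_half i hi with ⟨k, rfl⟩ | ⟨k, hk, rfl⟩
  · refine ⟨k + 1, ?_⟩
    rw [eB_even, tgt_Y_true]
    simp only [XX, YY]
    push_cast
    refine ⟨?_, ?_, ?_, ?_, ?_, ?_, ?_, ?_, ?_, ?_, ?_, ?_⟩ <;> omega
  · refine ⟨k, ?_⟩
    rw [eB_odd, tgt_X_false]
    simp only [XX, YY]
    push_cast
    refine ⟨?_, ?_, ?_, ?_, ?_, ?_, ?_, ?_, ?_, ?_, ?_, ?_⟩ <;> omega

lemma el_bound {n t : ℕ} {e : (ℤ × ℤ) × Bool} (h : e ∈ EL n t) :
    e.1.1 - e.1.2 ≤ 2 * t ∧ (tgt e).1 - (tgt e).2 ≤ 2 * t := by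
  obtain ⟨s, hs, i, h1, h2, h3 | h3⟩ := h
  · subst h3
    obtain ⟨k, a1, a2, _⟩ := eA_ends s i h1
    constructor <;> omega
  · subst h3
    obtain ⟨k, a1, a2, _⟩ := eB_ends s i h1
    constructor <;> omega

/-- A vertex off the wall, off the source and untouched by `E` is fresh. -/
lemma fresh_of {n m : ℕ} {ω : PConf} {E : Set ((ℤ × ℤ) × Bool)} {p : ℤ × ℤ}
    (h1 : p.1 + p.2 ≠ 2 * n) (h2 : p.1 ≠ p.2) (h3 : ∀ e ∈ E, e.1 ≠ p ∧ tgt e ≠ p) :
    (∀ v, ¬ Gen n m ω E p v) ∧ (∀ v, ¬ Gen n m ω E v p) := by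
  constructor
  · rintro v (h | ⟨i, j, _, _, h, _⟩ | ⟨e, he, _, h, _⟩)
    · exact h1 h.1
    · exact h2 (by rw [h])
    · exact (h3 e he).1 h.symm
  · rintro v (h | ⟨i, j, _, _, _, h⟩ | ⟨e, he, _, _, h⟩)
    · exact h1 h.2
    · exact h2 (by rw [h])
    · exact (h3 e he).2 h.symm

lemma fresh_Y {n m t k : ℕ} {ω : PConf} :
    (∀ v, ¬ Gen n m ω (EA n t (2 * k - 1)) (YY t k) v) ∧
      (∀ v, ¬ Gen n m ω (EA n t (2 * k - 1)) v (YY t k)) := by
  apply fresh_of
  · simp only [YY]; omega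
  · simp only [YY]; omega
  · rintro e (h | ⟨i, h1, h2, rfl⟩)
    · obtain ⟨b1, b2⟩ := el_bound h
      constructor
      · intro h'
        rw [h'] at b1
        simp only [YY] at b1
        omega
      · intro h'
        rw [h'] at b2
        simp only [YY] at b2
        omega
    · obtain ⟨l, a1, a2, a3, a4, a5, a6, a7, a8, -⟩ := eA_ends t i h1
      constructor
      · intro h'
        rw [h'] at a5
        simp only [YY] at a5
        omega
      · intro h'
        rw [h'] at a6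
        simp only [YY] at a6
        omega

lemma fresh_X {n m t k : ℕ} (hk : k ≤ n) {ω : PConf} :
    (∀ v, ¬ Gen n m ω (EB n t (2 * n + 1 - 2 * k)) (XX (t + 1) k) v) ∧
      (∀ v, ¬ Gen n m ω (EB n t (2 * n + 1 - 2 * k)) v (XX (t + 1) k)) := by
  apply fresh_of
  · simp only [XX]; omega
  · simp only [XX]; push_cast; omega
  · rintro e (h | ⟨i, h1, h2, rfl⟩ | ⟨i, h1, h2, h3, rfl⟩)
    · obtain ⟨b1, b2⟩ := el_bound h
      constructor
      · intro h'
        rw [h'] at b1
        simp only [XX] at b1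
        push_cast at b1
        omega
      · intro h'
        rw [h'] at b2
        simp only [XX] at b2
        push_cast at b2
        omega
    · obtain ⟨l, a1, a2, -⟩ := eA_ends t i h1
      constructor
      · intro h'
        rw [h'] at a1
        simp only [XX] at a1
        push_cast at a1
        omega
      · intro h'
        rw [h'] at a2
        simp only [XX] at a2
        push_cast at a2
        omega
    · obtain ⟨l, a1, a2, a3, a4, a5, a6, a7, a8, -⟩ := eB_ends t i h2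
      constructor
      · intro h'
        rw [h'] at a5
        simp only [XX] at a5
        push_cast at a5
        omega
      · intro h'
        rw [h'] at a6
        simp only [XX] at a6
        push_cast at a6
        omega

/-! ### The two sweeps -/

/-- Positions of the columns during the first sweep. -/
def fA' (t j k : ℕ) : ℤ × ℤ := if 2 * k ≤ j then YY t k else XX t k

/-- Positions of the columns during the second sweep. -/
def fB' (n t j k : ℕ) : ℤ × ℤ := if 2 * n + 2 ≤ 2 * k + j then XX (t + 1) k else YY t k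

lemma ee_even {N k : ℕ} (hk : k < N) (c : Setoid (Pt N)) :
    ee N (2 * k + 2) c = join (col ⟨k, hk⟩) (nxt ⟨k, hk⟩) c := by
  have h : 1 ≤ 2 * k + 2 ∧ (2 * k + 2 - 1) / 2 < N := ⟨by omega, by omega⟩
  have h' : (2 * k + 2 - 1) / 2 = k := by omega
  have h'' : (⟨(2 * k + 2 - 1) / 2, h.2⟩ : Fin N) = ⟨k, hk⟩ := Fin.ext h'
  unfold ee
  rw [dif_pos h, if_neg (by omega), h'']

lemma ee_odd {N k : ℕ} (hk : k < N) (c : Setoid (Pt N)) :
    ee N (2 * k + 1) c = iso (col ⟨k, hk⟩) c := by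
  have h : 1 ≤ 2 * k + 1 ∧ (2 * k + 1 - 1) / 2 < N := ⟨by omega, by omega⟩
  have h' : (2 * k + 1 - 1) / 2 = k := by omega
  have h'' : (⟨(2 * k + 1 - 1) / 2, h.2⟩ : Fin N) = ⟨k, hk⟩ := Fin.ext h'
  unfold ee
  rw [dif_pos h, if_pos (by omega), h'']

lemma stepE_even {n k : ℕ} (hk : k < n + 1) (ω : PConf) (c : Setoid (Pt (n + 1)))
    (e : (ℤ × ℤ) × Bool) :
    stepE n ω c (2 * k + 2, e) = if ω e = true then join (col ⟨k, hk⟩) (nxt ⟨k, hk⟩) c else c := by
  have h : decide ((2 * k + 2) % 2 = 0) = true := by simp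
  simp only [stepE, h, ee_even hk]

lemma stepE_odd {n k : ℕ} (hk : k < n + 1) (ω : PConf) (c : Setoid (Pt (n + 1)))
    (e : (ℤ × ℤ) × Bool) :
    stepE n ω c (2 * k + 1, e) = if ω e = false then iso (col ⟨k, hk⟩) c else c := by
  have h : decide ((2 * k + 1) % 2 = 0) = false := by
    simp
  simp only [stepE, h, ee_odd hk]

/-- The invariant. -/
def Inv (n m : ℕ) (ω : PConf) {N : ℕ} (E : Set ((ℤ × ℤ) × Bool)) (f : ℕ → ℤ × ℤ)
    (c : Setoid (Pt N)) : Prop :=
  ∀ a b, c a b ↔ Con n m ω E (pos n f a) (pos n f b)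

lemma Inv.congr {n m N : ℕ} {ω : PConf} {E E' : Set ((ℤ × ℤ) × Bool)} {f f' : ℕ → ℤ × ℤ}
    {c : Setoid (Pt N)} (h : Inv n m ω E f c) (hE : E = E') (hf : ∀ k < N, f k = f' k) :
    Inv n m ω E' f' c := by
  subst hE
  intro a b
  have key : ∀ a : Pt N, pos n f a = pos n f' a := by
    rintro (_ | _ | k)
    · rfl
    · rfl
    · exact hf k k.2
  rw [h a b, key a, key b]

lemma con_nxt {n m : ℕ} {ω : PConf} {E : Set ((ℤ × ℤ) × Bool)} {f : ℕ → ℤ × ℤ} {k : ℕ}
    (hk : k < n + 1) {v : ℤ × ℤ} (h1 : k + 1 < n + 1 → f (k + 1) = v)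
    (h2 : k = n → v.1 + v.2 = 2 * n) :
    Con n m ω E v (pos n f (nxt (⟨k, hk⟩ : Fin (n + 1)))) := by
  unfold nxt
  split_ifs with h
  · have : pos n f (col (⟨k + 1, h⟩ : Fin (n + 1))) = v := h1 h
    simp only [this]
    exact .refl _
  · refine .rel _ _ (Or.inl ⟨h2 ?_, ?_⟩)
    · simp only at h; omega
    · simp only [W, pos]; ring

lemma step_A {n m t j : ℕ} {ω : PConf} (hj : j < 2 * n + 1) {c : Setoid (Pt (n + 1))}
    (h : Inv n m ω (EA n t j) (fA' t j) c) :
    Inv n m ω (EA n t (j + 1)) (fA' t (j + 1)) (stepE n ω c (j + 2, eA t (j + 2))) := by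
  rw [EA_succ]
  rcases exists_half (j + 2) (by omega) with ⟨k, hk⟩ | ⟨k, hk1, hk⟩
  · have hjk : j = 2 * k := by omega
    have hkn : k < n + 1 := by omega
    rw [hk, stepE_even hkn]
    have hx : Con n m ω (EA n t j) (eA t (2 * k + 2)).1 (pos n (fA' t j) (col (⟨k, hkn⟩ : Fin (n + 1)))) := by
      have : pos n (fA' t j) (col (⟨k, hkn⟩ : Fin (n + 1))) = YY t k := by
        simp only [col, pos, fA']
        rw [if_pos (by omega)]
      rw [this, eA_even]
      exact .refl _
    have hy : Con n m ω (EA n t j) (tgt (eA t (2 * k + 2)))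
        (pos n (fA' t j) (nxt (⟨k, hkn⟩ : Fin (n + 1)))) := by
      rw [eA_even, tgt_Y_false]
      refine con_nxt hkn ?_ ?_
      · intro _
        simp only [fA']
        rw [if_neg (by omega)]
      · rintro rfl
        simp only [XX]
        push_cast
        ring
    have key : Inv n m ω (insert (eA t (2 * k + 2)) (EA n t j)) (fA' t j)
        (if ω (eA t (2 * k + 2)) = true then join (col ⟨k, hkn⟩) (nxt ⟨k, hkn⟩) c else c) :=
      fun a b => step_join h hx hy a b
    refine key.congr rfl ?_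
    intro l _
    simp only [fA']
    by_cases hl : 2 * l ≤ j
    · rw [if_pos hl, if_pos (by omega)]
    · rw [if_neg hl, if_neg (by omega)]
  · have hjk : j = 2 * k - 1 := by omega
    have hkn : k < n + 1 := by omega
    rw [hk, stepE_odd hkn]
    obtain ⟨fr1, fr2⟩ := fresh_Y (n := n) (m := m) (t := t) (k := k) (ω := ω)
    rw [← hjk] at fr1 fr2
    intro a b
    refine step_iso (φ := pos n (fA' t j)) h (p := YY t k) ?_ ?_ ?_ fr1 fr2 (Or.inl ⟨?_, ?_⟩) a b
    · simp only [col, pos, fA']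
      rw [if_pos (by omega)]
    · rintro (_ | _ | l) hl
      · rfl
      · rfl
      · simp only [pos, fA']
        have hlk : (l : ℕ) ≠ k := fun h => hl (by simp only [col]; congr 2; exact Fin.ext h)
        by_cases h' : 2 * (l : ℕ) ≤ j
        · rw [if_pos h', if_pos (by omega)]
        · rw [if_neg h', if_neg (by omega)]
    · rintro (_ | _ | l) hl h'
      · simp only [pos, YY, Prod.mk.injEq] at h'
        omega
      · simp only [pos, YY, Prod.mk.injEq] at h'
        omega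
      · have hlk : (l : ℕ) ≠ k := fun h => hl (by simp only [col]; congr 2; exact Fin.ext h)
        simp only [pos, fA'] at h'
        split_ifs at h' with h''
        · simp only [YY, Prod.mk.injEq] at h'
          omega
        · simp only [YY, XX, Prod.mk.injEq] at h'
          omega
    · rw [eA_odd]
      simp only [col, pos, fA']
      rw [if_neg (by omega)]
    · rw [eA_odd, tgt_X_true]

lemma step_B {n m t j : ℕ} {ω : PConf} (hj : j < 2 * n + 1) {c : Setoid (Pt (n + 1))}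
    (h : Inv n m ω (EB n t j) (fB' n t j) c) :
    Inv n m ω (EB n t (j + 1)) (fB' n t (j + 1))
      (stepE n ω c (2 * n + 2 - j, eB t (2 * n + 2 - j))) := by
  rw [EB_succ _ _ _ (by omega)]
  rcases exists_half (2 * n + 2 - j) (by omega) with ⟨k, hk⟩ | ⟨k, hk1, hk⟩
  · have hkn : k < n + 1 := by omega
    rw [hk, stepE_even hkn]
    have hx : Con n m ω (EB n t j) (eB t (2 * k + 2)).1
        (pos n (fB' n t j) (col (⟨k, hkn⟩ : Fin (n + 1)))) := by
      have : pos n (fB' n t j) (col (⟨k, hkn⟩ : Fin (n + 1))) = YY t k := by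
        simp only [col, pos, fB']
        rw [if_neg (by omega)]
      rw [this, eB_even]
      exact .refl _
    have hy : Con n m ω (EB n t j) (tgt (eB t (2 * k + 2)))
        (pos n (fB' n t j) (nxt (⟨k, hkn⟩ : Fin (n + 1)))) := by
      rw [eB_even, tgt_Y_true]
      refine con_nxt hkn ?_ ?_
      · intro _
        simp only [fB']
        rw [if_pos (by omega)]
      · rintro rfl
        simp only [XX]
        push_cast
        ring
    have key : Inv n m ω (insert (eB t (2 * k + 2)) (EB n t j)) (fB' n t j)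
        (if ω (eB t (2 * k + 2)) = true then join (col ⟨k, hkn⟩) (nxt ⟨k, hkn⟩) c else c) :=
      fun a b => step_join h hx hy a b
    refine key.congr rfl ?_
    intro l _
    simp only [fB']
    by_cases hl : 2 * n + 2 ≤ 2 * l + j
    · rw [if_pos hl, if_pos (by omega)]
    · rw [if_neg hl, if_neg (by omega)]
  · have hkn : k < n + 1 := by omega
    have hjk : j = 2 * n + 1 - 2 * k := by omega
    rw [hk, stepE_odd hkn]
    obtain ⟨fr1, fr2⟩ := fresh_X (n := n) (m := m) (t := t) (k := k) (by omega) (ω := ω)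
    rw [← hjk] at fr1 fr2
    intro a b
    refine step_iso (φ := pos n (fB' n t j)) h (p := XX (t + 1) k) ?_ ?_ ?_ fr1 fr2
      (Or.inr ⟨?_, ?_⟩) a b
    · simp only [col, pos, fB']
      rw [if_pos (by omega)]
    · rintro (_ | _ | l) hl
      · rfl
      · rfl
      · simp only [pos, fB']
        have hlk : (l : ℕ) ≠ k := fun h => hl (by simp only [col]; congr 2; exact Fin.ext h)
        by_cases h' : 2 * n + 2 ≤ 2 * (l : ℕ) + j
        · rw [if_pos h', if_pos (by omega)]
        · rw [if_neg h', if_neg (by omega)]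
    · rintro (_ | _ | l) hl h'
      · simp only [pos, XX, Prod.mk.injEq] at h'
        push_cast at h'
        omega
      · simp only [pos, XX, Prod.mk.injEq] at h'
        push_cast at h'
        omega
      · have hlk : (l : ℕ) ≠ k := fun h => hl (by simp only [col]; congr 2; exact Fin.ext h)
        simp only [pos, fB'] at h'
        split_ifs at h' with h''
        · simp only [XX, Prod.mk.injEq] at h'
          omega
        · simp only [YY, XX, Prod.mk.injEq] at h'
          push_cast at h'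
          omega
    · rw [eB_odd]
    · rw [eB_odd, tgt_X_false]
      simp only [col, pos, fB']
      rw [if_neg (by omega)]

lemma sweep_A {n m t : ℕ} {ω : PConf} {c : Setoid (Pt (n + 1))}
    (h : Inv n m ω (EA n t 0) (fA' t 0) c) (j : ℕ) (hj : j ≤ 2 * n + 1) :
    Inv n m ω (EA n t j) (fA' t j)
      (((List.range j).map fun j => (j + 2, eA t (j + 2))).foldl (stepE n ω) c) := by
  induction j with
  | zero => simpa using h
  | succ j ih =>
    rw [List.range_succ, List.map_append, List.foldl_append]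
    exact step_A (by omega) (ih (by omega))

lemma reverse_map_range {α : Type*} (N : ℕ) (f : ℕ → α) :
    ((List.range N).map f).reverse = (List.range N).map fun j => f (N - 1 - j) := by
  apply List.ext_getElem
  · simp
  · intro i h1 h2
    simp

lemma sweep_B {n m t : ℕ} {ω : PConf} {c : Setoid (Pt (n + 1))}
    (h : Inv n m ω (EB n t 0) (fB' n t 0) c) (j : ℕ) (hj : j ≤ 2 * n + 1) :
    Inv n m ω (EB n t j) (fB' n t j)
      (((List.range j).map fun j => (2 * n + 2 - j, eB t (2 * n + 2 - j))).foldl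
        (stepE n ω) c) := by
  induction j with
  | zero => simpa using h
  | succ j ih =>
    rw [List.range_succ, List.map_append, List.foldl_append]
    exact step_B (by omega) (ih (by omega))

/-- Positions between the layers. -/
def f0 (t k : ℕ) : ℤ × ℤ := XX t (k + 1)

lemma foldl_lay (n t : ℕ) (ω : PConf) (c : Setoid (Pt (n + 1))) :
    (lay n t).foldl (stepE n ω) c =
      ((List.range (2 * n + 1)).map fun j => (2 * n + 2 - j, eB t (2 * n + 2 - j))).foldl
        (stepE n ω)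
        (((List.range (2 * n + 1)).map fun j => (j + 2, eA t (j + 2))).foldl (stepE n ω) c) := by
  unfold lay
  rw [List.foldl_append, reverse_map_range]
  congr 1
  apply List.map_congr_left
  intro j hj
  rw [List.mem_range] at hj
  have : 2 * n + 1 - 1 - j + 2 = 2 * n + 2 - j := by omega
  rw [this]

lemma layer_step {n m t : ℕ} {ω : PConf} {c : Setoid (Pt (n + 1))}
    (h : Inv n m ω (EA n t 0) (fA' t 0) c) :
    Inv n m ω (EL n (t + 1)) (fB' n t (2 * n + 1)) ((lay n t).foldl (stepE n ω) c) := by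
  rw [foldl_lay, ← EB_last]
  refine sweep_B ?_ _ le_rfl
  refine (sweep_A h _ le_rfl).congr (EA_last n t) ?_
  intro k hk
  simp only [fA', fB']
  rw [if_pos (by omega), if_neg (by omega)]

lemma up_inv {n m t : ℕ} {ω : PConf} {c : Setoid (Pt n)}
    (h : Inv n m ω (EL n t) (f0 t) c) : Inv n m ω (EA n t 0) (fA' t 0) (up c) := by
  rw [EA_zero]
  have hemb : ∀ a : Pt n, pos n (fA' t 0) (emb a) = pos n (f0 t) a := by
    rintro (_ | _ | k)
    · rfl
    · rfl
    · simp only [emb, pos, fA', f0, Fin.val_succ]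
      rw [if_neg (by omega)]
  have hcol : pos n (fA' t 0) (col (0 : Fin (n + 1))) = YY t 0 := by
    simp only [col, pos, fA']
    rw [if_pos (by simp)]
    simp
  have hcase : ∀ a : Pt (n + 1), a = col 0 ∨ ∃ a', emb a' = a := by
    rintro (_ | _ | k)
    · exact Or.inr ⟨none, rfl⟩
    · exact Or.inr ⟨some none, rfl⟩
    · refine Fin.cases (Or.inl rfl) (fun k => Or.inr ⟨some (some k), rfl⟩) k
  have hinj : Function.Injective (emb (n := n)) := by
    rintro (_ | _ | k) (_ | _ | l) h <;> simp [emb] at h ⊢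
    exact h
  have hne0 : ∀ a' : Pt n, emb a' ≠ col (0 : Fin (n + 1)) := by
    rintro (_ | _ | k) h <;> simp [emb, col] at h
  have fr : (∀ v, ¬ Gen n m ω (EL n t) (YY t 0) v) ∧ (∀ v, ¬ Gen n m ω (EL n t) v (YY t 0)) := by
    apply fresh_of
    · simp only [YY]; push_cast; omega
    · simp only [YY]; push_cast; omega
    · intro e he
      obtain ⟨b1, b2⟩ := el_bound he
      constructor
      · intro h'
        rw [h'] at b1
        simp only [YY] at b1
        push_cast at b1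
        omega
      · intro h'
        rw [h'] at b2
        simp only [YY] at b2
        push_cast at b2
        omega
  have hpos : ∀ a' : Pt n, pos n (f0 t) a' ≠ YY t 0 := by
    rintro (_ | _ | k) h'
    · simp only [pos, YY, Prod.mk.injEq] at h'
      push_cast at h'
      omega
    · simp only [pos, YY, Prod.mk.injEq] at h'
      push_cast at h'
      omega
    · simp only [pos, YY, f0, XX, Prod.mk.injEq] at h'
      push_cast at h'
      omega
  intro a b
  change (a = b ∨ ∃ u' v', emb u' = a ∧ emb v' = b ∧ c u' v') ↔ _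
  rcases hcase a with rfl | ⟨a', rfl⟩ <;> rcases hcase b with rfl | ⟨b', rfl⟩
  · exact ⟨fun _ => .refl _, fun _ => Or.inl rfl⟩
  · constructor
    · rintro (h | ⟨u, v, h1, h2, _⟩)
      · exact absurd h.symm (hne0 b')
      · exact absurd h1 (hne0 u)
    · intro H
      have := (eqv_fresh fr.1 fr.2 H).1 hcol
      rw [hemb] at this
      exact absurd this (hpos b')
  · constructor
    · rintro (h | ⟨u, v, h1, h2, _⟩)
      · exact absurd h (hne0 a')
      · exact absurd h2 (hne0 v)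
    · intro H
      have := (eqv_fresh fr.1 fr.2 H).2 hcol
      rw [hemb] at this
      exact absurd this (hpos a')
  · rw [hemb, hemb, ← h a' b']
    constructor
    · rintro (h | ⟨u, v, h1, h2, h3⟩)
      · rw [hinj h]
      · rw [hinj h1, hinj h2] at h3; exact h3
    · intro h
      exact Or.inr ⟨a', b', rfl, rfl, h⟩

lemma down_inv {n m t : ℕ} {ω : PConf} {c : Setoid (Pt (n + 1))}
    (h : Inv n m ω (EL n (t + 1)) (fB' n t (2 * n + 1)) c) :
    Inv n m ω (EL n (t + 1)) (f0 (t + 1)) (down c) := by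
  have hemb : ∀ a : Pt n, pos n (fB' n t (2 * n + 1)) (emb a) = pos n (f0 (t + 1)) a := by
    rintro (_ | _ | k)
    · rfl
    · rfl
    · simp only [emb, pos, fB', f0, Fin.val_succ]
      rw [if_pos (by omega)]
  intro a b
  change c (emb a) (emb b) ↔ _
  rw [h, hemb, hemb]

lemma init_inv {n m : ℕ} (hm : 1 ≤ m) (hmn : m ≤ n) (ω : PConf) :
    Inv n m ω (EL n 0) (f0 0) (C0 n m) := by
  have hE : EL n 0 = ∅ := by
    ext e
    simp only [EL, Set.mem_ofPred_eq, Set.mem_empty_iff_false, iff_false]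
    rintro ⟨s, hs, _⟩
    omega
  rw [hE]
  have hR : ∀ u v : ℤ × ℤ, Con n m ω ∅ u v ↔ (u = v ∨ (u.1 + u.2 = 2 * n ∧ v.1 + v.2 = 2 * n) ∨
      ∃ i j : ℕ, i < m ∧ j < m ∧ u = ((i : ℤ), (i : ℤ)) ∧ v = ((j : ℤ), (j : ℤ))) := by
    intro u v
    constructor
    · intro h
      induction h with
      | rel a b h =>
        rcases h with h | h | ⟨e, he, _⟩
        · exact Or.inr (Or.inl h)
        · exact Or.inr (Or.inr h)
        · exact absurd he (by simp)
      | refl a => exact Or.inl rfl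
      | symm a b _ ih =>
        rcases ih with h | ⟨h1, h2⟩ | ⟨i, j, h1, h2, h3, h4⟩
        · exact Or.inl h.symm
        · exact Or.inr (Or.inl ⟨h2, h1⟩)
        · exact Or.inr (Or.inr ⟨j, i, h2, h1, h4, h3⟩)
      | trans a b c _ _ ih1 ih2 =>
        rcases ih1 with rfl | ⟨h1, h2⟩ | ⟨i, j, h1, h2, h3, h4⟩
        · exact ih2
        · rcases ih2 with rfl | ⟨g1, g2⟩ | ⟨i', j', g1, g2, g3, g4⟩
          · exact Or.inr (Or.inl ⟨h1, h2⟩)
          · exact Or.inr (Or.inl ⟨h1, g2⟩)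
          · exfalso
            rw [g3] at h2
            simp only at h2
            omega
        · rcases ih2 with rfl | ⟨g1, g2⟩ | ⟨i', j', g1, g2, g3, g4⟩
          · exact Or.inr (Or.inr ⟨i, j, h1, h2, h3, h4⟩)
          · exfalso
            rw [h4] at g1
            simp only at g1
            omega
          · exact Or.inr (Or.inr ⟨i, j', h1, g2, h3, g4⟩)
    · rintro (rfl | h | h)
      · exact .refl _
      · exact .rel _ _ (Or.inl h)
      · exact .rel _ _ (Or.inr (Or.inl h))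
  have hp : ∀ k : ℕ, f0 0 k = ((k : ℤ), (k : ℤ)) := by
    intro k
    simp only [f0, XX]
    exact Prod.ext (by push_cast; ring) (by push_cast; ring)
  have hsrc : ∀ a : Pt n, a ∈ src n m ↔
      ∃ i : ℕ, i < m ∧ pos n (f0 0) a = ((i : ℤ), (i : ℤ)) := by
    rintro (_ | _ | k)
    · exact ⟨fun _ => ⟨0, by omega, rfl⟩, fun _ => Or.inl rfl⟩
    · constructor
      · rintro (h | ⟨k, _, h⟩) <;> simp [S, col] at h
      · rintro ⟨i, hi, h⟩
        simp only [pos, Prod.mk.injEq] at h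
        omega
    · simp only [pos, hp]
      constructor
      · rintro (h | ⟨l, hl, h⟩)
        · simp [S] at h
        · simp only [col, Option.some.injEq] at h
          subst h
          exact ⟨k, hl, rfl⟩
      · rintro ⟨i, hi, h⟩
        simp only [Prod.mk.injEq] at h
        exact Or.inr ⟨k, by omega, rfl⟩
  have hwall : ∀ a : Pt n, (pos n (f0 0) a).1 + (pos n (f0 0) a).2 = 2 * n ↔ a = W := by
    rintro (_ | _ | k)
    · simp only [pos, W]
      constructor
      · intro h; exfalso; simp at h; omega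
      · intro h; simp at h
    · simp only [pos, W]
      constructor
      · intro _; trivial
      · intro _; ring
    · simp only [pos, hp, W]
      constructor
      · intro h; exfalso; have := k.2; omega
      · intro h; simp at h
  intro a b
  rw [hR]
  change (a = b ∨ (a ∈ src n m ∧ b ∈ src n m)) ↔ _
  constructor
  · rintro (rfl | ⟨h1, h2⟩)
    · exact Or.inl rfl
    · obtain ⟨i, hi, h1⟩ := (hsrc a).1 h1
      obtain ⟨j, hj, h2⟩ := (hsrc b).1 h2
      exact Or.inr (Or.inr ⟨i, j, hi, hj, h1, h2⟩)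
  · rintro (h | ⟨h1, h2⟩ | ⟨i, j, hi, hj, h1, h2⟩)
    · by_cases ha : a ∈ src n m
      · right
        refine ⟨ha, ?_⟩
        obtain ⟨i, hi, h1⟩ := (hsrc a).1 ha
        exact (hsrc b).2 ⟨i, hi, h ▸ h1⟩
      · left
        by_cases haw : a = W
        · rw [haw]
          exact ((hwall b).1 (by rw [← h]; exact (hwall a).2 haw)).symm
        · have hb : b ≠ W := fun hb => haw ((hwall a).1 (by rw [h]; exact (hwall b).2 hb))
          have hbs : b ∉ src n m := fun hbs => by
            obtain ⟨i, hi, h1⟩ := (hsrc b).1 hbs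
            exact ha ((hsrc a).2 ⟨i, hi, h.trans h1⟩)
          rcases a with _ | _ | k
          · exact absurd (Or.inl rfl) ha
          · exact absurd rfl haw
          · rcases b with _ | _ | l
            · exact absurd (Or.inl rfl) hbs
            · exact absurd rfl hb
            · simp only [pos, hp, Prod.mk.injEq] at h
              congr 2
              exact Fin.ext (by exact_mod_cast h.1)
    · left
      rw [(hwall a).1 h1, (hwall b).1 h2]
    · exact Or.inr ⟨(hsrc a).2 ⟨i, hi, h1⟩, (hsrc b).2 ⟨j, hj, h2⟩⟩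

lemma run_inv {n m : ℕ} (hm : 1 ≤ m) (hmn : m ≤ n) (ω : PConf) (t : ℕ) :
    Inv n m ω (EL n t) (f0 t) (run n m ω t) := by
  induction t with
  | zero => exact init_inv hm hmn ω
  | succ t ih => exact down_inv (layer_step (up_inv ih))

lemma run_iff {n m : ℕ} (hm : 1 ≤ m) (hmn : m ≤ n) (ω : PConf) (t : ℕ) :
    run n m ω t S W ↔ Con n m ω (EL n t) (0, 0) ((n : ℤ), (n : ℤ)) :=
  run_inv hm hmn ω t S W

/-! ### Comparison with the strip -/

lemma inS_of_mem {n t : ℕ} {e : (ℤ × ℤ) × Bool} (h : e ∈ EL n t) : InS n e.1 ∧ InS n (tgt e) := by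
  obtain ⟨s, hs, i, h1, h2, h3 | h3⟩ := h
  · subst h3
    obtain ⟨k, a1, a2, a3, a4, a5, a6, a7, a8, a9, a10, a11, a12⟩ := eA_ends s i h1
    exact ⟨⟨a9, by omega, by omega⟩, ⟨a11, by omega, by omega⟩⟩
  · subst h3
    obtain ⟨k, a1, a2, a3, a4, a5, a6, a7, a8, a9, a10, a11, a12⟩ := eB_ends s i h1
    exact ⟨⟨a9, by omega, by omega⟩, ⟨a11, by omega, by omega⟩⟩

/-- Every edge of the strip is explored. -/
lemma exists_layer {n : ℕ} {e : (ℤ × ℤ) × Bool} (h1 : InS n e.1) (h2 : InS n (tgt e)) :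
    ∃ t, e ∈ EL n t := by
  obtain ⟨⟨x, y⟩, b⟩ := e
  obtain ⟨h11, h12, h13⟩ := h1
  simp only at h11 h12 h13
  cases b with
  | true =>
    simp only [tgt, if_true] at h2
    obtain ⟨h21, h22, h23⟩ := h2
    simp only at h21 h22 h23
    rcases Int.even_or_odd' (x + y) with ⟨k, hk | hk⟩
    · -- first sweep, odd operator
      obtain ⟨k', rfl⟩ := Int.eq_ofNat_of_zero_le (show 0 ≤ k by omega)
      obtain ⟨t, ht⟩ := Int.eq_ofNat_of_zero_le (show 0 ≤ (k' : ℤ) - y by omega)
      refine ⟨t + 1, t, by omega, 2 * (k' + 1) + 1, by omega, by omega, Or.inl ?_⟩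
      rw [eA_odd]
      simp only [XX]
      exact Prod.ext (Prod.ext (by push_cast; omega) (by push_cast; omega)) rfl
    · -- second sweep, even operator
      obtain ⟨k', hk'⟩ := Int.eq_ofNat_of_zero_le (show 0 ≤ k + 1 by omega)
      obtain ⟨t, ht⟩ := Int.eq_ofNat_of_zero_le (show 0 ≤ (k' : ℤ) - y - 1 by omega)
      refine ⟨t + 1, t, by omega, 2 * k' + 2, by omega, by omega, Or.inr ?_⟩
      rw [eB_even]
      simp only [YY]
      exact Prod.ext (Prod.ext (by push_cast; omega) (by push_cast; omega)) rfl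
  | false =>
    simp only [tgt, Bool.false_eq_true, if_false] at h2
    obtain ⟨h21, h22, h23⟩ := h2
    simp only at h21 h22 h23
    rcases Int.even_or_odd' (x + y) with ⟨k, hk | hk⟩
    · -- second sweep, odd operator
      obtain ⟨k', rfl⟩ := Int.eq_ofNat_of_zero_le (show 0 ≤ k by omega)
      obtain ⟨t, ht⟩ := Int.eq_ofNat_of_zero_le (show 0 ≤ (k' : ℤ) - y - 1 by omega)
      refine ⟨t + 1, t, by omega, 2 * (k' + 1) + 1, by omega, by omega, Or.inr ?_⟩
      rw [eB_odd]
      simp only [XX]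
      exact Prod.ext (Prod.ext (by push_cast; omega) (by push_cast; omega)) rfl
    · -- first sweep, even operator
      obtain ⟨k', hk'⟩ := Int.eq_ofNat_of_zero_le (show 0 ≤ k + 1 by omega)
      obtain ⟨t, ht⟩ := Int.eq_ofNat_of_zero_le (show 0 ≤ (k' : ℤ) - y - 1 by omega)
      refine ⟨t + 1, t, by omega, 2 * k' + 2, by omega, by omega, Or.inl ?_⟩
      rw [eA_even]
      simp only [YY]
      exact Prod.ext (Prod.ext (by push_cast; omega) (by push_cast; omega)) rfl

lemma EL_mono {n s t : ℕ} (h : s ≤ t) : EL n s ⊆ EL n t := by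
  rintro e ⟨r, hr, H⟩
  exact ⟨r, by omega, H⟩

lemma Con_mono {n m : ℕ} {ω : PConf} {E E' : Set ((ℤ × ℤ) × Bool)} (h : E ⊆ E') {u v : ℤ × ℤ}
    (H : Con n m ω E u v) : Con n m ω E' u v := by
  refine Relation.EqvGen.mono ?_ _ _ H
  rintro a b (h1 | h1 | ⟨e, he, h2⟩)
  · exact Or.inl h1
  · exact Or.inr (Or.inl h1)
  · exact Or.inr (Or.inr ⟨e, h he, h2⟩)

end Det

open Det

/-- If source and wall are joined in the process of partitions, then there is an open path. -/
theorem run_sound (n m : ℕ) (hm : 1 ≤ m) (hmn : m ≤ n) (ω : PConf) (t : ℕ)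
    (h : run n m ω t S W) : StripArm n m ω := by
  rw [run_iff hm hmn] at h
  by_contra hno
  have key : ∀ u v, Con n m ω (EL n t) u v →
      ((∃ j : ℕ, j < m ∧ (stripGraph n ω).Reachable ((j : ℤ), (j : ℤ)) u) ↔
        (∃ j : ℕ, j < m ∧ (stripGraph n ω).Reachable ((j : ℤ), (j : ℤ)) v)) := by
    intro u v H
    induction H with
    | rel a b hab =>
      rcases hab with ⟨h1, h2⟩ | ⟨i, j, hi, hj, rfl, rfl⟩ | ⟨e, he, ho, rfl, rfl⟩
      · constructor
        · rintro ⟨j, hj, hr⟩; exact absurd ⟨j, hj, a, h1, hr⟩ hno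
        · rintro ⟨j, hj, hr⟩; exact absurd ⟨j, hj, b, h2, hr⟩ hno
      · exact ⟨fun _ => ⟨j, hj, .refl _⟩, fun _ => ⟨i, hi, .refl _⟩⟩
      · have hadj : (stripGraph n ω).Adj e.1 (tgt e) := by
          obtain ⟨hs1, hs2⟩ := inS_of_mem he
          unfold stripGraph
          rw [SimpleGraph.fromRel_adj]
          refine ⟨?_, Or.inl ⟨hs1, hs2, ?_⟩⟩
          · obtain ⟨⟨x, y⟩, b⟩ := e
            cases b <;> simp [tgt]
          · obtain ⟨⟨x, y⟩, b⟩ := e
            cases b
            · exact Or.inr ⟨rfl, ho⟩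
            · exact Or.inl ⟨rfl, ho⟩
        constructor
        · rintro ⟨j, hj, hr⟩; exact ⟨j, hj, hr.trans hadj.reachable⟩
        · rintro ⟨j, hj, hr⟩; exact ⟨j, hj, hr.trans hadj.symm.reachable⟩
    | refl a => exact Iff.rfl
    | symm a b _ ih => exact ih.symm
    | trans a b c _ _ ih1 ih2 => exact ih1.trans ih2
  obtain ⟨j, hj, hr⟩ := (key _ _ h).1 ⟨0, by omega, .refl _⟩
  exact hno ⟨j, hj, _, by simp only; ring, hr⟩

/-- If there is an open path, then source and wall are joined after finitely many layers. -/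
theorem run_complete (n m : ℕ) (hm : 1 ≤ m) (hmn : m ≤ n) (ω : PConf)
    (h : StripArm n m ω) : ∃ t, run n m ω t S W := by
  obtain ⟨j, hj, v, hv, hr⟩ := h
  have key : ∀ u v : ℤ × ℤ, (stripGraph n ω).Reachable u v → ∃ t, Con n m ω (EL n t) u v := by
    intro u v H
    obtain ⟨p⟩ := H
    induction p with
    | nil => exact ⟨0, .refl _⟩
    | @cons a b c hab p ih =>
      obtain ⟨t, ht⟩ := ih
      have step : ∃ s, Con n m ω (EL n s) a b := by
        unfold stripGraph at hab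
        rw [SimpleGraph.fromRel_adj] at hab
        obtain ⟨-, ⟨h1, h2, h3⟩ | ⟨h1, h2, h3⟩⟩ := hab
        · rcases h3 with ⟨rfl, ho⟩ | ⟨rfl, ho⟩
          · obtain ⟨s, hs⟩ := exists_layer (n := n) (e := (a, true)) h1 h2
            exact ⟨s, .rel _ _ (Or.inr (Or.inr ⟨_, hs, ho, rfl, rfl⟩))⟩
          · obtain ⟨s, hs⟩ := exists_layer (n := n) (e := (a, false)) h1 h2
            exact ⟨s, .rel _ _ (Or.inr (Or.inr ⟨_, hs, ho, rfl, rfl⟩))⟩
        · rcases h3 with ⟨rfl, ho⟩ | ⟨rfl, ho⟩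
          · obtain ⟨s, hs⟩ := exists_layer (n := n) (e := (b, true)) h1 h2
            exact ⟨s, .symm _ _ (.rel _ _ (Or.inr (Or.inr ⟨_, hs, ho, rfl, rfl⟩)))⟩
          · obtain ⟨s, hs⟩ := exists_layer (n := n) (e := (b, false)) h1 h2
            exact ⟨s, .symm _ _ (.rel _ _ (Or.inr (Or.inr ⟨_, hs, ho, rfl, rfl⟩)))⟩
      obtain ⟨s, hs⟩ := step
      exact ⟨max s t, .trans _ _ _ (Con_mono (EL_mono (le_max_left s t)) hs)
        (Con_mono (EL_mono (le_max_right s t)) ht)⟩
  obtain ⟨t, ht⟩ := key _ _ hr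
  refine ⟨t, (run_iff hm hmn ω t).2 ?_⟩
  refine .trans _ _ _ (.rel _ _ (Or.inr (Or.inl ⟨0, j, by omega, hj, ?_, rfl⟩)))
    (.trans _ _ _ ht (.rel _ _ (Or.inl ⟨hv, by simp only; ring⟩)))
  simp

end Pool.Agent.H75.Exact
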