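import Mathlib

set_option autoImplicit false
open Finset

/-! Job E-IIIa (helper90): commutation of the Temperley-Lieb Hamiltonian with the two-row transfer
matrix, abstract version. -/

namespace Pool.Agent.H75.Exact

section Alg

variable {A : Type*} [Ring A] (e : ℕ → A)

/-- `(1 + e_o)(1 + e_{o+1}) ⋯ (1 + e_{o+k-1})` -/
def PR (o : ℕ) : ℕ → A
  | 0 => 1
  | k + 1 => PR o k * (1 + e (k + o))

/-- `(1 + e_{o+k-1}) ⋯ (1 + e_{o+1})(1 + e_o)` -/
def QR (o : ℕ) : ℕ → A
  | 0 => 1
  | k + 1 => (1 + e (k + o)) * QR o k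

theorem PR_succ (o k : ℕ) : PR e o (k + 1) = PR e o k * (1 + e (k + o)) := rfl
theorem QR_succ (o k : ℕ) : QR e o (k + 1) = (1 + e (k + o)) * QR e o k := rfl

theorem PR_succ' (o k : ℕ) : PR e o (k + 1) = (1 + e o) * PR e (o + 1) k := by
  induction k with
  | zero => simp [PR]
  | succ k ih =>
    rw [PR_succ, ih, PR_succ, mul_assoc, show k + 1 + o = k + (o + 1) by ring]

theorem QR_succ' (o k : ℕ) : QR e o (k + 1) = QR e (o + 1) k * (1 + e o) := by
  induction k with
  | zero => simp [QR]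
  | succ k ih =>
    rw [QR_succ, ih, QR_succ, ← mul_assoc, show k + 1 + o = k + (o + 1) by ring]

variable {e} {M : ℕ}
  (h1 : ∀ i, 1 ≤ i → i ≤ M → e i * e i = e i)
  (h2 : ∀ i, 1 ≤ i → i + 1 ≤ M → e i * e (i + 1) * e i = e i)
  (h3 : ∀ i, 1 ≤ i → i + 1 ≤ M → e (i + 1) * e i * e (i + 1) = e (i + 1))
  (h4 : ∀ i j, i + 2 ≤ j → e i * e j = e j * e i)

include h4 in
theorem comm_PR (o k j : ℕ) (hj : o + k + 1 ≤ j) : e j * PR e o k = PR e o k * e j := by
  induction k with
  | zero => simp [PR]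
  | succ k ih =>
    have h := h4 (k + o) j (by omega)
    calc e j * PR e o (k + 1) = (e j * PR e o k) * (1 + e (k + o)) := by
          rw [PR_succ]; noncomm_ring
      _ = PR e o k * (e j + e j * e (k + o)) := by rw [ih (by omega)]; noncomm_ring
      _ = PR e o (k + 1) * e j := by rw [← h, PR_succ]; noncomm_ring

include h4 in
theorem comm_QR (o k j : ℕ) (hj : o + k + 1 ≤ j) : e j * QR e o k = QR e o k * e j := by
  induction k with
  | zero => simp [QR]
  | succ k ih =>
    have h := h4 (k + o) j (by omega)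
    calc e j * QR e o (k + 1) = (e j + e j * e (k + o)) * QR e o k := by
          rw [QR_succ]; noncomm_ring
      _ = (1 + e (k + o)) * (e j * QR e o k) := by rw [← h]; noncomm_ring
      _ = QR e o (k + 1) * e j := by rw [ih (by omega), QR_succ]; noncomm_ring

include h4 in
theorem comm_low (o k j : ℕ) (hj : j + 2 ≤ o) : e j * PR e o k = PR e o k * e j := by
  induction k with
  | zero => simp [PR]
  | succ k ih =>
    have h := h4 j (k + o) (by omega)
    calc e j * PR e o (k + 1) = (e j * PR e o k) * (1 + e (k + o)) := by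
          rw [PR_succ]; noncomm_ring
      _ = PR e o k * (e j + e j * e (k + o)) := by rw [ih]; noncomm_ring
      _ = PR e o (k + 1) * e j := by rw [h, PR_succ]; noncomm_ring

include h4 in
theorem comm_low' (o k j : ℕ) (hj : j + 2 ≤ o) : e j * QR e o k = QR e o k * e j := by
  induction k with
  | zero => simp [QR]
  | succ k ih =>
    have h := h4 j (k + o) (by omega)
    calc e j * QR e o (k + 1) = (e j + e j * e (k + o)) * QR e o k := by
          rw [QR_succ]; noncomm_ring
      _ = (1 + e (k + o)) * (e j * QR e o k) := by rw [h]; noncomm_ring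
      _ = QR e o (k + 1) * e j := by rw [ih, QR_succ]; noncomm_ring

include h4 in
theorem comm_sum (k j : ℕ) (hj : k + 3 ≤ j) :
    e j * (∑ i ∈ range k, e (i + 2)) = (∑ i ∈ range k, e (i + 2)) * e j := by
  rw [mul_sum, sum_mul]
  refine sum_congr rfl fun i hi => ?_
  rw [mem_range] at hi
  exact (h4 (i + 2) j (by omega)).symm

include h1 h2 h3 h4 in
theorem left_comm (k : ℕ) (hk : k + 2 ≤ M) :
    2 * (∑ i ∈ range k, e (i + 3)) * PR e 2 (k + 1) =
      2 * PR e 2 (k + 1) * (∑ i ∈ range k, e (i + 2)) +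
        3 * (PR e 2 k * (e (k + 2) - 1) - (e 2 - 1) * PR e 3 k) := by
  induction k with
  | zero => simp [PR]
  | succ k ih =>
    have ih := ih (by omega)
    have hc := comm_PR h4 2 k (k + 3) (by omega)
    have hB := comm_sum h4 k (k + 3) (by omega)
    have a1 := h1 (k + 2) (by omega) (by omega)
    have a2 := h1 (k + 3) (by omega) (by omega)
    have a3 := h2 (k + 2) (by omega) (by omega)
    have a4 := h3 (k + 2) (by omega) (by omega)
    rw [show k + 2 + 1 = k + 3 by ring] at a3 a4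
    rw [sum_range_succ, sum_range_succ, PR_succ e 2 (k + 1), PR_succ e 3 k,
      show k + 1 + 2 = k + 3 by ring]
    set Am := ∑ i ∈ range k, e (i + 3)
    set Bm := ∑ i ∈ range k, e (i + 2)
    rw [PR_succ] at ih ⊢
    set P := PR e 2 k
    set P3 := PR e 3 k
    set x := e (k + 2)
    set y := e (k + 3)
    have key1 : y * ((1 + x) * (1 + y)) = 3 * y + y * x := by
      calc y * ((1 + x) * (1 + y)) = y + y * x + (y * y + y * x * y) := by noncomm_ring
        _ = 3 * y + y * x := by rw [a2, a4]; noncomm_ring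
    have key2 : (1 + x) * (1 + y) * x = 3 * x + y * x := by
      calc (1 + x) * (1 + y) * x = x + y * x + (x * x + x * y * x) := by noncomm_ring
        _ = 3 * x + y * x := by rw [a1, a3]; noncomm_ring
    calc 2 * (Am + y) * (P * (1 + x) * (1 + y))
        = (2 * Am * (P * (1 + x))) * (1 + y) + 2 * (y * P) * ((1 + x) * (1 + y)) := by
          noncomm_ring
      _ = (2 * (P * (1 + x)) * Bm + 3 * (P * (x - 1) - (e 2 - 1) * P3)) * (1 + y) +
          2 * (P * y) * ((1 + x) * (1 + y)) := by rw [ih, hc]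
      _ = 2 * (P * (1 + x)) * (Bm + Bm * y) + 3 * (P * (x - 1) - (e 2 - 1) * P3) * (1 + y) +
          2 * P * (y * ((1 + x) * (1 + y))) := by noncomm_ring
      _ = 2 * (P * (1 + x)) * (Bm + y * Bm) + 3 * (P * (x - 1) - (e 2 - 1) * P3) * (1 + y) +
          2 * P * (3 * y + y * x) := by rw [← hB, key1]
      _ = 2 * (P * (1 + x) * (1 + y)) * Bm + 2 * P * (3 * x + y * x) +
          3 * (P * (1 + x) * (y - 1) - (e 2 - 1) * (P3 * (1 + y))) := by noncomm_ring
      _ = 2 * (P * (1 + x) * (1 + y)) * (Bm + x) +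
          3 * (P * (1 + x) * (y - 1) - (e 2 - 1) * (P3 * (1 + y))) := by
          rw [← key2]; noncomm_ring

include h1 h2 h3 h4 in
theorem right_comm (k : ℕ) (hk : k + 2 ≤ M) :
    2 * QR e 2 (k + 1) * (∑ i ∈ range k, e (i + 3)) =
      2 * (∑ i ∈ range k, e (i + 2)) * QR e 2 (k + 1) +
        3 * ((e (k + 2) - 1) * QR e 2 k - QR e 3 k * (e 2 - 1)) := by
  induction k with
  | zero => simp [QR]
  | succ k ih =>
    have ih := ih (by omega)
    have hc := comm_QR h4 2 k (k + 3) (by omega)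
    have hB := comm_sum h4 k (k + 3) (by omega)
    have a1 := h1 (k + 2) (by omega) (by omega)
    have a2 := h1 (k + 3) (by omega) (by omega)
    have a3 := h2 (k + 2) (by omega) (by omega)
    have a4 := h3 (k + 2) (by omega) (by omega)
    rw [show k + 2 + 1 = k + 3 by ring] at a3 a4
    rw [sum_range_succ, sum_range_succ, QR_succ e 2 (k + 1), QR_succ e 3 k,
      show k + 1 + 2 = k + 3 by ring]
    set Am := ∑ i ∈ range k, e (i + 3)
    set Bm := ∑ i ∈ range k, e (i + 2)
    rw [QR_succ] at ih ⊢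
    set Q := QR e 2 k
    set Q3 := QR e 3 k
    set x := e (k + 2)
    set y := e (k + 3)
    have key1 : ((1 + y) * (1 + x)) * y = 3 * y + x * y := by
      calc ((1 + y) * (1 + x)) * y = y + x * y + (y * y + y * x * y) := by noncomm_ring
        _ = 3 * y + x * y := by rw [a2, a4]; noncomm_ring
    have key2 : x * ((1 + y) * (1 + x)) = 3 * x + x * y := by
      calc x * ((1 + y) * (1 + x)) = x + x * y + (x * x + x * y * x) := by noncomm_ring
        _ = 3 * x + x * y := by rw [a1, a3]; noncomm_ring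
    calc 2 * ((1 + y) * ((1 + x) * Q)) * (Am + y)
        = (1 + y) * (2 * ((1 + x) * Q) * Am) + 2 * ((1 + y) * (1 + x)) * (Q * y) := by
          noncomm_ring
      _ = (1 + y) * (2 * Bm * ((1 + x) * Q) + 3 * ((x - 1) * Q - Q3 * (e 2 - 1))) +
          2 * ((1 + y) * (1 + x)) * (y * Q) := by rw [ih, hc]
      _ = 2 * (Bm + y * Bm) * ((1 + x) * Q) + 3 * (1 + y) * ((x - 1) * Q - Q3 * (e 2 - 1)) +
          2 * (((1 + y) * (1 + x)) * y) * Q := by noncomm_ring
      _ = 2 * (Bm + Bm * y) * ((1 + x) * Q) + 3 * (1 + y) * ((x - 1) * Q - Q3 * (e 2 - 1)) +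
          2 * (3 * y + x * y) * Q := by rw [hB, key1]
      _ = 2 * Bm * ((1 + y) * ((1 + x) * Q)) + 2 * (3 * x + x * y) * Q +
          3 * ((y - 1) * ((1 + x) * Q) - (1 + y) * Q3 * (e 2 - 1)) := by noncomm_ring
      _ = 2 * (Bm + x) * ((1 + y) * ((1 + x) * Q)) +
          3 * ((y - 1) * ((1 + x) * Q) - (1 + y) * Q3 * (e 2 - 1)) := by
          rw [← key2]; noncomm_ring

include h1 h2 h3 h4 in
/-- The commutator of `∑_{i=3}^{k+2} e_i` with the two-row transfer matrix. -/
theorem comm_main (k : ℕ) (hk : k + 2 ≤ M) :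
    2 * ((∑ i ∈ range k, e (i + 3)) * (PR e 2 (k + 1) * QR e 2 (k + 1)) -
      PR e 2 (k + 1) * QR e 2 (k + 1) * (∑ i ∈ range k, e (i + 3))) =
      6 * (PR e 3 k * QR e 3 k * e 2 - e 2 * (PR e 3 k * QR e 3 k)) := by
  have hl := left_comm h1 h2 h3 h4 k hk
  have hr := right_comm h1 h2 h3 h4 k hk
  set Am := ∑ i ∈ range k, e (i + 3)
  set Bm := ∑ i ∈ range k, e (i + 2)
  have e1 : 2 * (Am * (PR e 2 (k + 1) * QR e 2 (k + 1)) -
      PR e 2 (k + 1) * QR e 2 (k + 1) * Am) =
      (2 * Am * PR e 2 (k + 1)) * QR e 2 (k + 1) - PR e 2 (k + 1) * (2 * QR e 2 (k + 1) * Am) := by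
    noncomm_ring
  have e2 : 3 * (PR e 2 k * (e (k + 2) - 1)) * QR e 2 (k + 1) =
      PR e 2 (k + 1) * (3 * ((e (k + 2) - 1) * QR e 2 k)) := by
    rw [PR_succ, QR_succ]
    noncomm_ring
  calc 2 * (Am * (PR e 2 (k + 1) * QR e 2 (k + 1)) -
      PR e 2 (k + 1) * QR e 2 (k + 1) * Am)
      = (2 * Am * PR e 2 (k + 1)) * QR e 2 (k + 1) -
        PR e 2 (k + 1) * (2 * QR e 2 (k + 1) * Am) := e1
    _ = (3 * (PR e 2 k * (e (k + 2) - 1)) * QR e 2 (k + 1) -
        PR e 2 (k + 1) * (3 * ((e (k + 2) - 1) * QR e 2 k))) +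
        3 * (PR e 2 (k + 1) * QR e 3 k * (e 2 - 1) -
          (e 2 - 1) * PR e 3 k * QR e 2 (k + 1)) := by rw [hl, hr]; noncomm_ring
    _ = 3 * (PR e 2 (k + 1) * QR e 3 k * (e 2 - 1) -
          (e 2 - 1) * PR e 3 k * QR e 2 (k + 1)) := by rw [e2, sub_self, zero_add]
    _ = 6 * (PR e 3 k * QR e 3 k * e 2 - e 2 * (PR e 3 k * QR e 3 k)) := by
      rw [PR_succ', QR_succ']
      noncomm_ring

end Alg

end Pool.Agent.H75.Exact
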