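import Mathlib
import Pool.Agent.H75.Exact.Defs

set_option autoImplicit false
open Finset

/-! Job E-IIIa (helper90): the harmonic function exists, is unique and is invariant under the
transfer matrix `TT`.  This file: relations between the operators on partitions. -/

namespace Pool.Agent.H75.Exact

section Rel

variable {n : ℕ}

theorem iso_iff (x : Pt n) (c : Setoid (Pt n)) (u v : Pt n) :
    iso x c u v ↔ u = v ∨ (u ≠ x ∧ v ≠ x ∧ c u v) := Iff.rfl

theorem join_iff (x y : Pt n) (c : Setoid (Pt n)) (u v : Pt n) :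
    join x y c u v ↔ c u v ∨ (c u x ∧ c v y) ∨ (c u y ∧ c v x) := Iff.rfl

/-- the class function of a partition -/
theorem exists_class (c : Setoid (Pt n)) : ∃ f : Pt n → Quotient c, ∀ u v, c u v ↔ f u = f v :=
  ⟨fun u => Quotient.mk c u, fun u v => by
    rw [Quotient.eq]⟩

theorem iso_iso (x : Pt n) (c : Setoid (Pt n)) :
    iso x (iso x c) = iso x c := by
  obtain ⟨f, hf⟩ := exists_class c
  ext u v
  simp only [join_iff, iso_iff, hf]
  grind

theorem iso_comm (x y : Pt n) (c : Setoid (Pt n)) :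
    iso x (iso y c) = iso y (iso x c) := by
  obtain ⟨f, hf⟩ := exists_class c
  ext u v
  simp only [join_iff, iso_iff, hf]
  grind

theorem join_join (x y : Pt n) (c : Setoid (Pt n)) :
    join x y (join x y c) = join x y c := by
  obtain ⟨f, hf⟩ := exists_class c
  ext u v
  simp only [join_iff, iso_iff, hf]
  grind

theorem join_comm (x y z w : Pt n) (c : Setoid (Pt n)) :
    join x y (join z w c) = join z w (join x y c) := by
  obtain ⟨f, hf⟩ := exists_class c
  ext u v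
  simp only [join_iff, iso_iff, hf]
  grind

theorem iso_join_comm (x y z : Pt n) (hy : x ≠ y) (hz : x ≠ z) (c : Setoid (Pt n)) :
    iso x (join y z c) = join y z (iso x c) := by
  obtain ⟨f, hf⟩ := exists_class c
  ext u v
  simp only [join_iff, iso_iff, hf]
  grind

theorem iso_join_iso (x y : Pt n) (c : Setoid (Pt n)) :
    iso x (join x y (iso x c)) = iso x c := by
  obtain ⟨f, hf⟩ := exists_class c
  ext u v
  simp only [join_iff, iso_iff, hf]
  grind

theorem iso_join_iso' (x y : Pt n) (c : Setoid (Pt n)) :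
    iso x (join y x (iso x c)) = iso x c := by
  obtain ⟨f, hf⟩ := exists_class c
  ext u v
  simp only [join_iff, iso_iff, hf]
  grind

theorem join_iso_join (x y : Pt n) (hy : x ≠ y) (c : Setoid (Pt n)) :
    join x y (iso x (join x y c)) = join x y c := by
  obtain ⟨f, hf⟩ := exists_class c
  ext u v
  simp only [join_iff, iso_iff, hf]
  grind

theorem join_iso_join' (x y : Pt n) (hy : x ≠ y) (c : Setoid (Pt n)) :
    join x y (iso y (join x y c)) = join x y c := by
  obtain ⟨f, hf⟩ := exists_class c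
  ext u v
  simp only [join_iff, iso_iff, hf]
  grind

theorem ee_odd (k : ℕ) (hk : k < n) (c : Setoid (Pt n)) :
    ee n (2 * k + 1) c = iso (col ⟨k, hk⟩) c := by
  have h1 : (2 * k + 1 - 1) / 2 = k := by omega
  have h : 1 ≤ 2 * k + 1 ∧ (2 * k + 1 - 1) / 2 < n := by omega
  unfold ee
  rw [dif_pos h, if_pos (by omega)]
  congr 3

theorem ee_even (k : ℕ) (hk : k < n) (c : Setoid (Pt n)) :
    ee n (2 * k + 2) c = join (col ⟨k, hk⟩) (nxt ⟨k, hk⟩) c := by
  have h1 : (2 * k + 2 - 1) / 2 = k := by omega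
  have h : 1 ≤ 2 * k + 2 ∧ (2 * k + 2 - 1) / 2 < n := by omega
  unfold ee
  rw [dif_pos h, if_neg (by omega)]
  congr 3 <;> simp [h1]

theorem ee_out (i : ℕ) (hi : ¬ (1 ≤ i ∧ i ≤ 2 * n)) (c : Setoid (Pt n)) : ee n i c = c := by
  unfold ee
  rw [dif_neg (by omega)]

theorem ee_cases (n i : ℕ) : (¬ (1 ≤ i ∧ i ≤ 2 * n)) ∨ (∃ k, k < n ∧ i = 2 * k + 1) ∨
    ∃ k, k < n ∧ i = 2 * k + 2 := by
  by_cases h : 1 ≤ i ∧ i ≤ 2 * n
  · right
    rcases Nat.even_or_odd' i with ⟨m, hm | hm⟩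
    · exact Or.inr ⟨m - 1, by omega, by omega⟩
    · exact Or.inl ⟨m, by omega, by omega⟩
  · exact Or.inl h

theorem col_ne {k l : ℕ} (hk : k < n) (hl : l < n) (h : k ≠ l) :
    (col ⟨k, hk⟩ : Pt n) ≠ col ⟨l, hl⟩ := by
  intro h1
  apply h
  simpa [col] using h1

theorem col_ne_nxt {k l : ℕ} (hk : k < n) (hl : l < n) (h : k ≠ l + 1) :
    (col ⟨k, hk⟩ : Pt n) ≠ nxt ⟨l, hl⟩ := by
  unfold nxt
  split
  · exact col_ne hk _ h
  · simp [col, W]

theorem nxt_lt {k : ℕ} (hk : k < n) (hk1 : k + 1 < n) :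
    (nxt ⟨k, hk⟩ : Pt n) = col ⟨k + 1, hk1⟩ := by
  unfold nxt
  rw [dif_pos hk1]

theorem ee_idem (i : ℕ) (c : Setoid (Pt n)) : ee n i (ee n i c) = ee n i c := by
  rcases ee_cases n i with h | ⟨k, hk, rfl⟩ | ⟨k, hk, rfl⟩
  · rw [ee_out i h]
  · rw [ee_odd k hk, ee_odd k hk, iso_iso]
  · rw [ee_even k hk, ee_even k hk, join_join]

theorem ee_braid (i : ℕ) (h1 : 1 ≤ i) (h2 : i + 1 ≤ 2 * n) (c : Setoid (Pt n)) :
    ee n i (ee n (i + 1) (ee n i c)) = ee n i c := by
  rcases ee_cases n i with h | ⟨k, hk, rfl⟩ | ⟨k, hk, rfl⟩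
  · omega
  · rw [ee_odd k hk, show 2 * k + 1 + 1 = 2 * k + 2 by ring, ee_even k hk, ee_odd k hk,
      iso_join_iso]
  · have hk1 : k + 1 < n := by omega
    rw [ee_even k hk, show 2 * k + 2 + 1 = 2 * (k + 1) + 1 by ring, ee_odd (k + 1) hk1,
      ee_even k hk, nxt_lt hk hk1, join_iso_join' _ _ (col_ne _ _ (by omega))]

theorem ee_braid' (i : ℕ) (h1 : 1 ≤ i) (h2 : i + 1 ≤ 2 * n) (c : Setoid (Pt n)) :
    ee n (i + 1) (ee n i (ee n (i + 1) c)) = ee n (i + 1) c := by
  rcases ee_cases n i with h | ⟨k, hk, rfl⟩ | ⟨k, hk, rfl⟩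
  · omega
  · rw [ee_odd k hk, show 2 * k + 1 + 1 = 2 * k + 2 by ring, ee_even k hk, ee_even k hk,
      join_iso_join _ _ (col_ne_nxt hk hk (by omega))]
  · have hk1 : k + 1 < n := by omega
    rw [ee_even k hk, show 2 * k + 2 + 1 = 2 * (k + 1) + 1 by ring, ee_odd (k + 1) hk1,
      ee_odd (k + 1) hk1, nxt_lt hk hk1, iso_join_iso']

theorem ee_comm (i j : ℕ) (hij : i + 2 ≤ j) (c : Setoid (Pt n)) :
    ee n i (ee n j c) = ee n j (ee n i c) := by
  rcases ee_cases n i with h | ⟨k, hk, rfl⟩ | ⟨k, hk, rfl⟩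
  · rw [ee_out i h, ee_out i h]
  · rcases ee_cases n j with h' | ⟨l, hl, rfl⟩ | ⟨l, hl, rfl⟩
    · rw [ee_out j h', ee_out j h']
    · rw [ee_odd l hl, ee_odd k hk, ee_odd k hk, ee_odd l hl, iso_comm]
    · rw [ee_even l hl, ee_odd k hk, ee_odd k hk, ee_even l hl,
        iso_join_comm _ _ _ (col_ne hk hl (by omega)) (col_ne_nxt hk hl (by omega))]
  · rcases ee_cases n j with h' | ⟨l, hl, rfl⟩ | ⟨l, hl, rfl⟩
    · rw [ee_out j h', ee_out j h']
    · rw [ee_odd l hl, ee_even k hk, ee_even k hk, ee_odd l hl,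
        iso_join_comm _ _ _ (col_ne hl hk (by omega)) (col_ne_nxt hl hk (by omega))]
    · rw [ee_even l hl, ee_even k hk, ee_even k hk, ee_even l hl, join_comm]

/-! ### `up` and `down` -/

theorem emb_inj : Function.Injective (emb (n := n)) := by
  rintro (_ | _ | k) (_ | _ | l) h <;> simp [emb] at h ⊢
  exact h

theorem emb_col {k : ℕ} (hk : k < n) :
    emb (col ⟨k, hk⟩ : Pt n) = col ⟨k + 1, by omega⟩ := rfl

theorem emb_nxt {k : ℕ} (hk : k < n) :
    emb (nxt ⟨k, hk⟩ : Pt n) = nxt ⟨k + 1, by omega⟩ := by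
  by_cases h : k + 1 < n
  · rw [nxt_lt hk h, nxt_lt (n := n + 1) (k := k + 1) (by omega) (by omega)]
    rfl
  · unfold nxt
    rw [dif_neg h, dif_neg (by simpa using h)]
    rfl

theorem down_iff (c : Setoid (Pt (n + 1))) (u v : Pt n) : down c u v ↔ c (emb u) (emb v) :=
  Iff.rfl

theorem up_iff (c : Setoid (Pt n)) (u v : Pt (n + 1)) :
    up c u v ↔ u = v ∨ ∃ u' v', emb u' = u ∧ emb v' = v ∧ c u' v' := Iff.rfl

theorem up_emb (c : Setoid (Pt n)) (u v : Pt n) : up c (emb u) (emb v) ↔ c u v := by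
  rw [up_iff]
  constructor
  · rintro (h | ⟨u', v', h1, h2, h3⟩)
    · rw [emb_inj h]
    · rw [← emb_inj h1, ← emb_inj h2]
      exact h3
  · intro h
    exact Or.inr ⟨u, v, rfl, rfl, h⟩

theorem emb_or (u : Pt (n + 1)) : u = col ⟨0, Nat.succ_pos n⟩ ∨ ∃ u', emb u' = u := by
  rcases u with _ | _ | k
  · exact Or.inr ⟨none, rfl⟩
  · exact Or.inr ⟨some none, rfl⟩
  · refine Fin.cases ?_ (fun j => ?_) k
    · exact Or.inl rfl
    · exact Or.inr ⟨some (some j), rfl⟩

theorem emb_ne_zero (u : Pt n) : emb u ≠ col ⟨0, Nat.succ_pos n⟩ := by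
  rcases u with _ | _ | k
  · simp [emb, col]
  · simp [emb, col]
  · simp [emb, col, Fin.ext_iff]

theorem up_zero_left (c : Setoid (Pt n)) (v : Pt (n + 1)) :
    up c (col ⟨0, Nat.succ_pos n⟩) v ↔ v = col ⟨0, Nat.succ_pos n⟩ := by
  rw [up_iff]
  constructor
  · rintro (h | ⟨u', v', h1, h2, h3⟩)
    · exact h.symm
    · exact absurd h1 (emb_ne_zero u')
  · intro h
    exact Or.inl h.symm

theorem up_zero_right (c : Setoid (Pt n)) (v : Pt (n + 1)) :
    up c v (col ⟨0, Nat.succ_pos n⟩) ↔ v = col ⟨0, Nat.succ_pos n⟩ := by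
  rw [up_iff]
  constructor
  · rintro (h | ⟨u', v', h1, h2, h3⟩)
    · exact h
    · exact absurd h2 (emb_ne_zero v')
  · intro h
    exact Or.inl h

theorem ee_one_up (c : Setoid (Pt n)) : ee (n + 1) 1 (up c) = up c := by
  have h0 : ee (n + 1) 1 (up c) = iso (col ⟨0, Nat.succ_pos n⟩) (up c) :=
    ee_odd 0 (Nat.succ_pos n) _
  rw [h0]
  ext u v
  rw [iso_iff]
  rcases emb_or u with rfl | ⟨u', rfl⟩
  · rw [up_zero_left]
    grind
  · rcases emb_or v with rfl | ⟨v', rfl⟩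
    · rw [up_zero_right]
      grind
    · have h1 := emb_ne_zero u'
      have h2 := emb_ne_zero v'
      constructor
      · rintro (h | ⟨-, -, h⟩)
        · rw [h]
        · exact h
      · intro h
        exact Or.inr ⟨h1, h2, h⟩

theorem up_iso (x : Pt n) (c : Setoid (Pt n)) : iso (emb x) (up c) = up (iso x c) := by
  ext u v
  rw [iso_iff]
  rcases emb_or u with rfl | ⟨u', rfl⟩
  · rw [up_zero_left, up_zero_left]
    have := emb_ne_zero x
    grind
  · rcases emb_or v with rfl | ⟨v', rfl⟩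
    · rw [up_zero_right, up_zero_right]
      have := emb_ne_zero x
      grind
    · rw [up_emb, up_emb, iso_iff, emb_inj.eq_iff, emb_inj.ne_iff, emb_inj.ne_iff]

theorem up_join (x y : Pt n) (c : Setoid (Pt n)) :
    join (emb x) (emb y) (up c) = up (join x y c) := by
  ext u v
  rw [join_iff]
  rcases emb_or u with rfl | ⟨u', rfl⟩
  · rw [up_zero_left, up_zero_left, up_zero_left, up_zero_left]
    have := emb_ne_zero x
    have := emb_ne_zero y
    grind
  · rcases emb_or v with rfl | ⟨v', rfl⟩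
    · rw [up_zero_right, up_zero_right, up_zero_left, up_zero_left]
      have := emb_ne_zero x
      have := emb_ne_zero y
      grind
    · simp only [up_emb, join_iff]

theorem ee_up (i : ℕ) (h1 : 1 ≤ i) (h2 : i ≤ 2 * n) (c : Setoid (Pt n)) :
    ee (n + 1) (i + 2) (up c) = up (ee n i c) := by
  rcases ee_cases n i with h | ⟨k, hk, rfl⟩ | ⟨k, hk, rfl⟩
  · omega
  · rw [ee_odd k hk, show 2 * k + 1 + 2 = 2 * (k + 1) + 1 by ring, ee_odd (k + 1) (by omega),
      ← emb_col hk, up_iso]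
  · rw [ee_even k hk, show 2 * k + 2 + 2 = 2 * (k + 1) + 2 by ring, ee_even (k + 1) (by omega),
      ← emb_col hk, ← emb_nxt hk, up_join]

theorem down_iso (x : Pt n) (c : Setoid (Pt (n + 1))) : down (iso (emb x) c) = iso x (down c) := by
  ext u v
  rw [down_iff, iso_iff, iso_iff, emb_inj.eq_iff, emb_inj.ne_iff, emb_inj.ne_iff, down_iff]

theorem down_join (x y : Pt n) (c : Setoid (Pt (n + 1))) :
    down (join (emb x) (emb y) c) = join x y (down c) := by
  ext u v
  rw [down_iff, join_iff, join_iff, down_iff, down_iff, down_iff, down_iff, down_iff]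

theorem down_ee (i : ℕ) (h1 : 1 ≤ i) (h2 : i ≤ 2 * n) (c : Setoid (Pt (n + 1))) :
    down (ee (n + 1) (i + 2) c) = ee n i (down c) := by
  rcases ee_cases n i with h | ⟨k, hk, rfl⟩ | ⟨k, hk, rfl⟩
  · omega
  · rw [ee_odd k hk, show 2 * k + 1 + 2 = 2 * (k + 1) + 1 by ring, ee_odd (k + 1) (by omega),
      ← emb_col hk, down_iso]
  · rw [ee_even k hk, show 2 * k + 2 + 2 = 2 * (k + 1) + 2 by ring, ee_even (k + 1) (by omega),
      ← emb_col hk, ← emb_nxt hk, down_join]

theorem down_ee_one (c : Setoid (Pt (n + 1))) : down (ee (n + 1) 1 c) = down c := by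
  have h0 : ee (n + 1) 1 c = iso (col ⟨0, Nat.succ_pos n⟩) c :=
    ee_odd 0 (Nat.succ_pos n) _
  rw [h0]
  ext u v
  rw [down_iff, iso_iff, down_iff]
  constructor
  · rintro (h | ⟨-, -, h⟩)
    · rw [h]
    · exact h
  · intro h
    exact Or.inr ⟨emb_ne_zero u, emb_ne_zero v, h⟩

end Rel

end Pool.Agent.H75.Exact
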