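import Mathlib
import Pool.Agent.H75.Exact.Defs
import Pool.Agent.H75.Exact.HarmRel
import Pool.Agent.H75.Exact.HarmAlg

set_option autoImplicit false
open Finset Filter Topology

/-! Job E-IIIa (helper90): the harmonic function exists, is unique and is invariant under the
transfer matrix `TT`. -/

namespace Pool.Agent.H75.Exact

/-! ### Absorbing states -/

/-- the source is a singleton, or at least in no class of a column or of the wall -/
def Isol {n : ℕ} (c : Setoid (Pt n)) : Prop := ¬ c S W ∧ ∀ k : Fin n, ¬ c S (col k)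

theorem S_ne_W {n : ℕ} : (S : Pt n) ≠ W := by simp [S, W]
theorem S_ne_col {n : ℕ} (k : Fin n) : (S : Pt n) ≠ col k := by simp [S, col]
theorem W_ne_col {n : ℕ} (k : Fin n) : (W : Pt n) ≠ col k := by simp [W, col]

theorem isol_iff {n : ℕ} (c : Setoid (Pt n)) : Isol c ↔ ∀ u, c S u → u = S := by
  constructor
  · rintro ⟨h1, h2⟩ u hu
    rcases u with _ | _ | k
    · rfl
    · exact absurd hu h1
    · exact absurd hu (h2 k)
  · intro h
    exact ⟨fun h1 => S_ne_W (h _ h1).symm, fun k h1 => S_ne_col k (h _ h1).symm⟩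

theorem nxt_ne_S {n : ℕ} (k : Fin n) : (nxt k : Pt n) ≠ S := by
  unfold nxt
  split
  · exact (S_ne_col _).symm
  · exact S_ne_W.symm

theorem ee_SW {n : ℕ} (i : ℕ) (c : Setoid (Pt n)) (h : c S W) : ee n i c S W := by
  rcases ee_cases n i with h' | ⟨k, hk, rfl⟩ | ⟨k, hk, rfl⟩
  · rw [ee_out i h']
    exact h
  · rw [ee_odd k hk, iso_iff]
    exact Or.inr ⟨S_ne_col _, W_ne_col _, h⟩
  · rw [ee_even k hk, join_iff]
    exact Or.inl h

theorem ee_isol {n : ℕ} (i : ℕ) (c : Setoid (Pt n)) (h : Isol c) : Isol (ee n i c) := by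
  rw [isol_iff] at h ⊢
  intro u
  rcases ee_cases n i with h' | ⟨k, hk, rfl⟩ | ⟨k, hk, rfl⟩
  · rw [ee_out i h']
    exact h u
  · rw [ee_odd k hk, iso_iff]
    rintro (h1 | ⟨-, -, h1⟩)
    · exact h1.symm
    · exact h u h1
  · rw [ee_even k hk, join_iff]
    rintro (h1 | ⟨h1, -⟩ | ⟨h1, -⟩)
    · exact h u h1
    · exact absurd (h _ h1).symm (S_ne_col _)
    · exact absurd (h _ h1) (nxt_ne_S _)

/-! ### Uniqueness -/

/-- isolate the columns `k < m` -/
def isoAll (n : ℕ) (c : Setoid (Pt n)) : ℕ → Setoid (Pt n)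
  | 0 => c
  | m + 1 => ee n (2 * m + 1) (isoAll n c m)

theorem isoAll_col {n : ℕ} (c : Setoid (Pt n)) (m : ℕ) (k : Fin n) (hk : (k : ℕ) < m)
    (hm : m ≤ n) (u : Pt n) (hu : isoAll n c m u (col k)) : u = col k := by
  induction m with
  | zero => omega
  | succ m ih =>
    change ee n (2 * m + 1) (isoAll n c m) u (col k) at hu
    rw [ee_odd m (by omega), iso_iff] at hu
    rcases hu with h | ⟨h1, h2, h3⟩
    · exact h
    · by_cases hkm : (k : ℕ) = m
      · exact absurd (by rw [show k = ⟨m, by omega⟩ from Fin.ext hkm]) h2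
      · exact ih (by omega) (by omega) h3

theorem max_principle (n : ℕ) (f : Setoid (Pt n) → ℝ)
    (h1 : ∀ c, c S W → f c ≤ 0) (h2 : ∀ c, Isol c → f c ≤ 0)
    (h3 : ∀ c, ∑ i ∈ Icc 1 (2 * n), f (ee n i c) = 2 * n * f c) (c : Setoid (Pt n)) : f c ≤ 0 := by
  have : Finite (Setoid (Pt n)) := by
    apply Finite.of_injective (fun c : Setoid (Pt n) => fun u v => c u v)
    intro c d h
    ext u v
    rw [show c u v = d u v from congrFun (congrFun h u) v]
  have : Nonempty (Setoid (Pt n)) := ⟨c⟩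
  obtain ⟨c₀, hc₀⟩ := Finite.exists_max f
  refine (hc₀ c).trans ?_
  -- all the neighbours of a maximum point are maximum points
  have step : ∀ d, f d = f c₀ → ∀ i ∈ Icc 1 (2 * n), f (ee n i d) = f c₀ := by
    intro d hd i hi
    by_contra hne
    have hlt : f (ee n i d) < f c₀ := lt_of_le_of_ne (hc₀ _) hne
    have : ∑ j ∈ Icc 1 (2 * n), f (ee n j d) < ∑ j ∈ Icc 1 (2 * n), f c₀ :=
      sum_lt_sum (fun j _ => hc₀ _) ⟨i, hi, hlt⟩
    rw [h3, hd, sum_const, Nat.card_Icc, nsmul_eq_mul] at this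
    push_cast at this
    simp at this
  have hall : ∀ m, m ≤ n → f (isoAll n c₀ m) = f c₀ := by
    intro m
    induction m with
    | zero => intro _; rfl
    | succ m ih =>
      intro hm
      refine step _ (ih (by omega)) _ ?_
      rw [mem_Icc]
      omega
  rw [← hall n le_rfl]
  by_cases hSW : isoAll n c₀ n S W
  · exact h1 _ hSW
  · refine h2 _ ⟨hSW, fun k hk => ?_⟩
    exact S_ne_col k (isoAll_col c₀ n k k.2 le_rfl _ hk)

theorem harm_unique (n : ℕ) (_hn : 1 ≤ n) (h₁ h₂ : Setoid (Pt n) → ℝ) (H₁ : Harm n h₁)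
    (H₂ : Harm n h₂) : h₁ = h₂ := by
  have key : ∀ g₁ g₂ : Setoid (Pt n) → ℝ, Harm n g₁ → Harm n g₂ → ∀ c, g₁ c - g₂ c ≤ 0 := by
    intro g₁ g₂ G₁ G₂ c
    refine max_principle n (fun c => g₁ c - g₂ c) ?_ ?_ ?_ c
    · intro c hc
      simp [G₁.1 c hc, G₂.1 c hc]
    · intro c hc
      simp [G₁.2.1 c hc.1 hc.2, G₂.2.1 c hc.1 hc.2]
    · intro c
      rw [sum_sub_distrib, G₁.2.2, G₂.2.2]
      ring
  funext c
  have := key h₁ h₂ H₁ H₂ c
  have := key h₂ h₁ H₂ H₁ c
  linarith

/-! ### Existence -/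

open Classical in
/-- the probability that source and wall are connected after `t` steps -/
noncomputable def gt (n : ℕ) : ℕ → Setoid (Pt n) → ℝ
  | 0 => fun c => if c S W then 1 else 0
  | t + 1 => fun c => (∑ i ∈ Icc 1 (2 * n), gt n t (ee n i c)) / (2 * n)

theorem gt_SW (n : ℕ) (hn : 1 ≤ n) (t : ℕ) (c : Setoid (Pt n)) (h : c S W) : gt n t c = 1 := by
  have hn' : (n : ℝ) ≠ 0 := by positivity
  induction t generalizing c with
  | zero => simp [gt, h]
  | succ t ih =>
    unfold gt
    rw [sum_congr rfl fun i _ => ih _ (ee_SW i c h), sum_const, Nat.card_Icc, nsmul_eq_mul]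
    push_cast
    field_simp

theorem gt_isol (n : ℕ) (t : ℕ) (c : Setoid (Pt n)) (h : Isol c) : gt n t c = 0 := by
  induction t generalizing c with
  | zero => simp [gt, h.1]
  | succ t ih =>
    unfold gt
    rw [sum_congr rfl fun i _ => ih _ (ee_isol i c h)]
    simp

theorem gt_nonneg (n : ℕ) (t : ℕ) (c : Setoid (Pt n)) : 0 ≤ gt n t c := by
  induction t generalizing c with
  | zero =>
    unfold gt
    split <;> norm_num
  | succ t ih =>
    unfold gt
    exact div_nonneg (sum_nonneg fun i _ => ih _) (by positivity)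

theorem gt_le_one (n : ℕ) (hn : 1 ≤ n) (t : ℕ) (c : Setoid (Pt n)) : gt n t c ≤ 1 := by
  have hn' : (0 : ℝ) < n := by exact_mod_cast hn
  induction t generalizing c with
  | zero =>
    unfold gt
    split <;> norm_num
  | succ t ih =>
    unfold gt
    rw [div_le_one (by positivity)]
    refine (sum_le_sum fun i _ => ih (ee n i c)).trans ?_
    rw [sum_const, Nat.card_Icc, nsmul_eq_mul]
    push_cast
    simp

theorem gt_mono (n : ℕ) (hn : 1 ≤ n) (t : ℕ) (c : Setoid (Pt n)) : gt n t c ≤ gt n (t + 1) c := by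
  induction t generalizing c with
  | zero =>
    by_cases h : c S W
    · rw [gt_SW n hn _ c h, gt_SW n hn _ c h]
    · have : gt n 0 c = 0 := by simp [gt, h]
      rw [this]
      exact gt_nonneg n _ c
  | succ t ih =>
    rw [gt, gt]
    exact div_le_div_of_nonneg_right (sum_le_sum fun i _ => ih _) (by positivity)

theorem exists_harm (n : ℕ) (hn : 1 ≤ n) : ∃ h, Harm n h ∧ ∀ c, 0 ≤ h c ∧ h c ≤ 1 := by
  have hn' : (n : ℝ) ≠ 0 := by positivity
  have hlim : ∀ c : Setoid (Pt n), ∃ l, Tendsto (fun t => gt n t c) atTop (𝓝 l) := fun c =>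
    ⟨_, tendsto_atTop_ciSup (monotone_nat_of_le_succ fun t => gt_mono n hn t c)
      ⟨1, by rintro _ ⟨t, rfl⟩; exact gt_le_one n hn t c⟩⟩
  choose h hh using hlim
  refine ⟨h, ⟨?_, ?_, ?_⟩, ?_⟩
  · intro c hc
    refine tendsto_nhds_unique (hh c) ?_
    simp only [gt_SW n hn _ c hc]
    exact tendsto_const_nhds
  · intro c hc hc'
    refine tendsto_nhds_unique (hh c) ?_
    simp only [gt_isol n _ c ⟨hc, hc'⟩]
    exact tendsto_const_nhds
  · intro c
    have e1 : Tendsto (fun t => ∑ i ∈ Icc 1 (2 * n), gt n t (ee n i c)) atTop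
        (𝓝 (∑ i ∈ Icc 1 (2 * n), h (ee n i c))) := tendsto_finsetSum _ fun i _ => hh _
    have e2 : Tendsto (fun t => 2 * n * gt n (t + 1) c) atTop (𝓝 (2 * n * h c)) :=
      ((tendsto_add_atTop_iff_nat 1).mpr (hh c)).const_mul _
    refine tendsto_nhds_unique e1 (e2.congr fun t => ?_)
    rw [gt]
    field_simp
  · intro c
    exact ⟨ge_of_tendsto' (hh c) fun t => gt_nonneg n t c,
      le_of_tendsto' (hh c) fun t => gt_le_one n hn t c⟩

/-! ### The transfer matrix -/

/-- `e_i` acting on functions of partitions -/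
noncomputable def EL (n i : ℕ) : Module.End ℝ (Setoid (Pt n) → ℝ) :=
  LinearMap.funLeft ℝ ℝ (ee n i)

theorem EL_apply (n i : ℕ) (g : Setoid (Pt n) → ℝ) (c : Setoid (Pt n)) :
    EL n i g c = g (ee n i c) := rfl

theorem R_eq {n : ℕ} (i : ℕ) (g : Setoid (Pt n) → ℝ) :
    R (ee n i) g = (1 / 2 : ℝ) • ((1 + EL n i) g) := by
  funext c
  simp only [R, LinearMap.add_apply, Module.End.one_apply, Pi.smul_apply, Pi.add_apply, EL_apply,
    smul_eq_mul]
  ring

theorem foldr_eq {n : ℕ} (l : List ℕ) (g : Setoid (Pt n) → ℝ) :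
    l.foldr (fun i g => R (ee n i) g) g =
      (1 / 2 : ℝ) ^ l.length • ((l.map fun i => 1 + EL n i).prod g) := by
  induction l with
  | nil => simp
  | cons i l ih =>
    rw [List.foldr_cons, ih, R_eq, List.map_cons, List.prod_cons, map_smul, smul_smul,
      List.length_cons, pow_succ', Module.End.mul_apply]

theorem prod_up (n k : ℕ) :
    (((List.range k).map (· + 2)).map fun i => 1 + EL n i).prod = PR (EL n) 2 k := by
  induction k with
  | zero => simp [PR]
  | succ k ih =>
    rw [List.range_succ, List.map_append, List.map_append, List.prod_append, ih, PR_succ]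
    simp

theorem prod_down (n k : ℕ) :
    (((List.range k).map (· + 2)).reverse.map fun i => 1 + EL n i).prod = QR (EL n) 2 k := by
  induction k with
  | zero => simp [QR]
  | succ k ih =>
    rw [List.range_succ, List.map_append, List.reverse_append, List.map_append, List.prod_append,
      ih, QR_succ]
    simp

theorem prod_layer (n : ℕ) :
    ((layer n).map fun i => 1 + EL (n + 1) i).prod =
      PR (EL (n + 1)) 2 (2 * n + 1) * QR (EL (n + 1)) 2 (2 * n + 1) := by
  unfold layer
  rw [List.map_append, List.prod_append, prod_up, prod_down]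

theorem TT_eq (n : ℕ) (h : Setoid (Pt n) → ℝ) (c : Setoid (Pt n)) :
    TT n h c = (1 / 2 : ℝ) ^ (layer n).length *
      (PR (EL (n + 1)) 2 (2 * n + 1) * QR (EL (n + 1)) 2 (2 * n + 1)) (fun d => h (down d))
        (up c) := by
  unfold TT
  rw [foldr_eq, prod_layer]
  rfl

/-- the transfer matrix commutes with the Hamiltonian -/
theorem TT_comm (n : ℕ) (h : Setoid (Pt n) → ℝ) (c : Setoid (Pt n)) :
    ∑ i ∈ Icc 1 (2 * n), TT n h (ee n i c) =
      TT n (fun c => ∑ i ∈ Icc 1 (2 * n), h (ee n i c)) c := by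
  set e := EL (n + 1) with he
  have h1 : ∀ i, 1 ≤ i → i ≤ 2 * (n + 1) → e i * e i = e i := by
    intro i _ _
    ext g d
    simp only [he, Module.End.mul_apply, EL_apply, ee_idem]
  have h2 : ∀ i, 1 ≤ i → i + 1 ≤ 2 * (n + 1) → e i * e (i + 1) * e i = e i := by
    intro i hi hi'
    ext g d
    simp only [he, Module.End.mul_apply, EL_apply, ee_braid i hi hi']
  have h3 : ∀ i, 1 ≤ i → i + 1 ≤ 2 * (n + 1) → e (i + 1) * e i * e (i + 1) = e (i + 1) := by
    intro i hi hi'
    ext g d
    simp only [he, Module.End.mul_apply, EL_apply, ee_braid' i hi hi']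
  have h4 : ∀ i j, i + 2 ≤ j → e i * e j = e j * e i := by
    intro i j hij
    ext g d
    simp only [he, Module.End.mul_apply, EL_apply, ee_comm i j hij]
  have main := comm_main h1 h2 h3 h4 (2 * n) (by omega)
  set T := PR e 2 (2 * n + 1) * QR e 2 (2 * n + 1) with hT
  set Z := PR e 3 (2 * n) * QR e 3 (2 * n) with hZ
  set g : Setoid (Pt (n + 1)) → ℝ := fun d => h (down d) with hg
  -- `e_1` is trivial next to `up` and `down`
  have hup : ∀ x : Setoid (Pt (n + 1)) → ℝ, (e 1 x) (up c) = x (up c) := by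
    intro x
    rw [he, EL_apply, ee_one_up]
  have hdown : e 1 g = g := by
    funext d
    rw [he, EL_apply, hg]
    simp only [down_ee_one]
  have hZ1 : e 1 * Z = Z * e 1 := by
    rw [hZ, ← mul_assoc, comm_low h4 3 (2 * n) 1 le_rfl, mul_assoc,
      comm_low' h4 3 (2 * n) 1 le_rfl, mul_assoc]
  have h121 : e 1 * e 2 * e 1 = e 1 := h2 1 le_rfl (by omega)
  have hz : (Z * e 2) g (up c) = (e 2 * Z) g (up c) := by
    have k1 : (Z * e 2) g (up c) = Z g (up c) := by
      calc (Z * e 2) g (up c) = (e 1 ((Z * e 2) (e 1 g))) (up c) := by rw [hup, hdown]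
        _ = (e 1 * Z * e 2 * e 1) g (up c) := by simp only [Module.End.mul_apply]
        _ = (Z * (e 1 * e 2 * e 1)) g (up c) := by rw [hZ1]; simp only [mul_assoc]
        _ = Z g (up c) := by rw [h121, Module.End.mul_apply, hdown]
    have k2 : (e 2 * Z) g (up c) = Z g (up c) := by
      calc (e 2 * Z) g (up c) = (e 1 ((e 2 * Z) (e 1 g))) (up c) := by rw [hup, hdown]
        _ = (e 1 * e 2 * (Z * e 1)) g (up c) := by simp only [Module.End.mul_apply]
        _ = (e 1 * e 2 * e 1 * Z) g (up c) := by rw [← hZ1]; simp only [mul_assoc]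
        _ = Z g (up c) := by rw [h121, Module.End.mul_apply, hup]
    rw [k1, k2]
  have hmain : ((∑ i ∈ range (2 * n), e (i + 3)) * T) g (up c) =
      (T * (∑ i ∈ range (2 * n), e (i + 3))) g (up c) := by
    have h5 := congrFun (congrArg (fun L => L g) main) (up c)
    have h2' : ∀ L : Module.End ℝ (Setoid (Pt (n + 1)) → ℝ), (2 * L) g (up c) =
        2 * L g (up c) := by
      intro L
      rw [two_mul, LinearMap.add_apply, Pi.add_apply, two_mul]
    have h6' : ∀ L : Module.End ℝ (Setoid (Pt (n + 1)) → ℝ), (6 * L) g (up c) =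
        6 * L g (up c) := by
      intro L
      have : (6 : Module.End ℝ (Setoid (Pt (n + 1)) → ℝ)) * L = (6 : ℕ) • L := by
        rw [nsmul_eq_mul]; norm_num
      rw [this, LinearMap.smul_apply, Pi.smul_apply, nsmul_eq_mul]
      norm_num
    rw [h2', h6', LinearMap.sub_apply, LinearMap.sub_apply, Pi.sub_apply, Pi.sub_apply, hz,
      sub_self] at h5
    linarith
  -- translate
  have hreidx : ∀ f : ℕ → ℝ, ∑ i ∈ Icc 1 (2 * n), f i = ∑ i ∈ range (2 * n), f (i + 1) := by
    intro f
    rw [range_eq_Ico, sum_Ico_add' f 0 (2 * n) 1]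
    rfl
  have hL : ∑ i ∈ Icc 1 (2 * n), TT n h (ee n i c) = (1 / 2 : ℝ) ^ (layer n).length *
      ((∑ i ∈ range (2 * n), e (i + 3)) * T) g (up c) := by
    rw [hreidx, sum_mul, LinearMap.sum_apply, Finset.sum_apply, mul_sum]
    refine sum_congr rfl fun i hi => ?_
    rw [mem_range] at hi
    rw [TT_eq, ← ee_up (i + 1) (by omega) (by omega)]
    rfl
  have hR : TT n (fun c => ∑ i ∈ Icc 1 (2 * n), h (ee n i c)) c =
      (1 / 2 : ℝ) ^ (layer n).length *
      (T * (∑ i ∈ range (2 * n), e (i + 3))) g (up c) := by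
    have h7 : (fun d => ∑ i ∈ Icc 1 (2 * n), h (ee n i (down d))) =
        (∑ i ∈ range (2 * n), e (i + 3)) g := by
      funext d
      rw [LinearMap.sum_apply, Finset.sum_apply, hreidx]
      refine sum_congr rfl fun i hi => ?_
      rw [mem_range] at hi
      rw [he, EL_apply, hg]
      simp only
      rw [show i + 3 = i + 1 + 2 by ring, down_ee (i + 1) (by omega) (by omega)]
    rw [TT_eq, h7, Module.End.mul_apply (f := T)]
  rw [hL, hR, hmain]

theorem foldr_const {n : ℕ} (P : Setoid (Pt n) → Prop) (hP : ∀ i d, P d → P (ee n i d))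
    (g : Setoid (Pt n) → ℝ) (a : ℝ) (hg : ∀ d, P d → g d = a) (l : List ℕ) :
    ∀ d, P d → l.foldr (fun i g => R (ee n i) g) g d = a := by
  induction l with
  | nil => exact hg
  | cons i l ih =>
    intro d hd
    rw [List.foldr_cons]
    change ((l.foldr (fun i g => R (ee n i) g) g) d +
      (l.foldr (fun i g => R (ee n i) g) g) (ee n i d)) / 2 = a
    rw [ih d hd, ih _ (hP i d hd)]
    ring

theorem TT_isHarm (n : ℕ) (h : Setoid (Pt n) → ℝ) (hh : Harm n h) : Harm n (TT n h) := by
  refine ⟨?_, ?_, ?_⟩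
  · intro c hc
    unfold TT
    refine foldr_const (fun d => d S W) (fun i d => ee_SW i d) _ 1 ?_ _ _ ?_
    · intro d hd
      exact hh.1 _ hd
    · exact (up_emb c S W).mpr hc
  · intro c h1 h2
    unfold TT
    refine foldr_const Isol (fun i d => ee_isol i d) _ 0 ?_ _ _ ?_
    · intro d hd
      exact hh.2.1 _ hd.1 fun k hk => hd.2 k.succ hk
    · have hc : Isol c := ⟨h1, h2⟩
      rw [isol_iff] at hc ⊢
      intro u hu
      rcases emb_or u with rfl | ⟨u', rfl⟩
      · rw [up_zero_right] at hu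
        exact absurd hu (S_ne_col _)
      · rw [hc u' ((up_emb c S u').mp hu)]
        rfl
  · intro c
    rw [TT_comm]
    have h5 : (fun c => ∑ i ∈ Icc 1 (2 * n), h (ee n i c)) = fun c => 2 * n * h c := by
      funext c
      exact hh.2.2 c
    rw [h5, TT_eq, TT_eq]
    have h6 : (fun d : Setoid (Pt (n + 1)) => 2 * (n : ℝ) * h (down d)) =
        (2 * (n : ℝ)) • fun d : Setoid (Pt (n + 1)) => h (down d) := by
      funext d
      simp
    rw [h6, map_smul, Pi.smul_apply, smul_eq_mul]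
    ring

theorem TT_harm (n : ℕ) (hn : 1 ≤ n) (h : Setoid (Pt n) → ℝ) (hh : Harm n h)
    (c : Setoid (Pt n)) : TT n h c = h c := by
  rw [harm_unique n hn _ _ (TT_isHarm n h hh) hh]

end Pool.Agent.H75.Exact
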