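import Mathlib
import Pool.Agent.H75.Exact.Defs
import Pool.Agent.H75.Exact.HarmTT
import Pool.Agent.H75.Exact.Strip
import Pool.Agent.H65.Perc.HalfDefs

set_option autoImplicit false
open Finset MeasureTheory Filter Topology

/-! Job E-VI-B (helper28): the probability of the strip arm event is the value of the harmonic
function at the initial partition. -/

namespace Pool.Agent.H75.Exact

open Pool.Agent.H65.Perc (PConf planeMeasure)

/-! ### Fair coins: flipping one coin preserves the measure -/

section Coins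

variable {ι : Type*} [DecidableEq ι]

/-- flip the coin `e` -/
def flp (e : ι) (ω : ι → Bool) : ι → Bool := fun i => if i = e then !(ω i) else ω i

theorem coin_map_not : ((PMF.uniformOfFintype Bool).toMeasure).map not =
    (PMF.uniformOfFintype Bool).toMeasure := by
  ext s hs
  rw [Measure.map_apply (measurable_of_finite _) hs, PMF.toMeasure_apply_fintype,
    PMF.toMeasure_apply_fintype, Fintype.sum_bool, Fintype.sum_bool]
  have e3 : ∀ b : Bool, (not ⁻¹' s).indicator (⇑(PMF.uniformOfFintype Bool)) b =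
      s.indicator (⇑(PMF.uniformOfFintype Bool)) (!b) := by
    intro b
    by_cases hb : (!b) ∈ s
    · have hb' : b ∈ not ⁻¹' s := hb
      rw [Set.indicator_of_mem hb, Set.indicator_of_mem hb']
      simp
    · have hb' : b ∉ not ⁻¹' s := hb
      rw [Set.indicator_of_notMem hb, Set.indicator_of_notMem hb']
  rw [e3, e3, Bool.not_true, Bool.not_false, add_comm]

theorem flp_mp (e : ι) : MeasurePreserving (flp e)
    (Measure.infinitePi (fun _ : ι => (PMF.uniformOfFintype Bool).toMeasure))
    (Measure.infinitePi (fun _ : ι => (PMF.uniformOfFintype Bool).toMeasure)) := by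
  have h1 : (flp e : (ι → Bool) → ι → Bool) =
      fun x i => (if i = e then not else id : Bool → Bool) (x i) := by
    funext x i
    unfold flp
    split <;> rfl
  have h2 : ∀ i : ι, Measurable (if i = e then not else id : Bool → Bool) :=
    fun i => measurable_of_finite _
  refine ⟨?_, ?_⟩
  · rw [h1]
    exact measurable_pi_lambda _ fun i => (h2 i).comp (measurable_pi_apply i)
  · rw [h1, Measure.infinitePi_map_pi _ h2]
    congr 1
    funext i
    split
    · exact coin_map_not
    · exact Measure.map_id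

/-- `f` depends only on the coins in `F` -/
def DepOn {β : Type*} (F : Finset ι) (f : (ι → Bool) → β) : Prop :=
  ∀ ω ω', (∀ i ∈ F, ω i = ω' i) → f ω = f ω'

omit [DecidableEq ι] in
theorem DepOn.mono {β : Type*} {F G : Finset ι} {f : (ι → Bool) → β} (h : DepOn F f)
    (hFG : F ⊆ G) : DepOn G f := fun ω ω' h' => h ω ω' fun i hi => h' i (hFG hi)

omit [DecidableEq ι] in
theorem DepOn.comp {β γ : Type*} {F : Finset ι} {f : (ι → Bool) → β} (h : DepOn F f)
    (g : β → γ) : DepOn F (fun ω => g (f ω)) := fun ω ω' h' => congrArg g (h ω ω' h')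

theorem DepOn.factor {F : Finset ι} {f : (ι → Bool) → ℝ} (h : DepOn F f) :
    f = (fun η : F → Bool => f (fun i => if hi : i ∈ F then η ⟨i, hi⟩ else false)) ∘
      (fun ω (i : F) => ω i.1) := by
  funext ω
  refine h _ _ fun i hi => ?_
  simp [hi]

theorem DepOn.meas {F : Finset ι} {f : (ι → Bool) → ℝ} (h : DepOn F f) : Measurable f := by
  rw [h.factor]
  exact (measurable_of_finite _).comp (measurable_pi_lambda _ fun i => measurable_pi_apply _)

theorem DepOn.bdd {F : Finset ι} {f : (ι → Bool) → ℝ} (h : DepOn F f) :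
    ∃ C, ∀ ω, ‖f ω‖ ≤ C := by
  obtain ⟨C, hC⟩ := (Set.finite_range (fun η : F → Bool =>
    ‖f (fun i => if hi : i ∈ F then η ⟨i, hi⟩ else false)‖)).bddAbove
  refine ⟨C, fun ω => ?_⟩
  rw [congrFun h.factor ω]
  exact hC ⟨fun i => ω i.1, rfl⟩

theorem DepOn.int {F : Finset ι} {f : (ι → Bool) → ℝ} (h : DepOn F f) (μ : Measure (ι → Bool))
    [IsFiniteMeasure μ] : Integrable f μ := by
  obtain ⟨C, hC⟩ := h.bdd
  exact Integrable.of_bound h.meas.aestronglyMeasurable C (Eventually.of_forall hC)

end Coins

instance : IsProbabilityMeasure planeMeasure := by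
  unfold planeMeasure; infer_instance

/-! ### The edges of the layers -/

theorem eA_sum (t i : ℕ) (hi : 2 ≤ i) : (eA t i).1.1 + (eA t i).1.2 = (i : ℤ) - 3 := by
  unfold eA
  split <;> simp only <;> omega

theorem eB_sum (t i : ℕ) (hi : 2 ≤ i) : (eB t i).1.1 + (eB t i).1.2 = (i : ℤ) - 3 := by
  unfold eB
  split <;> simp only <;> omega

theorem eA_inj {t t' i i' : ℕ} (hi : 2 ≤ i) (hi' : 2 ≤ i') (h : eA t i = eA t' i') :
    t = t' ∧ i = i' := by
  have h1 := eA_sum t i hi
  have h2 := eA_sum t' i' hi'
  rw [h] at h1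
  have h3 : i = i' := by omega
  subst h3
  refine ⟨?_, rfl⟩
  unfold eA at h
  split at h <;> simp only [Prod.mk.injEq] at h <;> omega

theorem eB_inj {t t' i i' : ℕ} (hi : 2 ≤ i) (hi' : 2 ≤ i') (h : eB t i = eB t' i') :
    t = t' ∧ i = i' := by
  have h1 := eB_sum t i hi
  have h2 := eB_sum t' i' hi'
  rw [h] at h1
  have h3 : i = i' := by omega
  subst h3
  refine ⟨?_, rfl⟩
  unfold eB at h
  split at h <;> simp only [Prod.mk.injEq] at h <;> omega

theorem eA_ne_eB {t t' i i' : ℕ} (hi : 2 ≤ i) (hi' : 2 ≤ i') : eA t i ≠ eB t' i' := by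
  intro h
  have h1 := eA_sum t i hi
  have h2 := eB_sum t' i' hi'
  rw [h] at h1
  have h3 : i = i' := by omega
  subst h3
  unfold eA eB at h
  split at h <;> simp at h

theorem lay_fst (n t : ℕ) : (lay n t).map Prod.fst = layer n := by
  unfold lay layer
  rw [List.map_append, List.map_reverse, List.map_map, List.map_map]
  rfl

theorem mem_lay {n t : ℕ} {p : ℕ × ((ℤ × ℤ) × Bool)} (hp : p ∈ lay n t) :
    ∃ i, 2 ≤ i ∧ (p.2 = eA t i ∨ p.2 = eB t i) := by
  unfold lay at hp
  rw [List.mem_append, List.mem_reverse, List.mem_map, List.mem_map] at hp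
  rcases hp with ⟨j, -, rfl⟩ | ⟨j, -, rfl⟩
  · exact ⟨j + 2, by omega, Or.inl rfl⟩
  · exact ⟨j + 2, by omega, Or.inr rfl⟩

theorem lay_nodup (n t : ℕ) : ((lay n t).map Prod.snd).Nodup := by
  unfold lay
  rw [List.map_append, List.map_reverse, List.map_map, List.map_map, List.nodup_append,
    List.nodup_reverse]
  refine ⟨?_, ?_, ?_⟩
  · refine List.Nodup.map ?_ List.nodup_range
    intro a b h
    have := (eA_inj (by omega) (by omega) (show eA t (a + 2) = eA t (b + 2) from h)).2
    omega
  · refine List.Nodup.map ?_ List.nodup_range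
    intro a b h
    have := (eB_inj (by omega) (by omega) (show eB t (a + 2) = eB t (b + 2) from h)).2
    omega
  · intro a ha b hb
    rw [List.mem_map] at ha
    rw [List.mem_reverse, List.mem_map] at hb
    obtain ⟨j, -, rfl⟩ := ha
    obtain ⟨j', -, rfl⟩ := hb
    exact eA_ne_eB (by omega) (by omega)

theorem lay_disj {n s t : ℕ} (hst : s ≠ t) {p q : ℕ × ((ℤ × ℤ) × Bool)} (hp : p ∈ lay n s)
    (hq : q ∈ lay n t) : p.2 ≠ q.2 := by
  intro h
  obtain ⟨i, hi, h1⟩ := mem_lay hp
  obtain ⟨j, hj, h2⟩ := mem_lay hq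
  rw [h] at h1
  rcases h1 with h1 | h1 <;> rcases h2 with h2 | h2
  · exact hst (eA_inj hi hj (h1.symm.trans h2)).1
  · exact eA_ne_eB hi hj (h1.symm.trans h2)
  · exact eA_ne_eB hj hi (h2.symm.trans h1)
  · exact hst (eB_inj hi hj (h1.symm.trans h2)).1

/-- the edges of the first `t` layers -/
def FF (n t : ℕ) : Finset ((ℤ × ℤ) × Bool) :=
  (range t).biUnion fun s => ((lay n s).map Prod.snd).toFinset

theorem FF_succ (n t : ℕ) : FF n (t + 1) = FF n t ∪ ((lay n t).map Prod.snd).toFinset := by
  unfold FF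
  rw [range_add_one, biUnion_insert, union_comm]

theorem FF_disj {n t : ℕ} {p : ℕ × ((ℤ × ℤ) × Bool)} (hp : p ∈ lay n t) : p.2 ∉ FF n t := by
  unfold FF
  rw [mem_biUnion]
  rintro ⟨s, hs, h⟩
  rw [mem_range] at hs
  rw [List.mem_toFinset, List.mem_map] at h
  obtain ⟨q, hq, h⟩ := h
  exact lay_disj (by omega) hq hp h

/-! ### One layer -/

theorem stepE_dep (n : ℕ) (F : Finset ((ℤ × ℤ) × Bool)) (g : PConf → Setoid (Pt (n + 1)))
    (hg : DepOn F g) (p : ℕ × ((ℤ × ℤ) × Bool)) :
    DepOn (insert p.2 F) (fun ω => stepE n ω (g ω) p) := by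
  intro ω ω' h
  simp only [stepE]
  rw [h p.2 (mem_insert_self _ _), hg ω ω' fun i hi => h i (mem_insert_of_mem hi)]

theorem foldl_dep (n : ℕ) (L : List (ℕ × ((ℤ × ℤ) × Bool))) :
    ∀ (F : Finset ((ℤ × ℤ) × Bool)) (g : PConf → Setoid (Pt (n + 1))), DepOn F g →
    DepOn (F ∪ (L.map Prod.snd).toFinset) (fun ω => L.foldl (stepE n ω) (g ω)) := by
  induction L with
  | nil =>
    intro F g hg
    simpa using hg
  | cons p L ih =>
    intro F g hg
    have h := ih (insert p.2 F) _ (stepE_dep n F g hg p)
    simp only [List.foldl_cons]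
    refine h.mono ?_
    intro x hx
    simp only [mem_union, mem_insert, List.mem_toFinset, List.map_cons, List.mem_cons] at hx ⊢
    tauto

theorem fold_int (n : ℕ) (H : Setoid (Pt (n + 1)) → ℝ) (L : List (ℕ × ((ℤ × ℤ) × Bool))) :
    ∀ (F : Finset ((ℤ × ℤ) × Bool)) (g : PConf → Setoid (Pt (n + 1))), DepOn F g →
    (L.map Prod.snd).Nodup → (∀ p ∈ L, p.2 ∉ F) →
    ∫ ω, H (L.foldl (stepE n ω) (g ω)) ∂planeMeasure =
    ∫ ω, (L.map Prod.fst).foldr (fun i g => R (ee (n + 1) i) g) H (g ω) ∂planeMeasure := by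
  induction L with
  | nil =>
    intro F g hg _ _
    rfl
  | cons p L ih =>
    intro F g hg hnd hF
    rw [List.map_cons, List.nodup_cons] at hnd
    have hdep := stepE_dep n F g hg p
    have h1 := ih (insert p.2 F) (fun ω => stepE n ω (g ω) p) hdep hnd.2 (by
      intro q hq
      rw [mem_insert, not_or]
      refine ⟨?_, hF q (List.mem_cons_of_mem _ hq)⟩
      intro h
      exact hnd.1 (List.mem_map.mpr ⟨q, hq, h⟩))
    simp only [List.foldl_cons]
    rw [h1]
    simp only [List.map_cons, List.foldr_cons]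
    set K := (L.map Prod.fst).foldr (fun i g => R (ee (n + 1) i) g) H with hK
    -- flip the coin `p.2`
    have hm := flp_mp p.2
    have hgf : ∀ ω, g (flp p.2 ω) = g ω := by
      intro ω
      refine hg _ _ fun i hi => ?_
      unfold flp
      rw [if_neg]
      rintro rfl
      exact hF p List.mem_cons_self hi
    have h2 : ∫ ω, K (stepE n ω (g ω) p) ∂planeMeasure =
        ∫ ω, K (stepE n (flp p.2 ω) (g ω) p) ∂planeMeasure := by
      have h3 := hm.map_eq
      have h4 : ∫ ω, K (stepE n ω (g ω) p) ∂planeMeasure =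
          ∫ ω, K (stepE n ω (g ω) p) ∂(Measure.map (flp p.2) planeMeasure) := by
        congr 1
        exact h3.symm
      rw [h4, integral_map hm.measurable.aemeasurable]
      · simp only [hgf]
      · exact (hdep.comp K).meas.aestronglyMeasurable
    have h5 : ∀ ω : PConf, K (stepE n ω (g ω) p) + K (stepE n (flp p.2 ω) (g ω) p) =
        2 * R (ee (n + 1) p.1) K (g ω) := by
      intro ω
      have h6 : flp p.2 ω p.2 = !(ω p.2) := by simp [flp]
      simp only [stepE, R, h6]
      cases hω : ω p.2 <;> cases hd : decide (p.1 % 2 = 0) <;> simp <;> ring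
    have i1 : Integrable (fun ω => K (stepE n ω (g ω) p)) planeMeasure := (hdep.comp K).int _
    have i2 : Integrable (fun ω => K (stepE n (flp p.2 ω) (g ω) p)) planeMeasure := by
      have h6 : (fun ω : PConf => K (stepE n (flp p.2 ω) (g ω) p)) =
          (fun ω => K (stepE n ω (g ω) p)) ∘ (flp p.2) := by
        funext ω
        simp only [Function.comp, hgf]
      rw [h6]
      exact hm.integrable_comp_of_integrable i1
    have h7 : ∫ ω, 2 * R (ee (n + 1) p.1) K (g ω) ∂planeMeasure =
        ∫ ω, K (stepE n ω (g ω) p) ∂planeMeasure +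
        ∫ ω, K (stepE n (flp p.2 ω) (g ω) p) ∂planeMeasure := by
      rw [← integral_add i1 i2]
      exact integral_congr_ae (Eventually.of_forall fun ω => (h5 ω).symm)
    rw [integral_const_mul, ← h2] at h7
    linarith

theorem run_dep (n m t : ℕ) : DepOn (FF n t) (fun ω => run n m ω t) := by
  induction t with
  | zero => intro ω ω' _; rfl
  | succ t ih =>
    rw [FF_succ]
    exact (foldl_dep n (lay n t) (FF n t) _ (ih.comp up)).comp down

theorem run_int (n m t : ℕ) (h : Setoid (Pt n) → ℝ) :
    ∫ ω, h (run n m ω (t + 1)) ∂planeMeasure = ∫ ω, TT n h (run n m ω t) ∂planeMeasure := by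
  have h1 := fold_int n (fun d => h (down d)) (lay n t) (FF n t) (fun ω => up (run n m ω t))
    ((run_dep n m t).comp up) (lay_nodup n t) (fun p hp => FF_disj hp)
  rw [lay_fst] at h1
  exact h1

/-! ### Absorption -/

open Classical in
/-- indicator of the non-absorbed partitions -/
noncomputable def NN {n : ℕ} (c : Setoid (Pt n)) : ℝ := if c S W ∨ Isol c then 0 else 1

open Classical in
/-- indicator of `S ∼ W` -/
noncomputable def AA {n : ℕ} (c : Setoid (Pt n)) : ℝ := if c S W then 1 else 0

theorem NN_nonneg {n : ℕ} (c : Setoid (Pt n)) : 0 ≤ NN c := by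
  unfold NN; split <;> norm_num

theorem NN_le_one {n : ℕ} (c : Setoid (Pt n)) : NN c ≤ 1 := by
  unfold NN; split <;> norm_num

theorem down_up_isol {n : ℕ} {c : Setoid (Pt (n + 1))} (h : Isol c) : Isol (down c) := by
  rw [isol_iff] at h ⊢
  intro u hu
  rw [down_iff] at hu
  have := h _ hu
  rcases u with _ | _ | k
  · rfl
  · exact absurd this (by simp [emb, S])
  · exact absurd this (by simp [emb, S])

theorem up_isol {n : ℕ} {c : Setoid (Pt n)} (hc : Isol c) : Isol (up c) := by
  rw [isol_iff] at hc ⊢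
  intro u hu
  rcases emb_or u with rfl | ⟨u', rfl⟩
  · rw [up_zero_right] at hu
    exact absurd hu (S_ne_col _)
  · rw [hc u' ((up_emb c S u').mp hu)]
    rfl

theorem TT_NN_zero (n : ℕ) (c : Setoid (Pt n)) (h : c S W ∨ Isol c) : TT n NN c = 0 := by
  unfold TT
  rcases h with h | h
  · refine foldr_const (fun d => d S W) (fun i d => ee_SW i d) _ 0 ?_ _ _ ?_
    · intro d hd
      have : (down d) S W := hd
      simp [NN, this]
    · exact (up_emb c S W).mpr h
  · refine foldr_const Isol (fun i d => ee_isol i d) _ 0 ?_ _ _ (up_isol h)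
    intro d hd
    have : Isol (down d) := down_up_isol hd
    simp [NN, this]

/-- apply the isolations of the list, omit the junctions -/
noncomputable def sel {n : ℕ} (l : List ℕ) (c : Setoid (Pt n)) : Setoid (Pt n) :=
  l.foldl (fun c i => if i % 2 = 1 then ee n i c else c) c

theorem foldr_le {n : ℕ} (H : Setoid (Pt n) → ℝ) (hH : ∀ d, H d ≤ 1) (l : List ℕ) :
    ∀ c, l.foldr (fun i g => R (ee n i) g) H c ≤ 1 := by
  induction l with
  | nil => exact hH
  | cons i l ih =>
    intro c
    rw [List.foldr_cons]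
    change ((l.foldr (fun i g => R (ee n i) g) H) c +
      (l.foldr (fun i g => R (ee n i) g) H) (ee n i c)) / 2 ≤ 1
    have := ih c
    have := ih (ee n i c)
    linarith

theorem foldr_sel {n : ℕ} (H : Setoid (Pt n) → ℝ) (hH : ∀ d, H d ≤ 1) (l : List ℕ) :
    ∀ c, H (sel l c) = 0 →
      l.foldr (fun i g => R (ee n i) g) H c ≤ 1 - (1 / 2) ^ l.length := by
  induction l with
  | nil =>
    intro c hc
    simp only [sel, List.foldl_nil] at hc
    simp [hc]
  | cons i l ih =>
    intro c hc
    rw [List.foldr_cons]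
    change ((l.foldr (fun i g => R (ee n i) g) H) c +
      (l.foldr (fun i g => R (ee n i) g) H) (ee n i c)) / 2 ≤ _
    have hl1 := foldr_le H hH l c
    have hl2 := foldr_le H hH l (ee n i c)
    rw [List.length_cons, pow_succ]
    unfold sel at hc
    rw [List.foldl_cons] at hc
    by_cases hi : i % 2 = 1
    · rw [if_pos hi] at hc
      have := ih (ee n i c) hc
      linarith
    · rw [if_neg hi] at hc
      have := ih c hc
      linarith

/-- the columns isolated so far stay isolated -/
theorem sel_isol {n : ℕ} (l : List ℕ) (k : Fin n) :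
    ∀ c : Setoid (Pt n), (2 * (k : ℕ) + 1 ∈ l ∨ ∀ u, c u (col k) → u = col k) →
      ∀ u, (sel l c) u (col k) → u = col k := by
  induction l with
  | nil =>
    intro c hc
    rcases hc with hc | hc
    · simp at hc
    · exact hc
  | cons i l ih =>
    intro c hc
    unfold sel
    rw [List.foldl_cons]
    by_cases hi : i % 2 = 1
    · rw [if_pos hi]
      refine ih (ee n i c) ?_
      by_cases hik : i = 2 * (k : ℕ) + 1
      · right
        intro u hu
        subst hik
        rw [ee_odd (k : ℕ) k.2, iso_iff] at hu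
        rcases hu with h | ⟨-, h, -⟩
        · exact h
        · exact absurd rfl h
      · rcases hc with hc | hc
        · left
          rcases List.mem_cons.mp hc with h | h
          · exact absurd h.symm hik
          · exact h
        · right
          intro u hu
          rcases ee_cases n i with h' | ⟨k', hk', rfl⟩ | ⟨k', hk', rfl⟩
          · rw [ee_out i h'] at hu
            exact hc u hu
          · rw [ee_odd k' hk', iso_iff] at hu
            rcases hu with h | ⟨-, -, h⟩
            · exact h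
            · exact hc u h
          · omega
    · rw [if_neg hi]
      refine ih c ?_
      rcases hc with hc | hc
      · left
        rcases List.mem_cons.mp hc with h | h
        · omega
        · exact h
      · exact Or.inr hc

theorem TT_NN_le (n : ℕ) (c : Setoid (Pt n)) : TT n NN c ≤ 1 - (1 / 2) ^ (4 * n + 2) := by
  unfold TT
  have hlen : (layer n).length = 4 * n + 2 := by
    unfold layer
    simp
    ring
  rw [← hlen]
  refine foldr_sel (fun d => NN (down d)) (fun d => NN_le_one _) (layer n) (up c) ?_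
  have hk : ∀ k : Fin n, ∀ u, (sel (layer n) (up c)) u (col k.succ) → u = col k.succ := by
    intro k
    refine sel_isol (layer n) k.succ (up c) (Or.inl ?_)
    unfold layer
    rw [List.mem_append]
    left
    rw [List.mem_map]
    refine ⟨2 * (k : ℕ) + 1, ?_, ?_⟩
    · rw [List.mem_range]
      have := k.2
      omega
    · simp
      ring
  set d := sel (layer n) (up c) with hd
  have : (down d) S W ∨ Isol (down d) := by
    by_cases h : (down d) S W
    · exact Or.inl h
    · refine Or.inr ⟨h, fun k hk' => ?_⟩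
      rw [down_iff] at hk'
      have := hk k _ hk'
      exact absurd this (by simp [emb, S, col])
  simp [NN, this]

theorem TT_NN (n : ℕ) (c : Setoid (Pt n)) :
    TT n NN c ≤ (1 - (1 / 2) ^ (4 * n + 2)) * NN c := by
  by_cases h : c S W ∨ Isol c
  · rw [TT_NN_zero n c h]
    simp [NN, h]
  · have h1 : NN c = 1 := by simp [NN, h]
    rw [h1, mul_one]
    exact TT_NN_le n c

theorem int_NN (n m t : ℕ) :
    ∫ ω, NN (run n m ω t) ∂planeMeasure ≤ (1 - (1 / 2) ^ (4 * n + 2)) ^ t := by
  have h0 : (0 : ℝ) ≤ 1 - (1 / 2) ^ (4 * n + 2) := by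
    have : (1 / 2 : ℝ) ^ (4 * n + 2) ≤ 1 := pow_le_one₀ (by norm_num) (by norm_num)
    linarith
  induction t with
  | zero =>
    rw [pow_zero]
    calc ∫ ω, NN (run n m ω 0) ∂planeMeasure ≤ ∫ _, (1 : ℝ) ∂planeMeasure :=
          integral_mono (((run_dep n m 0).comp NN).int _) (integrable_const _)
            fun ω => NN_le_one _
      _ = 1 := by simp
  | succ t ih =>
    rw [run_int, pow_succ']
    calc ∫ ω, TT n NN (run n m ω t) ∂planeMeasure
        ≤ ∫ ω, (1 - (1 / 2) ^ (4 * n + 2)) * NN (run n m ω t) ∂planeMeasure :=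
          integral_mono (((run_dep n m t).comp (TT n NN)).int _)
            ((((run_dep n m t).comp NN).int _).const_mul _) fun ω => TT_NN n _
      _ = (1 - (1 / 2) ^ (4 * n + 2)) * ∫ ω, NN (run n m ω t) ∂planeMeasure :=
          integral_const_mul _ _
      _ ≤ _ := mul_le_mul_of_nonneg_left ih h0

theorem int_h (n m : ℕ) (hn : 1 ≤ n) (h : Setoid (Pt n) → ℝ) (hh : Harm n h) (t : ℕ) :
    ∫ ω, h (run n m ω t) ∂planeMeasure = h (C0 n m) := by
  induction t with
  | zero => simp [run]
  | succ t ih =>
    rw [run_int, ← ih]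
    exact integral_congr_ae (Eventually.of_forall fun ω => TT_harm n hn h hh _)

instance (n : ℕ) : Finite (Setoid (Pt n)) := by
  apply Finite.of_injective (fun c : Setoid (Pt n) => fun u v => c u v)
  intro c d h
  ext u v
  rw [show c u v = d u v from congrFun (congrFun h u) v]

theorem h_sub_AA {n : ℕ} (h : Setoid (Pt n) → ℝ) (hh : Harm n h) :
    ∃ C, 0 ≤ C ∧ ∀ c, |AA c - h c| ≤ C * NN c := by
  obtain ⟨C, hC⟩ := (Set.finite_range (fun c => |h c|)).bddAbove
  have hC' : ∀ c, |h c| ≤ C := fun c => hC ⟨c, rfl⟩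
  refine ⟨C, (abs_nonneg _).trans (hC' ⊤), fun c => ?_⟩
  by_cases h1 : c S W
  · simp [AA, h1, hh.1 c h1, NN]
  · by_cases h2 : Isol c
    · simp [AA, h1, hh.2.1 c h2.1 h2.2, NN, h2]
    · have : NN c = 1 := by simp [NN, h1, h2]
      rw [this]
      simp only [AA, if_neg h1, zero_sub, abs_neg, mul_one]
      exact hC' c

theorem run_SW_mono (n m : ℕ) (ω : PConf) (t : ℕ) (h : run n m ω t S W) :
    run n m ω (t + 1) S W := by
  have key : ∀ (L : List (ℕ × ((ℤ × ℤ) × Bool))) (c : Setoid (Pt (n + 1))), c S W →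
      (L.foldl (stepE n ω) c) S W := by
    intro L
    induction L with
    | nil => intro c hc; exact hc
    | cons p L ih =>
      intro c hc
      rw [List.foldl_cons]
      refine ih _ ?_
      by_cases hq : ω p.2 = decide (p.1 % 2 = 0)
      · have e1 : stepE n ω c p = ee (n + 1) p.1 c := if_pos hq
        rw [e1]
        exact ee_SW _ _ hc
      · have e1 : stepE n ω c p = c := if_neg hq
        rw [e1]
        exact hc
  exact key (lay n t) _ ((up_emb _ S W).mpr h)

theorem strip_harm (n m : ℕ) (hm : 1 ≤ m) (hmn : m ≤ n) (h : Setoid (Pt n) → ℝ) (hh : Harm n h)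
    (Hs : ∀ ω t, run n m ω t S W → StripArm n m ω)
    (Hc : ∀ ω, StripArm n m ω → ∃ t, run n m ω t S W) :
    (planeMeasure {ω | StripArm n m ω}).toReal = h (C0 n m) := by
  have hn : 1 ≤ n := hm.trans hmn
  set A : ℕ → Set PConf := fun t => {ω | run n m ω t S W} with hA
  have hmono : Monotone A := monotone_nat_of_le_succ fun t ω hω => run_SW_mono n m ω t hω
  have hunion : {ω | StripArm n m ω} = ⋃ t, A t := by
    ext ω
    rw [Set.mem_iUnion]
    exact ⟨fun h1 => Hc ω h1, fun ⟨t, h1⟩ => Hs ω t h1⟩
  have hdepA : ∀ t, DepOn (FF n t) (fun ω => AA (run n m ω t)) := fun t => (run_dep n m t).comp AA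
  have hmeas : ∀ t, MeasurableSet (A t) := by
    intro t
    have : A t = (fun ω => AA (run n m ω t)) ⁻¹' {1} := by
      ext ω
      rw [Set.mem_preimage, Set.mem_singleton_iff]
      by_cases hω : (run n m ω t) S W
      · have h2 : ω ∈ A t := hω
        simp [AA, hω, h2]
      · have h2 : ω ∉ A t := hω
        simp [AA, hω, h2]
    rw [this]
    exact (hdepA t).meas (measurableSet_singleton _)
  have hAint : ∀ t, ∫ ω, AA (run n m ω t) ∂planeMeasure = (planeMeasure (A t)).toReal := by
    intro t
    have : (fun ω => AA (run n m ω t)) = (A t).indicator (fun _ => (1 : ℝ)) := by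
      funext ω
      by_cases hω : (run n m ω t) S W
      · have h2 : ω ∈ A t := hω
        simp [AA, hω, h2]
      · have h2 : ω ∉ A t := hω
        simp [AA, hω, h2]
    rw [this, integral_indicator (hmeas t)]
    simp [Measure.real]
  obtain ⟨C, hC0, hC⟩ := h_sub_AA h hh
  have hbound : ∀ t, |(planeMeasure (A t)).toReal - h (C0 n m)| ≤
      C * (1 - (1 / 2) ^ (4 * n + 2)) ^ t := by
    intro t
    rw [← hAint, ← int_h n m hn h hh t,
      ← integral_sub ((hdepA t).int _) (((run_dep n m t).comp h).int _)]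
    calc |∫ ω, (AA (run n m ω t) - h (run n m ω t)) ∂planeMeasure|
        ≤ ∫ ω, |AA (run n m ω t) - h (run n m ω t)| ∂planeMeasure := abs_integral_le_integral_abs
      _ ≤ ∫ ω, C * NN (run n m ω t) ∂planeMeasure :=
          integral_mono (((run_dep n m t).comp (fun c => |AA c - h c|)).int _)
            ((((run_dep n m t).comp NN).int _).const_mul _) fun ω => hC _
      _ = C * ∫ ω, NN (run n m ω t) ∂planeMeasure := integral_const_mul _ _
      _ ≤ _ := mul_le_mul_of_nonneg_left (int_NN n m t) hC0
  have hlim1 : Tendsto (fun t => (planeMeasure (A t)).toReal) atTop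
      (𝓝 (planeMeasure {ω | StripArm n m ω}).toReal) := by
    rw [hunion]
    exact (ENNReal.tendsto_toReal (measure_ne_top _ _)).comp
      (tendsto_measure_iUnion_atTop hmono)
  have hlim2 : Tendsto (fun t => (planeMeasure (A t)).toReal) atTop (𝓝 (h (C0 n m))) := by
    rw [tendsto_iff_dist_tendsto_zero]
    have hq : (1 / 2 : ℝ) ^ (4 * n + 2) ≤ 1 := pow_le_one₀ (by norm_num) (by norm_num)
    have hq' : (0 : ℝ) < (1 / 2) ^ (4 * n + 2) := by positivity
    have h1 : Tendsto (fun t : ℕ => C * (1 - (1 / 2 : ℝ) ^ (4 * n + 2)) ^ t) atTop (𝓝 0) := by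
      have := (tendsto_pow_atTop_nhds_zero_of_lt_one (r := 1 - (1 / 2 : ℝ) ^ (4 * n + 2))
        (by linarith) (by linarith)).const_mul C
      rwa [mul_zero] at this
    exact squeeze_zero (fun t => dist_nonneg) (fun t => by rw [Real.dist_eq]; exact hbound t) h1
  exact tendsto_nhds_unique hlim1 hlim2

end Pool.Agent.H75.Exact
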