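import Pool.Agent.H75.Exact.Defs

set_option autoImplicit false
open Finset Filter Topology

namespace Pool.Agent.H75.Exact

/-- Shifted factorial `∏_{j<n} (s+j)`. -/
noncomputable def pr (s : ℝ) (n : ℕ) : ℝ := ∏ j ∈ range n, (s + j)

lemma pr_pos {s : ℝ} (hs : 0 < s) (n : ℕ) : 0 < pr s n :=
  Finset.prod_pos fun j _ => by positivity

lemma hval_eq (n : ℕ) :
    hval n = pr (5 / 3) n * pr (1 / 2) n / (pr (5 / 6) n * pr 2 n) := by
  unfold hval pr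
  rw [← Finset.prod_mul_distrib, ← Finset.prod_mul_distrib, ← Finset.prod_div_distrib]
  refine Finset.prod_congr rfl fun k _ => ?_
  have h1 : ((6 * k + 5) * (k + 2) : ℝ) ≠ 0 := by positivity
  have h2 : ((5 / 6 + k) * (2 + k) : ℝ) ≠ 0 := by positivity
  rw [div_eq_div_iff h1 h2]
  ring

theorem hval_pos (n : ℕ) : 0 < hval n := by
  rw [hval_eq]
  have h1 := pr_pos (s := 5 / 3) (by norm_num) n
  have h2 := pr_pos (s := 1 / 2) (by norm_num) n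
  have h3 := pr_pos (s := 5 / 6) (by norm_num) n
  have h4 := pr_pos (s := 2) (by norm_num) n
  positivity

lemma gammaSeq_eq (s : ℝ) (n : ℕ) :
    Real.GammaSeq s n = (n : ℝ) ^ s * n.factorial / pr s (n + 1) := rfl

lemma key (n : ℕ) (hn : 1 ≤ n) :
    (n : ℝ) ^ (2 / 3 : ℝ) * hval (n + 1) =
      Real.GammaSeq (5 / 6) n * Real.GammaSeq 2 n /
        (Real.GammaSeq (5 / 3) n * Real.GammaSeq (1 / 2) n) := by
  have hn0 : (0 : ℝ) < n := by exact_mod_cast hn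
  rw [gammaSeq_eq, gammaSeq_eq, gammaSeq_eq, gammaSeq_eq, hval_eq]
  have h1 := (pr_pos (s := 5 / 3) (by norm_num) (n + 1)).ne'
  have h2 := (pr_pos (s := 1 / 2) (by norm_num) (n + 1)).ne'
  have h3 := (pr_pos (s := 5 / 6) (by norm_num) (n + 1)).ne'
  have h4 := (pr_pos (s := 2) (by norm_num) (n + 1)).ne'
  have hf : (n.factorial : ℝ) ≠ 0 := by positivity
  have hp : (n : ℝ) ^ (5 / 6 : ℝ) * (n : ℝ) ^ (2 : ℝ) =
      (n : ℝ) ^ (2 / 3 : ℝ) * ((n : ℝ) ^ (5 / 3 : ℝ) * (n : ℝ) ^ (1 / 2 : ℝ)) := by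
    rw [← Real.rpow_add hn0, ← Real.rpow_add hn0, ← Real.rpow_add hn0]
    norm_num
  have e1 : (n : ℝ) ^ (5 / 3 : ℝ) ≠ 0 := (Real.rpow_pos_of_pos hn0 _).ne'
  have e2 : (n : ℝ) ^ (1 / 2 : ℝ) ≠ 0 := (Real.rpow_pos_of_pos hn0 _).ne'
  generalize (n : ℝ) ^ (5 / 6 : ℝ) = a at *
  generalize (n : ℝ) ^ (2 : ℝ) = b at *
  generalize (n : ℝ) ^ (5 / 3 : ℝ) = c at *
  generalize (n : ℝ) ^ (1 / 2 : ℝ) = d at *
  generalize (n : ℝ) ^ (2 / 3 : ℝ) = e at *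
  generalize pr (5 / 3) (n + 1) = p1 at *
  generalize pr (1 / 2) (n + 1) = p2 at *
  generalize pr (5 / 6) (n + 1) = p3 at *
  generalize pr 2 (n + 1) = p4 at *
  generalize (n.factorial : ℝ) = f at *
  have : a * f / p3 * (b * f / p4) / (c * f / p1 * (d * f / p2)) =
      (a * b) * (p1 * p2) / ((c * d) * (p3 * p4)) := by
    field_simp
  rw [this, hp]
  field_simp

lemma tendsto_succ : Tendsto (fun n : ℕ => (n : ℝ) ^ (2 / 3 : ℝ) * hval (n + 1)) atTop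
    (nhds (Real.Gamma (5 / 6) / (Real.Gamma (5 / 3) * Real.Gamma (1 / 2)))) := by
  have h := ((Real.GammaSeq_tendsto_Gamma (5 / 6)).mul (Real.GammaSeq_tendsto_Gamma 2)).div
    ((Real.GammaSeq_tendsto_Gamma (5 / 3)).mul (Real.GammaSeq_tendsto_Gamma (1 / 2)))
    (mul_ne_zero (Real.Gamma_pos_of_pos (by norm_num)).ne'
      (Real.Gamma_pos_of_pos (by norm_num)).ne')
  rw [Real.Gamma_two, mul_one] at h
  refine h.congr' ?_
  filter_upwards [eventually_ge_atTop 1] with n hn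
  rw [key n hn]
  rfl

lemma hval_succ (n : ℕ) :
    hval (n + 1) = hval n * (((3 * n + 5) * (2 * n + 1) : ℝ) / ((6 * n + 5) * (n + 2))) := by
  unfold hval
  rw [Finset.prod_range_succ]

lemma ratio_tendsto : Tendsto
    (fun n : ℕ => ((6 * n + 5) * (n + 2) : ℝ) / ((3 * n + 5) * (2 * n + 1))) atTop (nhds 1) := by
  have hinv : Tendsto (fun n : ℕ => ((n : ℝ))⁻¹) atTop (nhds 0) :=
    tendsto_inv_atTop_nhds_zero_nat
  have h : Tendsto (fun n : ℕ => ((6 + 5 * ((n : ℝ))⁻¹) * (1 + 2 * ((n : ℝ))⁻¹)) /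
      ((3 + 5 * ((n : ℝ))⁻¹) * (2 + 1 * ((n : ℝ))⁻¹))) atTop
      (nhds (((6 + 5 * 0) * (1 + 2 * 0)) / ((3 + 5 * 0) * (2 + 1 * 0)))) := by
    refine Tendsto.div ?_ ?_ (by norm_num)
    · exact (tendsto_const_nhds.add (tendsto_const_nhds.mul hinv)).mul
        (tendsto_const_nhds.add (tendsto_const_nhds.mul hinv))
    · exact (tendsto_const_nhds.add (tendsto_const_nhds.mul hinv)).mul
        (tendsto_const_nhds.add (tendsto_const_nhds.mul hinv))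
  norm_num at h
  refine h.congr' ?_
  filter_upwards [eventually_ge_atTop 1] with n hn
  have hn0 : (0 : ℝ) < n := by exact_mod_cast hn
  field_simp

theorem hval_asymp : Filter.Tendsto (fun n : ℕ => (n : ℝ) ^ (2 / 3 : ℝ) * hval n) Filter.atTop
    (nhds (Real.Gamma (5 / 6) / (Real.Gamma (5 / 3) * Real.Gamma (1 / 2)))) := by
  have h := tendsto_succ.mul ratio_tendsto
  rw [mul_one] at h
  refine h.congr fun n => ?_
  rw [hval_succ]
  field_simp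

theorem hval_bounds : ∃ c C : ℝ, 0 < c ∧ 0 < C ∧ ∀ n : ℕ, 1 ≤ n →
    c * (n : ℝ) ^ (-(2 / 3) : ℝ) ≤ hval n ∧ hval n ≤ C * (n : ℝ) ^ (-(2 / 3) : ℝ) := by
  set L : ℝ := Real.Gamma (5 / 6) / (Real.Gamma (5 / 3) * Real.Gamma (1 / 2)) with hL
  have hLpos : 0 < L := by
    have h1 : 0 < Real.Gamma (5 / 6) := Real.Gamma_pos_of_pos (by norm_num)
    have h2 : 0 < Real.Gamma (5 / 3) := Real.Gamma_pos_of_pos (by norm_num)
    have h3 : 0 < Real.Gamma (1 / 2) := Real.Gamma_pos_of_pos (by norm_num)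
    positivity
  have hpos : ∀ n : ℕ, 1 ≤ n → 0 < (n : ℝ) ^ (2 / 3 : ℝ) * hval n := fun n hn =>
    mul_pos (Real.rpow_pos_of_pos (by exact_mod_cast hn) _) (hval_pos n)
  -- eventual bounds
  obtain ⟨N, hN⟩ := Filter.eventually_atTop.1
    ((hval_asymp.eventually (lt_mem_nhds (half_lt_self hLpos))).and
      (hval_asymp.eventually (gt_mem_nhds (show L < 2 * L by linarith))))
  -- finite part
  have hne : (Finset.Icc 1 (N + 1)).Nonempty := ⟨1, by simp⟩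
  obtain ⟨i, hi, hmin⟩ := Finset.exists_min_image (Finset.Icc 1 (N + 1))
    (fun n : ℕ => (n : ℝ) ^ (2 / 3 : ℝ) * hval n) hne
  obtain ⟨j, hj, hmax⟩ := Finset.exists_max_image (Finset.Icc 1 (N + 1))
    (fun n : ℕ => (n : ℝ) ^ (2 / 3 : ℝ) * hval n) hne
  have hi1 : 1 ≤ i := (Finset.mem_Icc.1 hi).1
  have hj1 : 1 ≤ j := (Finset.mem_Icc.1 hj).1
  refine ⟨min (L / 2) ((i : ℝ) ^ (2 / 3 : ℝ) * hval i),
    max (2 * L) ((j : ℝ) ^ (2 / 3 : ℝ) * hval j),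
    lt_min (by positivity) (hpos i hi1), lt_max_of_lt_left (by positivity), ?_⟩
  intro n hn
  have hn0 : (0 : ℝ) < n := by exact_mod_cast hn
  have hx : 0 < (n : ℝ) ^ (-(2 / 3) : ℝ) := Real.rpow_pos_of_pos hn0 _
  have hxx : (n : ℝ) ^ (2 / 3 : ℝ) * (n : ℝ) ^ (-(2 / 3) : ℝ) = 1 := by
    rw [← Real.rpow_add hn0]; norm_num
  have hid : hval n = ((n : ℝ) ^ (2 / 3 : ℝ) * hval n) * (n : ℝ) ^ (-(2 / 3) : ℝ) := by
    calc hval n = ((n : ℝ) ^ (2 / 3 : ℝ) * (n : ℝ) ^ (-(2 / 3) : ℝ)) * hval n := by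
          rw [hxx, one_mul]
      _ = _ := by ring
  have hlow : min (L / 2) ((i : ℝ) ^ (2 / 3 : ℝ) * hval i) ≤ (n : ℝ) ^ (2 / 3 : ℝ) * hval n := by
    rcases le_total n (N + 1) with h | h
    · exact (min_le_right _ _).trans (hmin n (Finset.mem_Icc.2 ⟨hn, h⟩))
    · exact (min_le_left _ _).trans (hN n (by omega)).1.le
  have hup : (n : ℝ) ^ (2 / 3 : ℝ) * hval n ≤ max (2 * L) ((j : ℝ) ^ (2 / 3 : ℝ) * hval j) := by
    rcases le_total n (N + 1) with h | h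
    · exact (hmax n (Finset.mem_Icc.2 ⟨hn, h⟩)).trans (le_max_right _ _)
    · exact (hN n (by omega)).2.le.trans (le_max_left _ _)
  constructor
  · calc _ ≤ ((n : ℝ) ^ (2 / 3 : ℝ) * hval n) * (n : ℝ) ^ (-(2 / 3) : ℝ) :=
        mul_le_mul_of_nonneg_right hlow hx.le
      _ = hval n := hid.symm
  · calc hval n = ((n : ℝ) ^ (2 / 3 : ℝ) * hval n) * (n : ℝ) ^ (-(2 / 3) : ℝ) := hid
      _ ≤ _ := mul_le_mul_of_nonneg_right hup hx.le

end Pool.Agent.H75.Exact
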