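import Pool.Agent.H75.Exact.Defs

set_option autoImplicit false
open Finset

namespace Pool.Agent.H75.Exact
namespace DetAux

theorem homog {ι R : Type*} [DecidableEq ι] [CommRing R] (s : Finset ι) (p : ι → R) (x y : R) :
    ∏ j ∈ s, (x - y * p j) = ∑ i ∈ range (s.card + 1),
      (∏ j ∈ s, (Polynomial.X - Polynomial.C (p j))).coeff i * (x ^ i * y ^ (s.card - i)) := by
  classical
  induction s using Finset.induction_on with
  | empty => simp
  | insert a s ha ih =>
    rw [prod_insert ha, ih, prod_insert ha, card_insert_of_notMem ha]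
    set P := ∏ j ∈ s, (Polynomial.X - Polynomial.C (p j)) with hP
    have hdeg : P.coeff (s.card + 1) = 0 := by
      apply Polynomial.coeff_eq_zero_of_natDegree_lt
      have : P.natDegree ≤ s.card := by
        refine (Polynomial.natDegree_prod_le s
          (fun j => Polynomial.X - Polynomial.C (p j))).trans ?_
        refine (sum_le_card_nsmul s _ 1 fun i _ => Polynomial.natDegree_X_sub_C_le _).trans ?_
        simp
      omega
    have h1 : ∀ i ∈ range (s.card + 1 + 1),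
        ((Polynomial.X - Polynomial.C (p a)) * P).coeff i * (x ^ i * y ^ (s.card + 1 - i)) =
        (Polynomial.X * P).coeff i * (x ^ i * y ^ (s.card + 1 - i)) -
          p a * (P.coeff i * (x ^ i * y ^ (s.card + 1 - i))) := by
      intro i _
      rw [sub_mul, Polynomial.coeff_sub, Polynomial.coeff_C_mul]
      ring
    have hA : ∑ i ∈ range (s.card + 1 + 1),
        (Polynomial.X * P).coeff i * (x ^ i * y ^ (s.card + 1 - i)) =
        ∑ i ∈ range (s.card + 1), P.coeff i * (x ^ (i + 1) * y ^ (s.card + 1 - (i + 1))) := by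
      rw [sum_range_succ' _ (s.card + 1)]
      simp only [Polynomial.coeff_X_mul, Polynomial.coeff_X_mul_zero, zero_mul, add_zero]
    have hB : ∑ i ∈ range (s.card + 1 + 1), P.coeff i * (x ^ i * y ^ (s.card + 1 - i)) =
        ∑ i ∈ range (s.card + 1), P.coeff i * (x ^ i * y ^ (s.card + 1 - i)) := by
      rw [sum_range_succ _ (s.card + 1), hdeg, zero_mul, add_zero]
    rw [sum_congr rfl h1, sum_sub_distrib, ← mul_sum, hA, hB]
    have h2 : ∀ i ∈ range (s.card + 1), P.coeff i * (x ^ (i + 1) * y ^ (s.card + 1 - (i + 1))) =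
        x * (P.coeff i * (x ^ i * y ^ (s.card - i))) := by
      intro i _
      rw [Nat.add_sub_add_right]
      ring
    have h3 : ∀ i ∈ range (s.card + 1), P.coeff i * (x ^ i * y ^ (s.card + 1 - i)) =
        y * (P.coeff i * (x ^ i * y ^ (s.card - i))) := by
      intro i hi
      rw [Nat.succ_sub (by simpa [Nat.lt_succ_iff] using hi), pow_succ]
      ring
    rw [sum_congr rfl h2, sum_congr rfl h3, ← mul_sum, ← mul_sum]
    ring

theorem homog_div {ι R : Type*} [DecidableEq ι] [CommRing R] [IsDomain R] (s : Finset ι) (p : ι → R)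
    (x y D E : R) (hxy : x + y ≠ 0) (d : ℕ) (hd : s.card = d + 1)
    (hD : D * (x + y) = ∏ j ∈ s, (x - y * p j))
    (hE : E * (x + y) = ∏ j ∈ s, (1 + p j)) :
    D = ∑ i ∈ range (d + 2), (∏ j ∈ s, (Polynomial.X - Polynomial.C (p j))).coeff i *
        ∑ j ∈ range i, x ^ j * y ^ (d - j) * (-1) ^ (i - 1 - j) + (-1) ^ (d + 1) * y ^ (d + 1) * E := by
  apply mul_right_cancel₀ hxy
  rw [hD, homog, hd, add_mul, mul_assoc _ E, hE]
  set P := ∏ j ∈ s, (Polynomial.X - Polynomial.C (p j)) with hP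
  have h1 : ∀ i ∈ range (d + 2), P.coeff i * (x ^ i * y ^ (d + 1 - i)) =
      (P.coeff i * ∑ j ∈ range i, x ^ j * y ^ (d - j) * (-1) ^ (i - 1 - j)) * (x + y) +
      P.coeff i * (-1) ^ i * y ^ (d + 1) := by
    intro i hi
    rw [mem_range] at hi
    have e1 : (∑ j ∈ range i, x ^ j * y ^ (d - j) * (-1 : R) ^ (i - 1 - j)) * (x + y) =
        y ^ (d + 1 - i) * (x ^ i - (-y) ^ i) := by
      rw [← geom_sum₂_mul, sub_neg_eq_add, ← mul_assoc, mul_sum]
      congr 1
      apply sum_congr rfl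
      intro j hj
      rw [mem_range] at hj
      rw [neg_pow y, show d - j = (d + 1 - i) + (i - 1 - j) by omega, pow_add]
      ring
    have e2 : y ^ (d + 1 - i) * (-y) ^ i = (-1) ^ i * y ^ (d + 1) := by
      rw [neg_pow y, show d + 1 = (d + 1 - i) + i by omega, pow_add, Nat.add_sub_cancel]
      ring
    calc P.coeff i * (x ^ i * y ^ (d + 1 - i)) = P.coeff i * (y ^ (d + 1 - i) * (x ^ i - (-y) ^ i))
        + P.coeff i * (y ^ (d + 1 - i) * (-y) ^ i) := by ring
      _ = _ := by rw [← e1, e2]; ring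
  rw [sum_congr rfl h1, sum_add_distrib, ← sum_mul, ← sum_mul]
  congr 1
  have h2 : ∑ i ∈ range (d + 2), P.coeff i * (-1) ^ i = (-1) ^ (d + 1) * ∏ j ∈ s, (1 + p j) := by
    have h3 := homog s p (-1) 1
    rw [hd] at h3
    simp only [one_pow, mul_one] at h3
    rw [← hP] at h3
    rw [← h3, ← hd, ← prod_const, ← prod_mul_distrib]
    apply prod_congr rfl
    intro j _
    ring
  rw [h2]; ring

open MvPolynomial

variable {N : ℕ}

/-- `1 + t_k` -/
noncomputable def av (k : Fin N) : MvPolynomial (Fin N) ℂ := 1 + X k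
/-- `t_k ^ 2` -/
noncomputable def bv (k : Fin N) : MvPolynomial (Fin N) ℂ := X k ^ 2
/-- `t_k (1 + t_k)` -/
noncomputable def pv (k : Fin N) : MvPolynomial (Fin N) ℂ := X k * (1 + X k)
/-- `a_l ^ i b_l ^ (N - 1 - i)` -/
noncomputable def hv (i : ℕ) (l : Fin N) : MvPolynomial (Fin N) ℂ := av l ^ i * bv l ^ (N - 1 - i)

theorem rename_av (s : Equiv.Perm (Fin N)) (k : Fin N) : rename s (av k) = av (s k) := by
  simp [av]
theorem rename_bv (s : Equiv.Perm (Fin N)) (k : Fin N) : rename s (bv k) = bv (s k) := by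
  simp [bv]
theorem rename_pv (s : Equiv.Perm (Fin N)) (k : Fin N) : rename s (pv k) = pv (s k) := by
  simp [pv]
theorem rename_hv (s : Equiv.Perm (Fin N)) (i : ℕ) (k : Fin N) : rename s (hv i k) = hv i (s k) := by
  simp [hv, rename_av, rename_bv]

theorem one_add_pv (k : Fin N) : 1 + pv k = av k + bv k := by
  simp only [pv, av, bv]; ring

theorem cross (k : Fin N) : (1 - bv k) * (av k + bv k) = av k - bv k * pv k := by
  simp only [pv, av, bv]; ring

/-- The monomial `∏ t_k ^ (2N-1)`. -/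
noncomputable def mm (N : ℕ) : Fin N →₀ ℕ := Finsupp.equivFunOnFinite.symm fun _ => 2 * N - 1

theorem mm_apply (k : Fin N) : mm N k = 2 * N - 1 := rfl

theorem mapDomain_mm (s : Equiv.Perm (Fin N)) : (mm N).mapDomain s = mm N := by
  ext k
  rw [Finsupp.mapDomain_equiv_apply]
  rfl

/-- Antisymmetry. -/
def Anti (W : MvPolynomial (Fin N) ℂ) : Prop :=
  ∀ i j : Fin N, i ≠ j → rename (Equiv.swap i j) W = -W

theorem coeff_swap {W F : MvPolynomial (Fin N) ℂ} (hW : Anti W) {i j : Fin N} (hij : i ≠ j)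
    (hF : rename (Equiv.swap i j) F = F) : coeff (mm N) (F * W) = 0 := by
  have h1 := coeff_rename_mapDomain (Equiv.swap i j) (Equiv.swap i j).injective (F * W) (mm N)
  rw [mapDomain_mm, map_mul, hF, hW i j hij, mul_neg, coeff_neg] at h1
  have : (2 : ℂ) * coeff (mm N) (F * W) = 0 := by linear_combination -h1
  simpa using this

theorem coeff_high {W F : MvPolynomial (Fin N) ℂ} (r : Fin N) :
    coeff (mm N) (bv r ^ N * F * W) = 0 := by
  rw [bv, ← pow_mul, X_pow_eq_monomial, mul_assoc, coeff_monomial_mul', if_neg]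
  intro h
  have := h r
  rw [Finsupp.single_eq_same, mm_apply] at this
  have hN : 0 < N := r.pos
  omega

theorem av_add_bv_ne (r : Fin N) : av r + bv r ≠ (0 : MvPolynomial (Fin N) ℂ) := by
  intro h
  have := congrArg (MvPolynomial.eval (fun _ => (0 : ℂ))) h
  simp [av, bv] at this

/-- coefficients of `∏_{j ≤ r} (x - p_j)` -/
noncomputable def cf (r : Fin N) (i : ℕ) : MvPolynomial (Fin N) ℂ :=
  (∏ j ∈ Iic r, (Polynomial.X - Polynomial.C (pv j))).coeff i

theorem Dr (r : Fin N) : (1 - bv r) * ∏ j ∈ Iio r, (av r - bv r * pv j) =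
    ∑ i ∈ range ((r : ℕ) + 2), cf r i *
      ∑ j ∈ range i, av r ^ j * bv r ^ ((r : ℕ) - j) * (-1) ^ (i - 1 - j) +
    (-1) ^ ((r : ℕ) + 1) * bv r ^ ((r : ℕ) + 1) * ∏ j ∈ Iio r, (av j + bv j) := by
  apply homog_div (Iic r) pv (av r) (bv r) _ _ (av_add_bv_ne r) (r : ℕ) (by simp)
  · rw [← Iio_insert r, prod_insert (by simp), mul_right_comm, cross]
  · rw [← Iio_insert r, prod_insert (by simp), one_add_pv]
    rw [prod_congr rfl fun j _ => one_add_pv j]
    ring

theorem cf_top (r : Fin N) : cf r ((r : ℕ) + 1) = 1 := by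
  have h1 : (∏ j ∈ Iic r, (Polynomial.X - Polynomial.C (pv j))).Monic :=
    Polynomial.monic_prod_of_monic _ _ fun j _ => Polynomial.monic_X_sub_C _
  have h2 : (∏ j ∈ Iic r, (Polynomial.X - Polynomial.C (pv j))).natDegree = (r : ℕ) + 1 := by
    rw [Polynomial.natDegree_prod_of_monic _ _ fun j _ => Polynomial.monic_X_sub_C _]
    simp
  rw [cf, ← h2]
  exact h1

theorem swap_mem_Iic {r j k : Fin N} (hj : j ≤ r) : Equiv.swap j r k ∈ Iic r ↔ k ∈ Iic r := by
  simp only [mem_Iic]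
  by_cases h1 : k = j
  · subst h1; rw [Equiv.swap_apply_left]; simp [hj]
  · by_cases h2 : k = r
    · subst h2; rw [Equiv.swap_apply_right]; simp [hj]
    · rw [Equiv.swap_apply_of_ne_of_ne h1 h2]

theorem swap_mem_Iio {r j k l : Fin N} (hj : j < l) (hr : r < l) :
    Equiv.swap j r k ∈ Iio l ↔ k ∈ Iio l := by
  simp only [mem_Iio]
  by_cases h1 : k = j
  · subst h1; rw [Equiv.swap_apply_left]; simp [hj, hr]
  · by_cases h2 : k = r
    · subst h2; rw [Equiv.swap_apply_right]; simp [hj, hr]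
    · rw [Equiv.swap_apply_of_ne_of_ne h1 h2]

theorem rename_cf {r j : Fin N} (hj : j ≤ r) (i : ℕ) :
    rename (Equiv.swap j r) (cf r i) = cf r i := by
  have h1 := Polynomial.coeff_map (rename (R := ℂ) (Equiv.swap j r) : _ →ₐ[ℂ] _).toRingHom
    (p := ∏ j ∈ Iic r, (Polynomial.X - Polynomial.C (pv j))) i
  have h2 : ((rename (R := ℂ) (Equiv.swap j r) : _ →ₐ[ℂ] _).toRingHom) (cf r i) =
    rename (Equiv.swap j r) (cf r i) := rfl
  rw [← h2, cf, ← h1, Polynomial.map_prod]
  congr 1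
  refine prod_equiv (Equiv.swap j r) (fun k => (swap_mem_Iic hj).symm) fun k _ => ?_
  rw [Polynomial.map_sub, Polynomial.map_X, Polynomial.map_C]
  congr 2
  exact rename_pv _ _

/-- the factor of the last variables -/
noncomputable def Gf (k : Fin N) : MvPolynomial (Fin N) ℂ :=
  (1 - bv k) * bv k ^ (N - 1 - k) * ∏ j ∈ Iio k, (av k - bv k * pv j)

theorem rename_Gf {r j k : Fin N} (hj : j < k) (hr : r < k) :
    rename (Equiv.swap j r) (Gf k) = Gf k := by
  have hk : Equiv.swap j r k = k := Equiv.swap_apply_of_ne_of_ne hj.ne' hr.ne'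
  rw [Gf, map_mul, map_mul, map_sub, map_one, map_pow, map_prod, rename_bv, hk]
  congr 1
  refine prod_equiv (Equiv.swap j r) (fun l => (swap_mem_Iio hj hr).symm) fun l _ => ?_
  rw [map_sub, map_mul, rename_av, rename_bv, rename_pv, hk]

theorem rename_AA {r j : Fin N} (hj : j < r) :
    rename (Equiv.swap j r) ((∏ k ∈ Iio r, hv (k : ℕ) k) * hv (j : ℕ) r) =
      (∏ k ∈ Iio r, hv (k : ℕ) k) * hv (j : ℕ) r := by
  have hm : j ∈ Iio r := by simpa using hj
  rw [← mul_prod_erase _ _ hm, map_mul, map_mul, rename_hv, rename_hv, map_prod,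
    Equiv.swap_apply_left, Equiv.swap_apply_right]
  have : ∏ x ∈ (Iio r).erase j, rename (Equiv.swap j r) (hv (x : ℕ) x) =
      ∏ x ∈ (Iio r).erase j, hv (x : ℕ) x := by
    apply prod_congr rfl
    intro x hx
    rw [mem_erase, mem_Iio] at hx
    rw [rename_hv, Equiv.swap_apply_of_ne_of_ne hx.1 hx.2.ne]
  rw [this]
  ring

theorem step {W : MvPolynomial (Fin N) ℂ} (hW : Anti W) (r : Fin N) :
    coeff (mm N) ((∏ k ∈ Iio r, hv (k : ℕ) k) * Gf r * (∏ k ∈ Ioi r, Gf k) * W) =
    coeff (mm N) ((∏ k ∈ Iio r, hv (k : ℕ) k) * hv (r : ℕ) r * (∏ k ∈ Ioi r, Gf k) * W) := by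
  have hN := r.2
  set A := ∏ k ∈ Iio r, hv (k : ℕ) k with hA
  set G := ∏ k ∈ Ioi r, Gf k with hG
  have hGr : Gf r = bv r ^ (N - 1 - r) * ((1 - bv r) * ∏ j ∈ Iio r, (av r - bv r * pv j)) := by
    rw [Gf]; ring
  rw [hGr, Dr]
  have hsym : ∀ j < r, rename (Equiv.swap j r) G = G := by
    intro j hj
    rw [hG, map_prod]
    apply prod_congr rfl
    intro k hk
    rw [mem_Ioi] at hk
    exact rename_Gf (hj.trans hk) hk
  -- the vanishing terms
  have hz : ∀ i : ℕ, ∀ j < (r : ℕ), coeff (mm N) (A * (bv r ^ (N - 1 - r) * (cf r i *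
      (av r ^ j * bv r ^ ((r : ℕ) - j) * (-1) ^ (i - 1 - j)))) * G * W) = 0 := by
    intro i j hj
    set jj : Fin N := ⟨j, by omega⟩ with hjj
    have hjr : jj < r := hj
    apply coeff_swap hW hjr.ne
    have e : A * (bv r ^ (N - 1 - r) * (cf r i *
      (av r ^ j * bv r ^ ((r : ℕ) - j) * (-1) ^ (i - 1 - j)))) * G =
      (A * hv (jj : ℕ) r) * cf r i * (-1) ^ (i - 1 - j) * G := by
      have : bv r ^ (N - 1 - j) = bv r ^ (N - 1 - (r : ℕ)) * bv r ^ ((r : ℕ) - j) := by
        rw [← pow_add]; congr 1; omega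
      simp only [hv, hjj]
      rw [this]; ring
    rw [e, map_mul, map_mul, map_mul, hA, rename_AA hjr, rename_cf hjr.le, hsym jj hjr]
    simp
  have hz2 : coeff (mm N) (A * (bv r ^ (N - 1 - r) * ((-1) ^ ((r : ℕ) + 1) *
      bv r ^ ((r : ℕ) + 1) * ∏ j ∈ Iio r, (av j + bv j))) * G * W) = 0 := by
    have e : A * (bv r ^ (N - 1 - r) * ((-1) ^ ((r : ℕ) + 1) *
      bv r ^ ((r : ℕ) + 1) * ∏ j ∈ Iio r, (av j + bv j))) * G =
      bv r ^ N * (A * (-1) ^ ((r : ℕ) + 1) * (∏ j ∈ Iio r, (av j + bv j)) * G) := by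
      have : bv r ^ N = bv r ^ (N - 1 - (r : ℕ)) * bv r ^ ((r : ℕ) + 1) := by
        rw [← pow_add]; congr 1; omega
      rw [this]; ring
    rw [e]
    exact coeff_high r
  rw [mul_add, mul_add, add_mul, add_mul, coeff_add, hz2, add_zero, mul_sum, mul_sum, sum_mul,
    sum_mul, coeff_sum]
  have hterm : ∀ i ∈ range ((r : ℕ) + 2), coeff (mm N) (A * (bv r ^ (N - 1 - (r : ℕ)) * (cf r i *
      ∑ j ∈ range i, av r ^ j * bv r ^ ((r : ℕ) - j) * (-1) ^ (i - 1 - j))) * G * W) =
      if i = (r : ℕ) + 1 then coeff (mm N) (A * hv (r : ℕ) r * G * W) else 0 := by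
    intro i hi
    rw [mem_range] at hi
    rw [mul_sum, mul_sum, mul_sum, sum_mul, sum_mul, coeff_sum]
    split_ifs with h
    · subst h
      rw [sum_range_succ, sum_eq_zero, zero_add, cf_top]
      · congr 3
        simp [hv, mul_comm]
      · intro j hj
        exact hz _ j (by simpa using hj)
    · apply sum_eq_zero
      intro j hj
      rw [mem_range] at hj
      exact hz i j (by omega)
  rw [sum_congr rfl hterm, sum_ite_eq' (range ((r : ℕ) + 2)) ((r : ℕ) + 1)]
  simp

theorem prod_split {M : Type*} [CommMonoid M] (r : Fin N) (f : Fin N → M) :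
    ∏ k, f k = (∏ k ∈ Iio r, f k) * f r * ∏ k ∈ Ioi r, f k := by
  have h : (univ : Finset (Fin N)) = insert r (Iio r ∪ Ioi r) := by
    ext k
    simp only [mem_univ, mem_insert, mem_union, mem_Iio, mem_Ioi, true_iff]
    rcases lt_trichotomy k r with h | h | h <;> simp [h]
  rw [h, prod_insert (by simp), prod_union]
  · rw [mul_assoc, mul_left_comm]
  · rw [disjoint_left]
    intro k h1 h2
    simp only [mem_Iio, mem_Ioi] at h1 h2
    exact absurd h1 h2.asymm

theorem chain {W : MvPolynomial (Fin N) ℂ} (hW : Anti W) (r : ℕ) (hr : r ≤ N) :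
    coeff (mm N) ((∏ k, Gf k) * W) =
    coeff (mm N) ((∏ k : Fin N, if (k : ℕ) < r then hv (k : ℕ) k else Gf k) * W) := by
  induction r with
  | zero => simp
  | succ r ih =>
    rw [ih (by omega)]
    set rr : Fin N := ⟨r, hr⟩ with hrr
    have h1 : ∀ k ∈ Iio rr, (if (k : ℕ) < r then hv (k : ℕ) k else Gf k) = hv (k : ℕ) k := by
      intro k hk
      rw [mem_Iio] at hk
      have : (k : ℕ) < r := hk
      rw [if_pos this]
    have h2 : ∀ k ∈ Ioi rr, (if (k : ℕ) < r then hv (k : ℕ) k else Gf k) = Gf k := by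
      intro k hk
      rw [mem_Ioi] at hk
      have : r < (k : ℕ) := hk
      rw [if_neg (by omega)]
    have h3 : ∀ k ∈ Iio rr, (if (k : ℕ) < r + 1 then hv (k : ℕ) k else Gf k) = hv (k : ℕ) k := by
      intro k hk
      rw [mem_Iio] at hk
      have : (k : ℕ) < r := hk
      rw [if_pos (by omega)]
    have h4 : ∀ k ∈ Ioi rr, (if (k : ℕ) < r + 1 then hv (k : ℕ) k else Gf k) = Gf k := by
      intro k hk
      rw [mem_Ioi] at hk
      have : r < (k : ℕ) := hk
      rw [if_neg (by omega)]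
    rw [prod_split rr (fun k : Fin N => if (k : ℕ) < r then hv (k : ℕ) k else Gf k),
      prod_split rr (fun k : Fin N => if (k : ℕ) < r + 1 then hv (k : ℕ) k else Gf k),
      prod_congr rfl h1, prod_congr rfl h2, prod_congr rfl h3, prod_congr rfl h4]
    have e1 : (if (rr : ℕ) < r then hv (rr : ℕ) rr else Gf rr) = Gf rr := by simp [hrr]
    have e2 : (if (rr : ℕ) < r + 1 then hv (rr : ℕ) rr else Gf rr) = hv (rr : ℕ) rr := by
      simp [hrr]
    rw [e1, e2]
    exact step hW rr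

/-- The monomial `∏ t_k ^ (2k+1)`. -/
noncomputable def oddm (N : ℕ) : Fin N →₀ ℕ := Finsupp.equivFunOnFinite.symm fun k => 2 * (k : ℕ) + 1

theorem prod_bv_mul_coeff (F : MvPolynomial (Fin N) ℂ) :
    coeff (mm N) ((∏ k : Fin N, bv k ^ (N - 1 - (k : ℕ))) * F) = coeff (oddm N) F := by
  have h : (∏ k : Fin N, bv k ^ (N - 1 - (k : ℕ))) =
      (monomial (Finsupp.equivFunOnFinite.symm fun k : Fin N => 2 * (N - 1 - (k : ℕ))) 1 :
        MvPolynomial (Fin N) ℂ) := by
    rw [MvPolynomial.monomial_eq]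
    simp only [map_one, one_mul]
    rw [Finsupp.prod_fintype _ _ (fun _ => pow_zero _)]
    apply prod_congr rfl
    intro k _
    rw [bv, ← pow_mul]
    rfl
  rw [h, coeff_monomial_mul', if_pos, one_mul]
  · congr 1
    ext k
    have := k.2
    show 2 * N - 1 - 2 * (N - 1 - (k : ℕ)) = 2 * (k : ℕ) + 1
    omega
  · intro k
    show 2 * (N - 1 - (k : ℕ)) ≤ 2 * N - 1
    omega

theorem key {W : MvPolynomial (Fin N) ℂ} (hW : Anti W) :
    coeff (oddm N) ((∏ k : Fin N, ((1 - bv k) * ∏ j ∈ Iio k, (av k - bv k * pv j))) * W) =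
    coeff (oddm N) ((∏ k : Fin N, av k ^ (k : ℕ)) * W) := by
  rw [← prod_bv_mul_coeff, ← prod_bv_mul_coeff, ← mul_assoc, ← mul_assoc, ← prod_mul_distrib,
    ← prod_mul_distrib]
  have h := chain hW N le_rfl
  have e1 : ∏ k : Fin N, Gf k = ∏ i : Fin N, bv i ^ (N - 1 - (i : ℕ)) *
      ((1 - bv i) * ∏ j ∈ Iio i, (av i - bv i * pv j)) := by
    apply prod_congr rfl
    intro k _
    rw [Gf]; ring
  have e2 : (∏ k : Fin N, if (k : ℕ) < N then hv (k : ℕ) k else Gf k) =
      ∏ i : Fin N, bv i ^ (N - 1 - (i : ℕ)) * av i ^ (i : ℕ) := by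
    apply prod_congr rfl
    intro k _
    rw [if_pos k.2, hv, mul_comm]
  rw [← e1, ← e2]
  exact h

theorem coeff_prod_aeval (f : Fin N → Polynomial ℂ) (e : Fin N →₀ ℕ) :
    coeff e (∏ k, Polynomial.aeval (X k) (f k) : MvPolynomial (Fin N) ℂ) =
      ∏ k, (f k).coeff (e k) := by
  classical
  obtain ⟨d, hd⟩ : ∃ d, ∀ k, (f k).natDegree < d :=
    ⟨(univ.sup fun k => (f k).natDegree) + 1, fun k => Nat.lt_succ_of_le
      (le_sup (f := fun k => (f k).natDegree) (mem_univ k))⟩
  have h1 : ∀ k, (Polynomial.aeval (X k : MvPolynomial (Fin N) ℂ)) (f k) =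
      ∑ i ∈ range d, C ((f k).coeff i) * X k ^ i := by
    intro k
    conv_lhs => rw [(f k).as_sum_range' d (hd k)]
    rw [map_sum]
    apply sum_congr rfl
    intro i _
    rw [Polynomial.aeval_monomial]
    rfl
  simp only [h1]
  rw [prod_univ_sum, coeff_sum]
  have h2 : ∀ x ∈ Fintype.piFinset (fun _ : Fin N => range d),
      coeff e (∏ k, (C ((f k).coeff (x k)) * X k ^ (x k) : MvPolynomial (Fin N) ℂ)) =
      if x = e then ∏ k, (f k).coeff (x k) else 0 := by
    intro x _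
    have : (∏ k, (C ((f k).coeff (x k)) * X k ^ (x k)) : MvPolynomial (Fin N) ℂ) =
        monomial (Finsupp.equivFunOnFinite.symm x) (∏ k, (f k).coeff (x k)) := by
      rw [monomial_eq, Finsupp.prod_fintype _ _ (fun _ => pow_zero _), prod_mul_distrib, map_prod]
      rfl
    rw [this, coeff_monomial]
    congr 1
    rw [eq_iff_iff]
    constructor
    · rintro rfl
      rfl
    · intro h
      ext k
      exact congrFun h k
  rw [sum_congr rfl h2]
  by_cases he : (e : Fin N → ℕ) ∈ Fintype.piFinset (fun _ : Fin N => range d)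
  · rw [sum_ite_eq' _ (e : Fin N → ℕ), if_pos he]
  · rw [sum_ite_eq' _ (e : Fin N → ℕ), if_neg he]
    rw [Fintype.mem_piFinset] at he
    push Not at he
    obtain ⟨k, hk⟩ := he
    rw [mem_range, not_lt] at hk
    symm
    apply prod_eq_zero (mem_univ k)
    exact Polynomial.coeff_eq_zero_of_natDegree_lt ((hd k).trans_le hk)

theorem coeff_det (φ ψ : Fin N → Polynomial ℂ) (e : Fin N →₀ ℕ) :
    coeff e ((∏ k, Polynomial.aeval (X k) (φ k)) *
      (Matrix.of fun k j : Fin N => Polynomial.aeval (X k) (ψ j)).det :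
        MvPolynomial (Fin N) ℂ) =
      (Matrix.of fun k j : Fin N => (φ k * ψ j).coeff (e k)).det := by
  rw [Matrix.det_apply, Matrix.det_apply, mul_sum, coeff_sum]
  apply sum_congr rfl
  intro s _
  rw [mul_smul_comm]
  have h1 : (∏ k, Polynomial.aeval (X k) (φ k)) *
      ∏ i, (Matrix.of fun k j : Fin N => Polynomial.aeval (X k) (ψ j)) (s i) i =
      (∏ k, Polynomial.aeval (X k) (φ k * ψ (s.symm k)) : MvPolynomial (Fin N) ℂ) := by
    rw [← Equiv.prod_comp s.symm (fun i => (Matrix.of fun k j : Fin N =>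
      Polynomial.aeval (X k : MvPolynomial (Fin N) ℂ) (ψ j)) (s i) i), ← prod_mul_distrib]
    apply prod_congr rfl
    intro k _
    simp
  rw [h1]
  have h2 : ∏ k, (φ k * ψ (s.symm k)).coeff (e k) =
      ∏ i, (Matrix.of fun k j : Fin N => (φ k * ψ j).coeff (e k)) (s i) i := by
    rw [← Equiv.prod_comp s (fun k => (φ k * ψ (s.symm k)).coeff (e k))]
    simp
  rw [← h2, ← coeff_prod_aeval]
  rcases Int.units_eq_one_or (Equiv.Perm.sign s) with h | h <;> simp [h]

/-- the antisymmetric factor -/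
noncomputable def WW (N : ℕ) (w : Polynomial ℂ) : MvPolynomial (Fin N) ℂ :=
  (∏ k, Polynomial.aeval (X k) w) * (Matrix.vandermonde pv).det

theorem anti_WW (w : Polynomial ℂ) : Anti (WW N w) := by
  intro i j hij
  rw [WW, map_mul, map_prod]
  have h1 : ∏ k, rename (Equiv.swap i j) (Polynomial.aeval (X k) w) =
      (∏ k, Polynomial.aeval (X k) w : MvPolynomial (Fin N) ℂ) := by
    rw [← Equiv.prod_comp (Equiv.swap i j) (fun k => Polynomial.aeval (X k : MvPolynomial (Fin N) ℂ) w)]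
    apply prod_congr rfl
    intro k _
    rw [← Polynomial.aeval_algHom_apply, rename_X]
  have h2 : rename (Equiv.swap i j) (Matrix.vandermonde (pv (N := N))).det =
      -(Matrix.vandermonde (pv (N := N))).det := by
    have h3 : rename (R := ℂ) (Equiv.swap i j) (Matrix.vandermonde (pv (N := N))).det =
        ((rename (R := ℂ) (Equiv.swap i j)).mapMatrix (Matrix.vandermonde (pv (N := N)))).det :=
      AlgHom.map_det _ _
    rw [h3]
    have h4 : (rename (R := ℂ) (Equiv.swap i j)).mapMatrix (Matrix.vandermonde (pv (N := N))) =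
        (Matrix.vandermonde (pv (N := N))).submatrix (Equiv.swap i j) id := by
      ext1 k l
      simp [Matrix.vandermonde_apply, rename_pv]
    rw [h4, Matrix.det_permute, Equiv.Perm.sign_swap hij]
    simp
  rw [h1, h2, mul_neg]

/-- `((1+t)^k v p^j)_{2k+1}` -/
noncomputable def MV (N : ℕ) (v : Polynomial ℂ) : Matrix (Fin N) (Fin N) ℂ :=
  Matrix.of fun k j => ((1 + Polynomial.X) ^ (k : ℕ) * v *
    (Polynomial.X * (1 + Polynomial.X)) ^ (j : ℕ)).coeff (2 * (k : ℕ) + 1)

theorem key_det (w : Polynomial ℂ) :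
    coeff (oddm N) ((∏ k : Fin N, ((1 - bv k) * ∏ j ∈ Iio k, (av k - bv k * pv j))) * WW N w) =
      (MV N w).det := by
  rw [key (anti_WW w), WW, ← mul_assoc, ← prod_mul_distrib]
  have h1 : (∏ k : Fin N, (av k ^ (k : ℕ) * Polynomial.aeval (X k) w) : MvPolynomial (Fin N) ℂ) =
      ∏ k : Fin N, Polynomial.aeval (X k) ((1 + Polynomial.X) ^ (k : ℕ) * w) := by
    apply prod_congr rfl
    intro k _
    simp [av]
  have h2 : Matrix.vandermonde (pv (N := N)) = Matrix.of fun k j : Fin N =>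
      Polynomial.aeval (X k : MvPolynomial (Fin N) ℂ)
        (((Polynomial.X * (1 + Polynomial.X)) ^ (j : ℕ) : Polynomial ℂ)) := by
    ext1 k j
    simp [Matrix.vandermonde_apply, pv]
  rw [h1, h2, coeff_det]
  rfl

theorem row_op (v : Polynomial ℂ) :
    (MV N ((1 + Polynomial.X + Polynomial.X ^ 2) * v)).det = (MV N ((1 + Polynomial.X) * v)).det := by
  cases N with
  | zero => simp
  | succ n =>
    symm
    apply Matrix.det_eq_of_forall_row_eq_smul_add_pred (fun _ => -1)
    · intro j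
      simp only [MV, Matrix.of_apply, Fin.val_zero, pow_zero, one_mul, mul_zero, zero_add]
      have : (1 + Polynomial.X + Polynomial.X ^ 2) * v * (Polynomial.X * (1 + Polynomial.X)) ^ (j : ℕ) =
        (1 + Polynomial.X) * v * (Polynomial.X * (1 + Polynomial.X)) ^ (j : ℕ) +
        Polynomial.X ^ 2 * (v * (Polynomial.X * (1 + Polynomial.X)) ^ (j : ℕ)) := by ring
      rw [this, Polynomial.coeff_add, Polynomial.coeff_X_pow_mul']
      simp
    · intro i j
      simp only [MV, Matrix.of_apply, Fin.val_succ, Fin.val_castSucc]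
      have : (1 + Polynomial.X) ^ ((i : ℕ) + 1) * ((1 + Polynomial.X + Polynomial.X ^ 2) * v) *
        (Polynomial.X * (1 + Polynomial.X)) ^ (j : ℕ) =
        (1 + Polynomial.X) ^ ((i : ℕ) + 1) * ((1 + Polynomial.X) * v) *
          (Polynomial.X * (1 + Polynomial.X)) ^ (j : ℕ) +
        Polynomial.X ^ 2 * ((1 + Polynomial.X) ^ (i : ℕ) * ((1 + Polynomial.X) * v) *
          (Polynomial.X * (1 + Polynomial.X)) ^ (j : ℕ)) := by ring
      rw [this, Polynomial.coeff_add, Polynomial.coeff_X_pow_mul',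
        if_pos (by omega), show 2 * ((i : ℕ) + 1) + 1 - 2 = 2 * (i : ℕ) + 1 by omega]
      ring

theorem MV_bm (s : ℕ) : (MV N ((1 + Polynomial.X) ^ s)).det = (((bm s N).det : ℚ) : ℂ) := by
  have h : (((bm s N).det : ℚ) : ℂ) = ((algebraMap ℚ ℂ).mapMatrix (bm s N)).det := by
    rw [← RingHom.map_det]; rfl
  rw [h]
  congr 1
  ext1 k j
  simp only [MV, Matrix.of_apply, bm, RingHom.mapMatrix_apply, Matrix.map_apply]
  have e : ((1 : Polynomial ℂ) + Polynomial.X) ^ (k : ℕ) * (1 + Polynomial.X) ^ s *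
      (Polynomial.X * (1 + Polynomial.X)) ^ (j : ℕ) =
      Polynomial.X ^ (j : ℕ) * (1 + Polynomial.X) ^ (s + k + j) := by
    rw [mul_pow]; ring
  rw [e, Polynomial.coeff_X_pow_mul']
  split_ifs with hj
  · rw [Polynomial.coeff_one_add_X_pow]; simp
  · simp

/-- The coefficient of `∏ t_k^(2k+1)` in the main product is a binomial determinant. -/
theorem main_coeff (s : ℕ) :
    coeff (oddm N) ((∏ k : Fin N, ((1 - bv k) * ∏ j ∈ Iio k, (av k - bv k * pv j))) *
      WW N ((1 + Polynomial.X + Polynomial.X ^ 2) ^ 2 * (1 + Polynomial.X) ^ s)) =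
      (((bm (s + 2) N).det : ℚ) : ℂ) := by
  rw [key_det, pow_two, mul_assoc, row_op, mul_left_comm, row_op]
  have : ((1 : Polynomial ℂ) + Polynomial.X) * ((1 + Polynomial.X) * (1 + Polynomial.X) ^ s) =
    (1 + Polynomial.X) ^ (s + 2) := by ring
  rw [this, MV_bm]

/-! ### Reduction of the pairings to coefficients -/

/-- `e` lowered by one at the places where `ε` is `false`. -/
noncomputable def low (e : Fin N → ℕ) (ε : Fin N → Bool) : Fin N →₀ ℕ :=
  Finsupp.equivFunOnFinite.symm fun k => if ε k then e k else e k - 1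

theorem coeff_prod_affine (α β : ℂ) (e : Fin N → ℕ) (he : ∀ k, 1 ≤ e k)
    (Q : MvPolynomial (Fin N) ℂ) :
    coeff (Finsupp.equivFunOnFinite.symm e) ((∏ k, (C α + C β * X k)) * Q) =
      ∑ ε : Fin N → Bool, (∏ k, if ε k then α else β) * coeff (low e ε) Q := by
  classical
  have h1 : (∏ k, (C α + C β * X k) : MvPolynomial (Fin N) ℂ) =
      ∑ ε : Fin N → Bool, ∏ k, (if ε k then C α else C β * X k) := by
    have : ∀ k : Fin N, (C α + C β * X k : MvPolynomial (Fin N) ℂ) =
        ∑ b : Bool, (if b then C α else C β * X k) := by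
      intro k; simp
    simp only [this]
    rw [prod_univ_sum, Fintype.piFinset_univ]
  rw [h1, sum_mul, coeff_sum]
  apply sum_congr rfl
  intro ε _
  have h2 : (∏ k, (if ε k then C α else C β * X k) : MvPolynomial (Fin N) ℂ) =
      monomial (Finsupp.equivFunOnFinite.symm fun k => if ε k then 0 else 1)
        (∏ k, if ε k then α else β) := by
    rw [monomial_eq, Finsupp.prod_fintype _ _ (fun _ => pow_zero _), map_prod, ← prod_mul_distrib]
    apply prod_congr rfl
    intro k _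
    show _ = _ * X k ^ (if ε k then 0 else 1)
    split_ifs <;> simp
  rw [h2, coeff_monomial_mul', if_pos]
  · congr 2
    ext k
    show e k - (if ε k then 0 else 1) = if ε k then e k else e k - 1
    split_ifs <;> simp
  · intro k
    show (if ε k then 0 else 1) ≤ e k
    split_ifs
    · exact Nat.zero_le _
    · exact he k

theorem sum_rev (w : Bool → ℂ) (F : (Fin N → Bool) → ℂ) :
    ∑ ε : Fin N → Bool, (∏ k, w (ε k)) * F (fun k => ε (Fin.rev k)) =
      ∑ ε : Fin N → Bool, (∏ k, w (ε k)) * F ε := by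
  refine Fintype.sum_equiv (Equiv.arrowCongr Fin.revPerm (Equiv.refl Bool)) _ _ fun ε => ?_
  congr 1
  · rw [← Equiv.prod_comp Fin.revPerm]
    rfl

theorem swap_prod {M : Type*} [CommMonoid M] (f : Fin N → Fin N → M) :
    ∏ k : Fin N, ∏ l ∈ Ioi k, f k l = ∏ l : Fin N, ∏ k ∈ Iio l, f k l := by
  apply prod_comm'
  intro x y
  simp

theorem Qp_mul (q a : ℂ) (hq : q ^ 2 + q + 1 = 0) (ha : a ^ 2 = -q ^ 2) :
    (∏ k : Fin N, (C a⁻¹ + C a * X k)) * Qp q N =
      C (a⁻¹ ^ N) * ((∏ k : Fin N, ((1 - bv k) * ∏ j ∈ Iio k, (av k - bv k * pv j))) *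
        WW N ((1 + Polynomial.X + Polynomial.X ^ 2) ^ 2)) := by
  have hq0 : q ≠ 0 := by rintro rfl; norm_num at hq
  have ha0 : a ≠ 0 := by
    rintro rfl
    apply hq0
    have : q ^ 2 = 0 := by linear_combination ha
    simpa using this
  have hai : a = -q ^ 2 * a⁻¹ := by
    field_simp
    exact ha
  have hq3 : q ^ 3 = 1 := by linear_combination (q - 1) * hq
  rw [Qp, WW, Matrix.det_vandermonde]
  have h1 : (∏ k : Fin N, ∏ l ∈ Ioi k,
      (X l - X k) * (1 + X l + X k * X l) * (1 - X k * X l) * (1 + X k + X l) :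
      MvPolynomial (Fin N) ℂ) = (∏ k : Fin N, ∏ l ∈ Ioi k, (pv l - pv k)) *
      ∏ l : Fin N, ∏ k ∈ Iio l, (av l - bv l * pv k) := by
    rw [← swap_prod (fun k l => av l - bv l * pv k), ← prod_mul_distrib]
    apply prod_congr rfl
    intro k _
    rw [← prod_mul_distrib]
    apply prod_congr rfl
    intro l _
    simp only [pv, av, bv]
    ring
  have h2 : (∏ k : Fin N, (C a⁻¹ + C a * X k)) *
      (∏ k : Fin N, (1 - C q * X k) * (1 - X k ^ 2) * (1 + X k + X k ^ 2)) =
      C (a⁻¹ ^ N) * ((∏ k : Fin N, (1 - bv k)) * ∏ k : Fin N,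
        Polynomial.aeval (X k : MvPolynomial (Fin N) ℂ)
          ((1 + Polynomial.X + Polynomial.X ^ 2) ^ 2 : Polynomial ℂ)) := by
    have h3 : (C (a⁻¹ ^ N) : MvPolynomial (Fin N) ℂ) = ∏ _k : Fin N, C a⁻¹ := by
      rw [prod_const, map_pow, card_univ, Fintype.card_fin]
    rw [h3, ← prod_mul_distrib, ← prod_mul_distrib, ← prod_mul_distrib]
    apply prod_congr rfl
    intro k _
    have h4 : (C a : MvPolynomial (Fin N) ℂ) = -C q ^ 2 * C a⁻¹ := by
      conv_lhs => rw [hai]
      simp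
    have h5 : (C q : MvPolynomial (Fin N) ℂ) ^ 2 + C q + 1 = 0 := by
      rw [← map_pow, ← map_add, ← map_one (C : ℂ →+* MvPolynomial (Fin N) ℂ), ← map_add, hq,
        map_zero]
    have h6 : (C q : MvPolynomial (Fin N) ℂ) ^ 3 = 1 := by
      rw [← map_pow, hq3, map_one]
    rw [h4]
    simp only [bv, map_pow, map_add, map_one, Polynomial.aeval_X]
    linear_combination (C a⁻¹ * (1 - X k ^ 2) * (1 + X k + X k ^ 2)) * (-X k * h5 + X k ^ 2 * h6)
  rw [h1, prod_mul_distrib (f := fun k : Fin N => 1 - bv k)]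
  linear_combination ((∏ k : Fin N, ∏ l ∈ Ioi k, (pv l - pv k)) *
      ∏ l : Fin N, ∏ k ∈ Iio l, (av l - bv l * pv k)) * h2

theorem strictMono_A (n : ℕ) (ε : Fin n → Bool) :
    StrictMono fun k : Fin n => 2 * (k : ℕ) + (if ε k then 2 else 3) := by
  intro i j hij
  have : (i : ℕ) < j := hij
  show 2 * (i : ℕ) + (if ε i then 2 else 3) < 2 * (j : ℕ) + (if ε j then 2 else 3)
  split_ifs <;> omega

theorem DA_card (n : ℕ) (ε : Fin n → Bool) : (DA n ε).card = n := by
  rw [DA, card_image_of_injective _ (strictMono_A n ε).injective]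
  simp

theorem Psi_DA (q : ℂ) (n : ℕ) (ε : Fin n → Bool) :
    Psi q n (DA n ε) = coeff (low (fun k => 2 * (k : ℕ) + 1) fun k => ε (Fin.rev k)) (Qp q n) := by
  rw [Psi, dif_pos (DA_card n ε)]
  congr 1
  have h := Finset.orderEmbOfFin_unique (DA_card n ε) (f := fun k : Fin n =>
    2 * (k : ℕ) + (if ε k then 2 else 3)) (fun k => mem_image_of_mem _ (mem_univ k))
    (strictMono_A n ε)
  ext k
  show 2 * n + 1 - (DA n ε).orderEmbOfFin (DA_card n ε) (Fin.rev k) =
    if ε (Fin.rev k) then 2 * (k : ℕ) + 1 else 2 * (k : ℕ) + 1 - 1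
  rw [← congrFun h (Fin.rev k)]
  have hk := k.2
  simp only [Fin.val_rev]
  split_ifs <;> omega

theorem prod_ite_eq (a : ℂ) (ε : Fin N → Bool) :
    (∏ k, if ε k then a⁻¹ else a) = ∏ k, (fun b : Bool => if b then a⁻¹ else a) (ε k) := rfl

end DetAux

open DetAux MvPolynomial in
theorem fA_eq (q a : ℂ) (hq : q ^ 2 + q + 1 = 0) (ha : a ^ 2 = -q ^ 2) (n : ℕ) :
    fA a n (Psi q n) = a⁻¹ ^ n * (((bm 2 n).det : ℚ) : ℂ) := by
  have h1 : fA a n (Psi q n) = coeff (oddm n) ((∏ k : Fin n, (C a⁻¹ + C a * X k)) * Qp q n) := by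
    rw [oddm, coeff_prod_affine _ _ _ (fun k => by omega), fA]
    rw [← sum_rev (fun b => if b then a⁻¹ else a)
      (fun ε => coeff (low (fun k : Fin n => 2 * (k : ℕ) + 1) ε) (Qp q n))]
    apply sum_congr rfl
    intro ε _
    rw [Psi_DA]
  rw [h1, Qp_mul q a hq ha, coeff_C_mul]
  have := main_coeff (N := n) 0
  rw [pow_zero, mul_one] at this
  rw [this]

namespace DetAux

open MvPolynomial

variable {N : ℕ}

/-- setting `X 0 = 0` -/
noncomputable def phi (N : ℕ) : MvPolynomial (Fin (N + 1)) ℂ →+* MvPolynomial (Fin N) ℂ :=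
  Polynomial.constantCoeff.comp (MvPolynomial.finSuccEquiv ℂ N : _ →+* _)

theorem phi_apply (F : MvPolynomial (Fin (N + 1)) ℂ) :
    phi N F = (MvPolynomial.finSuccEquiv ℂ N F).coeff 0 := rfl

theorem phi_zero : phi N (X 0) = 0 := by
  rw [phi_apply, finSuccEquiv_X_zero, Polynomial.coeff_X_zero]

theorem phi_succ (k : Fin N) : phi N (X k.succ) = X k := by
  rw [phi_apply, finSuccEquiv_X_succ, Polynomial.coeff_C_zero]

theorem phi_C (c : ℂ) : phi N (C c) = C c := by
  rw [phi_apply, finSuccEquiv_apply]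
  simp

theorem coeff_phi (e : Fin N →₀ ℕ) (F : MvPolynomial (Fin (N + 1)) ℂ) :
    coeff (Finsupp.cons 0 e) F = coeff e (phi N F) := by
  rw [phi_apply, finSuccEquiv_coeff_coeff]

theorem phi_Qp (q : ℂ) : phi N (Qp q (N + 1)) =
    (∏ k : Fin N, (X k * (1 + X k) ^ 2)) * Qp q N := by
  simp only [Qp, map_mul, map_prod, map_sub, map_add, map_one, map_pow, phi_C]
  rw [Fin.prod_univ_succ, Fin.prod_univ_succ (fun k : Fin (N + 1) => ∏ l ∈ Ioi k, _)]
  rw [Fin.prod_Ioi_zero]
  simp only [Fin.prod_Ioi_succ, phi_zero, phi_succ]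
  have : (∏ j : Fin N, ((X j - 0) * (1 + X j + 0 * X j) * (1 - 0 * X j) * (1 + 0 + X j)) :
      MvPolynomial (Fin N) ℂ) = ∏ k : Fin N, (X k * (1 + X k) ^ 2) := by
    apply prod_congr rfl
    intro k _
    ring
  rw [this]
  ring

theorem strictMono_C (N : ℕ) (ε : Fin N → Bool) :
    StrictMono (Fin.snoc (α := fun _ => ℕ)
      (fun k : Fin N => 2 * (k : ℕ) + 3 + (if ε k then 0 else 1)) (2 * (N + 1) + 1)) := by
  rw [Fin.strictMono_iff_lt_succ]
  intro i
  have hi := i.2
  rw [Fin.snoc_castSucc]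
  by_cases h : (i : ℕ) + 1 < N
  · have e : i.succ = Fin.castSucc ⟨(i : ℕ) + 1, h⟩ := by ext; simp
    rw [e, Fin.snoc_castSucc]
    dsimp only
    split_ifs <;> omega
  · have e : i.succ = Fin.last N := by
      ext
      simp only [Fin.val_succ, Fin.val_last]
      omega
    rw [e, Fin.snoc_last]
    split_ifs <;> omega

theorem DC_eq (N : ℕ) (ε : Fin N → Bool) : DC (N + 1) 1 ε =
    insert (2 * (N + 1) + 1) (univ.image fun k : Fin N =>
      2 * (k : ℕ) + 3 + (if ε k then 0 else 1)) := by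
  rw [DC]
  congr 1

theorem DC_mem (N : ℕ) (ε : Fin N → Bool) (k : Fin (N + 1)) :
    (Fin.snoc (α := fun _ => ℕ) (fun k : Fin N => 2 * (k : ℕ) + 3 + (if ε k then 0 else 1))
      (2 * (N + 1) + 1) : Fin (N + 1) → ℕ) k ∈ DC (N + 1) 1 ε := by
  rw [DC_eq]
  refine Fin.lastCases ?_ (fun i => ?_) k
  · rw [Fin.snoc_last]; exact mem_insert_self _ _
  · rw [Fin.snoc_castSucc]
    exact mem_insert_of_mem (mem_image_of_mem _ (mem_univ i))

theorem DC_card (N : ℕ) (ε : Fin N → Bool) : (DC (N + 1) 1 ε).card = N + 1 := by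
  rw [DC_eq, card_insert_of_notMem, card_image_of_injective]
  · simp
  · intro i j h
    dsimp only at h
    ext
    split_ifs at h <;> omega
  · simp only [mem_image, mem_univ, true_and, not_exists]
    intro k h
    have := k.2
    split_ifs at h <;> omega

theorem Psi_DC (q : ℂ) (N : ℕ) (ε : Fin N → Bool) :
    Psi q (N + 1) (DC (N + 1) 1 ε) =
      coeff (low (fun k => 2 * (k : ℕ) + 2) fun k => ε (Fin.rev k)) (phi N (Qp q (N + 1))) := by
  rw [← coeff_phi, Psi, dif_pos (DC_card N ε)]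
  congr 1
  have h := Finset.orderEmbOfFin_unique (DC_card N ε) (DC_mem N ε) (strictMono_C N ε)
  ext k
  refine Fin.cases ?_ (fun i => ?_) k
  · rw [Finsupp.cons_zero]
    show 2 * (N + 1) + 1 - (DC (N + 1) 1 ε).orderEmbOfFin (DC_card N ε) (Fin.rev 0) = 0
    rw [← congrFun h (Fin.rev 0), Fin.rev_zero, Fin.snoc_last]
    omega
  · rw [Finsupp.cons_succ]
    show 2 * (N + 1) + 1 - (DC (N + 1) 1 ε).orderEmbOfFin (DC_card N ε) (Fin.rev i.succ) =
      if ε (Fin.rev i) then 2 * (i : ℕ) + 2 else 2 * (i : ℕ) + 2 - 1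
    rw [← congrFun h (Fin.rev i.succ), Fin.rev_succ, Fin.snoc_castSucc]
    have hi := i.2
    simp only [Fin.val_rev]
    split_ifs <;> omega

theorem coeff_even (F : MvPolynomial (Fin N) ℂ) :
    coeff (Finsupp.equivFunOnFinite.symm fun k : Fin N => 2 * (k : ℕ) + 2)
      ((∏ k : Fin N, X k) * F) = coeff (oddm N) F := by
  have h : (∏ k : Fin N, X k) = (monomial (Finsupp.equivFunOnFinite.symm fun _ : Fin N => 1) 1 :
        MvPolynomial (Fin N) ℂ) := by
    rw [MvPolynomial.monomial_eq]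
    simp only [map_one, one_mul]
    rw [Finsupp.prod_fintype _ _ (fun _ => pow_zero _)]
    apply prod_congr rfl
    intro k _
    show X k = X k ^ 1
    rw [pow_one]
  rw [h, coeff_monomial_mul', if_pos, one_mul]
  · congr 1
    ext k
    show 2 * (k : ℕ) + 2 - 1 = 2 * (k : ℕ) + 1
    omega
  · intro k
    show 1 ≤ 2 * (k : ℕ) + 2
    omega

end DetAux

open DetAux MvPolynomial in
theorem fC_eq (q a : ℂ) (hq : q ^ 2 + q + 1 = 0) (ha : a ^ 2 = -q ^ 2) (n : ℕ) (hn : 1 ≤ n) :
    fC a n 1 (Psi q n) = a⁻¹ ^ (n - 1) * (((bm 4 (n - 1)).det : ℚ) : ℂ) := by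
  obtain ⟨N, rfl⟩ := Nat.exists_eq_add_of_le' hn
  show fC a (N + 1) 1 (Psi q (N + 1)) = a⁻¹ ^ N * (((bm 4 N).det : ℚ) : ℂ)
  have h1 : fC a (N + 1) 1 (Psi q (N + 1)) =
      coeff (Finsupp.equivFunOnFinite.symm fun k : Fin N => 2 * (k : ℕ) + 2)
        ((∏ k : Fin N, (C a⁻¹ + C a * X k)) * phi N (Qp q (N + 1))) := by
    rw [coeff_prod_affine _ _ _ (fun k => by omega), fC]
    rw [← sum_rev (fun b => if b then a⁻¹ else a)
      (fun ε => coeff (low (fun k : Fin N => 2 * (k : ℕ) + 2) ε) (phi N (Qp q (N + 1))))]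
    apply sum_congr rfl
    intro ε _
    congr 1
    exact Psi_DC q N ε
  have h2 : (∏ k : Fin N, (C a⁻¹ + C a * X k)) * phi N (Qp q (N + 1)) =
      (∏ k : Fin N, X k) * (C (a⁻¹ ^ N) * ((∏ k : Fin N, ((1 - bv k) *
        ∏ j ∈ Iio k, (av k - bv k * pv j))) *
        WW N ((1 + Polynomial.X + Polynomial.X ^ 2) ^ 2 * (1 + Polynomial.X) ^ 2))) := by
    rw [phi_Qp, mul_left_comm, Qp_mul q a hq ha, WW, WW]
    have h3 : (∏ k : Fin N, (X k * (1 + X k) ^ 2) : MvPolynomial (Fin N) ℂ) =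
        (∏ k : Fin N, X k) * ∏ k : Fin N, Polynomial.aeval (X k : MvPolynomial (Fin N) ℂ)
          ((1 + Polynomial.X) ^ 2 : Polynomial ℂ) := by
      rw [← prod_mul_distrib]
      apply prod_congr rfl
      intro k _
      simp
    simp only [map_mul (Polynomial.aeval _), prod_mul_distrib] at h3 ⊢
    rw [h3]
    ring
  rw [h1, h2, coeff_even, coeff_C_mul, main_coeff]

end Pool.Agent.H75.Exact
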