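import Pool.Agent.H75.Exact.Inh

set_option autoImplicit false
open Finset

/-! Mirror (particle-hole) duality of the inhomogeneous vector `ut`. -/

namespace Pool.Agent.H75.Exact

/-! ### small parameters -/

lemma one_add_ne_zero_of_norm {w : ℂ} (h : ‖w‖ < 1) : 1 + w ≠ 0 := by
  intro h0
  have : w = -1 := by linear_combination h0
  rw [this] at h
  simp at h

lemma sm1 {x : ℂ} (hx : ‖x‖ ≤ 1 / 8) : 1 + x ≠ 0 :=
  one_add_ne_zero_of_norm (by linarith)

lemma sm2 {x y : ℂ} (hx : ‖x‖ ≤ 1 / 8) (hy : ‖y‖ ≤ 1 / 8) : 1 + x + y ≠ 0 := by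
  rw [add_assoc]
  exact one_add_ne_zero_of_norm (by linarith [norm_add_le x y])

lemma sm_mul {x y : ℂ} (hx : ‖x‖ ≤ 1 / 8) (hy : ‖y‖ ≤ 1 / 8) : ‖x * y‖ ≤ 1 / 8 := by
  rw [norm_mul]
  nlinarith [norm_nonneg x, norm_nonneg y]

lemma sm3 {x y : ℂ} (hx : ‖x‖ ≤ 1 / 8) (hy : ‖y‖ ≤ 1 / 8) : 1 - x * y ≠ 0 := by
  have := sm1 (x := -(x * y)) (by rw [norm_neg]; exact sm_mul hx hy)
  rwa [← sub_eq_add_neg] at this

lemma sm4 {x y : ℂ} (hx : ‖x‖ ≤ 1 / 8) (hy : ‖y‖ ≤ 1 / 8) : 1 + x + x * y ≠ 0 :=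
  sm2 hx (sm_mul hx hy)

lemma sm5 {x : ℂ} (hx : ‖x‖ ≤ 1 / 8) : 1 + x + x ^ 2 ≠ 0 := by
  rw [sq]; exact sm4 hx hx

lemma bar_norm {x : ℂ} (hx : ‖x‖ ≤ 1 / 8) : ‖bar x‖ ≤ 1 / 4 := by
  have h1 : (7 : ℝ) / 8 ≤ ‖1 + x‖ := by
    have := norm_sub_norm_le (1 : ℂ) (-x)
    simp only [norm_one, norm_neg, sub_neg_eq_add] at this
    linarith
  unfold bar
  rw [norm_div, norm_neg, div_le_iff₀ (by linarith)]
  linarith

lemma bar_inj {x y : ℂ} (hx : ‖x‖ ≤ 1 / 8) (hy : ‖y‖ ≤ 1 / 8) (h : bar x = bar y) : x = y := by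
  unfold bar at h
  have h1 := sm1 hx
  have h2 := sm1 hy
  field_simp at h
  linear_combination -h

/-- the smallness condition of the mirror identity -/
def Sml (N : ℕ) (z : ℕ → ℂ) : Prop :=
  (∀ i ∈ Icc 1 N, ‖z i‖ ≤ 1 / 8) ∧ Set.InjOn z (Icc 1 N)

lemma Sml.gen {N : ℕ} {z : ℕ → ℂ} (h : Sml N z) : Gen N z :=
  ⟨fun i hi => (h.1 i hi).trans (by norm_num), h.2⟩

lemma Sml.gen_zst {N : ℕ} {z : ℕ → ℂ} (h : Sml N z) : Gen N (zst N z) := by
  refine ⟨fun i hi => ?_, fun i hi j hj hij => ?_⟩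
  · rw [mem_Icc] at hi
    exact bar_norm (h.1 _ (by rw [mem_Icc]; omega))
  · simp only [coe_Icc, Set.mem_Icc] at hi hj
    have := bar_inj (h.1 _ (by rw [mem_Icc]; omega)) (h.1 _ (by rw [mem_Icc]; omega)) hij
    have := h.2 (by simp only [coe_Icc, Set.mem_Icc]; omega)
      (by simp only [coe_Icc, Set.mem_Icc]; omega) this
    omega

lemma swap_mem_Icc {N i : ℕ} (hi : 1 ≤ i) (hiN : i < N) {j : ℕ} (hj : j ∈ Icc 1 N) :
    Equiv.swap i (i + 1) j ∈ Icc 1 N := by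
  rw [mem_Icc] at hj ⊢
  rw [Equiv.swap_apply_def]
  split_ifs <;> omega

lemma Sml.sw {N : ℕ} {z : ℕ → ℂ} (h : Sml N z) {i : ℕ} (hi : 1 ≤ i) (hiN : i < N) :
    Sml N (sw z i) := by
  refine ⟨fun j hj => h.1 _ (swap_mem_Icc hi hiN hj), fun j hj k hk hjk => ?_⟩
  have := h.2 (swap_mem_Icc hi hiN hj) (swap_mem_Icc hi hiN hk) hjk
  exact (Equiv.swap i (i + 1)).injective this

/-! ### the top component -/

lemma prod_fin_Icc (c n : ℕ) (F : ℕ → ℂ) :
    ∏ l : Fin n, F (c + 1 + l) = ∏ a ∈ Icc (c + 1) (c + n), F a := by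
  apply Finset.prod_bij (fun (l : Fin n) _ => c + 1 + (l : ℕ))
  · intro l _; rw [mem_Icc]; have := l.2; omega
  · intro l _ m _ h
    apply Fin.ext
    omega
  · intro a ha
    rw [mem_Icc] at ha
    exact ⟨⟨a - (c + 1), by omega⟩, mem_univ _, by simp only; omega⟩
  · intro l _; rfl

lemma prod_Ioi_Icc (c n : ℕ) (l : Fin n) (F : ℕ → ℂ) :
    ∏ m ∈ Ioi l, F (c + 1 + m) = ∏ a ∈ Icc (c + 1 + (l : ℕ) + 1) (c + n), F a := by
  apply Finset.prod_bij (fun (m : Fin n) _ => c + 1 + (m : ℕ))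
  · intro m hm
    rw [mem_Ioi, Fin.lt_def] at hm
    rw [mem_Icc]; have := m.2; omega
  · intro l _ m _ h
    apply Fin.ext
    omega
  · intro a ha
    rw [mem_Icc] at ha
    exact ⟨⟨a - (c + 1), by omega⟩, by rw [mem_Ioi, Fin.lt_def]; simp only; omega,
      by simp only; omega⟩
  · intro l _; rfl

lemma ut_top (q : ℂ) (c n : ℕ) (w : ℕ → ℂ) :
    ut q (c + n) n w (Icc (c + 1) (c + n)) =
      (∏ a ∈ Icc (c + 1) (c + n), res q (c + n) n w a a) *
        ∏ a ∈ Icc (c + 1) (c + n), ∏ b ∈ Icc (a + 1) (c + n),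
          (w b - w a) * (1 + w a + w a * w b) * (1 - w a * w b) * (1 + w a + w b) := by
  have hcard : (Icc (c + 1) (c + n)).card = n := by simp
  unfold ut
  rw [dif_pos hcard]
  have hord : ∀ l : Fin n, (Icc (c + 1) (c + n)).orderEmbOfFin hcard l = c + 1 + l := by
    intro l
    have := Finset.orderEmbOfFin_unique hcard (f := fun l : Fin n => c + 1 + (l : ℕ))
      (fun x => by rw [mem_Icc]; have := x.2; omega)
      (fun x y hxy => by have : (x : ℕ) < y := hxy; show c + 1 + (x : ℕ) < c + 1 + y; omega)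
    exact (congrFun this l).symm
  rw [Finset.sum_eq_single (fun l : Fin n => (⟨c + l, by have := l.2; omega⟩ : Fin (c + n)))]
  · congr 1
    · rw [← prod_fin_Icc]
      apply Finset.prod_congr rfl
      intro l _
      rw [hord, show c + (l : ℕ) + 1 = c + 1 + l by omega]
    · unfold KK
      rw [← prod_fin_Icc c n (fun a => ∏ b ∈ Icc (a + 1) (c + n),
          (w b - w a) * (1 + w a + w a * w b) * (1 - w a * w b) * (1 + w a + w b))]
      apply Finset.prod_congr rfl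
      intro l _
      rw [← prod_Ioi_Icc c n l (fun b => (w b - w (c + 1 + l)) *
        (1 + w (c + 1 + l) + w (c + 1 + l) * w b) * (1 - w (c + 1 + l) * w b) *
          (1 + w (c + 1 + l) + w b))]
      apply Finset.prod_congr rfl
      intro m _
      simp only [show ∀ x : ℕ, c + x + 1 = c + 1 + x by intro x; omega]
  · intro j _ hj
    by_contra hne
    have h1 : ∀ l : Fin n, c + 1 + (l : ℕ) ≤ (j l : ℕ) + 1 := by
      intro l
      by_contra hlt
      apply hne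
      rw [Finset.prod_eq_zero (Finset.mem_univ l), zero_mul]
      rw [hord]
      unfold res
      rw [if_neg hlt]
    have h2 : ∀ l m : Fin n, l < m → j l ≠ j m := by
      intro l m hlm heq
      apply hne
      have : KK (fun l => w ((j l : ℕ) + 1)) = 0 := by
        unfold KK
        apply Finset.prod_eq_zero (Finset.mem_univ l)
        apply Finset.prod_eq_zero (Finset.mem_Ioi.2 hlm)
        simp [heq]
      rw [this, mul_zero]
    apply hj
    have key : ∀ t : ℕ, ∀ l : Fin n, n - (l : ℕ) = t → (j l : ℕ) = c + l := by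
      intro t
      induction t using Nat.strong_induction_on with
      | _ t ih =>
        intro l hl
        have hl1 := h1 l
        have hjl := (j l).2
        by_contra hne'
        have hlt : c + (l : ℕ) < j l := by omega
        set m : Fin n := ⟨(j l : ℕ) - c, by omega⟩ with hm
        have hm' : (m : ℕ) = (j l : ℕ) - c := rfl
        have hlm : l < m := by
          rw [Fin.lt_def]; omega
        have := ih (n - m) (by omega) m rfl
        apply h2 l m hlm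
        apply Fin.ext
        omega
    funext l
    apply Fin.ext
    exact key _ l rfl
  · intro h; exact absurd (mem_univ _) h

lemma prod_split_le (c n : ℕ) (f : ℕ → ℕ → ℂ) :
    ∏ a ∈ Icc (c + 1) (c + n), ∏ i ∈ Icc 1 a, f i a =
      (∏ a ∈ Icc (c + 1) (c + n), f a a) * (∏ a ∈ Icc (c + 1) (c + n), ∏ j ∈ Icc 1 c, f j a) *
        ∏ a ∈ Icc (c + 1) (c + n), ∏ b ∈ Icc (a + 1) (c + n), f a b := by
  rw [← Finset.prod_comm' (s := Icc (c + 1) (c + n)) (t := fun a => Icc (c + 1) (a - 1))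
    (f := fun a i => f i a) (by intro x y; simp only [mem_Icc]; omega),
    ← Finset.prod_mul_distrib, ← Finset.prod_mul_distrib]
  apply Finset.prod_congr rfl
  intro a ha
  rw [mem_Icc] at ha
  have : Icc 1 a = insert a (Icc 1 c ∪ Icc (c + 1) (a - 1)) := by
    ext x; simp only [mem_Icc, mem_insert, mem_union]; omega
  rw [this, Finset.prod_insert (by simp only [mem_Icc, mem_union]; omega),
    Finset.prod_union (by
      rw [Finset.disjoint_left]; intro x; simp only [mem_Icc]; omega), mul_assoc]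

lemma prod_split_all (c n : ℕ) (f : ℕ → ℕ → ℂ) :
    ∏ a ∈ Icc (c + 1) (c + n), ∏ i ∈ Icc 1 (c + n), f a i =
      (∏ a ∈ Icc (c + 1) (c + n), f a a) * (∏ a ∈ Icc (c + 1) (c + n), ∏ j ∈ Icc 1 c, f a j) *
        (∏ a ∈ Icc (c + 1) (c + n), ∏ b ∈ Icc (a + 1) (c + n), f a b) *
        ∏ a ∈ Icc (c + 1) (c + n), ∏ b ∈ Icc (a + 1) (c + n), f b a := by
  rw [← Finset.prod_comm' (s := Icc (c + 1) (c + n)) (t := fun a => Icc (c + 1) (a - 1))
    (f := fun a i => f a i) (by intro x y; simp only [mem_Icc]; omega),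
    ← Finset.prod_mul_distrib, ← Finset.prod_mul_distrib, ← Finset.prod_mul_distrib]
  apply Finset.prod_congr rfl
  intro a ha
  rw [mem_Icc] at ha
  have : Icc 1 (c + n) = insert a ((Icc 1 c ∪ Icc (a + 1) (c + n)) ∪ Icc (c + 1) (a - 1)) := by
    ext x; simp only [mem_Icc, mem_insert, mem_union]; omega
  rw [this, Finset.prod_insert (by simp only [mem_Icc, mem_union]; omega),
    Finset.prod_union (by
      rw [Finset.disjoint_left]; intro x; simp only [mem_Icc, mem_union]; omega),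
    Finset.prod_union (by
      rw [Finset.disjoint_left]; intro x; simp only [mem_Icc]; omega)]
  ring

lemma gn1 {x y : ℂ} (hx : ‖x‖ ≤ 1 / 4) (hy : ‖y‖ ≤ 1 / 4) : 1 - x * y ≠ 0 := by
  have := one_add_ne_zero_of_norm (w := -(x * y))
    (by rw [norm_neg, norm_mul]; nlinarith [norm_nonneg x, norm_nonneg y])
  rwa [← sub_eq_add_neg] at this

lemma gn2 {x y : ℂ} (hx : ‖x‖ ≤ 1 / 4) (hy : ‖y‖ ≤ 1 / 4) : 1 + x + x * y ≠ 0 := by
  rw [add_assoc]
  apply one_add_ne_zero_of_norm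
  have := norm_add_le x (x * y)
  rw [norm_mul] at this
  nlinarith [norm_nonneg x, norm_nonneg y]

theorem top_form (q : ℂ) (c n : ℕ) (w : ℕ → ℂ) (hw : Gen (c + n) w) (sgl : ℕ → ℂ)
    (hs : ∀ a ∈ Icc (c + 1) (c + n),
      (w a - q) * (w a ^ 2 - 1) * (w a - q) ^ (((c + n : ℕ) : ℤ) - 2 * n) *
        (w a - q ^ 2) ^ (((c + n : ℕ) : ℤ) - 2 * n + 1) = (w a ^ 2 - 1) * sgl a) :
    ut q (c + n) n w (Icc (c + 1) (c + n)) =
      (∏ a ∈ Icc (c + 1) (c + n), -(sgl a / (1 + w a + w a ^ 2))) *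
      (∏ a ∈ Icc (c + 1) (c + n), ∏ b ∈ Icc (a + 1) (c + n),
        -((1 + w a + w b) / (1 - w a * w b))) *
      ∏ a ∈ Icc (c + 1) (c + n), ∏ j ∈ Icc 1 c,
        (1 / ((1 - w a * w j) * (1 + w j + w j * w a))) := by
  have hres : ∀ a ∈ Icc (c + 1) (c + n), res q (c + n) n w a a =
      (w a ^ 2 - 1) * sgl a / ((∏ i ∈ Icc 1 a, (1 + w i + w a * w i)) *
        (∏ b ∈ Icc (a + 1) (c + n), (w a - w b)) * ∏ i ∈ Icc 1 (c + n), (1 - w a * w i)) := by
    intro a ha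
    unfold res
    rw [if_pos le_rfl, hs a ha]
    rw [mem_Icc] at ha
    have : (Icc a (c + n)).erase a = Icc (a + 1) (c + n) := by
      ext x; simp only [mem_Icc, mem_erase]; omega
    rw [this]
  have hT : ∀ a ∈ Icc (c + 1) (c + n), a ∈ Icc 1 (c + n) := by
    intro a; simp only [mem_Icc]; omega
  have hI : ∀ a ∈ Icc (c + 1) (c + n), ∀ b ∈ Icc (a + 1) (c + n), b ∈ Icc 1 (c + n) ∧ a ≠ b := by
    intro a _ b; simp only [mem_Icc]; omega
  rw [ut_top, Finset.prod_congr rfl hres]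
  set S := Icc (c + 1) (c + n) with hS
  -- the left-hand side
  rw [Finset.prod_div_distrib, Finset.prod_mul_distrib, Finset.prod_mul_distrib,
    Finset.prod_mul_distrib, prod_split_le c n (fun i a => 1 + w i + w a * w i),
    prod_split_all c n (fun a i => 1 - w a * w i)]
  simp only [← hS]
  -- abbreviations
  have hs1 : ∏ a ∈ S, (w a ^ 2 - 1) = (∏ a ∈ S, (-1 : ℂ)) * ∏ a ∈ S, (1 - w a * w a) := by
    rw [← Finset.prod_mul_distrib]; exact Finset.prod_congr rfl fun a _ => by ring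
  have hs2 : ∏ a ∈ S, ∏ b ∈ Icc (a + 1) (c + n), (w a - w b) =
      (∏ a ∈ S, ∏ b ∈ Icc (a + 1) (c + n), (-1 : ℂ)) *
        ∏ a ∈ S, ∏ b ∈ Icc (a + 1) (c + n), (w b - w a) := by
    simp only [← Finset.prod_mul_distrib]
    exact Finset.prod_congr rfl fun a _ => Finset.prod_congr rfl fun b _ => by ring
  have hs3 : (∏ a ∈ S, ∏ b ∈ Icc (a + 1) (c + n), (-1 : ℂ)) ^ 2 = 1 := by
    simp only [← Finset.prod_pow]
    simp
  have hK : ∏ a ∈ S, ∏ b ∈ Icc (a + 1) (c + n),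
      (w b - w a) * (1 + w a + w a * w b) * (1 - w a * w b) * (1 + w a + w b) =
      (∏ a ∈ S, ∏ b ∈ Icc (a + 1) (c + n), (w b - w a)) *
      (∏ a ∈ S, ∏ b ∈ Icc (a + 1) (c + n), (1 + w a + w b * w a)) *
      (∏ a ∈ S, ∏ b ∈ Icc (a + 1) (c + n), (1 - w a * w b)) *
      ∏ a ∈ S, ∏ b ∈ Icc (a + 1) (c + n), (1 + w a + w b) := by
    simp only [← Finset.prod_mul_distrib]
    exact Finset.prod_congr rfl fun a _ => Finset.prod_congr rfl fun b _ => by ring
  have hD : ∏ a ∈ S, ∏ b ∈ Icc (a + 1) (c + n), (1 - w b * w a) =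
      ∏ a ∈ S, ∏ b ∈ Icc (a + 1) (c + n), (1 - w a * w b) :=
    Finset.prod_congr rfl fun a _ => Finset.prod_congr rfl fun b _ => by ring
  have hR1 : ∏ a ∈ S, -(sgl a / (1 + w a + w a ^ 2)) =
      (∏ a ∈ S, (-1 : ℂ)) * (∏ a ∈ S, sgl a) / ∏ a ∈ S, (1 + w a + w a * w a) := by
    simp only [← Finset.prod_mul_distrib, ← Finset.prod_div_distrib]
    exact Finset.prod_congr rfl fun a _ => by rw [sq]; ring
  have hR2 : ∏ a ∈ S, ∏ b ∈ Icc (a + 1) (c + n), -((1 + w a + w b) / (1 - w a * w b)) =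
      (∏ a ∈ S, ∏ b ∈ Icc (a + 1) (c + n), (-1 : ℂ)) *
      (∏ a ∈ S, ∏ b ∈ Icc (a + 1) (c + n), (1 + w a + w b)) /
      ∏ a ∈ S, ∏ b ∈ Icc (a + 1) (c + n), (1 - w a * w b) := by
    simp only [← Finset.prod_mul_distrib, ← Finset.prod_div_distrib]
    exact Finset.prod_congr rfl fun a _ => Finset.prod_congr rfl fun b _ => by ring
  have hR3 : ∏ a ∈ S, ∏ j ∈ Icc 1 c, (1 / ((1 - w a * w j) * (1 + w j + w j * w a))) =
      1 / ((∏ a ∈ S, ∏ j ∈ Icc 1 c, (1 - w a * w j)) *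
        ∏ a ∈ S, ∏ j ∈ Icc 1 c, (1 + w j + w a * w j)) := by
    rw [← Finset.prod_mul_distrib]
    simp only [← Finset.prod_mul_distrib, one_div, ← Finset.prod_inv_distrib]
    exact Finset.prod_congr rfl fun a _ => Finset.prod_congr rfl fun b _ => by
      rw [mul_comm (w b) (w a)]
  rw [hs1, hs2, hK, hD, hR1, hR2, hR3]
  have n1 : ∏ a ∈ S, (1 + w a + w a * w a) ≠ 0 :=
    Finset.prod_ne_zero_iff.2 fun a ha => gn2 (hw.1 a (hT a ha)) (hw.1 a (hT a ha))
  have n2 : ∏ a ∈ S, ∏ j ∈ Icc 1 c, (1 + w j + w a * w j) ≠ 0 :=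
    Finset.prod_ne_zero_iff.2 fun a ha => Finset.prod_ne_zero_iff.2 fun j hj => by
      rw [mul_comm]
      exact gn2 (hw.1 j (by rw [mem_Icc] at hj ⊢; omega)) (hw.1 a (hT a ha))
  have n3 : ∏ a ∈ S, ∏ b ∈ Icc (a + 1) (c + n), (1 + w a + w b * w a) ≠ 0 :=
    Finset.prod_ne_zero_iff.2 fun a ha => Finset.prod_ne_zero_iff.2 fun b hb => by
      rw [mul_comm]
      exact gn2 (hw.1 a (hT a ha)) (hw.1 b (hI a ha b hb).1)
  have n4 : ∏ a ∈ S, ∏ b ∈ Icc (a + 1) (c + n), (w b - w a) ≠ 0 :=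
    Finset.prod_ne_zero_iff.2 fun a ha => Finset.prod_ne_zero_iff.2 fun b hb => by
      rw [sub_ne_zero]
      intro h
      exact (hI a ha b hb).2 (hw.2 (by exact_mod_cast (hI a ha b hb).1)
        (by exact_mod_cast hT a ha) h).symm
  have n5 : ∏ a ∈ S, (1 - w a * w a) ≠ 0 :=
    Finset.prod_ne_zero_iff.2 fun a ha => gn1 (hw.1 a (hT a ha)) (hw.1 a (hT a ha))
  have n6 : ∏ a ∈ S, ∏ j ∈ Icc 1 c, (1 - w a * w j) ≠ 0 :=
    Finset.prod_ne_zero_iff.2 fun a ha => Finset.prod_ne_zero_iff.2 fun j hj =>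
      gn1 (hw.1 a (hT a ha)) (hw.1 j (by rw [mem_Icc] at hj ⊢; omega))
  have n7 : ∏ a ∈ S, ∏ b ∈ Icc (a + 1) (c + n), (1 - w a * w b) ≠ 0 :=
    Finset.prod_ne_zero_iff.2 fun a ha => Finset.prod_ne_zero_iff.2 fun b hb =>
      gn1 (hw.1 a (hT a ha)) (hw.1 b (hI a ha b hb).1)
  generalize (∏ a ∈ S, ∏ b ∈ Icc (a + 1) (c + n), (-1 : ℂ)) = s2 at *
  generalize (∏ a ∈ S, (-1 : ℂ)) = s1 at *
  generalize ∏ a ∈ S, (1 + w a + w a * w a) = B1 at *
  generalize ∏ a ∈ S, ∏ j ∈ Icc 1 c, (1 + w j + w a * w j) = B2 at *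
  generalize ∏ a ∈ S, ∏ b ∈ Icc (a + 1) (c + n), (1 + w a + w b * w a) = B3 at *
  generalize ∏ a ∈ S, ∏ b ∈ Icc (a + 1) (c + n), (w b - w a) = K1 at *
  generalize ∏ a ∈ S, (1 - w a * w a) = D1 at *
  generalize ∏ a ∈ S, ∏ j ∈ Icc 1 c, (1 - w a * w j) = D2 at *
  generalize ∏ a ∈ S, ∏ b ∈ Icc (a + 1) (c + n), (1 - w a * w b) = D3 at *
  generalize ∏ a ∈ S, ∏ b ∈ Icc (a + 1) (c + n), (1 + w a + w b) = K4 at *
  generalize ∏ a ∈ S, sgl a = A2 at *
  have hs20 : s2 ≠ 0 := by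
    intro h; rw [h] at hs3; norm_num at hs3
  field_simp
  linear_combination (-(s1 * A2 * K4)) * hs3

/-! ### the sign of the pairs -/

lemma sgn_pairs (c n : ℕ) :
    ∏ a ∈ Icc (c + 1) (c + n), ∏ _b ∈ Icc (a + 1) (c + n), (-1 : ℂ) =
      ∏ k ∈ range n, (-1 : ℂ) ^ k := by
  rw [← prod_fin_Icc c n (fun a => ∏ _b ∈ Icc (a + 1) (c + n), (-1 : ℂ)),
    ← Finset.prod_range_reflect,
    Fin.prod_univ_eq_prod_range (fun l => ∏ _b ∈ Icc (c + 1 + l + 1) (c + n), (-1 : ℂ)) n]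
  apply Finset.prod_congr rfl
  intro l hl
  rw [mem_range] at hl
  rw [Finset.prod_const, Nat.card_Icc]
  congr 1
  omega

/-! ### reversal -/

lemma prod_rev (n m : ℕ) (F : ℕ → ℂ) :
    ∏ a ∈ Icc (n + 1) (n + m), F a = ∏ x ∈ Icc 1 m, F (n + m + 1 - x) := by
  apply Finset.prod_nbij' (fun a => n + m + 1 - a) (fun a => n + m + 1 - a)
  · intro a; simp only [mem_Icc]; omega
  · intro a; simp only [mem_Icc]; omega
  · intro a; simp only [mem_Icc]; omega
  · intro a; simp only [mem_Icc]; omega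
  · intro a ha
    simp only [mem_Icc] at ha
    rw [show n + m + 1 - (n + m + 1 - a) = a by omega]

lemma prod_rev_low (n m : ℕ) (F : ℕ → ℂ) :
    ∏ a ∈ Icc 1 n, F a = ∏ x ∈ Icc (m + 1) (n + m), F (n + m + 1 - x) := by
  apply Finset.prod_nbij' (fun a => n + m + 1 - a) (fun a => n + m + 1 - a)
  · intro a; simp only [mem_Icc]; omega
  · intro a; simp only [mem_Icc]; omega
  · intro a; simp only [mem_Icc]; omega
  · intro a; simp only [mem_Icc]; omega
  · intro a ha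
    simp only [mem_Icc] at ha
    rw [show n + m + 1 - (n + m + 1 - a) = a by omega]

lemma prod_rev_pairs (n m : ℕ) (G : ℕ → ℕ → ℂ) :
    ∏ a ∈ Icc (n + 1) (n + m), ∏ b ∈ Icc (a + 1) (n + m), G a b =
      ∏ x ∈ Icc 1 m, ∏ y ∈ Icc (x + 1) m, G (n + m + 1 - y) (n + m + 1 - x) := by
  rw [prod_rev n m]
  have h1 : ∏ x ∈ Icc 1 m, ∏ b ∈ Icc (n + m + 1 - x + 1) (n + m), G (n + m + 1 - x) b =
      ∏ x ∈ Icc 1 m, ∏ y ∈ Icc 1 (x - 1), G (n + m + 1 - x) (n + m + 1 - y) := by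
    apply Finset.prod_congr rfl
    intro x hx
    rw [mem_Icc] at hx
    apply Finset.prod_nbij' (fun a => n + m + 1 - a) (fun a => n + m + 1 - a)
    · intro a; simp only [mem_Icc]; omega
    · intro a; simp only [mem_Icc]; omega
    · intro a; simp only [mem_Icc]; omega
    · intro a; simp only [mem_Icc]; omega
    · intro a ha
      simp only [mem_Icc] at ha
      rw [show n + m + 1 - (n + m + 1 - a) = a by omega]
  rw [h1]
  exact Finset.prod_comm' (by intro x y; simp only [mem_Icc]; omega)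

/-! ### `bar` identities -/

lemma bar1 {x y : ℂ} (hx : ‖x‖ ≤ 1 / 8) (hy : ‖y‖ ≤ 1 / 8) :
    1 + bar x + bar y = (1 - x * y) / ((1 + x) * (1 + y)) := by
  have h1 := sm1 hx
  have h2 := sm1 hy
  unfold bar
  field_simp
  ring

lemma bar2 {x y : ℂ} (hx : ‖x‖ ≤ 1 / 8) (hy : ‖y‖ ≤ 1 / 8) :
    1 - bar x * bar y = (1 + x + y) / ((1 + x) * (1 + y)) := by
  have h1 := sm1 hx
  have h2 := sm1 hy
  unfold bar
  field_simp
  ring

lemma bar3 {x y : ℂ} (hx : ‖x‖ ≤ 1 / 8) (hy : ‖y‖ ≤ 1 / 8) :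
    1 + bar y + bar y * bar x = (1 + x + x * y) / ((1 + x) * (1 + y)) := by
  have h1 := sm1 hx
  have h2 := sm1 hy
  unfold bar
  field_simp
  ring

lemma bar4 {x : ℂ} (hx : ‖x‖ ≤ 1 / 8) :
    1 + bar x + bar x ^ 2 = (1 + x + x ^ 2) / (1 + x) ^ 2 := by
  have h1 := sm1 hx
  unfold bar
  field_simp
  ring

lemma prod_split_Icc (n m : ℕ) (F : ℕ → ℂ) :
    ∏ a ∈ Icc 1 (n + m), F a = (∏ a ∈ Icc 1 n, F a) * ∏ a ∈ Icc (n + 1) (n + m), F a := by
  rw [← Finset.prod_union (by rw [Finset.disjoint_left]; intro x; simp only [mem_Icc]; omega)]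
  congr 1
  ext x; simp only [mem_Icc, mem_union]; omega

lemma prod_split_pairs (n m : ℕ) (G : ℕ → ℕ → ℂ) :
    ∏ a ∈ Icc 1 (n + m), ∏ b ∈ Icc (a + 1) (n + m), G a b =
      (∏ a ∈ Icc 1 n, ∏ b ∈ Icc (a + 1) n, G a b) *
      (∏ a ∈ Icc 1 n, ∏ b ∈ Icc (n + 1) (n + m), G a b) *
      ∏ a ∈ Icc (n + 1) (n + m), ∏ b ∈ Icc (a + 1) (n + m), G a b := by
  rw [prod_split_Icc, ← Finset.prod_mul_distrib]
  congr 1
  apply Finset.prod_congr rfl
  intro a ha
  rw [mem_Icc] at ha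
  rw [← Finset.prod_union (by rw [Finset.disjoint_left]; intro x; simp only [mem_Icc]; omega)]
  congr 1
  ext x; simp only [mem_Icc, mem_union]; omega

theorem mirror_top (q : ℂ) (hq : q ^ 2 + q + 1 = 0) (n : ℕ) (z : ℕ → ℂ)
    (hz : Sml (2 * n + 1) z) :
    ut q (2 * n + 1) (n + 1) (zst (2 * n + 1) z) (Icc (n + 1) (2 * n + 1)) =
      gfac n z * ut q (2 * n + 1) n z (Icc (n + 2) (2 * n + 1)) := by
  have hN1 : 2 * n + 1 = n + (n + 1) := by ring
  have hN2 : 2 * n + 1 = (n + 1) + n := by ring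
  have hg1 : Gen (n + (n + 1)) (zst (2 * n + 1) z) := by rw [← hN1]; exact hz.gen_zst
  have hg2 : Gen ((n + 1) + n) z := by rw [← hN2]; exact hz.gen
  have hq3 : q ^ 3 = 1 := by linear_combination (q - 1) * hq
  have hs1 : ∀ a ∈ Icc (n + 1) (n + (n + 1)),
      (zst (2 * n + 1) z a - q) * (zst (2 * n + 1) z a ^ 2 - 1) *
        (zst (2 * n + 1) z a - q) ^ (((n + (n + 1) : ℕ) : ℤ) - 2 * ((n + 1 : ℕ) : ℤ)) *
        (zst (2 * n + 1) z a - q ^ 2) ^ (((n + (n + 1) : ℕ) : ℤ) - 2 * ((n + 1 : ℕ) : ℤ) + 1) =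
          (zst (2 * n + 1) z a ^ 2 - 1) * 1 := by
    intro a ha
    have e1 : ((n + (n + 1) : ℕ) : ℤ) - 2 * ((n + 1 : ℕ) : ℤ) = -1 := by push_cast; ring
    rw [e1]
    have hne : zst (2 * n + 1) z a - q ≠ 0 := by
      intro h
      have h1 : zst (2 * n + 1) z a = q := by linear_combination h
      have h2 := gn2 (hg1.1 a (by rw [mem_Icc] at ha ⊢; omega))
        (hg1.1 a (by rw [mem_Icc] at ha ⊢; omega))
      rw [h1] at h2
      exact h2 (by linear_combination hq)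
    simp only [zpow_neg, zpow_one, neg_add_cancel, zpow_zero]
    field_simp
  have hs2 : ∀ a ∈ Icc (n + 1 + 1) (n + 1 + n),
      (z a - q) * (z a ^ 2 - 1) *
        (z a - q) ^ (((n + 1 + n : ℕ) : ℤ) - 2 * (n : ℤ)) *
        (z a - q ^ 2) ^ (((n + 1 + n : ℕ) : ℤ) - 2 * (n : ℤ) + 1) =
          (z a ^ 2 - 1) * (1 + z a + z a ^ 2) ^ 2 := by
    intro a _
    have e1 : ((n + 1 + n : ℕ) : ℤ) - 2 * (n : ℤ) = 1 := by push_cast; ring
    rw [e1]
    have e2 : (z a - q) * (z a - q ^ 2) = 1 + z a + z a ^ 2 := by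
      linear_combination (-z a) * hq + hq3
    have e3 : (z a - q ^ 2) ^ ((1 : ℤ) + 1) = (z a - q ^ 2) ^ 2 := by
      norm_cast
    rw [e3, zpow_one, ← e2]
    ring
  have t1 := top_form q n (n + 1) (zst (2 * n + 1) z) hg1 (fun _ => 1) hs1
  have t2 := top_form q (n + 1) n z hg2 (fun a => (1 + z a + z a ^ 2) ^ 2) hs2
  rw [← hN1] at t1
  rw [← hN2] at t2
  rw [t1, t2]
  clear t1 t2 hs1 hs2 hg1 hg2
  have hzst : ∀ x ∈ Icc 1 (2 * n + 1), zst (2 * n + 1) z (2 * n + 1 + 1 - x) = bar (z x) := by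
    intro x hx
    rw [mem_Icc] at hx
    unfold zst
    rw [show 2 * n + 1 + 1 - (2 * n + 1 + 1 - x) = x by omega]
  have hcC : (-1 : ℂ) ^ (n + 1) = ∏ _x ∈ Icc 1 (n + 1), (-1 : ℂ) := by
    rw [Finset.prod_const, Nat.card_Icc]; rfl
  have hcD : (-1 : ℂ) ^ n = ∏ _x ∈ Icc (n + 2) (2 * n + 1), (-1 : ℂ) := by
    rw [Finset.prod_const, Nat.card_Icc]; congr 1; omega
  have hsm := hz.1
  have hCm : ∀ x ∈ Icc 1 (n + 1), x ∈ Icc 1 (2 * n + 1) := by
    intro x; simp only [mem_Icc]; omega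
  have hCm' : ∀ x ∈ Icc 1 (n + 1), ∀ y ∈ Icc (x + 1) (n + 1), y ∈ Icc 1 (2 * n + 1) := by
    intro x _ y; simp only [mem_Icc]; omega
  have hDm : ∀ x ∈ Icc (n + 2) (2 * n + 1), x ∈ Icc 1 (2 * n + 1) := by
    intro x; simp only [mem_Icc]; omega
  have hDm' : ∀ x ∈ Icc (n + 2) (2 * n + 1), ∀ y ∈ Icc (x + 1) (2 * n + 1),
      y ∈ Icc 1 (2 * n + 1) := by
    intro x _ y; simp only [mem_Icc]; omega
  -- left-hand factors
  have L1 : ∏ a ∈ Icc (n + 1) (2 * n + 1),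
      -((1 : ℂ) / (1 + zst (2 * n + 1) z a + zst (2 * n + 1) z a ^ 2)) =
      (-1) ^ (n + 1) * (∏ x ∈ Icc 1 (n + 1), (1 + z x)) ^ 2 /
        ∏ x ∈ Icc 1 (n + 1), (1 + z x + z x ^ 2) := by
    have h := prod_rev n (n + 1)
      (fun a => -((1 : ℂ) / (1 + zst (2 * n + 1) z a + zst (2 * n + 1) z a ^ 2)))
    rw [← hN1] at h
    rw [h, ← Finset.prod_pow, hcC, ← Finset.prod_mul_distrib, ← Finset.prod_div_distrib]
    apply Finset.prod_congr rfl
    intro x hx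
    rw [hzst x (hCm x hx), bar4 (hsm x (hCm x hx))]
    have := sm5 (hsm x (hCm x hx))
    have := sm1 (hsm x (hCm x hx))
    field_simp
  have L2 : ∏ a ∈ Icc (n + 1) (2 * n + 1), ∏ b ∈ Icc (a + 1) (2 * n + 1),
      -((1 + zst (2 * n + 1) z a + zst (2 * n + 1) z b) /
        (1 - zst (2 * n + 1) z a * zst (2 * n + 1) z b)) =
      (∏ k ∈ range (n + 1), (-1 : ℂ) ^ k) *
        (∏ x ∈ Icc 1 (n + 1), ∏ y ∈ Icc (x + 1) (n + 1), (1 - z x * z y)) /
        ∏ x ∈ Icc 1 (n + 1), ∏ y ∈ Icc (x + 1) (n + 1), (1 + z x + z y) := by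
    have h := prod_rev_pairs n (n + 1) (fun a b =>
      -((1 + zst (2 * n + 1) z a + zst (2 * n + 1) z b) /
        (1 - zst (2 * n + 1) z a * zst (2 * n + 1) z b)))
    rw [← hN1] at h
    have h2 := sgn_pairs 0 (n + 1)
    rw [zero_add, zero_add] at h2
    rw [h, ← h2]
    simp only [← Finset.prod_mul_distrib, ← Finset.prod_div_distrib]
    refine Finset.prod_congr rfl fun x hx => Finset.prod_congr rfl fun y hy => ?_
    have hx' := hsm x (hCm x hx)
    have hy' := hsm y (hCm' x hx y hy)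
    rw [hzst x (hCm x hx), hzst y (hCm' x hx y hy), bar1 hy' hx', bar2 hy' hx']
    have := sm2 hx' hy'
    have := sm2 hy' hx'
    have := sm1 hx'
    have := sm1 hy'
    field_simp
    ring
  have L3 : ∏ a ∈ Icc (n + 1) (2 * n + 1), ∏ j ∈ Icc 1 n,
      1 / ((1 - zst (2 * n + 1) z a * zst (2 * n + 1) z j) *
        (1 + zst (2 * n + 1) z j + zst (2 * n + 1) z j * zst (2 * n + 1) z a)) =
      (∏ x ∈ Icc 1 (n + 1), (1 + z x)) ^ (2 * n) *
        (∏ y ∈ Icc (n + 2) (2 * n + 1), (1 + z y)) ^ (2 * (n + 1)) /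
      ((∏ x ∈ Icc 1 (n + 1), ∏ y ∈ Icc (n + 2) (2 * n + 1), (1 + z x + z y)) *
        ∏ x ∈ Icc 1 (n + 1), ∏ y ∈ Icc (n + 2) (2 * n + 1), (1 + z x + z x * z y)) := by
    have h := prod_rev n (n + 1) (fun a => ∏ j ∈ Icc 1 n,
      1 / ((1 - zst (2 * n + 1) z a * zst (2 * n + 1) z j) *
        (1 + zst (2 * n + 1) z j + zst (2 * n + 1) z j * zst (2 * n + 1) z a)))
    have h' := fun a => prod_rev_low n (n + 1) (fun j =>
      1 / ((1 - zst (2 * n + 1) z a * zst (2 * n + 1) z j) *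
        (1 + zst (2 * n + 1) z j + zst (2 * n + 1) z j * zst (2 * n + 1) z a)))
    rw [← hN1] at h h'
    rw [h]
    simp only [h']
    have e2 : n + 1 + 1 = n + 2 := rfl
    rw [e2]
    have g1 : (∏ x ∈ Icc 1 (n + 1), (1 + z x)) ^ (2 * n) =
        ∏ x ∈ Icc 1 (n + 1), ∏ _y ∈ Icc (n + 2) (2 * n + 1), (1 + z x) ^ 2 := by
      rw [← Finset.prod_pow]
      refine Finset.prod_congr rfl fun x _ => ?_
      rw [Finset.prod_const, Nat.card_Icc, ← pow_mul]
      congr 2; omega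
    have g2 : (∏ y ∈ Icc (n + 2) (2 * n + 1), (1 + z y)) ^ (2 * (n + 1)) =
        ∏ _x ∈ Icc 1 (n + 1), ∏ y ∈ Icc (n + 2) (2 * n + 1), (1 + z y) ^ 2 := by
      rw [Finset.prod_const, Nat.card_Icc, Finset.prod_pow, ← pow_mul]
      rfl
    rw [g1, g2]
    simp only [← Finset.prod_mul_distrib, ← Finset.prod_div_distrib]
    refine Finset.prod_congr rfl fun x hx => Finset.prod_congr rfl fun y hy => ?_
    have hx' := hsm x (hCm x hx)
    have hy' := hsm y (hDm y hy)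
    rw [hzst x (hCm x hx), hzst y (hDm y hy), bar2 hx' hy', bar3 hx' hy']
    have := sm2 hx' hy'
    have := sm4 hx' hy'
    have := sm1 hx'
    have := sm1 hy'
    field_simp
  -- right-hand factors
  have R0 : gfac n z = (-1) ^ (n + 1) *
      (((∏ x ∈ Icc 1 (n + 1), (1 + z x)) * ∏ y ∈ Icc (n + 2) (2 * n + 1), (1 + z y)) ^ (2 * n + 2) /
        ((∏ x ∈ Icc 1 (n + 1), (1 + z x + z x ^ 2)) *
          ∏ y ∈ Icc (n + 2) (2 * n + 1), (1 + z y + z y ^ 2))) *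
      (((∏ x ∈ Icc 1 (n + 1), ∏ y ∈ Icc (x + 1) (n + 1), (1 - z x * z y)) *
        (∏ x ∈ Icc 1 (n + 1), ∏ y ∈ Icc (n + 2) (2 * n + 1), (1 - z x * z y)) *
        ∏ x ∈ Icc (n + 2) (2 * n + 1), ∏ y ∈ Icc (x + 1) (2 * n + 1), (1 - z x * z y)) /
       ((∏ x ∈ Icc 1 (n + 1), ∏ y ∈ Icc (x + 1) (n + 1), (1 + z x + z y)) *
        (∏ x ∈ Icc 1 (n + 1), ∏ y ∈ Icc (n + 2) (2 * n + 1), (1 + z x + z y)) *
        ∏ x ∈ Icc (n + 2) (2 * n + 1), ∏ y ∈ Icc (x + 1) (2 * n + 1), (1 + z x + z y))) := by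
    unfold gfac
    have h1 := prod_split_Icc (n + 1) n (fun i => (1 + z i) ^ (2 * n + 2) / (1 + z i + z i ^ 2))
    have h2 := prod_split_pairs (n + 1) n (fun i j => (1 - z i * z j) / (1 + z i + z j))
    rw [← hN2] at h1 h2
    rw [h1, h2]
    simp only [Finset.prod_div_distrib, Finset.prod_pow]
    have e1 : n + 1 + 1 = n + 2 := rfl
    rw [e1]
    ring
  have R1 : ∏ a ∈ Icc (n + 1 + 1) (2 * n + 1), -((1 + z a + z a ^ 2) ^ 2 / (1 + z a + z a ^ 2)) =
      (-1) ^ n * ∏ y ∈ Icc (n + 2) (2 * n + 1), (1 + z y + z y ^ 2) := by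
    rw [hcD, ← Finset.prod_mul_distrib]
    refine Finset.prod_congr rfl fun x hx => ?_
    have := sm5 (hsm x (hDm x hx))
    field_simp
  have R2 : ∏ a ∈ Icc (n + 1 + 1) (2 * n + 1), ∏ b ∈ Icc (a + 1) (2 * n + 1),
      -((1 + z a + z b) / (1 - z a * z b)) =
      (∏ k ∈ range n, (-1 : ℂ) ^ k) *
      (∏ x ∈ Icc (n + 2) (2 * n + 1), ∏ y ∈ Icc (x + 1) (2 * n + 1), (1 + z x + z y)) /
        ∏ x ∈ Icc (n + 2) (2 * n + 1), ∏ y ∈ Icc (x + 1) (2 * n + 1), (1 - z x * z y) := by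
    have h2 := sgn_pairs (n + 1) n
    rw [← hN2] at h2
    rw [← h2]
    simp only [← Finset.prod_mul_distrib, ← Finset.prod_div_distrib]
    refine Finset.prod_congr rfl fun x hx => Finset.prod_congr rfl fun y hy => ?_
    ring
  have R3 : ∏ a ∈ Icc (n + 1 + 1) (2 * n + 1), ∏ j ∈ Icc 1 (n + 1),
      1 / ((1 - z a * z j) * (1 + z j + z j * z a)) =
      1 / ((∏ x ∈ Icc 1 (n + 1), ∏ y ∈ Icc (n + 2) (2 * n + 1), (1 - z x * z y)) *
        ∏ x ∈ Icc 1 (n + 1), ∏ y ∈ Icc (n + 2) (2 * n + 1), (1 + z x + z x * z y)) := by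
    rw [Finset.prod_comm]
    simp only [← Finset.prod_mul_distrib, one_div, ← Finset.prod_inv_distrib]
    refine Finset.prod_congr rfl fun x hx => Finset.prod_congr rfl fun y hy => ?_
    rw [mul_comm (z y) (z x)]
  rw [L1, L2, L3, R0, R1, R2, R3]
  have n1 : ∏ x ∈ Icc 1 (n + 1), (1 + z x + z x ^ 2) ≠ 0 :=
    Finset.prod_ne_zero_iff.2 fun a ha => sm5 (hsm a (hCm a ha))
  have n2 : ∏ x ∈ Icc (n + 2) (2 * n + 1), (1 + z x + z x ^ 2) ≠ 0 :=
    Finset.prod_ne_zero_iff.2 fun a ha => sm5 (hsm a (hDm a ha))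
  have n3 : ∏ x ∈ Icc 1 (n + 1), ∏ y ∈ Icc (x + 1) (n + 1), (1 + z x + z y) ≠ 0 :=
    Finset.prod_ne_zero_iff.2 fun a ha => Finset.prod_ne_zero_iff.2 fun b hb =>
      sm2 (hsm a (hCm a ha)) (hsm b (hCm' a ha b hb))
  have n4 : ∏ x ∈ Icc 1 (n + 1), ∏ y ∈ Icc (n + 2) (2 * n + 1), (1 + z x + z y) ≠ 0 :=
    Finset.prod_ne_zero_iff.2 fun a ha => Finset.prod_ne_zero_iff.2 fun b hb =>
      sm2 (hsm a (hCm a ha)) (hsm b (hDm b hb))
  have n5 : ∏ x ∈ Icc (n + 2) (2 * n + 1), ∏ y ∈ Icc (x + 1) (2 * n + 1), (1 + z x + z y) ≠ 0 :=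
    Finset.prod_ne_zero_iff.2 fun a ha => Finset.prod_ne_zero_iff.2 fun b hb =>
      sm2 (hsm a (hDm a ha)) (hsm b (hDm' a ha b hb))
  have n6 : ∏ x ∈ Icc (n + 2) (2 * n + 1), ∏ y ∈ Icc (x + 1) (2 * n + 1), (1 - z x * z y) ≠ 0 :=
    Finset.prod_ne_zero_iff.2 fun a ha => Finset.prod_ne_zero_iff.2 fun b hb =>
      sm3 (hsm a (hDm a ha)) (hsm b (hDm' a ha b hb))
  have n7 : ∏ x ∈ Icc 1 (n + 1), ∏ y ∈ Icc (n + 2) (2 * n + 1), (1 - z x * z y) ≠ 0 :=
    Finset.prod_ne_zero_iff.2 fun a ha => Finset.prod_ne_zero_iff.2 fun b hb =>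
      sm3 (hsm a (hCm a ha)) (hsm b (hDm b hb))
  have n8 : ∏ x ∈ Icc 1 (n + 1), ∏ y ∈ Icc (n + 2) (2 * n + 1), (1 + z x + z x * z y) ≠ 0 :=
    Finset.prod_ne_zero_iff.2 fun a ha => Finset.prod_ne_zero_iff.2 fun b hb =>
      sm4 (hsm a (hCm a ha)) (hsm b (hDm b hb))
  rw [Finset.prod_range_succ]
  generalize ∏ x ∈ Icc 1 (n + 1), (1 + z x + z x ^ 2) = x1 at *
  generalize ∏ x ∈ Icc (n + 2) (2 * n + 1), (1 + z x + z x ^ 2) = x2 at *
  generalize ∏ x ∈ Icc 1 (n + 1), ∏ y ∈ Icc (x + 1) (n + 1), (1 + z x + z y) = x3 at *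
  generalize ∏ x ∈ Icc 1 (n + 1), ∏ y ∈ Icc (n + 2) (2 * n + 1), (1 + z x + z y) = x4 at *
  generalize ∏ x ∈ Icc (n + 2) (2 * n + 1), ∏ y ∈ Icc (x + 1) (2 * n + 1), (1 + z x + z y) = x5
    at *
  generalize ∏ x ∈ Icc (n + 2) (2 * n + 1), ∏ y ∈ Icc (x + 1) (2 * n + 1), (1 - z x * z y) = x6
    at *
  generalize ∏ x ∈ Icc 1 (n + 1), ∏ y ∈ Icc (n + 2) (2 * n + 1), (1 - z x * z y) = x7 at *
  generalize ∏ x ∈ Icc 1 (n + 1), ∏ y ∈ Icc (n + 2) (2 * n + 1), (1 + z x + z x * z y) = x8 at *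
  generalize ∏ x ∈ Icc 1 (n + 1), (1 + z x) = y1 at *
  generalize ∏ x ∈ Icc (n + 2) (2 * n + 1), (1 + z x) = y2 at *
  generalize ∏ x ∈ Icc 1 (n + 1), ∏ y ∈ Icc (x + 1) (n + 1), (1 - z x * z y) = y3 at *
  generalize ∏ k ∈ range n, (-1 : ℂ) ^ k = y4 at *
  clear L1 L2 L3 R0 R1 R2 R3
  field_simp
  ring

/-! ### behaviour under exchanges -/

lemma prod_Icc_swap {N i : ℕ} (hi : 1 ≤ i) (hiN : i < N) (F : ℕ → ℂ) :
    ∏ a ∈ Icc 1 N, F (Equiv.swap i (i + 1) a) = ∏ a ∈ Icc 1 N, F a := by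
  apply Finset.prod_nbij' (fun a => Equiv.swap i (i + 1) a) (fun a => Equiv.swap i (i + 1) a)
  · intro a ha; exact swap_mem_Icc hi hiN ha
  · intro a ha; exact swap_mem_Icc hi hiN ha
  · intro a _; simp
  · intro a _; simp
  · intro a _; rfl

lemma prod_pairs_swap {N i : ℕ} (hi : 1 ≤ i) (hiN : i < N) (G : ℕ → ℕ → ℂ)
    (hG : ∀ a b, G a b = G b a) :
    ∏ a ∈ Icc 1 N, ∏ b ∈ Icc (a + 1) N, G (Equiv.swap i (i + 1) a) (Equiv.swap i (i + 1) b) =
      ∏ a ∈ Icc 1 N, ∏ b ∈ Icc (a + 1) N, G a b := by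
  rw [Finset.prod_sigma', Finset.prod_sigma']
  set σ := Equiv.swap i (i + 1) with hσ
  have hinv : ∀ x, σ (σ x) = x := by intro x; simp [hσ]
  have hmem : ∀ p ∈ (Icc 1 N).sigma (fun a => Icc (a + 1) N),
      (⟨min (σ p.1) (σ p.2), max (σ p.1) (σ p.2)⟩ : (_ : ℕ) × ℕ) ∈
        (Icc 1 N).sigma (fun a => Icc (a + 1) N) := by
    rintro ⟨a, b⟩ h
    simp only [mem_sigma, mem_Icc] at h
    have ha := swap_mem_Icc (N := N) (j := a) hi hiN (by rw [mem_Icc]; omega)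
    have hb := swap_mem_Icc (N := N) (j := b) hi hiN (by rw [mem_Icc]; omega)
    have hne : σ a ≠ σ b := by
      intro h'; have := σ.injective h'; omega
    rw [← hσ] at ha hb
    simp only [mem_sigma, mem_Icc] at ha hb ⊢
    omega
  have hinv2 : ∀ p ∈ (Icc 1 N).sigma (fun a => Icc (a + 1) N),
      (⟨min (σ (min (σ p.1) (σ p.2))) (σ (max (σ p.1) (σ p.2))),
        max (σ (min (σ p.1) (σ p.2))) (σ (max (σ p.1) (σ p.2)))⟩ : (_ : ℕ) × ℕ) = p := by
    rintro ⟨a, b⟩ h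
    simp only [mem_sigma, mem_Icc] at h
    rcases le_total (σ a) (σ b) with h' | h'
    · simp only [min_eq_left h', max_eq_right h', hinv]
      rw [min_eq_left (by omega), max_eq_right (by omega)]
    · simp only [min_eq_right h', max_eq_left h', hinv]
      rw [min_eq_right (by omega), max_eq_left (by omega)]
  apply Finset.prod_nbij' (fun p => ⟨min (σ p.1) (σ p.2), max (σ p.1) (σ p.2)⟩)
    (fun p => ⟨min (σ p.1) (σ p.2), max (σ p.1) (σ p.2)⟩)
  · exact hmem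
  · exact hmem
  · exact hinv2
  · exact hinv2
  · rintro ⟨a, b⟩ _
    rcases le_total (σ a) (σ b) with h' | h'
    · simp only [min_eq_left h', max_eq_right h']
    · simp only [min_eq_right h', max_eq_left h']
      exact hG _ _

lemma gfac_sw (n : ℕ) (z : ℕ → ℂ) {i : ℕ} (hi : 1 ≤ i) (hiN : i < 2 * n + 1) :
    gfac n (sw z i) = gfac n z := by
  unfold gfac sw
  simp only [Function.comp_apply]
  rw [prod_Icc_swap hi hiN (fun a => (1 + z a) ^ (2 * n + 2) / (1 + z a + z a ^ 2)),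
    prod_pairs_swap hi hiN (fun a b => (1 - z a * z b) / (1 + z a + z b))
      (fun a b => by rw [mul_comm, add_right_comm])]

lemma zst_sw (N : ℕ) (z : ℕ → ℂ) {i : ℕ} (hi : 1 ≤ i) (hiN : i < N) :
    zst N (sw z i) = sw (zst N z) (N - i) := by
  funext j
  unfold zst sw
  simp only [Function.comp_apply, Equiv.swap_apply_def]
  congr 2
  split_ifs <;> omega

lemma mem_Dst {N : ℕ} {D : Finset ℕ} {x : ℕ} :
    x ∈ Dst N D ↔ x ∈ Icc 1 N ∧ N + 1 - x ∉ D := by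
  unfold Dst
  simp only [mem_image, mem_sdiff, mem_Icc]
  constructor
  · rintro ⟨y, ⟨h1, h2⟩, h3⟩
    refine ⟨by omega, ?_⟩
    rwa [show N + 1 - x = y by omega]
  · rintro ⟨h1, h2⟩
    exact ⟨N + 1 - x, ⟨by omega, h2⟩, by omega⟩

lemma Dst_subset (N : ℕ) (D : Finset ℕ) : Dst N D ⊆ Icc 1 N := fun _ hx => (mem_Dst.1 hx).1

lemma Dst_card {n : ℕ} {D : Finset ℕ} (hD : D ⊆ Icc 1 (2 * n + 1)) (hc : D.card = n) :
    (Dst (2 * n + 1) D).card = n + 1 := by
  unfold Dst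
  rw [Finset.card_image_of_injOn, Finset.card_sdiff_of_subset hD, hc]
  · simp only [Nat.card_Icc]; omega
  · intro x hx y hy hxy
    simp only [coe_sdiff, coe_Icc, Set.mem_sdiff, Set.mem_Icc] at hx hy
    simp only at hxy
    omega

lemma E_mirror (q : ℂ) (N : ℕ) (Ψ : Finset ℕ → ℂ) {i : ℕ} (hi : 1 ≤ i) (hiN : i < N)
    (D : Finset ℕ) :
    E q (N - i) Ψ (Dst N D) = E q i (fun D => Ψ (Dst N D)) D := by
  have m1 : N - i ∈ Dst N D ↔ i + 1 ∉ D := by
    rw [mem_Dst, show N + 1 - (N - i) = i + 1 by omega]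
    simp only [mem_Icc]
    constructor
    · exact fun h => h.2
    · exact fun h => ⟨by omega, h⟩
  have m2 : N - i + 1 ∈ Dst N D ↔ i ∉ D := by
    rw [mem_Dst, show N + 1 - (N - i + 1) = i by omega]
    simp only [mem_Icc]
    constructor
    · exact fun h => h.2
    · exact fun h => ⟨by omega, h⟩
  unfold E
  by_cases h1 : i ∈ D <;> by_cases h2 : i + 1 ∈ D
  · rw [if_neg (by rw [m1]; exact not_not.2 h2), if_neg (by rw [m2]; exact not_not.2 h1),
      if_pos h1, if_pos h2]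
  · rw [if_pos (by rw [m1]; exact h2), if_neg (by rw [m2]; exact not_not.2 h1),
      if_pos h1, if_neg h2]
    congr 2
    ext x
    simp only [mem_insert, mem_erase, mem_Dst, mem_Icc]
    by_cases hP : N + 1 - x ∈ D
    · simp only [hP, not_true_eq_false, and_false, and_true, or_false]
      omega
    · simp only [hP, not_false_eq_true, and_false, and_true, or_false]
      omega
  · rw [if_neg (by rw [m1]; exact not_not.2 h2), if_pos (by rw [m2]; exact h1),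
      if_neg h1, if_pos h2]
    congr 2
    ext x
    simp only [mem_insert, mem_erase, mem_Dst, mem_Icc]
    by_cases hP : N + 1 - x ∈ D
    · simp only [hP, not_true_eq_false, and_false, and_true, or_false]
      omega
    · simp only [hP, not_false_eq_true, and_false, and_true, or_false]
      omega
  · rw [if_pos (by rw [m1]; exact h2), if_pos (by rw [m2]; exact h1), if_neg h1, if_neg h2]

lemma coeff_mirror {x y : ℂ} (hx : ‖x‖ ≤ 1 / 8) (hy : ‖y‖ ≤ 1 / 8) :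
    (bar y - bar x) / (1 + bar x + bar y * bar x) = (x - y) / (1 + y + x * y) := by
  have h1 := sm1 hx
  have h2 := sm1 hy
  have h3 : 1 + y + x * y ≠ 0 := by
    have := sm4 hy hx; rwa [mul_comm y x] at this
  have h4 : 1 + bar x + bar y * bar x = (1 + y + x * y) / ((1 + x) * (1 + y)) := by
    unfold bar; field_simp; ring
  rw [h4]
  unfold bar
  field_simp
  ring

/-- The exchange relation (the statement of the theorem `exchange`). -/
def Exch (q : ℂ) : Prop :=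
  ∀ (N n : ℕ) (z : ℕ → ℂ), Gen N z → ∀ i : ℕ, 1 ≤ i → i < N → ∀ D : Finset ℕ, D ⊆ Icc 1 N →
    D.card = n → ut q N n (sw z i) D = ut q N n z D +
      (z i - z (i + 1)) / (1 + z (i + 1) + z i * z (i + 1)) * E q i (ut q N n z) D

/-- The mirror identity at `D` for all generic parameters. -/
def MirAt (q : ℂ) (n : ℕ) (D : Finset ℕ) : Prop :=
  ∀ z : ℕ → ℂ, Sml (2 * n + 1) z →
    ut q (2 * n + 1) (n + 1) (zst (2 * n + 1) z) (Dst (2 * n + 1) D) =
      gfac n z * ut q (2 * n + 1) n z D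

lemma mirAt_top (q : ℂ) (hq : q ^ 2 + q + 1 = 0) (n : ℕ) :
    MirAt q n (Icc (n + 2) (2 * n + 1)) := by
  intro z hz
  have : Dst (2 * n + 1) (Icc (n + 2) (2 * n + 1)) = Icc (n + 1) (2 * n + 1) := by
    ext x
    rw [mem_Dst]
    simp only [mem_Icc]
    omega
  rw [this]
  exact mirror_top q hq n z hz

lemma mirAt_step (q : ℂ) (hex : Exch q) (n : ℕ) (D : Finset ℕ)
    (hD : D ⊆ Icc 1 (2 * n + 1)) (hc : D.card = n) (i : ℕ) (hi : 1 ≤ i) (hiN : i < 2 * n + 1)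
    (h1 : i ∉ D) (h2 : i + 1 ∈ D) (hm : MirAt q n D) : MirAt q n (insert i (D.erase (i + 1))) := by
  intro z hz
  have hmem1 : i ∈ Icc 1 (2 * n + 1) := by rw [mem_Icc]; omega
  have hmem2 : i + 1 ∈ Icc 1 (2 * n + 1) := by rw [mem_Icc]; omega
  have hx := hz.1 i hmem1
  have hy := hz.1 (i + 1) hmem2
  have e1 := hex (2 * n + 1) n z hz.gen i hi hiN D hD hc
  have e2 := hex (2 * n + 1) (n + 1) (zst (2 * n + 1) z) hz.gen_zst (2 * n + 1 - i) (by omega)
    (by omega) (Dst (2 * n + 1) D) (Dst_subset _ _) (Dst_card hD hc)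
  rw [← zst_sw _ z hi hiN, E_mirror q (2 * n + 1) _ hi hiN] at e2
  have c1 : zst (2 * n + 1) z (2 * n + 1 - i) = bar (z (i + 1)) := by
    unfold zst; congr 2; omega
  have c2 : zst (2 * n + 1) z (2 * n + 1 - i + 1) = bar (z i) := by
    unfold zst; congr 2; omega
  rw [c1, c2, coeff_mirror hx hy] at e2
  have e3 := hm z hz
  have e4 := hm (sw z i) (hz.sw hi hiN)
  rw [gfac_sw n z hi hiN, e1, e2, e3] at e4
  unfold E at e4
  rw [if_neg h1, if_pos h2, if_neg h1, if_pos h2] at e4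
  beta_reduce at e4
  rw [e3] at e4
  have hne : (z i - z (i + 1)) / (1 + z (i + 1) + z i * z (i + 1)) ≠ 0 := by
    apply div_ne_zero
    · rw [sub_ne_zero]
      intro h
      have := hz.2 (by exact_mod_cast hmem1) (by exact_mod_cast hmem2) h
      omega
    · have := sm4 hy hx; rwa [mul_comm (z (i + 1)) (z i)] at this
  have : (z i - z (i + 1)) / (1 + z (i + 1) + z i * z (i + 1)) *
      (ut q (2 * n + 1) (n + 1) (zst (2 * n + 1) z)
        (Dst (2 * n + 1) (insert i (D.erase (i + 1)))) -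
      gfac n z * ut q (2 * n + 1) n z (insert i (D.erase (i + 1)))) = 0 := by
    linear_combination e4
  rcases mul_eq_zero.1 this with h | h
  · exact absurd h hne
  · linear_combination h

theorem mirror_of_exch (q : ℂ) (hq : q ^ 2 + q + 1 = 0) (hex : Exch q) (n : ℕ) :
    ∀ D : Finset ℕ, D ⊆ Icc 1 (2 * n + 1) → D.card = n → MirAt q n D := by
  have key : ∀ t : ℕ, ∀ D : Finset ℕ, D ⊆ Icc 1 (2 * n + 1) → D.card = n →
      ∑ x ∈ D, (2 * n + 1 - x) = t → MirAt q n D := by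
    intro t
    induction t using Nat.strong_induction_on with
    | _ t ih =>
      intro D hD hc ht
      by_cases hup : ∃ i ∈ D, i + 1 ≤ 2 * n + 1 ∧ i + 1 ∉ D
      · obtain ⟨i, hi, hiN, hni⟩ := hup
        have hi1 := hD hi
        rw [mem_Icc] at hi1
        set D' := insert (i + 1) (D.erase i) with hD'
        have hsub : D' ⊆ Icc 1 (2 * n + 1) := by
          intro x hx
          rw [hD', mem_insert, mem_erase] at hx
          rcases hx with rfl | hx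
          · rw [mem_Icc]; omega
          · exact hD hx.2
        have hni' : i + 1 ∉ D.erase i := fun h => hni (mem_of_mem_erase h)
        have hcard : D'.card = n := by
          rw [hD', card_insert_of_notMem hni', card_erase_of_mem hi, hc]
          have : 0 < D.card := card_pos.2 ⟨i, hi⟩
          omega
        have hsum : ∑ x ∈ D', (2 * n + 1 - x) < t := by
          rw [← ht, hD', sum_insert hni', ← add_sum_erase D _ hi]
          omega
        have h3 := ih _ hsum D' hsub hcard rfl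
        have h4 := mirAt_step q hex n D' hsub hcard i hi1.1 (by omega)
          (by rw [hD', mem_insert, mem_erase]; omega) (by rw [hD']; exact mem_insert_self _ _) h3
        have h5 : insert i (D'.erase (i + 1)) = D := by
          rw [hD', erase_insert hni', insert_erase hi]
        rwa [h5] at h4
      · push Not at hup
        have htop : D = Icc (n + 2) (2 * n + 1) := by
          have hup2 : ∀ a ∈ D, Icc a (2 * n + 1) ⊆ D := by
            intro a ha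
            have : ∀ k, a + k ≤ 2 * n + 1 → a + k ∈ D := by
              intro k
              induction k with
              | zero => intro _; exact ha
              | succ k ihk => intro h; exact hup _ (ihk (by omega)) h
            intro x hx
            rw [mem_Icc] at hx
            have := this (x - a) (by omega)
            rwa [show a + (x - a) = x by omega] at this
          apply Finset.eq_of_subset_of_card_le
          · intro a ha
            have h1 := Finset.card_le_card (hup2 a ha)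
            rw [Nat.card_Icc, hc] at h1
            have h2 := hD ha
            rw [mem_Icc] at h2 ⊢
            omega
          · rw [Nat.card_Icc, hc]; omega
        rw [htop]
        exact mirAt_top q hq n
  exact fun D hD hc => key _ D hD hc rfl

/-- Mirror duality, assuming the exchange relation `hex` (theorem `exchange`). -/
theorem mirror_of_exchange (q : ℂ) (hq : q ^ 2 + q + 1 = 0) (hex : Exch q) (n : ℕ) (z : ℕ → ℂ)
    (hz : ∀ i ∈ Icc 1 (2 * n + 1), ‖z i‖ ≤ 1 / 8) (hinj : Set.InjOn z (Icc 1 (2 * n + 1)))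
    (D : Finset ℕ) (hD : D ⊆ Icc 1 (2 * n + 1)) (hc : D.card = n) :
    ut q (2 * n + 1) (n + 1) (zst (2 * n + 1) z) (Dst (2 * n + 1) D) =
      gfac n z * ut q (2 * n + 1) n z D :=
  mirror_of_exch q hq hex n D hD hc z ⟨hz, hinj⟩

end Pool.Agent.H75.Exact
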