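import Pool.Agent.H75.Exact.Inh

set_option autoImplicit false
open Finset

/-! Boundary reflection of the inhomogeneous vector (job E-I2, helper33). -/

namespace Pool.Agent.H75.Exact

namespace Refl

/-- Lagrange interpolation in the variable `s / (1 + s²)`. -/
theorem lagr (N M e : ℕ) (hNM : e + 2 * M + 1 = N) (s : ℕ → ℂ)
    (hY : ∀ i ∈ range (N + 1), 1 + s i ^ 2 ≠ 0)
    (hinj : ∀ i ∈ range (N + 1), ∀ j ∈ range (N + 1), i ≠ j → (s i - s j) * (1 - s i * s j) ≠ 0)
    (v : Fin M → ℂ) :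
    ∑ i ∈ range (N + 1), (1 + s i + s i ^ 2) ^ e *
      (∏ m, (v m - s i) * (1 + s i + s i * v m) * (1 - s i * v m) * (1 + s i + v m)) /
      ∏ j ∈ (range (N + 1)).erase i, ((s i - s j) * (1 - s i * s j)) = 0 := by
  classical
  set w : ℕ → ℂ := fun i => s i / (1 + s i ^ 2) with hw
  set P : Polynomial ℂ := (1 + Polynomial.X) ^ e * ∏ m : Fin M,
    ((Polynomial.C (v m) - Polynomial.C (1 + v m ^ 2) * Polynomial.X) *
      (Polynomial.C (1 + v m) + Polynomial.C (2 * (1 + v m) + v m ^ 2) * Polynomial.X)) with hP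
  have hdeg : P.natDegree ≤ e + 2 * M := by
    rw [hP]
    refine Polynomial.natDegree_mul_le.trans (Nat.add_le_add ?_ ?_)
    · refine Polynomial.natDegree_pow_le.trans ?_
      have : (1 + Polynomial.X : Polynomial ℂ).natDegree ≤ 1 := by compute_degree
      calc e * (1 + Polynomial.X : Polynomial ℂ).natDegree ≤ e * 1 := Nat.mul_le_mul_left _ this
        _ = e := mul_one e
    · refine (Polynomial.natDegree_prod_le _ _).trans ?_
      calc ∑ m : Fin M, _ ≤ ∑ _m : Fin M, 2 := Finset.sum_le_sum fun m _ => by compute_degree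
        _ = 2 * M := by simp [mul_comm]
  have hwij : ∀ i ∈ range (N + 1), ∀ j ∈ range (N + 1),
      (s i - s j) * (1 - s i * s j) = (1 + s i ^ 2) * (1 + s j ^ 2) * (w i - w j) := by
    intro i hi j hj
    have h1 := hY i hi
    have h2 := hY j hj
    simp only [hw]
    field_simp
    ring
  have hwinj : Set.InjOn w (range (N + 1)) := by
    intro i hi j hj hij
    by_contra hne
    apply hinj i hi j hj hne
    rw [hwij i hi j hj, hij, sub_self, mul_zero]
  have hco := Lagrange.coeff_eq_sum (s := range (N + 1)) (v := w) hwinj (P := P) (by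
    rw [card_range]
    refine lt_of_le_of_lt Polynomial.degree_le_natDegree ?_
    exact_mod_cast (by omega : P.natDegree < N + 1))
  rw [Polynomial.coeff_eq_zero_of_natDegree_lt (by rw [card_range]; omega)] at hco
  set Y : ℂ := ∏ j ∈ range (N + 1), (1 + s j ^ 2) with hYdef
  have hYne : Y ≠ 0 := Finset.prod_ne_zero_iff.mpr hY
  have hterm : ∀ i ∈ range (N + 1), (1 + s i + s i ^ 2) ^ e *
      (∏ m, (v m - s i) * (1 + s i + s i * v m) * (1 - s i * v m) * (1 + s i + v m)) /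
      ∏ j ∈ (range (N + 1)).erase i, ((s i - s j) * (1 - s i * s j)) =
      (P.eval (w i) / ∏ j ∈ (range (N + 1)).erase i, (w i - w j)) / Y := by
    intro i hi
    have h1 := hY i hi
    have hnum : (1 + s i + s i ^ 2) ^ e *
      (∏ m, (v m - s i) * (1 + s i + s i * v m) * (1 - s i * v m) * (1 + s i + v m)) =
      P.eval (w i) * (1 + s i ^ 2) ^ (N - 1) := by
      have hN : N - 1 = e + 2 * M := by omega
      rw [hN, pow_add, hP]
      simp only [Polynomial.eval_mul, Polynomial.eval_pow, Polynomial.eval_add,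
        Polynomial.eval_one, Polynomial.eval_X, Polynomial.eval_prod, Polynomial.eval_sub,
        Polynomial.eval_C]
      have e1 : (1 + s i + s i ^ 2) = (1 + w i) * (1 + s i ^ 2) := by
        simp only [hw]; field_simp; ring
      have e2 : ((1 + s i ^ 2) ^ (2 * M) : ℂ) = ∏ _m : Fin M, (1 + s i ^ 2) ^ 2 := by
        simp [pow_mul]
      have e3 : ∀ m : Fin M, (v m - s i) * (1 + s i + s i * v m) * (1 - s i * v m) *
          (1 + s i + v m) = ((v m - (1 + v m ^ 2) * w i) *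
            (1 + v m + (2 * (1 + v m) + v m ^ 2) * w i)) * (1 + s i ^ 2) ^ 2 := by
        intro m
        simp only [hw]; field_simp; ring
      rw [e1, mul_pow, e2, Finset.prod_congr rfl (fun m _ => e3 m), Finset.prod_mul_distrib]
      ring
    have hden : ∏ j ∈ (range (N + 1)).erase i, ((s i - s j) * (1 - s i * s j)) =
        (1 + s i ^ 2) ^ (N - 1) * Y * ∏ j ∈ (range (N + 1)).erase i, (w i - w j) := by
      rw [Finset.prod_congr rfl (fun j hj => hwij i hi j (Finset.mem_of_mem_erase hj)),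
        Finset.prod_mul_distrib, Finset.prod_mul_distrib, Finset.prod_const,
        Finset.card_erase_of_mem hi, card_range, hYdef,
        ← Finset.mul_prod_erase _ _ hi]
      have : (N + 1 - 1) = (N - 1) + 1 := by omega
      rw [this, pow_succ]
      ring
    rw [hnum, hden]
    have h2 : (1 + s i ^ 2) ^ (N - 1) ≠ 0 := pow_ne_zero _ h1
    have h3 : ∏ j ∈ (range (N + 1)).erase i, (w i - w j) ≠ 0 := by
      refine Finset.prod_ne_zero_iff.mpr fun j hj => ?_
      intro h0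
      exact (Finset.ne_of_mem_erase hj).symm
        (hwinj (by exact_mod_cast hi) (by exact_mod_cast Finset.mem_of_mem_erase hj)
          (sub_eq_zero.mp h0))
    field_simp
  rw [Finset.sum_congr rfl hterm, ← Finset.sum_div, ← hco, zero_div]

/-! ### Nonvanishing -/

theorem q_norm {q : ℂ} (hq : q ^ 2 + q + 1 = 0) : ‖q‖ = 1 := by
  have h3 : q ^ 3 = 1 := by linear_combination (q - 1) * hq
  have h4 : ‖q‖ ^ 3 = 1 := by rw [← norm_pow, h3, norm_one]
  exact (pow_eq_one_iff_of_nonneg (norm_nonneg q) (by norm_num)).mp h4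

theorem sub_q_ne {q s : ℂ} (hq : q ^ 2 + q + 1 = 0) (hs : ‖s‖ ≤ 1 / 4) : s - q ≠ 0 := by
  intro h
  have : s = q := sub_eq_zero.mp h
  rw [this, q_norm hq] at hs
  norm_num at hs

theorem one_add_ne {s : ℂ} (hs : ‖s‖ < 1) : 1 + s ≠ 0 := by
  intro h
  have : s = -1 := by linear_combination h
  rw [this, norm_neg, norm_one] at hs
  exact lt_irrefl _ hs

theorem one_sub_ne {s : ℂ} (hs : ‖s‖ < 1) : 1 - s ≠ 0 := by
  have := one_add_ne (s := -s) (by rwa [norm_neg])
  rwa [← sub_eq_add_neg] at this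

theorem mul_small {s t : ℂ} (hs : ‖s‖ ≤ 1 / 4) (ht : ‖t‖ ≤ 1 / 4) : ‖s * t‖ < 1 := by
  rw [norm_mul]
  have := mul_le_mul hs ht (norm_nonneg _) (by norm_num : (0 : ℝ) ≤ 1 / 4)
  linarith

/-- `(v - q) * [(v - q)^(e-1) (v - q²)^e] = (1 + v + v²)^e` -/
theorem gq {q v : ℂ} (hq : q ^ 2 + q + 1 = 0) (hv : v - q ≠ 0) (k : ℤ) (e : ℕ) (he : k + 1 = e) :
    (v - q) * ((v - q) ^ k * (v - q ^ 2) ^ (k + 1)) = (1 + v + v ^ 2) ^ e := by
  have h1 : (v - q) * ((v - q) ^ k * (v - q ^ 2) ^ (k + 1)) =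
      (v - q) ^ (k + 1) * (v - q ^ 2) ^ (k + 1) := by
    rw [zpow_add_one₀ hv]; ring
  rw [h1, he, zpow_natCast, zpow_natCast, ← mul_pow]
  congr 1
  linear_combination (-v + q - 1) * hq

theorem KK_succ {M : ℕ} (v : Fin (M + 1) → ℂ) :
    KK v = (∏ m : Fin M, (v m.succ - v 0) * (1 + v 0 + v 0 * v m.succ) * (1 - v 0 * v m.succ) *
      (1 + v 0 + v m.succ)) * KK (fun m => v m.succ) := by
  unfold KK
  rw [Fin.prod_univ_succ, Fin.prod_Ioi_zero]
  congr 1
  refine Finset.prod_congr rfl fun l _ => ?_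
  rw [Fin.prod_Ioi_succ]

theorem sum_fin_succ (N : ℕ) (f : ℕ → ℂ) : ∑ j : Fin N, f ((j : ℕ) + 1) = ∑ i ∈ Icc 1 N, f i := by
  rw [Fin.sum_univ_eq_sum_range (fun i => f (i + 1)) N]
  refine Finset.sum_nbij (· + 1) ?_ ?_ ?_ ?_
  · intro i hi; simp only [mem_range, mem_Icc] at *; omega
  · intro i _ j _ h; simpa using h
  · intro i hi
    simp only [coe_Icc, Set.mem_Icc] at hi
    exact ⟨i - 1, by simp only [coe_range, Set.mem_Iio]; omega, by simp only; omega⟩
  · intro i _; rfl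

/-- the sum over the last coordinates and the first one -/
theorem sum_cons {N M : ℕ} (g : (Fin (M + 1) → Fin N) → ℂ) :
    ∑ j, g j = ∑ j' : Fin M → Fin N, ∑ j0 : Fin N, g (Fin.cons j0 j') := by
  rw [← (Fin.consEquiv (fun _ : Fin (M + 1) => Fin N)).sum_comp, Fintype.sum_prod_type_right]
  rfl

/-! ### Residues after the reflection of the first parameter -/

section
variable {q : ℂ} {N n : ℕ} {z : ℕ → ℂ}

theorem bar_mul (hx : 1 + z 1 ≠ 0) : bar (z 1) * (1 + z 1) = - z 1 := by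
  unfold bar; field_simp

theorem res_ge_two (hN : 1 ≤ N) (hx : 1 + z 1 ≠ 0) {a j : ℕ} (ha : 2 ≤ a) :
    res q N n (Function.update z 1 (bar (z 1))) a j = (1 + z 1) ^ 2 * res q N n z a j := by
  unfold res
  by_cases haj : a ≤ j
  · rw [if_pos haj, if_pos haj]
    have hu : ∀ i, i ≠ 1 → Function.update z 1 (bar (z 1)) i = z i :=
      fun i hi => Function.update_of_ne hi _ _
    have hu1 : Function.update z 1 (bar (z 1)) 1 = bar (z 1) := Function.update_self _ _ _
    rw [hu a (by omega), hu j (by omega)]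
    have p1 : ∏ i ∈ Icc 1 a, (1 + Function.update z 1 (bar (z 1)) i +
        z j * Function.update z 1 (bar (z 1)) i) =
        (1 + bar (z 1) + z j * bar (z 1)) * ∏ i ∈ (Icc 1 a).erase 1, (1 + z i + z j * z i) := by
      rw [← Finset.mul_prod_erase _ _ (mem_Icc.mpr ⟨le_refl 1, by omega⟩ : 1 ∈ Icc 1 a), hu1]
      congr 1
      exact Finset.prod_congr rfl fun i hi => by rw [hu i (ne_of_mem_erase hi)]
    have p2 : ∏ i ∈ (Icc a N).erase j, (z j - Function.update z 1 (bar (z 1)) i) =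
        ∏ i ∈ (Icc a N).erase j, (z j - z i) :=
      Finset.prod_congr rfl fun i hi => by
        have := mem_Icc.mp (mem_of_mem_erase hi)
        rw [hu i (by omega)]
    have p3 : ∏ i ∈ Icc 1 N, (1 - z j * Function.update z 1 (bar (z 1)) i) =
        (1 - z j * bar (z 1)) * ∏ i ∈ (Icc 1 N).erase 1, (1 - z j * z i) := by
      rw [← Finset.mul_prod_erase _ _ (mem_Icc.mpr ⟨le_refl 1, by omega⟩ : 1 ∈ Icc 1 N), hu1]
      congr 1
      exact Finset.prod_congr rfl fun i hi => by rw [hu i (ne_of_mem_erase hi)]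
    rw [p1, p2, p3,
      ← Finset.mul_prod_erase _ _ (mem_Icc.mpr ⟨le_refl 1, by omega⟩ : 1 ∈ Icc 1 a),
      ← Finset.mul_prod_erase _ _ (mem_Icc.mpr ⟨le_refl 1, by omega⟩ : 1 ∈ Icc 1 N)]
    have e1 : 1 + bar (z 1) + z j * bar (z 1) = (1 - z j * z 1) / (1 + z 1) := by
      unfold bar; field_simp; ring
    have e2 : 1 - z j * bar (z 1) = (1 + z 1 + z j * z 1) / (1 + z 1) := by
      unfold bar; field_simp; ring
    rw [e1, e2]
    set A := ∏ i ∈ (Icc 1 a).erase 1, (1 + z i + z j * z i)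
    set B := ∏ i ∈ (Icc a N).erase j, (z j - z i)
    set C := ∏ i ∈ (Icc 1 N).erase 1, (1 - z j * z i)
    have e3 : (1 - z j * z 1) / (1 + z 1) * A * B * ((1 + z 1 + z j * z 1) / (1 + z 1) * C) =
        ((1 + z 1 + z j * z 1) * A * B * ((1 - z j * z 1) * C)) / (1 + z 1) ^ 2 := by
      field_simp
    rw [e3, div_div_eq_mul_div]
    ring
  · rw [if_neg haj, if_neg haj, mul_zero]

/-- the residue of the difference function at the `i`-th point (`s 0 = bar (z 1)`) -/
noncomputable def Tt (N e : ℕ) (z : ℕ → ℂ) (i : ℕ) : ℂ :=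
  -((1 + z 1) * (bar (z 1) - z 1)) * (1 + Function.update z 0 (bar (z 1)) i +
    Function.update z 0 (bar (z 1)) i ^ 2) ^ e /
    ∏ j ∈ (range (N + 1)).erase i,
      ((Function.update z 0 (bar (z 1)) i - Function.update z 0 (bar (z 1)) j) *
        (1 - Function.update z 0 (bar (z 1)) i * Function.update z 0 (bar (z 1)) j))

theorem res_one {e : ℕ} (he : (N : ℤ) - 2 * n + 1 = e) (hq : q ^ 2 + q + 1 = 0) (hN : 1 ≤ N)
    (hz : Gen N z) (hz' : Gen N (Function.update z 1 (bar (z 1))))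
    {j : ℕ} (hj : 2 ≤ j) (hjN : j ≤ N) :
    res q N n (Function.update z 1 (bar (z 1))) 1 j - (1 + z 1) ^ 2 * res q N n z 1 j =
      Tt N e z j := by
  have hmem1 : 1 ∈ Icc 1 N := mem_Icc.mpr ⟨le_refl 1, hN⟩
  have hmemj : j ∈ Icc 1 N := mem_Icc.mpr ⟨by omega, hjN⟩
  have hx4 : ‖z 1‖ ≤ 1 / 4 := hz.1 1 hmem1
  have hZ4 : ‖bar (z 1)‖ ≤ 1 / 4 := by
    have := hz'.1 1 hmem1; rwa [Function.update_self] at this
  have hv4 : ‖z j‖ ≤ 1 / 4 := hz.1 j hmemj
  have hx : 1 + z 1 ≠ 0 := one_add_ne (by linarith)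
  have hvx : z j - z 1 ≠ 0 := by
    intro h
    have := hz.2 (by exact_mod_cast hmemj) (by exact_mod_cast hmem1) (sub_eq_zero.mp h)
    omega
  have hvZ : z j - bar (z 1) ≠ 0 := by
    intro h
    have h2 : Function.update z 1 (bar (z 1)) j = Function.update z 1 (bar (z 1)) 1 := by
      rw [Function.update_of_ne (by omega), Function.update_self, sub_eq_zero.mp h]
    have := hz'.2 (by exact_mod_cast hmemj) (by exact_mod_cast hmem1) h2
    omega
  have h1vx : 1 - z j * z 1 ≠ 0 := one_sub_ne (mul_small hv4 hx4)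
  have h1vZ : 1 - z j * bar (z 1) ≠ 0 := one_sub_ne (mul_small hv4 hZ4)
  have h1vv : 1 - z j * z j ≠ 0 := one_sub_ne (mul_small hv4 hv4)
  have hgq := gq hq (sub_q_ne hq hv4) ((N : ℤ) - 2 * n) e he
  unfold res Tt
  rw [if_pos (by omega), if_pos (by omega)]
  have hu : ∀ i, i ≠ 1 → Function.update z 1 (bar (z 1)) i = z i :=
    fun i hi => Function.update_of_ne hi _ _
  have hu1 : Function.update z 1 (bar (z 1)) 1 = bar (z 1) := Function.update_self _ _ _
  have hs : ∀ i, i ≠ 0 → Function.update z 0 (bar (z 1)) i = z i :=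
    fun i hi => Function.update_of_ne hi _ _
  have hs0 : Function.update z 0 (bar (z 1)) 0 = bar (z 1) := Function.update_self _ _ _
  rw [hu1, hu j (by omega), hs j (by omega)]
  have hT1 : 1 ∈ (Icc 1 N).erase j := mem_erase.mpr ⟨by omega, hmem1⟩
  have hTj : j ∈ (Icc 1 N).erase 1 := mem_erase.mpr ⟨by omega, hmemj⟩
  have hTe : ((Icc 1 N).erase 1).erase j = ((Icc 1 N).erase j).erase 1 := erase_right_comm
  -- products
  have p1 : ∏ i ∈ Icc 1 1, (1 + Function.update z 1 (bar (z 1)) i +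
      z j * Function.update z 1 (bar (z 1)) i) = 1 + bar (z 1) + z j * bar (z 1) := by
    rw [Icc_self, prod_singleton, hu1]
  have p1' : ∏ i ∈ Icc 1 1, (1 + z i + z j * z i) = 1 + z 1 + z j * z 1 := by
    rw [Icc_self, prod_singleton]
  have p2 : ∏ i ∈ (Icc 1 N).erase j, (z j - Function.update z 1 (bar (z 1)) i) =
      (z j - bar (z 1)) * ∏ i ∈ ((Icc 1 N).erase j).erase 1, (z j - z i) := by
    rw [← Finset.mul_prod_erase _ _ hT1, hu1]
    congr 1
    exact Finset.prod_congr rfl fun i hi => by rw [hu i (ne_of_mem_erase hi)]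
  have p2' : ∏ i ∈ (Icc 1 N).erase j, (z j - z i) =
      (z j - z 1) * ∏ i ∈ ((Icc 1 N).erase j).erase 1, (z j - z i) := by
    rw [← Finset.mul_prod_erase _ _ hT1]
  have p3 : ∏ i ∈ Icc 1 N, (1 - z j * Function.update z 1 (bar (z 1)) i) =
      (1 - z j * bar (z 1)) * ((1 - z j * z j) *
        ∏ i ∈ ((Icc 1 N).erase j).erase 1, (1 - z j * z i)) := by
    rw [← Finset.mul_prod_erase _ _ hmem1, hu1, ← Finset.mul_prod_erase _ _ hTj,
      hu j (by omega), hTe]
    congr 2
    refine Finset.prod_congr rfl fun i hi => ?_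
    rw [hu i (ne_of_mem_erase hi)]
  have p3' : ∏ i ∈ Icc 1 N, (1 - z j * z i) =
      (1 - z j * z 1) * ((1 - z j * z j) *
        ∏ i ∈ ((Icc 1 N).erase j).erase 1, (1 - z j * z i)) := by
    rw [← Finset.mul_prod_erase _ _ hmem1, ← Finset.mul_prod_erase _ _ hTj, hTe]
  have p4 : ∏ i ∈ (range (N + 1)).erase j, ((z j - Function.update z 0 (bar (z 1)) i) *
      (1 - z j * Function.update z 0 (bar (z 1)) i)) =
      ((z j - bar (z 1)) * (1 - z j * bar (z 1))) * (((z j - z 1) * (1 - z j * z 1)) *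
        ((∏ i ∈ ((Icc 1 N).erase j).erase 1, (z j - z i)) *
        ∏ i ∈ ((Icc 1 N).erase j).erase 1, (1 - z j * z i))) := by
    have m0 : 0 ∈ (range (N + 1)).erase j := mem_erase.mpr ⟨by omega, mem_range.mpr (by omega)⟩
    have m1 : 1 ∈ ((range (N + 1)).erase j).erase 0 :=
      mem_erase.mpr ⟨by omega, mem_erase.mpr ⟨by omega, mem_range.mpr (by omega)⟩⟩
    have hset : (((range (N + 1)).erase j).erase 0).erase 1 = ((Icc 1 N).erase j).erase 1 := by
      ext i; simp only [mem_erase, mem_range, mem_Icc]; omega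
    rw [← Finset.mul_prod_erase _ _ m0, hs0, ← Finset.mul_prod_erase _ _ m1, hs 1 (by omega), hset,
      ← Finset.prod_mul_distrib]
    congr 2
    refine Finset.prod_congr rfl fun i hi => ?_
    have := mem_Icc.mp (mem_of_mem_erase (mem_of_mem_erase hi))
    rw [hs i (by omega)]
  rw [p1, p1', p2, p2', p3, p3', p4]
  have hB : ∏ i ∈ ((Icc 1 N).erase j).erase 1, (z j - z i) ≠ 0 := by
    refine Finset.prod_ne_zero_iff.mpr fun i hi h0 => ?_
    have hi' := mem_of_mem_erase (mem_of_mem_erase hi)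
    have := hz.2 (by exact_mod_cast hmemj) (by exact_mod_cast hi') (sub_eq_zero.mp h0)
    exact ne_of_mem_erase (mem_of_mem_erase hi) this.symm
  have hC : ∏ i ∈ ((Icc 1 N).erase j).erase 1, (1 - z j * z i) ≠ 0 := by
    refine Finset.prod_ne_zero_iff.mpr fun i hi => ?_
    exact one_sub_ne (mul_small hv4 (hz.1 i (mem_of_mem_erase (mem_of_mem_erase hi))))
  set B := ∏ i ∈ ((Icc 1 N).erase j).erase 1, (z j - z i)
  set C := ∏ i ∈ ((Icc 1 N).erase j).erase 1, (1 - z j * z i)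
  have e1 : 1 + bar (z 1) + z j * bar (z 1) = (1 - z j * z 1) / (1 + z 1) := by
    unfold bar; field_simp; ring
  have e2 : 1 + z 1 + z j * z 1 = (1 + z 1) * (1 - z j * bar (z 1)) := by
    unfold bar; field_simp; ring
  have e3 : z j ^ 2 - 1 = -(1 - z j * z j) := by ring
  rw [e1, e2, e3, ← hgq]
  set G1 := (z j - q) ^ ((N : ℤ) - 2 * n)
  set G2 := (z j - q ^ 2) ^ ((N : ℤ) - 2 * n + 1)
  set Z := bar (z 1)
  set D := 1 - z j * z j
  have L1 : (Z - q) * (-D) * G1 * G2 /
      ((1 - z j * z 1) / (1 + z 1) * ((z j - Z) * B) * ((1 - z j * Z) * (D * C))) =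
      -((1 + z 1) * (Z - q) * G1 * G2) /
        ((z j - Z) * (1 - z j * Z) * (1 - z j * z 1) * B * C) := by
    field_simp
  have L2 : (1 + z 1) ^ 2 * ((z 1 - q) * (-D) * G1 * G2 /
      ((1 + z 1) * (1 - z j * Z) * ((z j - z 1) * B) * ((1 - z j * z 1) * (D * C)))) =
      -((1 + z 1) * (z 1 - q) * G1 * G2) /
        ((z j - z 1) * (1 - z j * Z) * (1 - z j * z 1) * B * C) := by
    field_simp
  rw [L1, L2]
  field_simp
  ring

theorem res_one_new {e : ℕ} (he : (N : ℤ) - 2 * n + 1 = e) (hq : q ^ 2 + q + 1 = 0) (hN : 1 ≤ N)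
    (hz : Gen N z) (hz' : Gen N (Function.update z 1 (bar (z 1)))) (h1 : z 1 ≠ bar (z 1)) :
    res q N n (Function.update z 1 (bar (z 1))) 1 1 = Tt N e z 0 := by
  have hmem1 : 1 ∈ Icc 1 N := mem_Icc.mpr ⟨le_refl 1, hN⟩
  have hx4 : ‖z 1‖ ≤ 1 / 4 := hz.1 1 hmem1
  have hZ4 : ‖bar (z 1)‖ ≤ 1 / 4 := by
    have := hz'.1 1 hmem1; rwa [Function.update_self] at this
  have hx : 1 + z 1 ≠ 0 := one_add_ne (by linarith)
  have hxZ : bar (z 1) - z 1 ≠ 0 := sub_ne_zero.mpr h1.symm
  have h1xZ : 1 - bar (z 1) * z 1 ≠ 0 := one_sub_ne (mul_small hZ4 hx4)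
  have h1ZZ : 1 - bar (z 1) * bar (z 1) ≠ 0 := one_sub_ne (mul_small hZ4 hZ4)
  have hgq := gq hq (sub_q_ne hq hZ4) ((N : ℤ) - 2 * n) e he
  unfold res Tt
  rw [if_pos (le_refl 1)]
  have hu : ∀ i, i ≠ 1 → Function.update z 1 (bar (z 1)) i = z i :=
    fun i hi => Function.update_of_ne hi _ _
  have hu1 : Function.update z 1 (bar (z 1)) 1 = bar (z 1) := Function.update_self _ _ _
  have hs : ∀ i, i ≠ 0 → Function.update z 0 (bar (z 1)) i = z i :=
    fun i hi => Function.update_of_ne hi _ _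
  have hs0 : Function.update z 0 (bar (z 1)) 0 = bar (z 1) := Function.update_self _ _ _
  rw [hu1, hs0]
  have p1 : ∏ i ∈ Icc 1 1, (1 + Function.update z 1 (bar (z 1)) i +
      bar (z 1) * Function.update z 1 (bar (z 1)) i) = 1 + bar (z 1) + bar (z 1) * bar (z 1) := by
    rw [Icc_self, prod_singleton, hu1]
  have p2 : ∏ i ∈ (Icc 1 N).erase 1, (bar (z 1) - Function.update z 1 (bar (z 1)) i) =
      ∏ i ∈ (Icc 1 N).erase 1, (bar (z 1) - z i) :=
    Finset.prod_congr rfl fun i hi => by rw [hu i (ne_of_mem_erase hi)]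
  have p3 : ∏ i ∈ Icc 1 N, (1 - bar (z 1) * Function.update z 1 (bar (z 1)) i) =
      (1 - bar (z 1) * bar (z 1)) * ∏ i ∈ (Icc 1 N).erase 1, (1 - bar (z 1) * z i) := by
    rw [← Finset.mul_prod_erase _ _ hmem1, hu1]
    congr 1
    exact Finset.prod_congr rfl fun i hi => by rw [hu i (ne_of_mem_erase hi)]
  have p4 : ∏ i ∈ (range (N + 1)).erase 0, ((bar (z 1) - Function.update z 0 (bar (z 1)) i) *
      (1 - bar (z 1) * Function.update z 0 (bar (z 1)) i)) =
      ((bar (z 1) - z 1) * (1 - bar (z 1) * z 1)) * ((∏ i ∈ (Icc 1 N).erase 1, (bar (z 1) - z i)) *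
        ∏ i ∈ (Icc 1 N).erase 1, (1 - bar (z 1) * z i)) := by
    have m1 : 1 ∈ (range (N + 1)).erase 0 := mem_erase.mpr ⟨by omega, mem_range.mpr (by omega)⟩
    have hset : ((range (N + 1)).erase 0).erase 1 = (Icc 1 N).erase 1 := by
      ext i; simp only [mem_erase, mem_range, mem_Icc]; omega
    rw [← Finset.mul_prod_erase _ _ m1, hs 1 (by omega), hset, ← Finset.prod_mul_distrib]
    congr 1
    refine Finset.prod_congr rfl fun i hi => ?_
    have := mem_Icc.mp (mem_of_mem_erase hi)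
    rw [hs i (by omega)]
  rw [p1, p2, p3, p4]
  have hB : ∏ i ∈ (Icc 1 N).erase 1, (bar (z 1) - z i) ≠ 0 := by
    refine Finset.prod_ne_zero_iff.mpr fun i hi h0 => ?_
    have hi' := mem_of_mem_erase hi
    have h2 : Function.update z 1 (bar (z 1)) 1 = Function.update z 1 (bar (z 1)) i := by
      rw [hu1, hu i (ne_of_mem_erase hi), sub_eq_zero.mp h0]
    have := hz'.2 (by exact_mod_cast hmem1) (by exact_mod_cast hi') h2
    exact ne_of_mem_erase hi this.symm
  have hC : ∏ i ∈ (Icc 1 N).erase 1, (1 - bar (z 1) * z i) ≠ 0 := by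
    refine Finset.prod_ne_zero_iff.mpr fun i hi => ?_
    exact one_sub_ne (mul_small hZ4 (hz.1 i (mem_of_mem_erase hi)))
  set B := ∏ i ∈ (Icc 1 N).erase 1, (bar (z 1) - z i)
  set C := ∏ i ∈ (Icc 1 N).erase 1, (1 - bar (z 1) * z i)
  have e1 : 1 + bar (z 1) + bar (z 1) * bar (z 1) = (1 - bar (z 1) * z 1) / (1 + z 1) := by
    unfold bar; field_simp; ring
  have e3 : bar (z 1) ^ 2 - 1 = -(1 - bar (z 1) * bar (z 1)) := by ring
  rw [e1, e3, ← hgq]
  set G1 := (bar (z 1) - q) ^ ((N : ℤ) - 2 * n)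
  set G2 := (bar (z 1) - q ^ 2) ^ ((N : ℤ) - 2 * n + 1)
  set D := 1 - bar (z 1) * bar (z 1)
  set F := 1 - bar (z 1) * z 1
  set Z := bar (z 1)
  field_simp

theorem res_one_old {e : ℕ} (he : (N : ℤ) - 2 * n + 1 = e) (hq : q ^ 2 + q + 1 = 0) (hN : 1 ≤ N)
    (hz : Gen N z) (hz' : Gen N (Function.update z 1 (bar (z 1)))) (h1 : z 1 ≠ bar (z 1)) :
    - ((1 + z 1) ^ 2 * res q N n z 1 1) = Tt N e z 1 := by
  have hmem1 : 1 ∈ Icc 1 N := mem_Icc.mpr ⟨le_refl 1, hN⟩
  have hx4 : ‖z 1‖ ≤ 1 / 4 := hz.1 1 hmem1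
  have hZ4 : ‖bar (z 1)‖ ≤ 1 / 4 := by
    have := hz'.1 1 hmem1; rwa [Function.update_self] at this
  have hx : 1 + z 1 ≠ 0 := one_add_ne (by linarith)
  have hxZ : z 1 - bar (z 1) ≠ 0 := sub_ne_zero.mpr h1
  have h1xZ : 1 - z 1 * bar (z 1) ≠ 0 := one_sub_ne (mul_small hx4 hZ4)
  have h1xx : 1 - z 1 * z 1 ≠ 0 := one_sub_ne (mul_small hx4 hx4)
  have hgq := gq hq (sub_q_ne hq hx4) ((N : ℤ) - 2 * n) e he
  unfold res Tt
  rw [if_pos (le_refl 1)]
  have hs : ∀ i, i ≠ 0 → Function.update z 0 (bar (z 1)) i = z i :=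
    fun i hi => Function.update_of_ne hi _ _
  have hs0 : Function.update z 0 (bar (z 1)) 0 = bar (z 1) := Function.update_self _ _ _
  rw [hs 1 (by omega)]
  have p1 : ∏ i ∈ Icc 1 1, (1 + z i + z 1 * z i) = 1 + z 1 + z 1 * z 1 := by
    rw [Icc_self, prod_singleton]
  have p3 : ∏ i ∈ Icc 1 N, (1 - z 1 * z i) =
      (1 - z 1 * z 1) * ∏ i ∈ (Icc 1 N).erase 1, (1 - z 1 * z i) := by
    rw [← Finset.mul_prod_erase _ _ hmem1]
  have p4 : ∏ i ∈ (range (N + 1)).erase 1, ((z 1 - Function.update z 0 (bar (z 1)) i) *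
      (1 - z 1 * Function.update z 0 (bar (z 1)) i)) =
      ((z 1 - bar (z 1)) * (1 - z 1 * bar (z 1))) * ((∏ i ∈ (Icc 1 N).erase 1, (z 1 - z i)) *
        ∏ i ∈ (Icc 1 N).erase 1, (1 - z 1 * z i)) := by
    have m1 : 0 ∈ (range (N + 1)).erase 1 := mem_erase.mpr ⟨by omega, mem_range.mpr (by omega)⟩
    have hset : ((range (N + 1)).erase 1).erase 0 = (Icc 1 N).erase 1 := by
      ext i; simp only [mem_erase, mem_range, mem_Icc]; omega
    rw [← Finset.mul_prod_erase _ _ m1, hs0, hset, ← Finset.prod_mul_distrib]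
    congr 1
    refine Finset.prod_congr rfl fun i hi => ?_
    have := mem_Icc.mp (mem_of_mem_erase hi)
    rw [hs i (by omega)]
  rw [p1, p3, p4]
  have hB : ∏ i ∈ (Icc 1 N).erase 1, (z 1 - z i) ≠ 0 := by
    refine Finset.prod_ne_zero_iff.mpr fun i hi h0 => ?_
    have hi' := mem_of_mem_erase hi
    have := hz.2 (by exact_mod_cast hmem1) (by exact_mod_cast hi') (sub_eq_zero.mp h0)
    exact ne_of_mem_erase hi this.symm
  have hC : ∏ i ∈ (Icc 1 N).erase 1, (1 - z 1 * z i) ≠ 0 := by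
    refine Finset.prod_ne_zero_iff.mpr fun i hi => ?_
    exact one_sub_ne (mul_small hx4 (hz.1 i (mem_of_mem_erase hi)))
  set B := ∏ i ∈ (Icc 1 N).erase 1, (z 1 - z i)
  set C := ∏ i ∈ (Icc 1 N).erase 1, (1 - z 1 * z i)
  have e1 : 1 + z 1 + z 1 * z 1 = (1 - z 1 * bar (z 1)) * (1 + z 1) := by
    unfold bar; field_simp; ring
  have e3 : z 1 ^ 2 - 1 = -(1 - z 1 * z 1) := by ring
  have e4 : bar (z 1) - z 1 = -(z 1 - bar (z 1)) := by ring
  rw [e1, e3, e4, ← hgq]
  set G1 := (z 1 - q) ^ ((N : ℤ) - 2 * n)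
  set G2 := (z 1 - q ^ 2) ^ ((N : ℤ) - 2 * n + 1)
  set D := 1 - z 1 * z 1
  set F := 1 - z 1 * bar (z 1)
  set H := z 1 - bar (z 1)
  set K := z 1 - q
  set A := 1 + z 1
  field_simp

/-- the pair factors of the first variable -/
noncomputable def Kf {M : ℕ} (v : Fin M → ℂ) (s : ℂ) : ℂ :=
  ∏ m : Fin M, (v m - s) * (1 + s + s * v m) * (1 - s * v m) * (1 + s + v m)

theorem sum_first {M e : ℕ} (he : (N : ℤ) - 2 * n + 1 = e) (hM : e + 2 * M + 1 = N)
    (hq : q ^ 2 + q + 1 = 0) (hN : 1 ≤ N)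
    (hz : Gen N z) (hz' : Gen N (Function.update z 1 (bar (z 1)))) (h1 : z 1 ≠ bar (z 1))
    (v : Fin M → ℂ) :
    ∑ j : Fin N, res q N n (Function.update z 1 (bar (z 1))) 1 ((j : ℕ) + 1) *
        Kf v (Function.update z 1 (bar (z 1)) ((j : ℕ) + 1)) =
      (1 + z 1) ^ 2 * ∑ j : Fin N, res q N n z 1 ((j : ℕ) + 1) * Kf v (z ((j : ℕ) + 1)) := by
  have hmem1 : 1 ∈ Icc 1 N := mem_Icc.mpr ⟨le_refl 1, hN⟩
  have hx4 : ‖z 1‖ ≤ 1 / 4 := hz.1 1 hmem1
  have hZ4 : ‖bar (z 1)‖ ≤ 1 / 4 := by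
    have := hz'.1 1 hmem1; rwa [Function.update_self] at this
  set s := Function.update z 0 (bar (z 1)) with hsdef
  have hs : ∀ i, i ≠ 0 → s i = z i := fun i hi => Function.update_of_ne hi _ _
  have hs0 : s 0 = bar (z 1) := Function.update_self _ _ _
  have hs4 : ∀ i ∈ range (N + 1), ‖s i‖ ≤ 1 / 4 := by
    intro i hi
    by_cases h0 : i = 0
    · rw [h0, hs0]; exact hZ4
    · rw [hs i h0]
      exact hz.1 i (mem_Icc.mpr ⟨by omega, by have := mem_range.mp hi; omega⟩)
  have hsinj : ∀ i ∈ range (N + 1), ∀ j ∈ range (N + 1), i < j → s i ≠ s j := by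
    intro i hi j hj hij h
    have hj' : j ∈ Icc 1 N := mem_Icc.mpr ⟨by omega, by have := mem_range.mp hj; omega⟩
    rw [hs j (by omega)] at h
    by_cases h0 : i = 0
    · rw [h0, hs0] at h
      by_cases hj1 : j = 1
      · rw [hj1] at h; exact h1 h.symm
      · have h2 : Function.update z 1 (bar (z 1)) 1 = Function.update z 1 (bar (z 1)) j := by
          rw [Function.update_self, Function.update_of_ne hj1, h]
        have := hz'.2 (by exact_mod_cast hmem1) (by exact_mod_cast hj') h2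
        omega
    · rw [hs i h0] at h
      have hi' : i ∈ Icc 1 N := mem_Icc.mpr ⟨by omega, by have := mem_range.mp hi; omega⟩
      have := hz.2 (by exact_mod_cast hi') (by exact_mod_cast hj') h
      omega
  have hL := lagr N M e hM s (fun i hi => by
      have h := mul_small (hs4 i hi) (hs4 i hi)
      rw [← pow_two] at h
      exact one_add_ne h) (fun i hi j hj hij => by
      refine mul_ne_zero ?_ (one_sub_ne (mul_small (hs4 i hi) (hs4 j hj)))
      rw [sub_ne_zero]
      rcases lt_or_gt_of_ne hij with h | h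
      · exact hsinj i hi j hj h
      · exact (hsinj j hj i hi h).symm) v
  have hT : ∑ i ∈ range (N + 1), Tt N e z i * Kf v (s i) = 0 := by
    have : ∀ i ∈ range (N + 1), Tt N e z i * Kf v (s i) =
        -((1 + z 1) * (bar (z 1) - z 1)) * ((1 + s i + s i ^ 2) ^ e *
      (∏ m, (v m - s i) * (1 + s i + s i * v m) * (1 - s i * v m) * (1 + s i + v m)) /
      ∏ j ∈ (range (N + 1)).erase i, ((s i - s j) * (1 - s i * s j))) := by
      intro i _
      unfold Tt Kf
      rw [← hsdef]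
      ring
    rw [Finset.sum_congr rfl this, ← Finset.mul_sum, hL, mul_zero]
  rw [sum_fin_succ N (fun i => res q N n (Function.update z 1 (bar (z 1))) 1 i *
        Kf v (Function.update z 1 (bar (z 1)) i)),
    sum_fin_succ N (fun i => res q N n z 1 i * Kf v (z i)), ← sub_eq_zero]
  have hsplit : ∀ f : ℕ → ℂ, ∑ i ∈ range (N + 1), f i = f 0 + ∑ i ∈ Icc 1 N, f i := by
    intro f
    have : range (N + 1) = insert 0 (Icc 1 N) := by
      ext i; simp only [mem_range, mem_insert, mem_Icc]; omega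
    rw [this, Finset.sum_insert (by simp)]
  rw [← hT, hsplit, ← Finset.add_sum_erase _ _ hmem1, ← Finset.add_sum_erase (Icc 1 N) (fun i =>
    res q N n z 1 i * Kf v (z i)) hmem1, ← Finset.add_sum_erase (Icc 1 N) (fun i =>
    Tt N e z i * Kf v (s i)) hmem1]
  have r0 := res_one_new he hq hN hz hz' h1
  have r1 := res_one_old he hq hN hz hz' h1
  have r2 : ∑ i ∈ (Icc 1 N).erase 1, res q N n (Function.update z 1 (bar (z 1))) 1 i *
        Kf v (Function.update z 1 (bar (z 1)) i) = ∑ i ∈ (Icc 1 N).erase 1,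
        ((1 + z 1) ^ 2 * (res q N n z 1 i * Kf v (z i)) + Tt N e z i * Kf v (s i)) := by
    refine Finset.sum_congr rfl fun i hi => ?_
    have hi1 := ne_of_mem_erase hi
    have hi2 := mem_Icc.mp (mem_of_mem_erase hi)
    have := res_one he hq hN hz hz' (j := i) (by omega) hi2.2
    rw [Function.update_of_ne hi1, hs i (by omega), ← this]
    ring
  rw [r2, Finset.sum_add_distrib, ← Finset.mul_sum]
  simp only [Function.update_self]
  rw [r0, hs0, hs 1 (by omega), ← r1]
  ring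

end

end Refl

open Refl in
theorem left_reflection (q : ℂ) (hq : q ^ 2 + q + 1 = 0) (N n : ℕ)
    (hn : N = 2 * n + 1 ∨ N + 1 = 2 * n) (z : ℕ → ℂ) (hz : Gen N z)
    (hz' : Gen N (Function.update z 1 (bar (z 1)))) (h1 : z 1 ≠ bar (z 1)) (D : Finset ℕ)
    (hD : D ⊆ Icc 1 N) (hc : D.card = n) :
    ut q N n (Function.update z 1 (bar (z 1))) D = (1 + z 1) ^ (2 * n) * ut q N n z D := by
  have hN : 1 ≤ N := by omega
  have hmem1 : 1 ∈ Icc 1 N := mem_Icc.mpr ⟨le_refl 1, hN⟩
  have hx4 : ‖z 1‖ ≤ 1 / 4 := hz.1 1 hmem1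
  have hx : 1 + z 1 ≠ 0 := one_add_ne (by linarith)
  unfold ut
  rw [dif_pos hc, dif_pos hc]
  have hmemD : ∀ l, D.orderEmbOfFin hc l ∈ D := fun l => D.orderEmbOfFin_mem hc l
  have hge1 : ∀ l, 1 ≤ D.orderEmbOfFin hc l := fun l => (mem_Icc.mp (hD (hmemD l))).1
  have hu : ∀ i, i ≠ 1 → Function.update z 1 (bar (z 1)) i = z i :=
    fun i hi => Function.update_of_ne hi _ _
  by_cases hD1 : 1 ∈ D
  · -- the first element is `1`
    obtain ⟨M, rfl⟩ : ∃ M, n = M + 1 := by
      have := Finset.card_pos.mpr ⟨1, hD1⟩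
      exact ⟨n - 1, by omega⟩
    obtain ⟨e, he, hM⟩ : ∃ e : ℕ, (N : ℤ) - 2 * ((M + 1 : ℕ) : ℤ) + 1 = e ∧ e + 2 * M + 1 = N := by
      rcases hn with h | h
      · exact ⟨2, by push_cast; omega, by omega⟩
      · exact ⟨0, by push_cast; omega, by omega⟩
    have ha0 : D.orderEmbOfFin hc 0 = 1 := by
      obtain ⟨l, hl⟩ : ∃ l, D.orderEmbOfFin hc l = 1 := by
        have : (1 : ℕ) ∈ Set.range (D.orderEmbOfFin hc) := by
          rw [Finset.range_orderEmbOfFin]; exact_mod_cast hD1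
        exact this
      have := (D.orderEmbOfFin hc).monotone (Fin.zero_le l)
      have := hge1 0
      omega
    have ha : ∀ l : Fin M, 2 ≤ D.orderEmbOfFin hc l.succ := by
      intro l
      have := (D.orderEmbOfFin hc).strictMono (Fin.succ_pos l)
      rw [ha0] at this
      omega
    rw [sum_cons, sum_cons, Finset.mul_sum]
    refine Finset.sum_congr rfl fun j' _ => ?_
    simp only [Fin.prod_univ_succ, Fin.cons_zero, Fin.cons_succ, KK_succ, ha0]
    by_cases hj : ∀ l : Fin M, D.orderEmbOfFin hc l.succ ≤ (j' l : ℕ) + 1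
    · have hj1 : ∀ l : Fin M, (j' l : ℕ) + 1 ≠ 1 := fun l => by
        have := hj l; have := ha l; omega
      have hv : ∀ l : Fin M, Function.update z 1 (bar (z 1)) ((j' l : ℕ) + 1) =
          z ((j' l : ℕ) + 1) := fun l => hu _ (hj1 l)
      simp only [hv]
      have hr : ∏ l : Fin M, res q N (M + 1) (Function.update z 1 (bar (z 1)))
          (D.orderEmbOfFin hc l.succ) ((j' l : ℕ) + 1) =
          (1 + z 1) ^ (2 * M) * ∏ l : Fin M, res q N (M + 1) z
          (D.orderEmbOfFin hc l.succ) ((j' l : ℕ) + 1) := by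
        rw [Finset.prod_congr rfl fun l _ => res_ge_two hN hx (ha l), Finset.prod_mul_distrib]
        congr 1
        simp [pow_mul]
      rw [hr]
      have hS := sum_first he hM hq hN hz hz' h1 (fun l => z ((j' l : ℕ) + 1))
      simp only [Kf] at hS
      set R := ∏ l : Fin M, res q N (M + 1) z (D.orderEmbOfFin hc l.succ) ((j' l : ℕ) + 1)
      set K' := KK fun m : Fin M => z ((j' m : ℕ) + 1)
      have t1 : ∀ (a b c : ℂ), a * ((1 + z 1) ^ (2 * M) * R) * (b * K') =
          ((1 + z 1) ^ (2 * M) * R * K') * (a * b) := fun a b c => by ring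
      have t2 : ∀ (a b : ℂ), a * R * (b * K') = (R * K') * (a * b) := fun a b => by ring
      simp only [t1 _ _ 0, t2]
      rw [← Finset.mul_sum, ← Finset.mul_sum, hS]
      ring
    · push Not at hj
      obtain ⟨l, hl⟩ := hj
      have z1 : ∏ l : Fin M, res q N (M + 1) (Function.update z 1 (bar (z 1)))
          (D.orderEmbOfFin hc l.succ) ((j' l : ℕ) + 1) = 0 := by
        refine Finset.prod_eq_zero (Finset.mem_univ l) ?_
        unfold res
        rw [if_neg (by omega)]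
      have z2 : ∏ l : Fin M, res q N (M + 1) z
          (D.orderEmbOfFin hc l.succ) ((j' l : ℕ) + 1) = 0 := by
        refine Finset.prod_eq_zero (Finset.mem_univ l) ?_
        unfold res
        rw [if_neg (by omega)]
      simp only [z1, z2, mul_zero, zero_mul, Finset.sum_const_zero]
  · -- all elements are at least `2`
    have ha : ∀ l : Fin n, 2 ≤ D.orderEmbOfFin hc l := by
      intro l
      have h2 := hge1 l
      have h3 : D.orderEmbOfFin hc l ≠ 1 := fun h => hD1 (h ▸ hmemD l)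
      omega
    rw [Finset.mul_sum]
    refine Finset.sum_congr rfl fun j _ => ?_
    by_cases hj : ∀ l : Fin n, D.orderEmbOfFin hc l ≤ (j l : ℕ) + 1
    · have hj1 : ∀ l : Fin n, (j l : ℕ) + 1 ≠ 1 := fun l => by
        have := hj l; have := ha l; omega
      have hv : ∀ l : Fin n, Function.update z 1 (bar (z 1)) ((j l : ℕ) + 1) =
          z ((j l : ℕ) + 1) := fun l => hu _ (hj1 l)
      simp only [hv]
      rw [Finset.prod_congr rfl fun l _ => res_ge_two hN hx (ha l), Finset.prod_mul_distrib]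
      simp only [Finset.prod_const, Finset.card_univ, Fintype.card_fin]
      rw [← pow_mul]
      ring
    · push Not at hj
      obtain ⟨l, hl⟩ := hj
      have z1 : ∏ l : Fin n, res q N n (Function.update z 1 (bar (z 1)))
          (D.orderEmbOfFin hc l) ((j l : ℕ) + 1) = 0 := by
        refine Finset.prod_eq_zero (Finset.mem_univ l) ?_
        unfold res
        rw [if_neg (by omega)]
      have z2 : ∏ l : Fin n, res q N n z
          (D.orderEmbOfFin hc l) ((j l : ℕ) + 1) = 0 := by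
        refine Finset.prod_eq_zero (Finset.mem_univ l) ?_
        unfold res
        rw [if_neg (by omega)]
      rw [z1, z2]
      ring

end Pool.Agent.H75.Exact
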