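import Pool.Agent.H75.Exact.EigFin
import Pool.Agent.H75.Exact.Reflect
import Pool.Agent.H75.Exact.Mirror

set_option autoImplicit false
open Finset

/-! The explicit vector `Psi q n` is an eigenvector of `∑ e_i` (given the exchange relation, see
`Exchange.lean`). -/

namespace Pool.Agent.H75.Exact

/-- `heig_Psi` with the exchange relation as a hypothesis. -/
theorem heig_Psi_of_exchange (q : ℂ) (hq : q ^ 2 + q + 1 = 0) (hex : Exch q) (n : ℕ) :
    HEig q n (Psi q n) :=
  EigP.heig_of q hq n
    (fun z hz i hi hiN D hD hc => hex (2 * n + 1) n z hz i hi hiN D hD hc)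
    (fun m hm z hz hz' h1 D hD hc =>
      left_reflection q hq (2 * n + 1) m (by omega) z hz hz' h1 D hD hc)
    (fun z hz hinj D hD hc => mirror_of_exchange q hq hex n z hz hinj D hD hc)

end Pool.Agent.H75.Exact
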