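import Pool.Agent.H75.Exact.Inh

set_option autoImplicit false
open Finset

/-! Exchange relation for the inhomogeneous vector `ut`. -/

namespace Pool.Agent.H75.Exact

namespace Exch

/-- the function `u_a(v)` up to factors not depending on `a` -/
noncomputable def A (q : ℂ) (z : ℕ → ℂ) (a : ℕ) (v : ℂ) : ℂ :=
  (z a - q) * (∏ k ∈ Ico 1 a, (v - z k)) / ∏ k ∈ Icc 1 a, (1 + z k + v * z k)

/-- the weights -/
noncomputable def w (q : ℂ) (N n : ℕ) (z : ℕ → ℂ) (j : ℕ) : ℂ :=
  (z j ^ 2 - 1) * (z j - q) ^ ((N : ℤ) - 2 * n) * (z j - q ^ 2) ^ ((N : ℤ) - 2 * n + 1) /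
    ((∏ k ∈ (Icc 1 N).erase j, (z j - z k)) * ∏ k ∈ Icc 1 N, (1 - z j * z k))

theorem norm_one_add (x y : ℂ) (hx : ‖x‖ ≤ 1 / 4) (hy : ‖y‖ ≤ 1 / 4) : 1 + x + y * x ≠ 0 := by
  intro h
  have h1 : (1 : ℂ) = -(x + y * x) := by linear_combination h
  have h2 : ‖(1 : ℂ)‖ ≤ 1 / 4 + 1 / 4 * (1 / 4) := by
    rw [h1, norm_neg]
    refine (norm_add_le _ _).trans ?_
    rw [norm_mul]
    exact add_le_add hx (mul_le_mul hy hx (norm_nonneg _) (by norm_num))
  rw [norm_one] at h2
  norm_num at h2

theorem res_eq (q : ℂ) (N n : ℕ) (z : ℕ → ℂ) (hz : Gen N z) (a j : ℕ) (ha : a ∈ Icc 1 N)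
    (hj : j ∈ Icc 1 N) : res q N n z a j = w q N n z j * A q z a (z j) := by
  obtain ⟨hn, hinj⟩ := hz
  rw [mem_Icc] at ha hj
  unfold res w A
  by_cases haj : a ≤ j
  · rw [if_pos haj]
    have hsplit : (∏ k ∈ (Icc 1 N).erase j, (z j - z k)) =
        (∏ k ∈ Ico 1 a, (z j - z k)) * ∏ k ∈ (Icc a N).erase j, (z j - z k) := by
      rw [← prod_union]
      · congr 1
        ext k
        simp only [mem_erase, mem_Icc, mem_union, mem_Ico]
        omega
      · rw [disjoint_left]
        intro k hk hk'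
        simp only [mem_erase, mem_Icc, mem_Ico] at hk hk'
        omega
    have hne : (∏ k ∈ Ico 1 a, (z j - z k)) ≠ 0 := by
      rw [prod_ne_zero_iff]
      intro k hk
      rw [mem_Ico] at hk
      intro h
      have := hinj (by simp; omega) (by simp; omega) (sub_eq_zero.1 h)
      omega
    rw [hsplit]
    set P := ∏ k ∈ Ico 1 a, (z j - z k)
    set Q := ∏ k ∈ (Icc a N).erase j, (z j - z k)
    set R := ∏ k ∈ Icc 1 a, (1 + z k + z j * z k)
    set T := ∏ k ∈ Icc 1 N, (1 - z j * z k)
    set X := (z j - q) ^ ((N : ℤ) - 2 * n)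
    set Y := (z j - q ^ 2) ^ ((N : ℤ) - 2 * n + 1)
    rw [div_mul_div_comm,
      show (z j ^ 2 - 1) * X * Y * ((z a - q) * P) = P * ((z a - q) * (z j ^ 2 - 1) * X * Y) by ring,
      show P * Q * T * R = P * (R * Q * T) by ring, mul_div_mul_left _ _ hne]
  · rw [if_neg haj]
    have : (∏ k ∈ Ico 1 a, (z j - z k)) = 0 :=
      prod_eq_zero (i := j) (by simp; omega) (sub_self _)
    rw [this]
    simp

theorem sw_apply (z : ℕ → ℂ) (i k : ℕ) : sw z i k = z (Equiv.swap i (i + 1) k) := rfl

theorem sw_left (z : ℕ → ℂ) (i : ℕ) : sw z i i = z (i + 1) := by simp [sw_apply]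

theorem sw_right (z : ℕ → ℂ) (i : ℕ) : sw z i (i + 1) = z i := by simp [sw_apply]

theorem sw_of_ne (z : ℕ → ℂ) (i k : ℕ) (h1 : k ≠ i) (h2 : k ≠ i + 1) : sw z i k = z k := by
  rw [sw_apply, Equiv.swap_apply_of_ne_of_ne h1 h2]

theorem swap_mem (i N k : ℕ) (hi : 1 ≤ i) (hiN : i < N) (hk : k ∈ Icc 1 N) :
    Equiv.swap i (i + 1) k ∈ Icc 1 N := by
  rw [mem_Icc] at *
  rw [Equiv.swap_apply_def]
  split_ifs <;> omega

/-- products over `Icc 1 N` are invariant -/
theorem prod_sw (N i : ℕ) (hi : 1 ≤ i) (hiN : i < N) (f : ℕ → ℂ) :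
    ∏ k ∈ Icc 1 N, f (Equiv.swap i (i + 1) k) = ∏ k ∈ Icc 1 N, f k := by
  apply prod_equiv (Equiv.swap i (i + 1))
  · intro k
    constructor
    · exact swap_mem i N k hi hiN
    · intro h
      have := swap_mem i N _ hi hiN h
      rwa [Equiv.swap_apply_self] at this
  · intro k _
    rfl

theorem w_sw (q : ℂ) (N n : ℕ) (z : ℕ → ℂ) (i : ℕ) (hi : 1 ≤ i) (hiN : i < N) (j : ℕ) :
    w q N n (sw z i) (Equiv.swap i (i + 1) j) = w q N n z j := by
  have hs : sw z i (Equiv.swap i (i + 1) j) = z j := by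
    rw [sw_apply, Equiv.swap_apply_self]
  unfold w
  rw [hs]
  congr 2
  · apply prod_equiv (Equiv.swap i (i + 1))
    · intro k
      rw [mem_erase, mem_erase]
      constructor
      · rintro ⟨h1, h2⟩
        refine ⟨fun h => h1 ?_, swap_mem i N k hi hiN h2⟩
        rw [← h, Equiv.swap_apply_self]
      · rintro ⟨h1, h2⟩
        refine ⟨fun h => h1 ?_, ?_⟩
        · rw [h, Equiv.swap_apply_self]
        · have := swap_mem i N _ hi hiN h2
          rwa [Equiv.swap_apply_self] at this
    · intro k _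
      rfl
  · exact prod_sw N i hi hiN fun k => 1 - z j * z k

/-- (A) -/
theorem A_sw_of_ne (q : ℂ) (z : ℕ → ℂ) (i a : ℕ) (hi : 1 ≤ i) (h1 : a ≠ i) (h2 : a ≠ i + 1) (v : ℂ) :
    A q (sw z i) a v = A q z a v := by
  unfold A
  rw [sw_of_ne z i a h1 h2]
  rcases lt_or_gt_of_ne h1 with h | h
  · congr 1
    · congr 1
      apply prod_congr rfl
      intro k hk
      rw [mem_Ico] at hk
      rw [sw_of_ne z i k (by omega) (by omega)]
    · apply prod_congr rfl
      intro k hk
      rw [mem_Icc] at hk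
      rw [sw_of_ne z i k (by omega) (by omega)]
  · have e : Ico 1 a = Icc 1 (a - 1) := by
      ext k
      simp only [mem_Ico, mem_Icc]
      omega
    rw [e]
    congr 1
    · congr 1
      exact prod_sw (a - 1) i hi (by omega) fun k => v - z k
    · exact prod_sw a i hi (by omega) fun k => 1 + z k + v * z k

/-- the common factor -/
noncomputable def Cf (z : ℕ → ℂ) (i : ℕ) (v : ℂ) : ℂ :=
  (∏ k ∈ Ico 1 i, (v - z k)) / ∏ k ∈ Ico 1 i, (1 + z k + v * z k)

theorem Cf_sw (z : ℕ → ℂ) (i : ℕ) (v : ℂ) : Cf (sw z i) i v = Cf z i v := by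
  unfold Cf
  congr 1
  · apply prod_congr rfl
    intro k hk
    rw [mem_Ico] at hk
    rw [sw_of_ne z i k (by omega) (by omega)]
  · apply prod_congr rfl
    intro k hk
    rw [mem_Ico] at hk
    rw [sw_of_ne z i k (by omega) (by omega)]

theorem Icc_eq (a : ℕ) : Icc 1 a = Ico 1 (a + 1) := by
  ext k
  simp only [mem_Ico, mem_Icc]
  omega

theorem A_left (q : ℂ) (z : ℕ → ℂ) (i : ℕ) (hi : 1 ≤ i) (v : ℂ) :
    A q z i v = Cf z i v * ((z i - q) / (1 + z i + v * z i)) := by
  unfold A Cf
  rw [Icc_eq, prod_Ico_succ_top hi, div_mul_div_comm, mul_comm (z i - q)]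

theorem A_right (q : ℂ) (z : ℕ → ℂ) (i : ℕ) (hi : 1 ≤ i) (v : ℂ) :
    A q z (i + 1) v = Cf z i v * ((z (i + 1) - q) * (v - z i) /
      ((1 + z i + v * z i) * (1 + z (i + 1) + v * z (i + 1)))) := by
  unfold A Cf
  rw [Icc_eq, prod_Ico_succ_top (by omega : 1 ≤ i + 1), prod_Ico_succ_top hi, prod_Ico_succ_top hi,
    div_mul_div_comm]
  congr 1
  · ring
  · ring

theorem A_sw_left (q : ℂ) (z : ℕ → ℂ) (i : ℕ) (hi : 1 ≤ i) (v : ℂ) :
    A q (sw z i) i v = Cf z i v * ((z (i + 1) - q) / (1 + z (i + 1) + v * z (i + 1))) := by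
  rw [A_left q _ i hi, Cf_sw, sw_left]

theorem A_sw_right (q : ℂ) (z : ℕ → ℂ) (i : ℕ) (hi : 1 ≤ i) (v : ℂ) :
    A q (sw z i) (i + 1) v = Cf z i v * ((z i - q) * (v - z (i + 1)) /
      ((1 + z (i + 1) + v * z (i + 1)) * (1 + z i + v * z i))) := by
  rw [A_right q _ i hi, Cf_sw, sw_left, sw_right]

/-- (B), first identity -/
theorem B_left (q : ℂ) (hq : q ^ 2 + q + 1 = 0) (x y v : ℂ) (h1 : 1 + x + v * x ≠ 0)
    (h2 : 1 + y + v * y ≠ 0) (h3 : 1 + y + x * y ≠ 0) :
    (y - q) / (1 + y + v * y) = (1 - q * ((x - y) / (1 + y + x * y))) * ((x - q) / (1 + x + v * x)) +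
      (x - y) / (1 + y + x * y) * ((y - q) * (v - x) / ((1 + x + v * x) * (1 + y + v * y))) := by
  obtain ⟨a, ha⟩ : ∃ a, a = 1 + x + v * x := ⟨_, rfl⟩
  obtain ⟨b, hb⟩ : ∃ b, b = 1 + y + v * y := ⟨_, rfl⟩
  obtain ⟨c, hc⟩ : ∃ c, c = 1 + y + x * y := ⟨_, rfl⟩
  rw [← ha] at h1 ⊢
  rw [← hb] at h2 ⊢
  rw [← hc] at h3 ⊢
  field_simp
  rw [ha, hb, hc]
  linear_combination (-(x - y) * (1 + y + v * y)) * hq

theorem B_right (q : ℂ) (hq : q ^ 2 + q + 1 = 0) (x y v : ℂ) (h1 : 1 + x + v * x ≠ 0)
    (h2 : 1 + y + v * y ≠ 0) (h3 : 1 + y + x * y ≠ 0) :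
    (x - q) * (v - y) / ((1 + y + v * y) * (1 + x + v * x)) =
      (x - y) / (1 + y + x * y) * ((x - q) / (1 + x + v * x)) +
      (1 - q⁻¹ * ((x - y) / (1 + y + x * y))) *
        ((y - q) * (v - x) / ((1 + x + v * x) * (1 + y + v * y))) := by
  have hq0 : q ≠ 0 := by
    rintro rfl
    norm_num at hq
  have hqi : q⁻¹ = -1 - q := by
    field_simp
    linear_combination hq
  rw [hqi]
  obtain ⟨a, ha⟩ : ∃ a, a = 1 + x + v * x := ⟨_, rfl⟩
  obtain ⟨b, hb⟩ : ∃ b, b = 1 + y + v * y := ⟨_, rfl⟩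
  obtain ⟨c, hc⟩ : ∃ c, c = 1 + y + x * y := ⟨_, rfl⟩
  rw [← ha] at h1 ⊢
  rw [← hb] at h2 ⊢
  rw [← hc] at h3 ⊢
  field_simp
  rw [hb, hc]
  linear_combination ((x - y) * (v - x)) * hq

/-- (C) -/
theorem C_sym (q : ℂ) (z : ℕ → ℂ) (i : ℕ) (hi : 1 ≤ i) (v v' : ℂ)
    (h1 : 1 + z i + v * z i ≠ 0) (h2 : 1 + z (i + 1) + v * z (i + 1) ≠ 0)
    (h1' : 1 + z i + v' * z i ≠ 0) (h2' : 1 + z (i + 1) + v' * z (i + 1) ≠ 0) :
    (A q (sw z i) i v * A q (sw z i) (i + 1) v' - A q z i v * A q z (i + 1) v') * (1 + v + v * v') =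
    (A q (sw z i) i v' * A q (sw z i) (i + 1) v - A q z i v' * A q z (i + 1) v) *
      (1 + v' + v * v') := by
  rw [A_left q z i hi, A_left q z i hi, A_right q z i hi, A_right q z i hi, A_sw_left q z i hi,
    A_sw_left q z i hi, A_sw_right q z i hi, A_sw_right q z i hi]
  generalize z i = x at *
  generalize z (i + 1) = y at *
  generalize Cf z i v = f at *
  generalize Cf z i v' = f' at *
  obtain ⟨a, ha⟩ : ∃ a, a = 1 + x + v * x := ⟨_, rfl⟩
  obtain ⟨b, hb⟩ : ∃ b, b = 1 + y + v * y := ⟨_, rfl⟩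
  obtain ⟨a', ha'⟩ : ∃ a, a = 1 + x + v' * x := ⟨_, rfl⟩
  obtain ⟨b', hb'⟩ : ∃ b, b = 1 + y + v' * y := ⟨_, rfl⟩
  rw [← ha] at h1 ⊢
  rw [← hb] at h2 ⊢
  rw [← ha'] at h1' ⊢
  rw [← hb'] at h2' ⊢
  field_simp
  rw [ha, hb, ha', hb']
  ring

/-- the pair factor -/
noncomputable def kk (x y : ℂ) : ℂ := (y - x) * (1 + x + x * y) * (1 - x * y) * (1 + x + y)

theorem KK_eq {n : ℕ} (v : Fin n → ℂ) :
    KK v = ∏ p ∈ univ.filter (fun p : Fin n × Fin n => p.1 < p.2), kk (v p.1) (v p.2) := by
  unfold KK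
  rw [prod_filter, Fintype.prod_prod_type]
  apply prod_congr rfl
  intro l _
  rw [← prod_filter]
  apply prod_congr
  · ext m
    simp
  · intro m _
    rfl

theorem KK_swap {n : ℕ} (v : Fin n → ℂ) (l l' : Fin n) (h : (l : ℕ) + 1 = l') :
    ∃ G, KK v = kk (v l) (v l') * G ∧ KK (v ∘ Equiv.swap l l') = kk (v l') (v l) * G := by
  have hll : l < l' := by rw [Fin.lt_def]; omega
  have hmem : (l, l') ∈ univ.filter (fun p : Fin n × Fin n => p.1 < p.2) := by simpa using hll
  refine ⟨∏ p ∈ (univ.filter (fun p : Fin n × Fin n => p.1 < p.2)).erase (l, l'),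
    kk (v p.1) (v p.2), ?_, ?_⟩
  · rw [KK_eq, mul_prod_erase _ (fun p : Fin n × Fin n => kk (v p.1) (v p.2)) hmem]
  · rw [KK_eq, ← mul_prod_erase _ _ hmem]
    congr 1
    · simp
    · apply prod_equiv ((Equiv.swap l l').prodCongr (Equiv.swap l l'))
      · rintro ⟨p, m⟩
        have hv : ∀ p : Fin n, ((Equiv.swap l l' p : Fin n) : ℕ) =
            if (p : ℕ) = l then (l' : ℕ) else if (p : ℕ) = l' then (l : ℕ) else p := by
          intro p
          rw [Equiv.swap_apply_def]
          simp only [Fin.ext_iff]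
          split_ifs <;> rfl
        simp only [mem_erase, mem_filter, mem_univ, true_and, Equiv.prodCongr_apply, Prod.map,
          ne_eq, Prod.mk.injEq, Fin.lt_def, Fin.ext_iff, hv]
        split_ifs <;> omega
      · rintro ⟨p, m⟩ _
        rfl

/-- the multilinear form -/
noncomputable def V {n N : ℕ} (w x : Fin N → ℂ) (F : Fin n → ℂ → ℂ) : ℂ :=
  ∑ j : Fin n → Fin N, (∏ l, w (j l) * F l (x (j l))) * KK fun l => x (j l)

theorem V_congr {n N : ℕ} (w x : Fin N → ℂ) (F G : Fin n → ℂ → ℂ)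
    (h : ∀ l j, F l (x j) = G l (x j)) : V w x F = V w x G := by
  unfold V
  apply sum_congr rfl
  intro j _
  congr 1
  apply prod_congr rfl
  intro l _
  rw [h]

theorem V_lin {n N : ℕ} (w x : Fin N → ℂ) (F G H : Fin n → ℂ → ℂ) (l : Fin n) (b c : ℂ)
    (hG : ∀ m, m ≠ l → ∀ j, G m (x j) = F m (x j)) (hH : ∀ m, m ≠ l → ∀ j, H m (x j) = F m (x j))
    (h : ∀ j, F l (x j) = b * G l (x j) + c * H l (x j)) :
    V w x F = b * V w x G + c * V w x H := by
  unfold V
  rw [mul_sum, mul_sum, ← sum_add_distrib]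
  apply sum_congr rfl
  intro j _
  rw [← mul_prod_erase univ (fun m => w (j m) * F m (x (j m))) (mem_univ l),
    ← mul_prod_erase univ (fun m => w (j m) * G m (x (j m))) (mem_univ l),
    ← mul_prod_erase univ (fun m => w (j m) * H m (x (j m))) (mem_univ l), h]
  have e1 : ∏ m ∈ univ.erase l, w (j m) * G m (x (j m)) =
      ∏ m ∈ univ.erase l, w (j m) * F m (x (j m)) := by
    apply prod_congr rfl
    intro m hm
    rw [hG m (ne_of_mem_erase hm)]
  have e2 : ∏ m ∈ univ.erase l, w (j m) * H m (x (j m)) =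
      ∏ m ∈ univ.erase l, w (j m) * F m (x (j m)) := by
    apply prod_congr rfl
    intro m hm
    rw [hH m (ne_of_mem_erase hm)]
  rw [e1, e2]
  ring

theorem V_sym {n N : ℕ} (w x : Fin N → ℂ) (F G : Fin n → ℂ → ℂ) (l l' : Fin n)
    (hl : (l : ℕ) + 1 = l')
    (hG : ∀ m, m ≠ l → m ≠ l' → ∀ j, G m (x j) = F m (x j))
    (h : ∀ j j', (F l (x j) * F l' (x j') - G l (x j) * G l' (x j')) * (1 + x j + x j * x j') =
      (F l (x j') * F l' (x j) - G l (x j') * G l' (x j)) * (1 + x j' + x j * x j')) :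
    V w x F = V w x G := by
  have hll : l ≠ l' := by
    intro h
    rw [h] at hl
    omega
  have hne : l' ∈ univ.erase l := mem_erase.2 ⟨hll.symm, mem_univ _⟩
  set S : (Fin n → Fin N) → ℂ := fun j => (∏ m, w (j m) * F m (x (j m))) * KK (fun m => x (j m)) -
    (∏ m, w (j m) * G m (x (j m))) * KK (fun m => x (j m)) with hS
  have hsplit : ∀ j : Fin n → Fin N, S j = (∏ m, w (j m)) *
      (∏ m ∈ (univ.erase l).erase l', F m (x (j m))) *
      (F l (x (j l)) * F l' (x (j l')) - G l (x (j l)) * G l' (x (j l'))) *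
      KK (fun m => x (j m)) := by
    intro j
    simp only [hS]
    rw [prod_mul_distrib, prod_mul_distrib, ← mul_prod_erase univ (fun m => F m (x (j m))) (mem_univ l),
      ← mul_prod_erase univ (fun m => G m (x (j m))) (mem_univ l),
      ← mul_prod_erase (univ.erase l) (fun m => F m (x (j m))) hne,
      ← mul_prod_erase (univ.erase l) (fun m => G m (x (j m))) hne]
    have e1 : ∏ m ∈ (univ.erase l).erase l', G m (x (j m)) =
        ∏ m ∈ (univ.erase l).erase l', F m (x (j m)) := by
      apply prod_congr rfl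
      intro m hm
      rw [mem_erase, mem_erase] at hm
      rw [hG m hm.2.1 hm.1]
    rw [e1]
    ring
  have hanti : ∀ j : Fin n → Fin N, S j + S (j ∘ Equiv.swap l l') = 0 := by
    intro j
    rw [hsplit, hsplit]
    obtain ⟨G', hG1, hG2⟩ := KK_swap (fun m => x (j m)) l l' hl
    have e1 : ∏ m, w ((j ∘ Equiv.swap l l') m) = ∏ m, w (j m) :=
      Equiv.prod_comp (Equiv.swap l l') fun m => w (j m)
    have e2 : ∏ m ∈ (univ.erase l).erase l', F m (x ((j ∘ Equiv.swap l l') m)) =
        ∏ m ∈ (univ.erase l).erase l', F m (x (j m)) := by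
      apply prod_congr rfl
      intro m hm
      rw [mem_erase, mem_erase] at hm
      rw [Function.comp_apply, Equiv.swap_apply_of_ne_of_ne hm.2.1 hm.1]
    have e3 : KK (fun m => x ((j ∘ Equiv.swap l l') m)) =
        kk (x (j l')) (x (j l)) * G' := hG2
    rw [e1, e2, e3, hG1]
    simp only [Function.comp_apply, Equiv.swap_apply_left, Equiv.swap_apply_right, kk]
    linear_combination ((∏ m, w (j m)) * (∏ m ∈ (univ.erase l).erase l', F m (x (j m))) * G' *
      (x (j l') - x (j l)) * (1 - x (j l) * x (j l')) * (1 + x (j l) + x (j l'))) * h (j l) (j l')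
  have hsum : ∑ j, S j = 0 := by
    have h1 : ∑ j : Fin n → Fin N, S (j ∘ Equiv.swap l l') = ∑ j, S j := by
      apply Fintype.sum_equiv ((Equiv.swap l l').arrowCongr (Equiv.refl _))
      intro j
      rfl
    have h2 : ∑ j : Fin n → Fin N, (S j + S (j ∘ Equiv.swap l l')) = 0 :=
      sum_eq_zero fun j _ => hanti j
    rw [sum_add_distrib, h1] at h2
    linear_combination h2 / 2
  rw [← sub_eq_zero]
  unfold V
  rw [← sum_sub_distrib]
  exact hsum

/-- the vector as a function of the increasing sequence of down sites -/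
theorem ut_eq (q : ℂ) (N n : ℕ) (z : ℕ → ℂ) (D : Finset ℕ) (hc : D.card = n) (a : Fin n → ℕ)
    (ha : StrictMono a) (haD : ∀ l, a l ∈ D) :
    ut q N n z D = ∑ j : Fin n → Fin N,
      (∏ l, res q N n z (a l) ((j l : ℕ) + 1)) * KK fun l => z ((j l : ℕ) + 1) := by
  unfold ut
  rw [dif_pos hc]
  have : a = D.orderEmbOfFin hc := Finset.orderEmbOfFin_unique hc haD ha
  rw [this]

theorem succ_mem {N : ℕ} (j : Fin N) : (j : ℕ) + 1 ∈ Icc 1 N := by
  rw [mem_Icc]
  have := j.2
  omega

theorem ut_eq_V (q : ℂ) (N n : ℕ) (z : ℕ → ℂ) (hz : Gen N z) (D : Finset ℕ) (hD : D ⊆ Icc 1 N)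
    (hc : D.card = n) (a : Fin n → ℕ) (ha : StrictMono a) (haD : ∀ l, a l ∈ D) :
    ut q N n z D = V (fun j : Fin N => w q N n z (j + 1)) (fun j : Fin N => z (j + 1))
      fun l => A q z (a l) := by
  rw [ut_eq q N n z D hc a ha haD]
  unfold V
  apply sum_congr rfl
  intro j _
  congr 1
  apply prod_congr rfl
  intro l _
  rw [res_eq q N n z hz (a l) (j l + 1) (hD (haD l)) (succ_mem _)]

theorem Gen_sw (N : ℕ) (z : ℕ → ℂ) (hz : Gen N z) (i : ℕ) (hi : 1 ≤ i) (hiN : i < N) :
    Gen N (sw z i) := by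
  refine ⟨fun k hk => hz.1 _ (swap_mem i N k hi hiN hk), ?_⟩
  intro k hk k' hk' h
  rw [coe_Icc, ← Finset.coe_Icc, mem_coe] at hk hk'
  exact (Equiv.swap i (i + 1)).injective
    (hz.2 (by exact_mod_cast swap_mem i N k hi hiN hk) (by exact_mod_cast swap_mem i N k' hi hiN hk')
      h)

/-- the transposition on `Fin N` -/
def sg (N i : ℕ) (hi : 1 ≤ i) (hiN : i < N) : Fin N ≃ Fin N :=
  Equiv.swap ⟨i - 1, by omega⟩ ⟨i, hiN⟩

theorem sg_succ (N i : ℕ) (hi : 1 ≤ i) (hiN : i < N) (j : Fin N) :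
    ((sg N i hi hiN j : Fin N) : ℕ) + 1 = Equiv.swap i (i + 1) ((j : ℕ) + 1) := by
  unfold sg
  rw [Equiv.swap_apply_def, Equiv.swap_apply_def]
  simp only [Fin.ext_iff]
  split_ifs <;> (try dsimp only) <;> omega

theorem ut_sw_eq_V (q : ℂ) (N n : ℕ) (z : ℕ → ℂ) (hz : Gen N z) (i : ℕ) (hi : 1 ≤ i) (hiN : i < N)
    (D : Finset ℕ) (hD : D ⊆ Icc 1 N)
    (hc : D.card = n) (a : Fin n → ℕ) (ha : StrictMono a) (haD : ∀ l, a l ∈ D) :
    ut q N n (sw z i) D = V (fun j : Fin N => w q N n z (j + 1)) (fun j : Fin N => z (j + 1))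
      fun l => A q (sw z i) (a l) := by
  rw [ut_eq_V q N n (sw z i) (Gen_sw N z hz i hi hiN) D hD hc a ha haD]
  unfold V
  have key : ∀ j : Fin N, w q N n (sw z i) (((sg N i hi hiN j : Fin N) : ℕ) + 1) =
      w q N n z ((j : ℕ) + 1) := by
    intro j
    rw [sg_succ, w_sw q N n z i hi hiN]
  have key2 : ∀ j : Fin N, sw z i (((sg N i hi hiN j : Fin N) : ℕ) + 1) = z ((j : ℕ) + 1) := by
    intro j
    rw [sg_succ, sw_apply, Equiv.swap_apply_self]
  symm
  apply Fintype.sum_equiv ((Equiv.refl _).arrowCongr (sg N i hi hiN))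
  intro j
  simp only [Equiv.arrowCongr_apply, Equiv.refl_symm, Equiv.coe_refl, Function.comp_apply, id_eq,
    key, key2]

theorem one_add_ne (N : ℕ) (z : ℕ → ℂ) (hz : Gen N z) (k : ℕ) (hk : k ∈ Icc 1 N) (j : Fin N) :
    1 + z k + z ((j : ℕ) + 1) * z k ≠ 0 :=
  norm_one_add _ _ (hz.1 k hk) (hz.1 _ (succ_mem j))

theorem one_add_ne' (N : ℕ) (z : ℕ → ℂ) (hz : Gen N z) (k k' : ℕ) (hk : k ∈ Icc 1 N)
    (hk' : k' ∈ Icc 1 N) : 1 + z k + z k' * z k ≠ 0 :=
  norm_one_add _ _ (hz.1 k hk) (hz.1 _ hk')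

end Exch

open Exch

/-- The exchange relation. -/
theorem exchange (q : ℂ) (hq : q ^ 2 + q + 1 = 0) (N n : ℕ) (z : ℕ → ℂ) (hz : Gen N z) (i : ℕ)
    (hi : 1 ≤ i) (hiN : i < N) (D : Finset ℕ) (hD : D ⊆ Icc 1 N) (hc : D.card = n) :
    ut q N n (sw z i) D =
      ut q N n z D + (z i - z (i + 1)) / (1 + z (i + 1) + z i * z (i + 1)) * E q i (ut q N n z) D := by
  classical
  obtain ⟨a, hadef⟩ : ∃ a : Fin n → ℕ, a = fun l => D.orderEmbOfFin hc l := ⟨_, rfl⟩
  have ha : StrictMono a := hadef ▸ (D.orderEmbOfFin hc).strictMono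
  have haD : ∀ l, a l ∈ D := hadef ▸ fun l => D.orderEmbOfFin_mem hc l
  have hrange : ∀ x ∈ D, ∃ l, a l = x := by
    intro x hx
    have : x ∈ Set.range (D.orderEmbOfFin hc) := by
      rw [Finset.range_orderEmbOfFin]
      exact hx
    rw [hadef]
    exact this
  have hiI : i ∈ Icc 1 N := by rw [mem_Icc]; omega
  have hiI' : i + 1 ∈ Icc 1 N := by rw [mem_Icc]; omega
  have h3 : 1 + z (i + 1) + z i * z (i + 1) ≠ 0 := one_add_ne' N z hz _ _ hiI' hiI
  unfold E
  rw [ut_sw_eq_V q N n z hz i hi hiN D hD hc a ha haD, ut_eq_V q N n z hz D hD hc a ha haD]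
  by_cases h1 : i ∈ D
  · rw [if_pos h1]
    obtain ⟨l, hl⟩ := hrange i h1
    by_cases h2 : i + 1 ∈ D
    · rw [if_pos h2, mul_zero, add_zero]
      obtain ⟨l', hl'⟩ := hrange (i + 1) h2
      have hll : (l : ℕ) + 1 = l' := by
        have h4 : l < l' := by
          rw [← ha.lt_iff_lt]
          omega
        by_contra hne
        have h5 : (l : ℕ) + 1 < l' := by
          rw [Fin.lt_def] at h4
          omega
        have h6 : l < (⟨l + 1, by omega⟩ : Fin n) := by
          rw [Fin.lt_def]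
          simp
        have h7 : (⟨l + 1, by omega⟩ : Fin n) < l' := by
          rw [Fin.lt_def]
          exact h5
        have h8 := ha h6
        have h9 := ha h7
        omega
      apply V_sym _ _ _ _ l l' hll
      · intro m hm hm' j
        rw [A_sw_of_ne q z i (a m) hi]
        · intro h
          exact hm (ha.injective (h.trans hl.symm))
        · intro h
          exact hm' (ha.injective (h.trans hl'.symm))
      · intro j j'
        simp only [hl, hl']
        exact C_sym q z i hi _ _ (one_add_ne N z hz i hiI j) (one_add_ne N z hz (i + 1) hiI' j)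
          (one_add_ne N z hz i hiI j') (one_add_ne N z hz (i + 1) hiI' j')
    · rw [if_neg h2]
      have hcard : (insert (i + 1) (D.erase i)).card = n := by
        rw [card_insert_of_notMem (by simp [h2]), card_erase_of_mem h1, hc]
        have : 0 < n := by
          rw [← hc]
          exact card_pos.2 ⟨i, h1⟩
        omega
      have hsub : insert (i + 1) (D.erase i) ⊆ Icc 1 N := by
        intro k hk
        rw [mem_insert] at hk
        rcases hk with rfl | hk
        · exact hiI'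
        · exact hD (mem_of_mem_erase hk)
      have ha' : StrictMono (Function.update a l (i + 1)) := by
        intro m m' hm
        by_cases hml : m = l
        · subst hml
          rw [Function.update_self, Function.update_of_ne (ne_of_gt hm)]
          have h4 := ha hm
          have h5 : a m' ≠ i + 1 := fun h => h2 (h ▸ haD m')
          omega
        · rw [Function.update_of_ne hml]
          by_cases hml' : m' = l
          · subst hml'
            rw [Function.update_self]
            have h4 := ha hm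
            omega
          · rw [Function.update_of_ne hml']
            exact ha hm
      have haD' : ∀ m, Function.update a l (i + 1) m ∈ insert (i + 1) (D.erase i) := by
        intro m
        by_cases hml : m = l
        · subst hml
          rw [Function.update_self]
          exact mem_insert_self _ _
        · rw [Function.update_of_ne hml]
          refine mem_insert_of_mem (mem_erase.2 ⟨fun h => hml ?_, haD m⟩)
          exact ha.injective (h.trans hl.symm)
      rw [ut_eq_V q N n z hz _ hsub hcard _ ha' haD']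
      rw [V_lin (fun j : Fin N => w q N n z (j + 1)) (fun j : Fin N => z (j + 1))
        (fun l => A q (sw z i) (a l)) (fun l => A q z (a l))
        (fun m => A q z (Function.update a l (i + 1) m)) l
        (1 - q * ((z i - z (i + 1)) / (1 + z (i + 1) + z i * z (i + 1))))
        ((z i - z (i + 1)) / (1 + z (i + 1) + z i * z (i + 1)))]
      · ring
      · intro m hm j
        rw [A_sw_of_ne q z i (a m) hi]
        · intro h
          exact hm (ha.injective (h.trans hl.symm))
        · intro h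
          exact h2 (h ▸ haD m)
      · intro m hm j
        simp only [Function.update_of_ne hm]
        rw [A_sw_of_ne q z i (a m) hi]
        · intro h
          exact hm (ha.injective (h.trans hl.symm))
        · intro h
          exact h2 (h ▸ haD m)
      · intro j
        simp only [Function.update_self, hl]
        rw [A_sw_left q z i hi, A_left q z i hi, A_right q z i hi,
          B_left q hq (z i) (z (i + 1)) (z ((j : ℕ) + 1)) (one_add_ne N z hz i hiI j)
            (one_add_ne N z hz (i + 1) hiI' j) h3]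
        ring
  · rw [if_neg h1]
    by_cases h2 : i + 1 ∈ D
    · rw [if_pos h2]
      obtain ⟨l, hl⟩ := hrange (i + 1) h2
      have hcard : (insert i (D.erase (i + 1))).card = n := by
        rw [card_insert_of_notMem (by simp [h1]), card_erase_of_mem h2, hc]
        have : 0 < n := by
          rw [← hc]
          exact card_pos.2 ⟨i + 1, h2⟩
        omega
      have hsub : insert i (D.erase (i + 1)) ⊆ Icc 1 N := by
        intro k hk
        rw [mem_insert] at hk
        rcases hk with rfl | hk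
        · exact hiI
        · exact hD (mem_of_mem_erase hk)
      have ha' : StrictMono (Function.update a l i) := by
        intro m m' hm
        by_cases hml : m = l
        · subst hml
          rw [Function.update_self, Function.update_of_ne (ne_of_gt hm)]
          have h4 := ha hm
          omega
        · rw [Function.update_of_ne hml]
          by_cases hml' : m' = l
          · subst hml'
            rw [Function.update_self]
            have h4 := ha hm
            have h5 : a m ≠ i := fun h => h1 (h ▸ haD m)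
            omega
          · rw [Function.update_of_ne hml']
            exact ha hm
      have haD' : ∀ m, Function.update a l i m ∈ insert i (D.erase (i + 1)) := by
        intro m
        by_cases hml : m = l
        · subst hml
          rw [Function.update_self]
          exact mem_insert_self _ _
        · rw [Function.update_of_ne hml]
          refine mem_insert_of_mem (mem_erase.2 ⟨fun h => hml ?_, haD m⟩)
          exact ha.injective (h.trans hl.symm)
      rw [ut_eq_V q N n z hz _ hsub hcard _ ha' haD']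
      rw [V_lin (fun j : Fin N => w q N n z (j + 1)) (fun j : Fin N => z (j + 1))
        (fun l => A q (sw z i) (a l)) (fun m => A q z (Function.update a l i m))
        (fun l => A q z (a l)) l
        ((z i - z (i + 1)) / (1 + z (i + 1) + z i * z (i + 1)))
        (1 - q⁻¹ * ((z i - z (i + 1)) / (1 + z (i + 1) + z i * z (i + 1))))]
      · ring
      · intro m hm j
        simp only [Function.update_of_ne hm]
        rw [A_sw_of_ne q z i (a m) hi]
        · intro h
          exact h1 (h ▸ haD m)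
        · intro h
          exact hm (ha.injective (h.trans hl.symm))
      · intro m hm j
        rw [A_sw_of_ne q z i (a m) hi]
        · intro h
          exact h1 (h ▸ haD m)
        · intro h
          exact hm (ha.injective (h.trans hl.symm))
      · intro j
        simp only [Function.update_self, hl]
        rw [A_sw_right q z i hi, A_left q z i hi, A_right q z i hi,
          B_right q hq (z i) (z (i + 1)) (z ((j : ℕ) + 1)) (one_add_ne N z hz i hiI j)
            (one_add_ne N z hz (i + 1) hiI' j) h3]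
        ring
    · rw [if_neg h2, mul_zero, add_zero]
      apply V_congr
      intro l j
      rw [A_sw_of_ne q z i (a l) hi]
      · intro h
        exact h1 (h ▸ haD l)
      · intro h
        exact h2 (h ▸ haD l)

end Pool.Agent.H75.Exact
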