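import Mathlib

set_option autoImplicit false
open Finset

/-! Temperley-Lieb link states as covectors on spin configurations: insertion of a small arc (`cup`) and
the generators `EE` (loop weight one). A spin configuration is `s : ℕ → Bool`, `true` = down. -/

namespace Pool.Agent.H75.Exact.Lk

abbrev Cov := (ℕ → Bool) → ℂ

/-- weight of an arc whose left spin is `x` and whose right spin is `!x` -/
noncomputable def wt (a : ℂ) (x : Bool) : ℂ := if x then a⁻¹ else a

/-- remove the sites `j, j+1` -/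
def skip (j : ℕ) (s : ℕ → Bool) : ℕ → Bool := fun l => if l < j then s l else s (l + 2)

/-- insert a small arc at `j, j+1` -/
noncomputable def cup (a : ℂ) (j : ℕ) (B : Cov) : Cov := fun s =>
  if s (j + 1) = !(s j) then wt a (s j) * B (skip j s) else 0

def put (i : ℕ) (x : Bool) (s : ℕ → Bool) : ℕ → Bool := fun l =>
  if l = i then x else if l = i + 1 then !x else s l

/-- the generator `e_i` acting on covectors -/
noncomputable def EE (a : ℂ) (i : ℕ) (B : Cov) : Cov := fun s =>
  if s (i + 1) = !(s i) then wt a (s i) * (a⁻¹ * B (put i true s) + a * B (put i false s)) else 0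

lemma put_at (i : ℕ) (x : Bool) (s : ℕ → Bool) : put i x s i = x := by simp [put]

lemma put_succ (i : ℕ) (x : Bool) (s : ℕ → Bool) : put i x s (i + 1) = !x := by simp [put]

lemma put_of_ne (i : ℕ) (x : Bool) (s : ℕ → Bool) (l : ℕ) (h1 : l ≠ i) (h2 : l ≠ i + 1) :
    put i x s l = s l := by simp [put, h1, h2]

lemma skip_put_self (i : ℕ) (x : Bool) (s : ℕ → Bool) : skip i (put i x s) = skip i s := by
  funext l
  unfold skip
  split_ifs with h
  · exact put_of_ne _ _ _ _ (by omega) (by omega)
  · exact put_of_ne _ _ _ _ (by omega) (by omega)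

/-- `e_j` fixes a state with a small arc at `j` -/
lemma EE_cup_self (a : ℂ) (ha : a⁻¹ * a⁻¹ + a * a = 1) (j : ℕ) (B : Cov) :
    EE a j (cup a j B) = cup a j B := by
  funext s
  unfold EE
  by_cases h : s (j + 1) = !(s j)
  · rw [if_pos h]
    have h1 : cup a j B (put j true s) = a⁻¹ * B (skip j s) := by
      unfold cup
      rw [put_at, put_succ, if_pos rfl, skip_put_self]
      simp [wt]
    have h2 : cup a j B (put j false s) = a * B (skip j s) := by
      unfold cup
      rw [put_at, put_succ, if_pos rfl, skip_put_self]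
      simp [wt]
    rw [h1, h2]
    have h3 : cup a j B s = wt a (s j) * B (skip j s) := by
      unfold cup; rw [if_pos h]
    rw [h3]
    calc wt a (s j) * (a⁻¹ * (a⁻¹ * B (skip j s)) + a * (a * B (skip j s)))
        = wt a (s j) * ((a⁻¹ * a⁻¹ + a * a) * B (skip j s)) := by ring
      _ = _ := by rw [ha, one_mul]
  · rw [if_neg h]
    unfold cup; rw [if_neg h]

lemma skip_put_right (i : ℕ) (x : Bool) (s : ℕ → Bool) (hx : (!x) = s i) :
    skip i (put (i + 1) x s) = skip (i + 1) s := by
  funext l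
  unfold skip
  by_cases h : l < i
  · rw [if_pos h, if_pos (by omega)]
    exact put_of_ne _ _ _ _ (by omega) (by omega)
  · rw [if_neg h]
    by_cases h2 : l = i
    · subst h2
      rw [if_pos (by omega)]
      rw [show l + 2 = l + 1 + 1 from rfl, put_succ, hx]
    · rw [if_neg (by omega)]
      exact put_of_ne _ _ _ _ (by omega) (by omega)

/-- zigzag -/
lemma EE_cup_succ (a : ℂ) (ha : a ≠ 0) (j : ℕ) (B : Cov) :
    EE a (j + 1) (cup a j B) = cup a (j + 1) B := by
  funext s
  unfold EE
  by_cases h : s (j + 1 + 1) = !(s (j + 1))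
  · rw [if_pos h]
    have h0 : cup a (j + 1) B s = wt a (s (j + 1)) * B (skip (j + 1) s) := by
      unfold cup; rw [if_pos h]
    rw [h0]
    have hp : ∀ x : Bool, cup a j B (put (j + 1) x s) =
        if x = !(s j) then wt a (s j) * B (skip (j + 1) s) else 0 := by
      intro x
      unfold cup
      rw [put_at, put_of_ne _ _ _ _ (by omega : j ≠ j + 1) (by omega)]
      by_cases hx : x = !(s j)
      · rw [if_pos hx, if_pos hx, skip_put_right]
        rw [hx]; simp
      · rw [if_neg hx, if_neg hx]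
    rw [hp, hp]
    cases hs : s j
    · simp [wt]
      split_ifs <;> field_simp
    · simp [wt]
      split_ifs <;> field_simp
  · rw [if_neg h]
    unfold cup; rw [if_neg h]

lemma skip_put_left (i : ℕ) (x : Bool) (s : ℕ → Bool) (hx : x = s (i + 2)) :
    skip (i + 1) (put i x s) = skip i s := by
  funext l
  unfold skip
  by_cases h : l < i
  · rw [if_pos h, if_pos (by omega)]
    exact put_of_ne _ _ _ _ (by omega) (by omega)
  · rw [if_neg h]
    by_cases h2 : l = i
    · subst h2
      rw [if_pos (by omega), put_at, hx]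
    · rw [if_neg (by omega)]
      exact put_of_ne _ _ _ _ (by omega) (by omega)

lemma EE_cup_pred (a : ℂ) (ha : a ≠ 0) (j : ℕ) (B : Cov) :
    EE a j (cup a (j + 1) B) = cup a j B := by
  funext s
  unfold EE
  by_cases h : s (j + 1) = !(s j)
  · rw [if_pos h]
    have h0 : cup a j B s = wt a (s j) * B (skip j s) := by
      unfold cup; rw [if_pos h]
    rw [h0]
    have hp : ∀ x : Bool, cup a (j + 1) B (put j x s) =
        if x = s (j + 2) then wt a (!x) * B (skip j s) else 0 := by
      intro x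
      unfold cup
      rw [put_succ, put_of_ne _ _ _ _ (by omega : j + 1 + 1 ≠ j) (by omega)]
      by_cases hx : x = s (j + 2)
      · rw [if_pos hx, if_pos (by rw [← hx]; simp), skip_put_left _ _ _ hx]
      · rw [if_neg hx, if_neg (by
          intro h'
          apply hx
          rw [show j + 2 = j + 1 + 1 from rfl, h']; simp)]
    rw [hp, hp]
    cases hs : s (j + 2)
    · simp [wt]
      split_ifs <;> field_simp
    · simp [wt]
      split_ifs <;> field_simp
  · rw [if_neg h]
    unfold cup; rw [if_neg h]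

lemma EE_cup_lt (a : ℂ) (i j : ℕ) (hij : i + 2 ≤ j) (B : Cov) :
    EE a i (cup a j B) = cup a j (EE a i B) := by
  funext s
  have hsk : ∀ l, l < j → skip j s l = s l := fun l hl => by simp [skip, hl]
  have hput : ∀ x, put i x (skip j s) = skip j (put i x s) := by
    intro x
    funext l
    simp only [put, skip]
    split_ifs <;> first | rfl | omega
  have hc : ∀ x, cup a j B (put i x s) =
      if s (j + 1) = !(s j) then wt a (s j) * B (skip j (put i x s)) else 0 := by
    intro x
    unfold cup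
    rw [put_of_ne _ _ _ _ (by omega : j + 1 ≠ i) (by omega),
      put_of_ne _ _ _ _ (by omega : j ≠ i) (by omega)]
  unfold EE
  rw [hc, hc]
  unfold cup
  simp only []
  rw [hsk i (by omega), hsk (i + 1) (by omega), hput, hput]
  by_cases h1 : s (i + 1) = !(s i)
  · by_cases h2 : s (j + 1) = !(s j)
    · simp only [if_pos h1, if_pos h2]
      ring
    · simp only [if_pos h1, if_neg h2]
      ring
  · simp only [if_neg h1]
    split_ifs <;> ring

lemma EE_cup_gt (a : ℂ) (i j : ℕ) (hij : j ≤ i) (B : Cov) :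
    EE a (i + 2) (cup a j B) = cup a j (EE a i B) := by
  funext s
  have hsk : ∀ l, j ≤ l → skip j s l = s (l + 2) := fun l hl => by
    simp [skip, Nat.not_lt.mpr hl]
  have hput : ∀ x, put i x (skip j s) = skip j (put (i + 2) x s) := by
    intro x
    funext l
    simp only [put, skip]
    split_ifs <;> first | rfl | omega
  have hc : ∀ x, cup a j B (put (i + 2) x s) =
      if s (j + 1) = !(s j) then wt a (s j) * B (skip j (put (i + 2) x s)) else 0 := by
    intro x
    unfold cup
    rw [put_of_ne _ _ _ _ (by omega : j + 1 ≠ i + 2) (by omega),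
      put_of_ne _ _ _ _ (by omega : j ≠ i + 2) (by omega)]
  unfold EE
  rw [hc, hc]
  unfold cup
  simp only []
  rw [hsk i (by omega), hsk (i + 1) (by omega), hput, hput,
    show i + 1 + 2 = i + 2 + 1 from rfl]
  by_cases h1 : s (i + 2 + 1) = !(s (i + 2))
  · by_cases h2 : s (j + 1) = !(s j)
    · simp only [if_pos h1, if_pos h2]
      ring
    · simp only [if_pos h1, if_neg h2]
      ring
  · simp only [if_neg h1]
    split_ifs <;> ring

lemma EE_smul (a : ℂ) (i : ℕ) (t : ℂ) (B : Cov) : EE a i (t • B) = t • EE a i B := by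
  funext s
  simp only [EE, Pi.smul_apply, smul_eq_mul]
  split_ifs <;> ring

lemma cup_smul (a : ℂ) (j : ℕ) (t : ℂ) (B : Cov) : cup a j (t • B) = t • cup a j B := by
  funext s
  simp only [cup, Pi.smul_apply, smul_eq_mul]
  split_ifs <;> ring

lemma cup_zero (a : ℂ) (j : ℕ) : cup a j (0 : Cov) = 0 := by
  funext s
  simp [cup]

lemma EE_zero (a : ℂ) (i : ℕ) : EE a i (0 : Cov) = 0 := by
  funext s
  simp [EE]

/-! ### Partitions of `ℕ`: `0` is the source, `p ≥ 1` is column `p-1` (or the wall) -/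

def isoN (x : ℕ) (c : Setoid ℕ) : Setoid ℕ where
  r u v := u = v ∨ (u ≠ x ∧ v ≠ x ∧ c u v)
  iseqv := by
    refine ⟨fun u => Or.inl rfl, ?_, ?_⟩
    · rintro u v (h | ⟨h1, h2, h3⟩)
      · exact Or.inl h.symm
      · exact Or.inr ⟨h2, h1, c.symm h3⟩
    · rintro u v w (rfl | ⟨h1, h2, h3⟩) (rfl | ⟨g1, g2, g3⟩)
      · exact Or.inl rfl
      · exact Or.inr ⟨g1, g2, g3⟩
      · exact Or.inr ⟨h1, h2, h3⟩
      · exact Or.inr ⟨h1, g2, c.trans h3 g3⟩

def joinN (x y : ℕ) (c : Setoid ℕ) : Setoid ℕ where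
  r u v := c u v ∨ (c u x ∧ c v y) ∨ (c u y ∧ c v x)
  iseqv := by
    refine ⟨fun u => Or.inl (c.refl u), ?_, ?_⟩
    · rintro u v (h | ⟨h1, h2⟩ | ⟨h1, h2⟩)
      · exact Or.inl (c.symm h)
      · exact Or.inr (Or.inr ⟨h2, h1⟩)
      · exact Or.inr (Or.inl ⟨h2, h1⟩)
    · rintro u v w (h | ⟨h1, h2⟩ | ⟨h1, h2⟩) (g | ⟨g1, g2⟩ | ⟨g1, g2⟩)
      · exact Or.inl (c.trans h g)
      · exact Or.inr (Or.inl ⟨c.trans h g1, g2⟩)
      · exact Or.inr (Or.inr ⟨c.trans h g1, g2⟩)
      · exact Or.inr (Or.inl ⟨h1, c.trans (c.symm g) h2⟩)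
      · exact Or.inr (Or.inl ⟨h1, g2⟩)
      · exact Or.inl (c.trans h1 (c.symm g2))
      · exact Or.inr (Or.inr ⟨h1, c.trans (c.symm g) h2⟩)
      · exact Or.inl (c.trans h1 (c.symm g2))
      · exact Or.inr (Or.inr ⟨h1, g2⟩)

lemma isoN_apply (x : ℕ) (c : Setoid ℕ) (u v : ℕ) :
    isoN x c u v ↔ u = v ∨ (u ≠ x ∧ v ≠ x ∧ c u v) := Iff.rfl

lemma joinN_apply (x y : ℕ) (c : Setoid ℕ) (u v : ℕ) :
    joinN x y c u v ↔ c u v ∨ (c u x ∧ c v y) ∨ (c u y ∧ c v x) := Iff.rfl

lemma comap_apply (f : ℕ → ℕ) (c : Setoid ℕ) (u v : ℕ) :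
    c.comap f u v ↔ c (f u) (f v) := Iff.rfl

/-- merge the points `p` and `p+1` -/
def mrg (p x : ℕ) : ℕ := if x ≤ p then x else x - 1

lemma mrg_le {p x : ℕ} (h : x ≤ p) : mrg p x = x := if_pos h
lemma mrg_gt {p x : ℕ} (h : p < x) : mrg p x = x - 1 := if_neg (by omega)

def cupP (j : ℕ) (c : Setoid ℕ) : Setoid ℕ :=
  if j % 2 = 1 then isoN ((j + 1) / 2) (c.comap (mrg ((j + 1) / 2))) else c.comap (mrg (j / 2))

def eeP (i : ℕ) (c : Setoid ℕ) : Setoid ℕ :=
  if i % 2 = 1 then isoN ((i + 1) / 2) c else joinN (i / 2) (i / 2 + 1) c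

lemma cupP_odd (p : ℕ) (c : Setoid ℕ) : cupP (2 * p + 1) c = isoN (p + 1) (c.comap (mrg (p + 1))) := by
  unfold cupP
  rw [if_pos (by omega), show (2 * p + 1 + 1) / 2 = p + 1 by omega]

lemma cupP_even (p : ℕ) (c : Setoid ℕ) : cupP (2 * p) c = c.comap (mrg p) := by
  unfold cupP
  rw [if_neg (by omega), show (2 * p) / 2 = p by omega]

lemma eeP_odd (p : ℕ) (c : Setoid ℕ) : eeP (2 * p + 1) c = isoN (p + 1) c := by
  unfold eeP
  rw [if_pos (by omega), show (2 * p + 1 + 1) / 2 = p + 1 by omega]

lemma eeP_even (p : ℕ) (c : Setoid ℕ) : eeP (2 * p) c = joinN p (p + 1) c := by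
  unfold eeP
  rw [if_neg (by omega), show (2 * p) / 2 = p by omega]

lemma isoN_isoN_self (x : ℕ) (c : Setoid ℕ) : isoN x (isoN x c) = isoN x c := by
  apply Setoid.ext
  intro u v
  simp only [isoN_apply]
  tauto

lemma isoN_comm (x y : ℕ) (c : Setoid ℕ) : isoN x (isoN y c) = isoN y (isoN x c) := by
  apply Setoid.ext
  intro u v
  simp only [isoN_apply]
  tauto

lemma isoN_joinN (x y z : ℕ) (c : Setoid ℕ) (hy : y ≠ x) (hz : z ≠ x) :
    joinN y z (isoN x c) = isoN x (joinN y z c) := by
  apply Setoid.ext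
  intro u v
  simp only [isoN_apply, joinN_apply]
  constructor
  · rintro ((h | h) | ⟨h1 | h1, h2 | h2⟩ | ⟨h1 | h1, h2 | h2⟩)
    · exact Or.inl h
    · exact Or.inr ⟨h.1, h.2.1, Or.inl h.2.2⟩
    · subst h1 h2
      exact Or.inr ⟨hy, hz, Or.inr (Or.inl ⟨c.refl _, c.refl _⟩)⟩
    · subst h1
      exact Or.inr ⟨hy, h2.1, Or.inr (Or.inl ⟨c.refl _, h2.2.2⟩)⟩
    · subst h2
      exact Or.inr ⟨h1.1, hz, Or.inr (Or.inl ⟨h1.2.2, c.refl _⟩)⟩
    · exact Or.inr ⟨h1.1, h2.1, Or.inr (Or.inl ⟨h1.2.2, h2.2.2⟩)⟩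
    · subst h1 h2
      exact Or.inr ⟨hz, hy, Or.inr (Or.inr ⟨c.refl _, c.refl _⟩)⟩
    · subst h1
      exact Or.inr ⟨hz, h2.1, Or.inr (Or.inr ⟨c.refl _, h2.2.2⟩)⟩
    · subst h2
      exact Or.inr ⟨h1.1, hy, Or.inr (Or.inr ⟨h1.2.2, c.refl _⟩)⟩
    · exact Or.inr ⟨h1.1, h2.1, Or.inr (Or.inr ⟨h1.2.2, h2.2.2⟩)⟩
  · rintro (h | ⟨h1, h2, h | ⟨h3, h4⟩ | ⟨h3, h4⟩⟩)
    · exact Or.inl (Or.inl h)
    · exact Or.inl (Or.inr ⟨h1, h2, h⟩)
    · exact Or.inr (Or.inl ⟨Or.inr ⟨h1, hy, h3⟩, Or.inr ⟨h2, hz, h4⟩⟩)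
    · exact Or.inr (Or.inr ⟨Or.inr ⟨h1, hz, h3⟩, Or.inr ⟨h2, hy, h4⟩⟩)

lemma joinN_comap (x y : ℕ) (f : ℕ → ℕ) (c : Setoid ℕ) :
    joinN x y (c.comap f) = (joinN (f x) (f y) c).comap f := rfl

lemma joinN_of_rel (x y : ℕ) (c : Setoid ℕ) (h : c x y) : joinN x y c = c := by
  apply Setoid.ext
  intro u v
  rw [joinN_apply]
  constructor
  · rintro (h1 | ⟨h1, h2⟩ | ⟨h1, h2⟩)
    · exact h1
    · exact c.trans h1 (c.trans h (c.symm h2))
    · exact c.trans h1 (c.trans (c.symm h) (c.symm h2))
  · exact Or.inl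

lemma isoN_comap_lt (x p : ℕ) (hx : x < p) (c : Setoid ℕ) :
    isoN x (c.comap (mrg p)) = (isoN x c).comap (mrg p) := by
  apply Setoid.ext
  intro u v
  simp only [isoN_apply, comap_apply]
  have key : ∀ w, mrg p w = x ↔ w = x := by
    intro w
    unfold mrg
    split_ifs <;> omega
  constructor
  · rintro (h | ⟨h1, h2, h3⟩)
    · exact Or.inl (by rw [h])
    · exact Or.inr ⟨fun h => h1 ((key u).1 h), fun h => h2 ((key v).1 h), h3⟩
  · rintro (h | ⟨h1, h2, h3⟩)
    · by_cases hu : u = x
      · left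
        rw [hu, eq_comm, ← key v, ← h, key u, hu]
      · right
        refine ⟨hu, ?_, ?_⟩
        · rw [ne_eq, ← key v, ← h, key u]; exact hu
        · rw [h]
    · exact Or.inr ⟨fun h => h1 ((key u).2 h), fun h => h2 ((key v).2 h), h3⟩

lemma isoN_comap_gt (x p : ℕ) (hx : p < x) (c : Setoid ℕ) :
    isoN (x + 1) (c.comap (mrg p)) = (isoN x c).comap (mrg p) := by
  apply Setoid.ext
  intro u v
  simp only [isoN_apply, comap_apply]
  have key : ∀ w, mrg p w = x ↔ w = x + 1 := by
    intro w
    unfold mrg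
    split_ifs <;> omega
  constructor
  · rintro (h | ⟨h1, h2, h3⟩)
    · exact Or.inl (by rw [h])
    · exact Or.inr ⟨fun h => h1 ((key u).1 h), fun h => h2 ((key v).1 h), h3⟩
  · rintro (h | ⟨h1, h2, h3⟩)
    · by_cases hu : u = x + 1
      · left
        rw [hu, eq_comm, ← key v, ← h, key u, hu]
      · right
        refine ⟨hu, ?_, ?_⟩
        · rw [ne_eq, ← key v, ← h, key u]; exact hu
        · rw [h]
    · exact Or.inr ⟨fun h => h1 ((key u).2 h), fun h => h2 ((key v).2 h), h3⟩

lemma isoN_comap_ge (x p : ℕ) (hx : p ≤ x) (c : Setoid ℕ) :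
    isoN p (isoN (x + 1) (c.comap (mrg p))) = isoN p ((isoN x c).comap (mrg p)) := by
  rcases Nat.lt_or_ge p x with h | h
  · rw [isoN_comap_gt _ _ h]
  · have hxp : x = p := by omega
    subst hxp
    apply Setoid.ext
    intro u v
    simp only [isoN_apply, comap_apply]
    have key : ∀ w, w ≠ x → (mrg x w = x ↔ w = x + 1) := by
      intro w hw
      unfold mrg
      split_ifs <;> omega
    constructor
    · rintro (h | ⟨h1, h2, h | ⟨h3, h4, h5⟩⟩)
      · exact Or.inl h
      · exact Or.inl h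
      · exact Or.inr ⟨h1, h2, Or.inr ⟨fun h => h3 ((key u h1).1 h), fun h => h4 ((key v h2).1 h), h5⟩⟩
    · rintro (h | ⟨h1, h2, h | ⟨h3, h4, h5⟩⟩)
      · exact Or.inl h
      · have : u = v ∨ (mrg x u ≠ x ∧ mrg x v ≠ x) := by
          unfold mrg at h ⊢
          split_ifs at h ⊢ <;> omega
        rcases this with h' | ⟨h3, h4⟩
        · exact Or.inl h'
        · exact Or.inr ⟨h1, h2, Or.inr ⟨fun h => h3 ((key u h1).2 h), fun h => h4 ((key v h2).2 h),
            by rw [h]⟩⟩
      · exact Or.inr ⟨h1, h2, Or.inr ⟨fun h => h3 ((key u h1).2 h), fun h => h4 ((key v h2).2 h), h5⟩⟩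

/-! relations -/

lemma eeP_cupP_self (j : ℕ) (hj : 1 ≤ j) (c : Setoid ℕ) : eeP j (cupP j c) = cupP j c := by
  obtain ⟨p, rfl | rfl⟩ := Nat.even_or_odd' j
  · rw [eeP_even, cupP_even]
    apply joinN_of_rel
    rw [comap_apply, mrg_le le_rfl, mrg_gt (Nat.lt_succ_self p)]
    exact c.refl _
  · rw [eeP_odd, cupP_odd, isoN_isoN_self]

lemma eeP_cupP_succ (j : ℕ) (hj : 1 ≤ j) (c : Setoid ℕ) :
    eeP (j + 1) (cupP j c) = cupP (j + 1) c := by
  obtain ⟨p, rfl | rfl⟩ := Nat.even_or_odd' j
  · rw [eeP_odd, cupP_odd, cupP_even]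
    apply Setoid.ext
    intro u v
    simp only [isoN_apply, comap_apply]
    have key : ∀ w, w ≠ p + 1 → mrg p w = mrg (p + 1) w := by
      intro w hw
      unfold mrg
      split_ifs <;> omega
    constructor
    · rintro (h | ⟨h1, h2, h3⟩)
      · exact Or.inl h
      · exact Or.inr ⟨h1, h2, by rw [← key u h1, ← key v h2]; exact h3⟩
    · rintro (h | ⟨h1, h2, h3⟩)
      · exact Or.inl h
      · exact Or.inr ⟨h1, h2, by rw [key u h1, key v h2]; exact h3⟩
  · rw [show 2 * p + 1 + 1 = 2 * (p + 1) by ring, eeP_even, cupP_odd, cupP_even]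
    apply Setoid.ext
    intro u v
    simp only [isoN_apply, comap_apply, joinN_apply]
    have k1 : mrg (p + 1) (p + 1 + 1) = p + 1 := by rw [mrg_gt (by omega)]; omega
    have k0 : mrg (p + 1) (p + 1) = p + 1 := mrg_le le_rfl
    by_cases hu : u = p + 1
    · subst hu
      by_cases hv : v = p + 1
      · subst hv
        simp only [true_or, true_iff]
        exact c.refl _
      · rw [k0, k1]
        constructor
        · rintro ((h | ⟨h1, _⟩) | ⟨_, h | h⟩ | ⟨h | h, h' | h'⟩)
          · exact absurd h.symm hv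
          · exact absurd rfl h1
          · rw [h, k1]
          · exact c.symm h.2.2
          · omega
          · omega
          · exact absurd rfl h.1
          · exact absurd rfl h'.2.1
        · intro h
          right; left
          refine ⟨Or.inl rfl, ?_⟩
          by_cases hv2 : v = p + 1 + 1
          · exact Or.inl hv2
          · exact Or.inr ⟨hv, by omega, c.symm h⟩
    · by_cases hv : v = p + 1
      · subst hv
        rw [k0, k1]
        constructor
        · rintro ((h | ⟨_, h1, _⟩) | ⟨h' | h', h | h⟩ | ⟨h | h, _⟩)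
          · exact absurd h hu
          · exact absurd rfl h1
          · exact absurd h' hu
          · exact absurd h' hu
          · exact absurd rfl h'.2.1
          · exact absurd rfl h'.2.1
          · rw [h, k1]
          · exact h.2.2
        · intro h
          right; right
          refine ⟨?_, Or.inl rfl⟩
          by_cases hu2 : u = p + 1 + 1
          · exact Or.inl hu2
          · exact Or.inr ⟨hu, by omega, h⟩
      · constructor
        · rintro ((h | ⟨_, _, h⟩) | ⟨h' | h', h | h⟩ | ⟨h | h, h' | h'⟩)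
          · rw [h]
          · exact h
          · exact absurd h' hu
          · exact absurd h' hu
          · exact absurd rfl h'.2.1
          · exact absurd rfl h'.2.1
          · exact absurd h' hv
          · exact absurd rfl h'.2.1
          · exact absurd h' hv
          · exact absurd rfl h'.2.1
        · intro h
          left; right
          exact ⟨hu, hv, h⟩

lemma eeP_cupP_pred (j : ℕ) (hj : 1 ≤ j) (c : Setoid ℕ) :
    eeP j (cupP (j + 1) c) = cupP j c := by
  obtain ⟨p, rfl | rfl⟩ := Nat.even_or_odd' j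
  · rw [eeP_even, cupP_odd, cupP_even]
    apply Setoid.ext
    intro u v
    simp only [isoN_apply, comap_apply, joinN_apply]
    have key : ∀ w, w ≠ p + 1 → mrg (p + 1) w = mrg p w := by
      intro w hw
      unfold mrg
      split_ifs <;> omega
    have k1 : mrg p (p + 1) = p := by rw [mrg_gt (by omega)]; omega
    have k0 : mrg p p = p := mrg_le le_rfl
    by_cases hu : u = p + 1
    · subst hu
      by_cases hv : v = p + 1
      · subst hv
        simp only [true_or, true_iff]
        exact c.refl _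
      · rw [k1]
        constructor
        · rintro ((h | ⟨h1, _⟩) | ⟨h' | h', h | h⟩ | ⟨h | h, h' | h'⟩)
          · exact absurd h.symm hv
          · exact absurd rfl h1
          · omega
          · omega
          · exact absurd rfl h'.1
          · exact absurd rfl h'.1
          · rw [h', k0]
          · have := h'.2.2
            rw [key v hv, key p (by omega), k0] at this
            exact c.symm this
          · exact absurd rfl h.1
          · exact absurd rfl h.1
        · intro h
          right; right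
          refine ⟨Or.inl rfl, ?_⟩
          by_cases hv2 : v = p
          · exact Or.inl hv2
          · exact Or.inr ⟨hv, by omega, by rw [key v hv, key p (by omega), k0]; exact c.symm h⟩
    · by_cases hv : v = p + 1
      · subst hv
        rw [k1]
        constructor
        · rintro ((h | ⟨_, h1, _⟩) | ⟨h' | h', h | h⟩ | ⟨h | h, h' | h'⟩)
          · exact absurd h hu
          · exact absurd rfl h1
          · rw [h', k0]
          · exact absurd rfl h.1
          · have := h'.2.2
            rw [key u hu, key p (by omega), k0] at this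
            exact this
          · exact absurd rfl h.1
          · exact absurd h hu
          · exact absurd h hu
          · exact absurd rfl h.2.1
          · exact absurd rfl h.2.1
        · intro h
          right; left
          refine ⟨?_, Or.inl rfl⟩
          by_cases hu2 : u = p
          · exact Or.inl hu2
          · exact Or.inr ⟨hu, by omega, by rw [key u hu, key p (by omega), k0]; exact h⟩
      · constructor
        · rintro ((h | ⟨_, _, h⟩) | ⟨h' | h', h | h⟩ | ⟨h | h, h' | h'⟩)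
          · rw [h]
          · rw [← key u hu, ← key v hv]; exact h
          · exact absurd h hv
          · exact absurd rfl h.2.1
          · exact absurd h hv
          · exact absurd rfl h.2.1
          · exact absurd h hu
          · exact absurd h hu
          · exact absurd rfl h.2.1
          · exact absurd rfl h.2.1
        · intro h
          left; right
          exact ⟨hu, hv, by rw [key u hu, key v hv]; exact h⟩
  · rw [show 2 * p + 1 + 1 = 2 * (p + 1) by ring, eeP_odd, cupP_even, cupP_odd]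

lemma eeP_cupP_lt (i j : ℕ) (hi : 1 ≤ i) (hij : i + 2 ≤ j) (c : Setoid ℕ) :
    eeP i (cupP j c) = cupP j (eeP i c) := by
  obtain ⟨p, rfl | rfl⟩ := Nat.even_or_odd' j
  · obtain ⟨r, rfl | rfl⟩ := Nat.even_or_odd' i
    · rw [eeP_even, cupP_even, cupP_even, eeP_even, joinN_comap, mrg_le (by omega), mrg_le (by omega)]
    · rw [eeP_odd, cupP_even, cupP_even, eeP_odd, isoN_comap_lt _ _ (by omega)]
  · obtain ⟨r, rfl | rfl⟩ := Nat.even_or_odd' i
    · rw [eeP_even, cupP_odd, cupP_odd, eeP_even, isoN_joinN _ _ _ _ (by omega) (by omega),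
        joinN_comap, mrg_le (by omega), mrg_le (by omega)]
    · rw [eeP_odd, cupP_odd, cupP_odd, eeP_odd, isoN_comm, isoN_comap_lt _ _ (by omega)]

lemma eeP_cupP_gt (i j : ℕ) (hj : 1 ≤ j) (hij : j ≤ i) (c : Setoid ℕ) :
    eeP (i + 2) (cupP j c) = cupP j (eeP i c) := by
  obtain ⟨p, rfl | rfl⟩ := Nat.even_or_odd' j
  · obtain ⟨r, rfl | rfl⟩ := Nat.even_or_odd' i
    · rw [show 2 * r + 2 = 2 * (r + 1) by ring, eeP_even, cupP_even, cupP_even, eeP_even,
        joinN_comap, mrg_gt (by omega), mrg_gt (by omega)]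
    · rw [show 2 * r + 1 + 2 = 2 * (r + 1) + 1 by ring, eeP_odd, cupP_even, cupP_even, eeP_odd,
        isoN_comap_gt _ _ (by omega)]
  · obtain ⟨r, rfl | rfl⟩ := Nat.even_or_odd' i
    · rw [show 2 * r + 2 = 2 * (r + 1) by ring, eeP_even, cupP_odd, cupP_odd, eeP_even,
        isoN_joinN _ _ _ _ (by omega) (by omega), joinN_comap, mrg_gt (by omega), mrg_gt (by omega)]
    · rw [show 2 * r + 1 + 2 = 2 * (r + 1) + 1 by ring, eeP_odd, cupP_odd, cupP_odd, eeP_odd,
        isoN_comm, isoN_comap_ge _ _ (by omega)]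

end Pool.Agent.H75.Exact.Lk
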