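import Mathlib
import Pool.Agent.H75.Exact.LinkA

set_option autoImplicit false
open Finset

/-! The reachable link states: `Rep1` (one defect) and `Rep3` (three defects), jointly with the
partitions, and a finite maximum principle. -/

namespace Pool.Agent.H75.Exact.Lk

noncomputable def base1 : Cov := fun s => if s 1 = false then 1 else 0

noncomputable def base3 : Cov := fun s => if s 1 = false ∧ s 2 = false ∧ s 3 = true then 1 else 0

/-- source and first `m` columns -/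
def C0N (m : ℕ) : Setoid ℕ where
  r u v := u = v ∨ (u ≤ m ∧ v ≤ m)
  iseqv := by
    refine ⟨fun u => Or.inl rfl, ?_, ?_⟩
    · rintro u v (h | ⟨h1, h2⟩)
      · exact Or.inl h.symm
      · exact Or.inr ⟨h2, h1⟩
    · rintro u v w (rfl | ⟨h1, h2⟩) (rfl | ⟨g1, g2⟩)
      · exact Or.inl rfl
      · exact Or.inr ⟨g1, g2⟩
      · exact Or.inr ⟨h1, h2⟩
      · exact Or.inr ⟨h1, g2⟩

lemma C0N_apply (m u v : ℕ) : C0N m u v ↔ u = v ∨ (u ≤ m ∧ v ≤ m) := Iff.rfl

inductive Rep1 (a : ℂ) : ℕ → Cov → Prop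
  | base : Rep1 a 0 base1
  | cup {n : ℕ} {B : Cov} (j : ℕ) (h1 : 1 ≤ j) (h2 : j ≤ 2 * n + 2) (h : Rep1 a n B) :
      Rep1 a (n + 1) (cup a j B)

inductive Rep3 (a : ℂ) : ℕ → Cov → Setoid ℕ → Prop
  | base : Rep3 a 1 base3 (C0N 1)
  | cup {n : ℕ} {B : Cov} {c : Setoid ℕ} (j : ℕ) (h1 : 1 ≤ j) (h2 : j ≤ 2 * n + 2)
      (h : Rep3 a n B c) : Rep3 a (n + 1) (cup a j B) (cupP j c)

def Lost (n : ℕ) (c : Setoid ℕ) : Prop := ∀ p, 1 ≤ p → p ≤ n + 1 → ¬ c 0 p

def Won (n : ℕ) (c : Setoid ℕ) : Prop := c 0 (n + 1)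

lemma five (i j : ℕ) : i + 2 ≤ j ∨ i + 1 = j ∨ i = j ∨ i = j + 1 ∨ ∃ i', i = i' + 2 ∧ j ≤ i' := by
  rcases Nat.lt_or_ge i (j + 2) with h | h
  · omega
  · exact Or.inr (Or.inr (Or.inr (Or.inr ⟨i - 2, by omega, by omega⟩)))

lemma Rep1.step (a : ℂ) (ha0 : a ≠ 0) (ha : a⁻¹ * a⁻¹ + a * a = 1) {n : ℕ} {B : Cov}
    (h : Rep1 a n B) : ∀ i, 1 ≤ i → i ≤ 2 * n → Rep1 a n (EE a i B) := by
  induction h with
  | base => intro i h1 h2; omega
  | @cup n B j hj1 hj2 hB ih =>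
    intro i h1 h2
    rcases five i j with h | h | h | h | ⟨i', h, h'⟩
    · rw [EE_cup_lt a i j h]
      exact Rep1.cup j hj1 hj2 (ih i h1 (by omega))
    · subst h
      rw [EE_cup_pred a ha0]
      exact Rep1.cup i h1 (by omega) hB
    · subst h
      rw [EE_cup_self a ha]
      exact Rep1.cup i h1 (by omega) hB
    · subst h
      rw [EE_cup_succ a ha0]
      exact Rep1.cup (j + 1) (by omega) (by omega) hB
    · subst h
      rw [EE_cup_gt a i' j h']
      exact Rep1.cup j hj1 hj2 (ih i' (by omega) (by omega))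

lemma cupP_zero_iff (j n p : ℕ) (hj1 : 1 ≤ j) (hj2 : j ≤ 2 * n + 2) (c : Setoid ℕ) :
    cupP j c 0 p → (p = 0 ∨ c 0 (mrg ((j + 1) / 2) p)) := by
  obtain ⟨r, rfl | rfl⟩ := Nat.even_or_odd' j
  · rw [cupP_even, comap_apply, mrg_le (Nat.zero_le _), show (2 * r + 1) / 2 = r by omega]
    exact Or.inr
  · rw [cupP_odd, isoN_apply, comap_apply, mrg_le (Nat.zero_le _),
      show (2 * r + 1 + 1) / 2 = r + 1 by omega]
    rintro (h | ⟨_, _, h⟩)
    · exact Or.inl h.symm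
    · exact Or.inr h

lemma cupP_zero_of (j n p : ℕ) (hj1 : 1 ≤ j) (hj2 : j ≤ 2 * n + 2) (c : Setoid ℕ)
    (hp : p ≠ (j + 1) / 2) (h : c 0 (mrg ((j + 1) / 2) p)) : cupP j c 0 p := by
  obtain ⟨r, rfl | rfl⟩ := Nat.even_or_odd' j
  · rw [cupP_even, comap_apply, mrg_le (Nat.zero_le _)]
    rwa [show (2 * r + 1) / 2 = r by omega] at h
  · rw [cupP_odd, isoN_apply, comap_apply, mrg_le (Nat.zero_le _)]
    rw [show (2 * r + 1 + 1) / 2 = r + 1 by omega] at h hp
    exact Or.inr ⟨by omega, hp, h⟩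

lemma Lost.cup {n : ℕ} {c : Setoid ℕ} (h : Lost n c) (j : ℕ) (hj1 : 1 ≤ j) (hj2 : j ≤ 2 * n + 2) :
    Lost (n + 1) (cupP j c) := by
  intro p hp1 hp2 hc
  rcases cupP_zero_iff j n p hj1 hj2 c hc with h' | h'
  · omega
  · refine h _ ?_ ?_ h'
    · unfold mrg; split_ifs <;> omega
    · unfold mrg; split_ifs <;> omega

lemma Won.cup {n : ℕ} {c : Setoid ℕ} (h : Won n c) (j : ℕ) (hj1 : 1 ≤ j) (hj2 : j ≤ 2 * n + 2) :
    Won (n + 1) (cupP j c) := by
  apply cupP_zero_of j n _ hj1 hj2 c (by omega)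
  rw [mrg_gt (by omega)]
  exact h

lemma Rep3.alive {a : ℂ} {n : ℕ} {B : Cov} {c : Setoid ℕ} (h : Rep3 a n B c) :
    ∃ p, 1 ≤ p ∧ p ≤ n ∧ c 0 p := by
  induction h with
  | base => exact ⟨1, le_rfl, le_rfl, Or.inr ⟨by omega, le_rfl⟩⟩
  | @cup n B c j hj1 hj2 hB ih =>
    obtain ⟨p, h1, h2, h3⟩ := ih
    by_cases hp : p < (j + 1) / 2
    · refine ⟨p, h1, by omega, ?_⟩
      apply cupP_zero_of j n p hj1 hj2 c (by omega)
      rw [mrg_le (by omega)]
      exact h3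
    · refine ⟨p + 1, by omega, by omega, ?_⟩
      apply cupP_zero_of j n (p + 1) hj1 hj2 c (by omega)
      rw [mrg_gt (by omega)]
      exact h3

lemma base3_one (a : ℂ) : EE a 1 base3 = 0 := by
  funext s
  simp [EE, base3, put]

lemma base3_two (a : ℂ) : EE a 2 base3 = a • cup a 2 base1 := by
  funext s
  simp only [EE, base3, put, cup, base1, skip, Pi.smul_apply, smul_eq_mul]
  norm_num
  by_cases h : s 3 = !s 2
  · simp only [if_pos h]
    split_ifs <;> ring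
  · simp only [if_neg h]

lemma Rep3.step (a : ℂ) (ha0 : a ≠ 0) (ha : a⁻¹ * a⁻¹ + a * a = 1) {n : ℕ} {B : Cov}
    {c : Setoid ℕ} (h : Rep3 a n B c) : ∀ i, 1 ≤ i → i ≤ 2 * n →
      Rep3 a n (EE a i B) (eeP i c) ∨ (EE a i B = 0 ∧ Lost n (eeP i c)) ∨
      ∃ B', Rep1 a n B' ∧ EE a i B = a • B' ∧ Won n (eeP i c) := by
  induction h with
  | base =>
    intro i h1 h2
    have : i = 1 ∨ i = 2 := by omega
    rcases this with rfl | rfl
    · right; left
      refine ⟨base3_one a, ?_⟩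
      intro p hp1 hp2
      rw [show (1 : ℕ) = 2 * 0 + 1 from rfl, eeP_odd, isoN_apply, C0N_apply]
      omega
    · right; right
      refine ⟨Lk.cup a 2 base1, Rep1.cup 2 (by omega) (by omega) Rep1.base, base3_two a, ?_⟩
      unfold Won
      rw [show (2 : ℕ) = 2 * 1 from rfl, eeP_even, joinN_apply]
      exact Or.inr (Or.inl ⟨Or.inr ⟨by omega, le_rfl⟩, Or.inl rfl⟩)
  | @cup n B c j hj1 hj2 hB ih =>
    intro i h1 h2
    have far : ∀ i', 1 ≤ i' → i' ≤ 2 * n →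
        EE a i (Lk.cup a j B) = Lk.cup a j (EE a i' B) → eeP i (cupP j c) = cupP j (eeP i' c) →
        Rep3 a (n + 1) (EE a i (Lk.cup a j B)) (eeP i (cupP j c)) ∨
          (EE a i (Lk.cup a j B) = 0 ∧ Lost (n + 1) (eeP i (cupP j c))) ∨
          ∃ B', Rep1 a (n + 1) B' ∧ EE a i (Lk.cup a j B) = a • B' ∧
            Won (n + 1) (eeP i (cupP j c)) := by
      intro i' hi1 hi2 e1 e2
      rw [e1, e2]
      rcases ih i' hi1 hi2 with h | ⟨h, h'⟩ | ⟨B', hB', h, h'⟩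
      · exact Or.inl (Rep3.cup j hj1 hj2 h)
      · right; left
        rw [h, cup_zero]
        exact ⟨rfl, h'.cup j hj1 hj2⟩
      · right; right
        refine ⟨Lk.cup a j B', Rep1.cup j hj1 hj2 hB', ?_, h'.cup j hj1 hj2⟩
        rw [h, cup_smul]
    rcases five i j with h | h | h | h | ⟨i', h, h'⟩
    · exact far i h1 (by omega) (EE_cup_lt a i j h B) (eeP_cupP_lt i j h1 h c)
    · subst h
      left
      rw [EE_cup_pred a ha0, eeP_cupP_pred _ h1]
      exact Rep3.cup i h1 (by omega) hB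
    · subst h
      left
      rw [EE_cup_self a ha, eeP_cupP_self _ h1]
      exact Rep3.cup i h1 (by omega) hB
    · subst h
      left
      rw [EE_cup_succ a ha0, eeP_cupP_succ _ hj1]
      exact Rep3.cup (j + 1) (by omega) (by omega) hB
    · subst h
      exact far i' (by omega) (by omega) (EE_cup_gt a i' j h' B) (eeP_cupP_gt i' j hj1 h' c)

/-! finiteness -/

lemma Rep1.fin (a : ℂ) (n : ℕ) : {B : Cov | Rep1 a n B}.Finite := by
  induction n with
  | zero =>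
    apply (Set.finite_singleton base1).subset
    intro B hB
    cases hB
    rfl
  | succ n ih =>
    apply ((Finset.Icc 1 (2 * n + 2)).finite_toSet.biUnion
      (fun j _ => ih.image (Lk.cup a j))).subset
    intro B hB
    cases hB with
    | @cup _ B' j h1 h2 h =>
      simp only [Set.mem_iUnion]
      exact ⟨j, by simp [h1, h2], B', h, rfl⟩

lemma Rep3.fin (a : ℂ) (n : ℕ) : {x : Cov × Setoid ℕ | Rep3 a n x.1 x.2}.Finite := by
  induction n with
  | zero =>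
    apply Set.finite_empty.subset
    rintro ⟨B, c⟩ hB
    cases hB
  | succ n ih =>
    apply ((Set.finite_singleton (base3, C0N 1)).union
      ((Finset.Icc 1 (2 * n + 2)).finite_toSet.biUnion
      (fun j _ => ih.image (fun x => (Lk.cup a j x.1, cupP j x.2))))).subset
    rintro ⟨B, c⟩ hB
    change Rep3 a (n + 1) B c at hB
    cases hB with
    | base => exact Or.inl rfl
    | @cup _ B' c' j h1 h2 h =>
      right
      simp only [Set.mem_iUnion]
      exact ⟨j, by simp [h1, h2], (B', c'), h, rfl⟩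

/-! maximum principle -/

lemma maxprin {X : Type*} (P : Set X) (hP : P.Finite) (N : ℕ) (f : ℕ → X → X) (T : X → ℂ)
    (hT : ∀ x ∈ P, ∑ i ∈ Icc 1 N, T (f i x) = N * T x)
    (hstep : ∀ x ∈ P, ∀ i ∈ Icc 1 N, f i x ∈ P ∨ T (f i x) = 0)
    (w : List ℕ) (hw : ∀ i ∈ w, i ∈ Icc 1 N)
    (hreach : ∀ x ∈ P, w.foldl (fun y i => f i y) x ∈ P → T (w.foldl (fun y i => f i y) x) = 0) :
    ∀ x ∈ P, T x = 0 := by
  intro x hx
  by_contra hne
  obtain ⟨y, hy, hmax⟩ := Set.exists_max_image P (fun z => ‖T z‖) hP ⟨x, hx⟩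
  have hM : 0 < ‖T y‖ := lt_of_lt_of_le (norm_pos_iff.2 hne) (hmax x hx)
  have key : ∀ z ∈ P, ‖T z‖ = ‖T y‖ → ∀ i ∈ Icc 1 N, f i z ∈ P ∧ ‖T (f i z)‖ = ‖T y‖ := by
    intro z hz hzM
    have hle : ∀ i ∈ Icc 1 N, ‖T (f i z)‖ ≤ ‖T y‖ := by
      intro i hi
      rcases hstep z hz i hi with h | h
      · exact hmax _ h
      · rw [h, norm_zero]; exact hM.le
    have hsum : ∑ i ∈ Icc 1 N, ‖T (f i z)‖ = ∑ i ∈ Icc 1 N, ‖T y‖ := by
      apply le_antisymm (Finset.sum_le_sum hle)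
      rw [Finset.sum_const, Nat.card_Icc, nsmul_eq_mul]
      calc ((N + 1 - 1 : ℕ) : ℝ) * ‖T y‖ = ‖(N : ℂ) * T z‖ := by
            rw [norm_mul, hzM]; simp
        _ = ‖∑ i ∈ Icc 1 N, T (f i z)‖ := by rw [hT z hz]
        _ ≤ _ := norm_sum_le _ _
    have heq := (Finset.sum_eq_sum_iff_of_le hle).1 hsum
    intro i hi
    have h1 := heq i hi
    refine ⟨?_, h1⟩
    rcases hstep z hz i hi with h | h
    · exact h
    · rw [h, norm_zero] at h1
      exact absurd h1 hM.ne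
  have key2 : ∀ (w : List ℕ), (∀ i ∈ w, i ∈ Icc 1 N) → ∀ z ∈ P, ‖T z‖ = ‖T y‖ →
      w.foldl (fun y i => f i y) z ∈ P ∧ ‖T (w.foldl (fun y i => f i y) z)‖ = ‖T y‖ := by
    intro w
    induction w with
    | nil => intro _ z hz hzM; exact ⟨hz, hzM⟩
    | cons i w ih =>
      intro hw z hz hzM
      rw [List.foldl_cons]
      have h1 := key z hz hzM i (hw i (by simp))
      exact ih (fun k hk => hw k (by simp [hk])) _ h1.1 h1.2
  obtain ⟨h1, h2⟩ := key2 w hw y hy rfl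
  rw [hreach y hy h1, norm_zero] at h2
  exact hM.ne h2

end Pool.Agent.H75.Exact.Lk
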