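import Mathlib
import Pool.Agent.H75.Exact.Defs
import Pool.Agent.H75.Exact.LinkB

set_option autoImplicit false
open Finset

/-! Pairing of link states with the eigenvector. -/

namespace Pool.Agent.H75.Exact.Lk

lemma cup_cup (a : ℂ) (i j : ℕ) (hij : i ≤ j) (B : Cov) :
    cup a (j + 2) (cup a i B) = cup a i (cup a j B) := by
  funext s
  have h1 : skip (j + 2) s i = s i := by simp only [skip]; rw [if_pos (by omega)]
  have h2 : skip (j + 2) s (i + 1) = s (i + 1) := by simp only [skip]; rw [if_pos (by omega)]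
  have h3 : skip i s j = s (j + 2) := by simp only [skip]; rw [if_neg (by omega)]
  have h4 : skip i s (j + 1) = s (j + 2 + 1) := by simp only [skip]; rw [if_neg (by omega)]
  have h5 : skip i (skip (j + 2) s) = skip j (skip i s) := by
    funext l
    simp only [skip]
    split_ifs <;> first | rfl | omega
  simp only [cup]
  rw [h1, h2, h3, h4, h5]
  split_ifs <;> ring

lemma Rep1.cupOf (a : ℂ) (ha0 : a ≠ 0) (ha : a⁻¹ * a⁻¹ + a * a = 1) (n : ℕ) :
    ∀ B : Cov, Rep1 a (n + 1) B → ∀ i, 1 ≤ i → i ≤ 2 * n + 2 →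
      ∃ B₀, Rep1 a n B₀ ∧ EE a i B = Lk.cup a i B₀ := by
  induction n with
  | zero =>
    intro B hB i hi1 hi2
    cases hB with
    | @cup _ B' j hj1 hj2 hB' =>
      refine ⟨B', hB', ?_⟩
      rcases five i j with h | h | h | h | ⟨i', h, h'⟩
      · omega
      · subst h; exact EE_cup_pred a ha0 _ _
      · subst h; exact EE_cup_self a ha _ _
      · subst h; exact EE_cup_succ a ha0 _ _
      · omega
  | succ n ih =>
    intro B hB i hi1 hi2
    cases hB with
    | @cup _ B' j hj1 hj2 hB' =>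
      rcases five i j with h | h | h | h | ⟨i', h, h'⟩
      · obtain ⟨j', rfl⟩ : ∃ j', j = j' + 2 := ⟨j - 2, by omega⟩
        obtain ⟨B₀, h1, h2⟩ := ih B' hB' i hi1 (by omega)
        refine ⟨Lk.cup a j' B₀, Rep1.cup j' (by omega) (by omega) h1, ?_⟩
        rw [EE_cup_lt a i _ h, h2, cup_cup a i j' (by omega)]
      · subst h; exact ⟨B', hB', EE_cup_pred a ha0 _ _⟩
      · subst h; exact ⟨B', hB', EE_cup_self a ha _ _⟩
      · subst h; exact ⟨B', hB', EE_cup_succ a ha0 _ _⟩
      · subst h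
        obtain ⟨B₀, h1, h2⟩ := ih B' hB' i' (by omega) (by omega)
        refine ⟨Lk.cup a j B₀, Rep1.cup j (by omega) (by omega) h1, ?_⟩
        rw [EE_cup_gt a i' j h', h2, cup_cup a j i' h']

noncomputable def B1 (a : ℂ) : ℕ → Cov
  | 0 => base1
  | n + 1 => cup a 2 (B1 a n)

lemma B1_rep (a : ℂ) (n : ℕ) : Rep1 a n (B1 a n) := by
  induction n with
  | zero => exact Rep1.base
  | succ n ih => exact Rep1.cup 2 (by omega) (by omega) ih

def w1 : ℕ → List ℕ
  | 0 => []
  | n + 1 => 2 :: (w1 n).map (· + 2)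

lemma w1_mem (n : ℕ) : ∀ i ∈ w1 n, 2 ≤ i ∧ i ≤ 2 * n := by
  induction n with
  | zero => intro i hi; simp [w1] at hi
  | succ n ih =>
    intro i hi
    simp only [w1, List.mem_cons, List.mem_map] at hi
    rcases hi with rfl | ⟨k, hk, rfl⟩
    · omega
    · have := ih k hk; omega

lemma foldl_cup (a : ℂ) (w : List ℕ) (hw : ∀ i ∈ w, 2 ≤ i) (B : Cov) :
    (w.map (· + 2)).foldl (fun y i => EE a i y) (cup a 2 B) =
      cup a 2 (w.foldl (fun y i => EE a i y) B) := by
  induction w generalizing B with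
  | nil => rfl
  | cons i w ih =>
    rw [List.map_cons, List.foldl_cons, List.foldl_cons, EE_cup_gt a i 2 (hw i (by simp)),
      ih (fun k hk => hw k (by simp [hk]))]

lemma Rep1.foldl_w1 (a : ℂ) (ha0 : a ≠ 0) (ha : a⁻¹ * a⁻¹ + a * a = 1) (n : ℕ) :
    ∀ B : Cov, Rep1 a n B → (w1 n).foldl (fun y i => EE a i y) B = B1 a n := by
  induction n with
  | zero => intro B hB; cases hB; rfl
  | succ n ih =>
    intro B hB
    obtain ⟨B₀, h1, h2⟩ := Rep1.cupOf a ha0 ha n B hB 2 (by omega) (by omega)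
    simp only [w1, List.foldl_cons]
    rw [h2, foldl_cup a _ (fun i hi => (w1_mem n i hi).1), ih B₀ h1]
    rfl

lemma foldl_odd (a : ℂ) (n : ℕ) (x : Cov × Setoid ℕ) : ∀ p, 1 ≤ p → p ≤ n →
    ¬ (((List.range n).map (fun k => 2 * k + 1)).foldl
      (fun (y : Cov × Setoid ℕ) i => (EE a i y.1, eeP i y.2)) x).2 0 p := by
  induction n with
  | zero => intro p h1 h2; omega
  | succ n ih =>
    intro p h1 h2
    rw [List.range_succ, List.map_append, List.foldl_append]
    change ¬ (eeP (2 * n + 1) (((List.range n).map (fun k => 2 * k + 1)).foldl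
      (fun (y : Cov × Setoid ℕ) i => (EE a i y.1, eeP i y.2)) x).2) 0 p
    rw [eeP_odd, isoN_apply]
    rintro (h | ⟨_, h, h'⟩)
    · omega
    · exact ih p h1 (by omega) h'

/-! ### pairing -/

def ind (D : Finset ℕ) : ℕ → Bool := fun l => decide (l ∈ D)

noncomputable def G (n : ℕ) (Ψ : Finset ℕ → ℂ) (B : Cov) : ℂ :=
  ∑ D ∈ powersetCard n (Icc 1 (2 * n + 1)), B (ind D) * Ψ D

lemma G_smul (n : ℕ) (Ψ : Finset ℕ → ℂ) (t : ℂ) (B : Cov) : G n Ψ (t • B) = t * G n Ψ B := by
  unfold G
  rw [Finset.mul_sum]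
  refine Finset.sum_congr rfl fun D _ => ?_
  simp only [Pi.smul_apply, smul_eq_mul]
  ring

lemma G_zero (n : ℕ) (Ψ : Finset ℕ → ℂ) : G n Ψ 0 = 0 := by
  unfold G
  simp

def sw (i : ℕ) (D : Finset ℕ) : Finset ℕ := D.map (Equiv.swap i (i + 1)).toEmbedding

lemma mem_sw (i : ℕ) (D : Finset ℕ) (l : ℕ) : l ∈ sw i D ↔ Equiv.swap i (i + 1) l ∈ D := by
  unfold sw
  rw [Finset.mem_map_equiv, Equiv.symm_swap]

lemma sw_sw (i : ℕ) (D : Finset ℕ) : sw i (sw i D) = D := by
  ext l
  rw [mem_sw, mem_sw, Equiv.swap_apply_self]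

lemma sw_l (i : ℕ) (D : Finset ℕ) (h : i ∈ D) (h' : i + 1 ∉ D) :
    insert (i + 1) (D.erase i) = sw i D := by
  ext l
  rw [mem_sw, Equiv.swap_apply_def, Finset.mem_insert, Finset.mem_erase]
  by_cases h1 : l = i
  · subst h1
    simp [h']
  · by_cases h2 : l = i + 1
    · subst h2; simp [h]
    · simp [h1, h2]

lemma sw_r (i : ℕ) (D : Finset ℕ) (h : i ∉ D) (h' : i + 1 ∈ D) :
    insert i (D.erase (i + 1)) = sw i D := by
  ext l
  rw [mem_sw, Equiv.swap_apply_def, Finset.mem_insert, Finset.mem_erase]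
  by_cases h1 : l = i
  · subst h1
    simp [h']
  · by_cases h2 : l = i + 1
    · subst h2; simp [h]
    · simp [h1, h2]

noncomputable def dg (q : ℂ) (i : ℕ) (D : Finset ℕ) : ℂ :=
  if i ∈ D then (if i + 1 ∈ D then 0 else -q) else (if i + 1 ∈ D then -q⁻¹ else 0)

noncomputable def od (i : ℕ) (D : Finset ℕ) : ℂ :=
  if i ∈ D then (if i + 1 ∈ D then 0 else 1) else (if i + 1 ∈ D then 1 else 0)

lemma E_eq (q : ℂ) (i : ℕ) (f : Finset ℕ → ℂ) (D : Finset ℕ) :
    E q i f D = dg q i D * f D + od i D * f (sw i D) := by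
  unfold E dg od
  by_cases h : i ∈ D
  · by_cases h' : i + 1 ∈ D
    · simp [h, h']
    · simp only [if_pos h, if_neg h']
      rw [sw_l i D h h']; ring
  · by_cases h' : i + 1 ∈ D
    · simp only [if_neg h, if_pos h']
      rw [sw_r i D h h']; ring
    · simp [h, h']

lemma od_sw (i : ℕ) (D : Finset ℕ) : od i (sw i D) = od i D := by
  unfold od
  simp only [mem_sw, Equiv.swap_apply_left, Equiv.swap_apply_right]
  split_ifs <;> rfl

lemma sw_mem_sec (n i : ℕ) (h1 : 1 ≤ i) (h2 : i ≤ 2 * n) (D : Finset ℕ)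
    (hD : D ∈ powersetCard n (Icc 1 (2 * n + 1))) : sw i D ∈ powersetCard n (Icc 1 (2 * n + 1)) := by
  rw [Finset.mem_powersetCard] at hD ⊢
  refine ⟨?_, by rw [sw, Finset.card_map]; exact hD.2⟩
  intro l hl
  rw [mem_sw, Equiv.swap_apply_def] at hl
  rw [Finset.mem_Icc]
  split_ifs at hl with h3 h4
  · omega
  · omega
  · have := hD.1 hl
    rw [Finset.mem_Icc] at this
    exact this

lemma E_symm (q : ℂ) (n i : ℕ) (h1 : 1 ≤ i) (h2 : i ≤ 2 * n) (f g : Finset ℕ → ℂ) :
    ∑ D ∈ powersetCard n (Icc 1 (2 * n + 1)), E q i f D * g D =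
      ∑ D ∈ powersetCard n (Icc 1 (2 * n + 1)), f D * E q i g D := by
  have e : ∑ D ∈ powersetCard n (Icc 1 (2 * n + 1)), od i D * f (sw i D) * g D =
      ∑ D ∈ powersetCard n (Icc 1 (2 * n + 1)), od i D * f D * g (sw i D) := by
    refine Finset.sum_nbij' (sw i) (sw i) (fun D hD => sw_mem_sec n i h1 h2 D hD)
      (fun D hD => sw_mem_sec n i h1 h2 D hD) (fun D _ => sw_sw i D) (fun D _ => sw_sw i D) ?_
    intro D _
    rw [od_sw, sw_sw]
  calc ∑ D ∈ powersetCard n (Icc 1 (2 * n + 1)), E q i f D * g D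
      = ∑ D ∈ powersetCard n (Icc 1 (2 * n + 1)), dg q i D * f D * g D +
        ∑ D ∈ powersetCard n (Icc 1 (2 * n + 1)), od i D * f (sw i D) * g D := by
        rw [← Finset.sum_add_distrib]
        refine Finset.sum_congr rfl fun D _ => ?_
        rw [E_eq]; ring
    _ = ∑ D ∈ powersetCard n (Icc 1 (2 * n + 1)), dg q i D * f D * g D +
        ∑ D ∈ powersetCard n (Icc 1 (2 * n + 1)), od i D * f D * g (sw i D) := by rw [e]
    _ = _ := by
        rw [← Finset.sum_add_distrib]
        refine Finset.sum_congr rfl fun D _ => ?_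
        rw [E_eq]; ring

lemma EE_ind (q a : ℂ) (h1 : a⁻¹ * a⁻¹ = -q) (h2 : a * a = -q⁻¹) (ha : a ≠ 0) (i : ℕ) (B : Cov)
    (D : Finset ℕ) : EE a i B (ind D) = E q i (fun D => B (ind D)) D := by
  have p1 : i ∈ D → i + 1 ∉ D → put i true (ind D) = ind D := by
    intro h h'
    funext l
    unfold put ind
    split_ifs with g1 g2
    · subst g1; simp [h]
    · subst g2; simp [h']
    · rfl
  have p2 : i ∉ D → i + 1 ∈ D → put i false (ind D) = ind D := by
    intro h h'
    funext l
    unfold put ind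
    split_ifs with g1 g2
    · subst g1; simp [h]
    · subst g2; simp [h']
    · rfl
  have p3 : i ∈ D → i + 1 ∉ D → put i false (ind D) = ind (insert (i + 1) (D.erase i)) := by
    intro h h'
    funext l
    unfold put ind
    split_ifs with g1 g2
    · subst g1; simp
    · subst g2; simp
    · simp [g1, g2]
  have p4 : i ∉ D → i + 1 ∈ D → put i true (ind D) = ind (insert i (D.erase (i + 1))) := by
    intro h h'
    funext l
    unfold put ind
    split_ifs with g1 g2
    · subst g1; simp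
    · subst g2; simp
    · simp [g1, g2]
  unfold EE E
  by_cases h : i ∈ D
  · by_cases h' : i + 1 ∈ D
    · rw [if_neg (by simp [ind, h, h']), if_pos h, if_pos h']
    · rw [if_pos (by simp [ind, h, h']), if_pos h, if_neg h', p1 h h', p3 h h']
      simp only [wt, ind, h, decide_true, if_true]
      rw [← h1]
      field_simp
  · by_cases h' : i + 1 ∈ D
    · rw [if_pos (by simp [ind, h, h']), if_neg h, if_pos h', p2 h h', p4 h h']
      simp only [wt, ind, h, decide_false, Bool.false_eq_true, if_false]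
      rw [sub_eq_add_neg, ← neg_mul, ← h2]
      field_simp
    · rw [if_neg (by simp [ind, h, h']), if_neg h, if_neg h']

lemma harmonic (q a : ℂ) (h1 : a⁻¹ * a⁻¹ = -q) (h2 : a * a = -q⁻¹) (ha : a ≠ 0) (n : ℕ)
    (Ψ : Finset ℕ → ℂ) (hΨ : HEig q n Ψ) (B : Cov) :
    ∑ i ∈ Icc 1 (2 * n), G n Ψ (EE a i B) = 2 * n * G n Ψ B := by
  have e : ∀ i ∈ Icc 1 (2 * n), G n Ψ (EE a i B) =
      ∑ D ∈ powersetCard n (Icc 1 (2 * n + 1)), B (ind D) * E q i Ψ D := by
    intro i hi
    rw [Finset.mem_Icc] at hi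
    unfold G
    rw [← E_symm q n i hi.1 hi.2 (fun D => B (ind D)) Ψ]
    refine Finset.sum_congr rfl fun D _ => ?_
    rw [EE_ind q a h1 h2 ha]
  rw [Finset.sum_congr rfl e, Finset.sum_comm]
  unfold G
  rw [Finset.mul_sum]
  refine Finset.sum_congr rfl fun D hD => ?_
  rw [Finset.mem_powersetCard] at hD
  rw [← Finset.mul_sum, hΨ D hD.1 hD.2]
  ring

/-! ### evaluation of the explicit covectors -/

lemma pair_eval (a : ℂ) (Ψ : Finset ℕ → ℂ) (N d : ℕ) (P : ℕ → ℕ) (U F Z : Finset ℕ)
    (hPU : ∀ k < N, P k ∈ U ∧ P k + 1 ∈ U)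
    (hPF : ∀ k < N, P k ∉ F ∧ P k + 1 ∉ F)
    (hPZ : ∀ k < N, P k ∉ Z ∧ P k + 1 ∉ Z)
    (hmono : ∀ k k', k < k' → k' < N → P k + 1 < P k')
    (hF : F ⊆ U) (hFZ : Disjoint F Z)
    (hcov : ∀ l ∈ U, l ∈ F ∨ l ∈ Z ∨ ∃ k < N, l = P k ∨ l = P k + 1)
    (hd : d = F.card + N) :
    ∑ D ∈ powersetCard d U, (if (∀ l ∈ F, ind D l = true) ∧ (∀ l ∈ Z, ind D l = false) ∧
        (∀ k < N, ind D (P k + 1) = !(ind D (P k))) then ∏ k ∈ range N, wt a (ind D (P k)) else 0)
        * Ψ D =
      ∑ ε : Fin N → Bool, (∏ k, if ε k then a⁻¹ else a) *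
        Ψ (F ∪ univ.image fun k : Fin N => P k + (if ε k then 0 else 1)) := by
  classical
  have hmem : ∀ (ε : Fin N → Bool) (l : ℕ),
      l ∈ (F ∪ univ.image fun k : Fin N => P k + (if ε k then 0 else 1)) ↔
        l ∈ F ∨ ∃ k : Fin N, P k + (if ε k then 0 else 1) = l := by
    intro ε l
    simp
  have huniq : ∀ (k k' : ℕ), k < N → k' < N → ∀ x y : ℕ, x ≤ 1 → y ≤ 1 →
      P k + x = P k' + y → k = k' ∧ x = y := by
    intro k k' hk hk' x y hx hy h
    rcases lt_trichotomy k k' with h1 | h1 | h1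
    · have := hmono k k' h1 hk'; omega
    · subst h1; exact ⟨rfl, by omega⟩
    · have := hmono k' k h1 hk; omega
  have hm0 : ∀ (ε : Fin N → Bool) (k : Fin N),
      P k ∈ (F ∪ univ.image fun k : Fin N => P k + (if ε k then 0 else 1)) ↔ ε k = true := by
    intro ε k
    rw [hmem]
    constructor
    · rintro (h | ⟨k', h⟩)
      · exact absurd h (hPF k k.2).1
      · have h2 := huniq k' k k'.2 k.2 (if ε k' then 0 else 1) 0 (by split_ifs <;> omega) (by omega) h
        have h3 : k' = k := Fin.ext h2.1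
        subst h3
        have h4 := h2.2
        split_ifs at h4 with h5
        · exact h5
    · intro h
      exact Or.inr ⟨k, by simp [h]⟩
  have hm1 : ∀ (ε : Fin N → Bool) (k : Fin N),
      P k + 1 ∈ (F ∪ univ.image fun k : Fin N => P k + (if ε k then 0 else 1)) ↔ ε k = false := by
    intro ε k
    rw [hmem]
    constructor
    · rintro (h | ⟨k', h⟩)
      · exact absurd h (hPF k k.2).2
      · have h2 := huniq k' k k'.2 k.2 (if ε k' then 0 else 1) 1 (by split_ifs <;> omega) (by omega) h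
        have h3 : k' = k := Fin.ext h2.1
        subst h3
        have h4 := h2.2
        split_ifs at h4 with h5
        · simpa using h5
    · intro h
      exact Or.inr ⟨k, by simp [h]⟩
  have hi0 : ∀ (ε : Fin N → Bool) (k : Fin N),
      ind (F ∪ univ.image fun k : Fin N => P k + (if ε k then 0 else 1)) (P k) = ε k := by
    intro ε k
    rw [Bool.eq_iff_iff]
    simp only [ind, decide_eq_true_eq]
    exact hm0 ε k
  have hi1 : ∀ (ε : Fin N → Bool) (k : Fin N),
      ind (F ∪ univ.image fun k : Fin N => P k + (if ε k then 0 else 1)) (P k + 1) = !(ε k) := by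
    intro ε k
    rw [Bool.eq_iff_iff]
    simp only [ind, decide_eq_true_eq, Bool.not_eq_true']
    exact hm1 ε k
  have hmZ : ∀ (ε : Fin N → Bool) (l : ℕ), l ∈ Z →
      l ∉ (F ∪ univ.image fun k : Fin N => P k + (if ε k then 0 else 1)) := by
    intro ε l hl h
    rw [hmem] at h
    rcases h with h | ⟨k, h⟩
    · exact Finset.disjoint_left.1 hFZ h hl
    · split_ifs at h
      · exact (hPZ k k.2).1 (by rw [add_zero] at h; rw [h]; exact hl)
      · exact (hPZ k k.2).2 (by rw [h]; exact hl)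
  simp_rw [ite_mul, zero_mul]
  rw [← Finset.sum_filter]
  refine Finset.sum_nbij' (fun D => fun k : Fin N => ind D (P k))
    (fun ε => F ∪ univ.image fun k : Fin N => P k + (if ε k then 0 else 1)) ?_ ?_ ?_ ?_ ?_
  · intro D _; exact Finset.mem_univ _
  · intro ε _
    rw [Finset.mem_filter, Finset.mem_powersetCard]
    refine ⟨⟨?_, ?_⟩, ?_, ?_, ?_⟩
    · intro l hl
      rw [hmem] at hl
      rcases hl with h | ⟨k, h⟩
      · exact hF h
      · split_ifs at h
        · rw [← h]; exact (hPU k k.2).1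
        · rw [← h]; exact (hPU k k.2).2
    · rw [Finset.card_union_of_disjoint, Finset.card_image_of_injective, Finset.card_univ,
        Fintype.card_fin, hd]
      · intro k k' h
        have := huniq k k' k.2 k'.2 (if ε k then 0 else 1) (if ε k' then 0 else 1)
          (by split_ifs <;> omega) (by split_ifs <;> omega) h
        exact Fin.ext this.1
      · rw [Finset.disjoint_left]
        intro l hl hl'
        rw [Finset.mem_image] at hl'
        obtain ⟨k, _, h⟩ := hl'
        split_ifs at h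
        · exact (hPF k k.2).1 (by rw [add_zero] at h; rw [h]; exact hl)
        · exact (hPF k k.2).2 (by rw [h]; exact hl)
    · intro l hl
      simp only [ind, decide_eq_true_eq]
      rw [hmem]; exact Or.inl hl
    · intro l hl
      simp only [ind, decide_eq_false_iff_not]
      exact hmZ ε l hl
    · intro k hk
      rw [hi0 ε ⟨k, hk⟩, hi1 ε ⟨k, hk⟩]
  · intro D hD
    rw [Finset.mem_filter, Finset.mem_powersetCard] at hD
    obtain ⟨⟨hDU, hDc⟩, hDF, hDZ, hDk⟩ := hD
    ext l
    rw [hmem]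
    constructor
    · rintro (h | ⟨k, h⟩)
      · have := hDF l h
        simpa [ind] using this
      · have e := hDk k k.2
        by_cases hk : ind D (P k) = true
        · rw [if_pos hk, add_zero] at h
          rw [← h]
          simpa [ind] using hk
        · rw [if_neg hk] at h
          rw [← h]
          have : ind D (P k + 1) = true := by
            rw [e]; simpa using hk
          simpa [ind] using this
    · intro hl
      rcases hcov l (hDU hl) with h | h | ⟨k, hk, h | h⟩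
      · exact Or.inl h
      · have := hDZ l h
        simp [ind] at this
        exact absurd hl this
      · right
        refine ⟨⟨k, hk⟩, ?_⟩
        have : ind D (P k) = true := by simp only [ind, decide_eq_true_eq]; rw [← h]; exact hl
        rw [if_pos this, h, add_zero]
      · right
        refine ⟨⟨k, hk⟩, ?_⟩
        have : ind D (P k + 1) = true := by simp only [ind, decide_eq_true_eq]; rw [← h]; exact hl
        have e := hDk k hk
        rw [this] at e
        have e' : ind D (P k) = false := by simpa using e.symm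
        rw [if_neg (by simp [e']), h]
  · intro ε _
    funext k
    exact hi0 ε k
  · intro D hD
    rw [Finset.mem_filter, Finset.mem_powersetCard] at hD
    obtain ⟨⟨hDU, hDc⟩, hDF, hDZ, hDk⟩ := hD
    have e1 : ∏ k ∈ range N, wt a (ind D (P k)) = ∏ k : Fin N, if ind D (P k) then a⁻¹ else a := by
      rw [Finset.prod_range]
      rfl
    have e2 : D = F ∪ univ.image fun k : Fin N => P k + (if ind D (P k) then 0 else 1) := by
      ext l
      rw [hmem (fun k : Fin N => ind D (P k))]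
      constructor
      · intro hl
        rcases hcov l (hDU hl) with h | h | ⟨k, hk, h | h⟩
        · exact Or.inl h
        · have := hDZ l h
          simp [ind] at this
          exact absurd hl this
        · right
          refine ⟨⟨k, hk⟩, ?_⟩
          have : ind D (P k) = true := by simp only [ind, decide_eq_true_eq]; rw [← h]; exact hl
          rw [if_pos this, h, add_zero]
        · right
          refine ⟨⟨k, hk⟩, ?_⟩
          have : ind D (P k + 1) = true := by simp only [ind, decide_eq_true_eq]; rw [← h]; exact hl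
          have e := hDk k hk
          rw [this] at e
          have e' : ind D (P k) = false := by simpa using e.symm
          rw [if_neg (by simp [e']), h]
      · rintro (h | ⟨k, h⟩)
        · have := hDF l h
          simpa [ind] using this
        · have e := hDk k k.2
          by_cases hk : ind D (P k) = true
          · rw [if_pos hk, add_zero] at h
            rw [← h]
            simpa [ind] using hk
          · rw [if_neg hk] at h
            rw [← h]
            have : ind D (P k + 1) = true := by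
              rw [e]; simpa using hk
            simpa [ind] using this
    rw [e1]
    congr 1
    exact congrArg Ψ e2

/-- explicit form of `B1` -/
noncomputable def L1 (a : ℂ) (n : ℕ) : Cov := fun s =>
  if s 1 = false ∧ ∀ k < n, s (2 * k + 2 + 1) = !(s (2 * k + 2)) then
    ∏ k ∈ range n, wt a (s (2 * k + 2)) else 0

lemma L1_succ (a : ℂ) (n : ℕ) : L1 a (n + 1) = cup a 2 (L1 a n) := by
  funext s
  have h1 : skip 2 s 1 = s 1 := rfl
  have h2 : ∀ k, skip 2 s (2 * k + 2) = s (2 * (k + 1) + 2) := by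
    intro k; simp only [skip]; rw [if_neg (by omega)]; rfl
  have h3 : ∀ k, skip 2 s (2 * k + 2 + 1) = s (2 * (k + 1) + 2 + 1) := by
    intro k; simp only [skip]; rw [if_neg (by omega)]; rfl
  unfold cup L1
  simp only [h1, h2, h3]
  have hc : (s 1 = false ∧ ∀ k < n + 1, s (2 * k + 2 + 1) = !(s (2 * k + 2))) ↔
      (s (2 + 1) = !(s 2)) ∧ (s 1 = false ∧ ∀ k < n, s (2 * (k + 1) + 2 + 1) = !(s (2 * (k + 1) + 2))) := by
    constructor
    · rintro ⟨g1, g2⟩
      exact ⟨g2 0 (by omega), g1, fun k hk => g2 (k + 1) (by omega)⟩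
    · rintro ⟨g1, g2, g3⟩
      refine ⟨g2, fun k hk => ?_⟩
      rcases k with _ | k
      · exact g1
      · exact g3 k (by omega)
  by_cases hA : s (2 + 1) = !(s 2)
  · rw [if_pos hA]
    by_cases hB : s 1 = false ∧ ∀ k < n, s (2 * (k + 1) + 2 + 1) = !(s (2 * (k + 1) + 2))
    · rw [if_pos (hc.2 ⟨hA, hB⟩), if_pos hB, Finset.prod_range_succ', mul_comm]
    · rw [if_neg (fun h => hB (hc.1 h).2), if_neg hB, mul_zero]
  · rw [if_neg hA, if_neg (fun h => hA (hc.1 h).1)]

lemma L1_eq (a : ℂ) (n : ℕ) : L1 a n = B1 a n := by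
  induction n with
  | zero =>
    funext s
    simp [L1, B1, base1]
  | succ n ih => rw [L1_succ, ih]; rfl

def pp (m k : ℕ) : ℕ := if k + 1 < m then 2 else 3

/-- explicit form of the three-defect states (`n = N + 1` columns) -/
noncomputable def K3 (a : ℂ) (N m : ℕ) : Cov := fun s =>
  if s 1 = false ∧ s (2 * m) = false ∧ s (2 * N + 3) = true ∧
      ∀ k < N, s (2 * k + pp m k + 1) = !(s (2 * k + pp m k)) then
    ∏ k ∈ range N, wt a (s (2 * k + pp m k)) else 0

lemma K3_succ (a : ℂ) (N m : ℕ) (hm : 1 ≤ m) : K3 a (N + 1) (m + 1) = cup a 2 (K3 a N m) := by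
  funext s
  have h1 : skip 2 s 1 = s 1 := rfl
  have h0 : skip 2 s (2 * m) = s (2 * (m + 1)) := by
    simp only [skip]; rw [if_neg (by omega)]; rfl
  have h9 : skip 2 s (2 * N + 3) = s (2 * (N + 1) + 3) := by
    simp only [skip]; rw [if_neg (by omega)]; congr 1
  have hpp : ∀ k, pp (m + 1) (k + 1) = pp m k := by
    intro k; unfold pp; split_ifs <;> omega
  have hp2 : ∀ k, 2 ≤ pp m k := by
    intro k; unfold pp; split_ifs <;> omega
  have hp0 : pp (m + 1) 0 = 2 := by unfold pp; rw [if_pos (by omega)]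
  have h2 : ∀ k, skip 2 s (2 * k + pp m k) = s (2 * (k + 1) + pp (m + 1) (k + 1)) := by
    intro k; simp only [skip]; rw [if_neg (by have := hp2 k; omega), hpp]; congr 1; omega
  have h3 : ∀ k, skip 2 s (2 * k + pp m k + 1) = s (2 * (k + 1) + pp (m + 1) (k + 1) + 1) := by
    intro k; simp only [skip]; rw [if_neg (by have := hp2 k; omega), hpp]; congr 1; omega
  unfold cup K3
  simp only [h0, h1, h2, h3, h9]
  have hc : (s 1 = false ∧ s (2 * (m + 1)) = false ∧ s (2 * (N + 1) + 3) = true ∧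
      ∀ k < N + 1, s (2 * k + pp (m + 1) k + 1) = !(s (2 * k + pp (m + 1) k))) ↔
      (s (2 + 1) = !(s 2)) ∧ (s 1 = false ∧ s (2 * (m + 1)) = false ∧ s (2 * (N + 1) + 3) = true ∧
      ∀ k < N, s (2 * (k + 1) + pp (m + 1) (k + 1) + 1) = !(s (2 * (k + 1) + pp (m + 1) (k + 1)))) := by
    constructor
    · rintro ⟨g1, g2, g3, g4⟩
      refine ⟨?_, g1, g2, g3, fun k hk => g4 (k + 1) (by omega)⟩
      have := g4 0 (by omega)
      rw [hp0] at this
      exact this
    · rintro ⟨g1, g2, g3, g4, g5⟩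
      refine ⟨g2, g3, g4, fun k hk => ?_⟩
      rcases k with _ | k
      · rw [hp0]; exact g1
      · exact g5 k (by omega)
  by_cases hA : s (2 + 1) = !(s 2)
  · rw [if_pos hA]
    by_cases hB : (s 1 = false ∧ s (2 * (m + 1)) = false ∧ s (2 * (N + 1) + 3) = true ∧
      ∀ k < N, s (2 * (k + 1) + pp (m + 1) (k + 1) + 1) = !(s (2 * (k + 1) + pp (m + 1) (k + 1))))
    · rw [if_pos (hc.2 ⟨hA, hB⟩), if_pos hB, Finset.prod_range_succ', mul_comm, hp0]
    · rw [if_neg (fun h => hB (hc.1 h).2), if_neg hB, mul_zero]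
  · rw [if_neg hA, if_neg (fun h => hA (hc.1 h).1)]

lemma K3_one (a : ℂ) (N : ℕ) : K3 a (N + 1) 1 = cup a 3 (K3 a N 1) := by
  funext s
  have h1 : skip 3 s 1 = s 1 := rfl
  have h0 : skip 3 s (2 * 1) = s (2 * 1) := rfl
  have h9 : skip 3 s (2 * N + 3) = s (2 * (N + 1) + 3) := by
    simp only [skip]; rw [if_neg (by omega)]; congr 1
  have hpp : ∀ k, pp 1 k = 3 := by
    intro k; unfold pp; split_ifs <;> omega
  have h2 : ∀ k, skip 3 s (2 * k + 3) = s (2 * (k + 1) + 3) := by
    intro k; simp only [skip]; rw [if_neg (by omega)]; congr 1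
  have h3 : ∀ k, skip 3 s (2 * k + 3 + 1) = s (2 * (k + 1) + 3 + 1) := by
    intro k; simp only [skip]; rw [if_neg (by omega)]; congr 1
  unfold cup K3
  simp only [hpp, h0, h1, h2, h3]
  have hc : (s 1 = false ∧ s (2 * 1) = false ∧ s (2 * (N + 1) + 3) = true ∧
      ∀ k < N + 1, s (2 * k + 3 + 1) = !(s (2 * k + 3))) ↔
      (s (3 + 1) = !(s 3)) ∧ (s 1 = false ∧ s (2 * 1) = false ∧ s (2 * (N + 1) + 3) = true ∧
      ∀ k < N, s (2 * (k + 1) + 3 + 1) = !(s (2 * (k + 1) + 3))) := by
    constructor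
    · rintro ⟨g1, g2, g3, g4⟩
      exact ⟨g4 0 (by omega), g1, g2, g3, fun k hk => g4 (k + 1) (by omega)⟩
    · rintro ⟨g1, g2, g3, g4, g5⟩
      refine ⟨g2, g3, g4, fun k hk => ?_⟩
      rcases k with _ | k
      · exact g1
      · exact g5 k (by omega)
  by_cases hA : s (3 + 1) = !(s 3)
  · rw [if_pos hA]
    by_cases hB : (s 1 = false ∧ s (2 * 1) = false ∧ s (2 * (N + 1) + 3) = true ∧
      ∀ k < N, s (2 * (k + 1) + 3 + 1) = !(s (2 * (k + 1) + 3)))
    · rw [if_pos (hc.2 ⟨hA, hB⟩), if_pos hB, Finset.prod_range_succ', mul_comm]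
    · rw [if_neg (fun h => hB (hc.1 h).2), if_neg hB, mul_zero]
  · rw [if_neg hA, if_neg (fun h => hA (hc.1 h).1)]

lemma C0N_succ (m : ℕ) (hm : 1 ≤ m) : C0N (m + 1) = cupP 2 (C0N m) := by
  apply Setoid.ext
  intro u v
  rw [show (2 : ℕ) = 2 * 1 from rfl, cupP_even]
  change (u = v ∨ (u ≤ m + 1 ∧ v ≤ m + 1)) ↔
    (mrg 1 u = mrg 1 v ∨ (mrg 1 u ≤ m ∧ mrg 1 v ≤ m))
  unfold mrg
  split_ifs <;> omega

lemma C0N_one : C0N 1 = cupP 3 (C0N 1) := by
  apply Setoid.ext
  intro u v
  rw [show (3 : ℕ) = 2 * 1 + 1 from rfl, cupP_odd]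
  change (u = v ∨ (u ≤ 1 ∧ v ≤ 1)) ↔ (u = v ∨ (u ≠ 2 ∧ v ≠ 2 ∧
    (mrg 2 u = mrg 2 v ∨ (mrg 2 u ≤ 1 ∧ mrg 2 v ≤ 1))))
  unfold mrg
  split_ifs <;> omega

lemma K3_rep (a : ℂ) (N m : ℕ) (hm : 1 ≤ m) (hmN : m ≤ N + 1) :
    Rep3 a (N + 1) (K3 a N m) (C0N m) := by
  induction N generalizing m with
  | zero =>
    have : m = 1 := by omega
    subst this
    have : K3 a 0 1 = base3 := by
      funext s
      simp [K3, base3]
    rw [this]
    exact Rep3.base
  | succ N ih =>
    rcases m with _ | _ | m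
    · omega
    · rw [K3_one, C0N_one]
      exact Rep3.cup 3 (by omega) (by omega) (ih 1 le_rfl (by omega))
    · rw [K3_succ a N (m + 1) (by omega), C0N_succ (m + 1) (by omega)]
      exact Rep3.cup 2 (by omega) (by omega) (ih (m + 1) (by omega) (by omega))

lemma G_L1 (a : ℂ) (n : ℕ) (Ψ : Finset ℕ → ℂ) : G n Ψ (L1 a n) = fA a n Ψ := by
  have h := pair_eval a Ψ n n (fun k => 2 * k + 2) (Icc 1 (2 * n + 1)) ∅ {1}
    (by intro k hk; simp only [Finset.mem_Icc]; omega)
    (by intro k hk; simp)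
    (by intro k hk; simp only [Finset.mem_singleton]; omega)
    (by intro k k' h1 h2; omega)
    (by simp) (by simp)
    (by
      intro l hl
      rw [Finset.mem_Icc] at hl
      by_cases h1 : l = 1
      · right; left; simp [h1]
      · right; right
        exact ⟨(l - 2) / 2, by omega, by omega⟩)
    (by simp)
  unfold G fA
  refine Eq.trans ?_ (h.trans ?_)
  · refine Finset.sum_congr rfl fun D _ => ?_
    unfold L1
    congr 1
    refine if_congr ?_ rfl rfl
    simp
  · refine Finset.sum_congr rfl fun ε _ => ?_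
    congr 2
    unfold DA
    rw [Finset.empty_union]
    refine Finset.image_congr fun k _ => ?_
    split_ifs <;> omega

lemma G_K3 (a : ℂ) (N m : ℕ) (hm : 1 ≤ m) (hmN : m ≤ N + 1) (Ψ : Finset ℕ → ℂ) :
    G (N + 1) Ψ (K3 a N m) = fC a (N + 1) m Ψ := by
  have hpp : ∀ k, (k + 1 < m ∧ pp m k = 2) ∨ (m ≤ k + 1 ∧ pp m k = 3) := by
    intro k; unfold pp; split_ifs <;> omega
  have h := pair_eval a Ψ N (N + 1) (fun k => 2 * k + pp m k) (Icc 1 (2 * (N + 1) + 1))
    {2 * N + 3} {1, 2 * m}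
    (by intro k hk; simp only [Finset.mem_Icc]; have := hpp k; omega)
    (by intro k hk; simp only [Finset.mem_singleton]; have := hpp k; omega)
    (by intro k hk; simp only [Finset.mem_singleton, Finset.mem_insert]; have := hpp k; omega)
    (by intro k k' h1 h2; have := hpp k; have := hpp k'; omega)
    (by intro l hl; rw [Finset.mem_singleton] at hl; rw [Finset.mem_Icc]; omega)
    (by rw [Finset.disjoint_left]; intro l hl; simp only [Finset.mem_singleton, Finset.mem_insert] at hl ⊢; omega)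
    (by
      intro l hl
      rw [Finset.mem_Icc] at hl
      simp only [Finset.mem_singleton, Finset.mem_insert]
      by_cases h1 : l = 1
      · right; left; left; exact h1
      by_cases h2 : l = 2 * m
      · right; left; right; exact h2
      by_cases h3 : l = 2 * N + 3
      · left; exact h3
      right; right
      by_cases h4 : l < 2 * m
      · refine ⟨(l - 2) / 2, by omega, ?_⟩
        have := hpp ((l - 2) / 2)
        omega
      · refine ⟨(l - 3) / 2, by omega, ?_⟩
        have := hpp ((l - 3) / 2)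
        omega)
    (by rw [Finset.card_singleton]; omega)
  unfold G fC
  refine Eq.trans ?_ (h.trans ?_)
  · refine Finset.sum_congr rfl fun D _ => ?_
    unfold K3
    congr 1
    refine if_congr ?_ rfl rfl
    simp only [Finset.mem_singleton, Finset.mem_insert, forall_eq, forall_eq_or_imp]
    tauto
  · refine Finset.sum_congr rfl fun ε _ => ?_
    congr 2

/-! ### partitions -/

def io {n : ℕ} : Pt n → ℕ
  | none => 0
  | some none => n + 1
  | some (some k) => k + 1

lemma io_inj (n : ℕ) : Function.Injective (io (n := n)) := by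
  rintro (_ | _ | k) (_ | _ | l) h
  · rfl
  · simp [io] at h
  · simp [io] at h
  · simp [io] at h
  · rfl
  · simp only [io] at h; have := l.2; omega
  · simp [io] at h
  · simp only [io] at h; have := k.2; omega
  · simp only [io] at h
    rw [Fin.ext (show (k : ℕ) = l by omega)]

lemma io_nxt (n : ℕ) (k : Fin n) : io (nxt k) = (k : ℕ) + 2 := by
  unfold nxt
  split_ifs with h
  · rfl
  · simp only [W, io]; have := k.2; omega

lemma ee_comap (n i : ℕ) (h1 : 1 ≤ i) (h2 : i ≤ 2 * n) (c : Setoid ℕ) :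
    ee n i (c.comap io) = (eeP i c).comap io := by
  unfold ee
  rw [dif_pos ⟨h1, by omega⟩]
  obtain ⟨p, rfl | rfl⟩ := Nat.even_or_odd' i
  · rw [if_neg (by omega), eeP_even]
    apply Setoid.ext
    intro u v
    have e1 : io (col (⟨(2 * p - 1) / 2, by omega⟩ : Fin n)) = p := by
      simp only [col, io]; omega
    have e2 : io (nxt (⟨(2 * p - 1) / 2, by omega⟩ : Fin n)) = p + 1 := by
      rw [io_nxt]; simp only []; omega
    have : (join (col (⟨(2 * p - 1) / 2, by omega⟩ : Fin n)) (nxt (⟨(2 * p - 1) / 2, by omega⟩ : Fin n))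
      (c.comap io)) u v ↔ joinN (io (col (⟨(2 * p - 1) / 2, by omega⟩ : Fin n)))
        (io (nxt (⟨(2 * p - 1) / 2, by omega⟩ : Fin n))) c (io u) (io v) := Iff.rfl
    rw [this, e1, e2]
    rfl
  · rw [if_pos (by omega), eeP_odd]
    apply Setoid.ext
    intro u v
    have e1 : io (col (⟨(2 * p + 1 - 1) / 2, by omega⟩ : Fin n)) = p + 1 := by
      simp only [col, io]; omega
    have g1 : (iso (col (⟨(2 * p + 1 - 1) / 2, by omega⟩ : Fin n)) (c.comap io)) u v ↔
      (u = v ∨ (u ≠ col (⟨(2 * p + 1 - 1) / 2, by omega⟩ : Fin n) ∧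
        v ≠ col (⟨(2 * p + 1 - 1) / 2, by omega⟩ : Fin n) ∧ c (io u) (io v))) := Iff.rfl
    have g2 : ((isoN (p + 1) c).comap io) u v ↔
      (io u = io v ∨ (io u ≠ p + 1 ∧ io v ≠ p + 1 ∧ c (io u) (io v))) := Iff.rfl
    rw [g1, g2, (io_inj n).eq_iff, ← e1, (io_inj n).ne_iff, (io_inj n).ne_iff]

lemma C0_comap (n m : ℕ) (hmn : m ≤ n) : C0 n m = (C0N m).comap io := by
  have hs : ∀ u : Pt n, u ∈ src n m ↔ (u = S ∨ ∃ k : Fin n, (k : ℕ) < m ∧ u = col k) :=
    fun u => Iff.rfl
  have key : ∀ u : Pt n, u ∈ src n m ↔ io u ≤ m := by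
    rintro (_ | _ | k)
    · rw [hs]; simp [S, io]
    · rw [hs]
      constructor
      · rintro (h | ⟨k, _, h⟩) <;> simp [S, col] at h
      · intro h; simp only [io] at h; omega
    · rw [hs]
      constructor
      · rintro (h | ⟨l, hl, h⟩)
        · simp [S] at h
        · simp only [col, Option.some.injEq] at h
          rw [h]; simp only [io]; omega
      · intro h
        simp only [io] at h
        exact Or.inr ⟨k, by omega, rfl⟩
  apply Setoid.ext
  intro u v
  have g1 : C0 n m u v ↔ (u = v ∨ (u ∈ src n m ∧ v ∈ src n m)) := Iff.rfl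
  have g2 : (C0N m).comap io u v ↔ (io u = io v ∨ (io u ≤ m ∧ io v ≤ m)) := Iff.rfl
  rw [g1, g2, (io_inj n).eq_iff, key, key]

end Lk

open Lk in
theorem link_pairing (q a : ℂ) (hq : q ^ 2 + q + 1 = 0) (ha : a ^ 2 = -q ^ 2) (n m : ℕ)
    (hm : 1 ≤ m) (hmn : m ≤ n)
    (Ψ : Finset ℕ → ℂ) (hΨ : HEig q n Ψ) (h : Setoid (Pt n) → ℝ) (hh : Harm n h) :
    fC a n m Ψ = a * h (C0 n m) * fA a n Ψ := by
  obtain ⟨N, rfl⟩ : ∃ N, n = N + 1 := ⟨n - 1, by omega⟩
  have hq0 : q ≠ 0 := by
    rintro rfl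
    norm_num at hq
  have ha0 : a ≠ 0 := by
    rintro rfl
    apply hq0
    have : q ^ 2 = 0 := by linear_combination ha
    exact pow_eq_zero_iff (two_ne_zero) |>.1 this
  have hq3 : q ^ 3 = 1 := by linear_combination (q - 1) * hq
  have hqi : q⁻¹ = q ^ 2 := by
    field_simp
    linear_combination -hq3
  have h2 : a * a = -q⁻¹ := by rw [hqi]; linear_combination ha
  have h1 : a⁻¹ * a⁻¹ = -q := by
    rw [← mul_inv, h2, inv_neg, inv_inv]
  have hl : a⁻¹ * a⁻¹ + a * a = 1 := by
    rw [h1, h2, hqi]; linear_combination -hq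
  set V := fA a (N + 1) Ψ with hV
  have hharm := harmonic q a h1 h2 ha0 (N + 1) Ψ hΨ
  -- one defect
  have H1 : ∀ B, Rep1 a (N + 1) B → G (N + 1) Ψ B = V := by
    intro B hB
    have := maxprin {B : Cov | Rep1 a (N + 1) B} (Rep1.fin a (N + 1)) (2 * (N + 1)) (EE a)
      (fun B => G (N + 1) Ψ B - V) ?_ ?_ (w1 (N + 1)) ?_ ?_ B hB
    · exact sub_eq_zero.1 this
    · intro B _
      rw [Finset.sum_sub_distrib, hharm B, Finset.sum_const, Nat.card_Icc, nsmul_eq_mul]
      push_cast
      ring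
    · intro B hB i hi
      rw [Finset.mem_Icc] at hi
      exact Or.inl (Rep1.step a ha0 hl hB i hi.1 hi.2)
    · intro i hi
      rw [Finset.mem_Icc]
      have := w1_mem (N + 1) i hi
      omega
    · intro B hB _
      rw [Rep1.foldl_w1 a ha0 hl (N + 1) B hB, ← L1_eq, G_L1, hV, sub_self]
  -- three defects
  have H3 := maxprin {x : Cov × Setoid ℕ | Rep3 a (N + 1) x.1 x.2} (Rep3.fin a (N + 1))
    (2 * (N + 1)) (fun i x => (EE a i x.1, eeP i x.2))
    (fun x => G (N + 1) Ψ x.1 - a * h (x.2.comap io) * V) ?_ ?_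
    ((List.range (N + 1)).map (fun k => 2 * k + 1)) ?_ ?_
    (K3 a N m, C0N m) (K3_rep a N m hm hmn)
  · rw [G_K3 a N m hm hmn, ← C0_comap (N + 1) m hmn] at H3
    exact sub_eq_zero.1 H3
  · rintro ⟨B, c⟩ _
    simp only []
    rw [Finset.sum_sub_distrib, hharm B, ← Finset.sum_mul, ← Finset.mul_sum, ← Complex.ofReal_sum]
    have : ∑ i ∈ Icc 1 (2 * (N + 1)), h ((eeP i c).comap io) =
        2 * ((N + 1 : ℕ) : ℝ) * h (c.comap io) := by
      rw [← hh.2.2]
      refine Finset.sum_congr rfl fun i hi => ?_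
      rw [Finset.mem_Icc] at hi
      rw [ee_comap (N + 1) i hi.1 hi.2]
    rw [this]
    push_cast
    ring
  · rintro ⟨B, c⟩ hx i hi
    rw [Finset.mem_Icc] at hi
    rcases Rep3.step a ha0 hl hx i hi.1 hi.2 with g | ⟨g, g'⟩ | ⟨B', hB', g, g'⟩
    · exact Or.inl g
    · right
      simp only [] at g g' ⊢
      rw [g, G_zero, hh.2.1 _ ?_ ?_]
      · simp
      · exact g' (N + 1 + 1) (by omega) le_rfl
      · intro k
        exact g' (k + 1) (by omega) (by have := k.2; omega)
    · right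
      simp only [] at g g' ⊢
      rw [g, G_smul, H1 B' hB', hh.1 _ g']
      simp
  · intro i hi
    rw [List.mem_map] at hi
    obtain ⟨k, hk, rfl⟩ := hi
    rw [List.mem_range] at hk
    rw [Finset.mem_Icc]
    omega
  · rintro x _ hx
    exfalso
    obtain ⟨p, hp1, hp2, hp3⟩ := Rep3.alive hx
    exact foldl_odd a (N + 1) x p hp1 hp2 hp3

end Pool.Agent.H75.Exact
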