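import Mathlib

set_option autoImplicit false
open Finset

/-! Product formula for `det binom(α+i+j, 2i+1-j)`, part A: a vanishing binomial sum.

We prove that for generic `y` and the sequence `g` with `g 0 = 1`,
`(r+1)(4y+r(r+2c+1)) g(r+1) = -2(c+r)(2y+r(2r+2c+1)) g r`,
the sum `∑_r g r * binom(c+i+r, 2i+1-r)` vanishes.  The proof compares two expansions of a power
series. -/

namespace Pool.Agent.H75.Exact.ProdF

/-- The coefficient of `t^N` in `(t(1+t))^k`. -/
noncomputable def mm (N k : ℕ) : ℝ := if k ≤ N then (Nat.choose k (N - k) : ℝ) else 0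

/-- The coefficient of `t^N` in `t^(2r) (1+t)^(-(d+1+r))`. -/
noncomputable def QQ (d N r : ℕ) : ℝ :=
  if 2 * r ≤ N then (-1) ^ N * (Nat.choose (d + r + (N - 2 * r)) (N - 2 * r) : ℝ) else 0

lemma mm_rel (N k : ℕ) : ((N : ℝ) + 1 - k) * mm (N + 1) k = (2 * k - N) * mm N k := by
  unfold mm
  rcases lt_trichotomy k (N + 1) with h | h | h
  · have h1 : k ≤ N := by omega
    have h2 : k ≤ N + 1 := by omega
    simp only [h1, h2, if_true]
    obtain ⟨d, rfl⟩ := Nat.exists_eq_add_of_le h1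
    have e1 : k + d + 1 - k = d + 1 := by omega
    have e2 : k + d - k = d := by omega
    rw [e1, e2]
    have h3 := Nat.choose_succ_right_eq k d
    by_cases hd : d ≤ k
    · have h4 : ((Nat.choose k (d + 1) : ℕ) : ℝ) * (d + 1) = Nat.choose k d * ((k : ℝ) - d) := by
        rw [← Nat.cast_sub hd]; exact_mod_cast h3
      push_cast; linarith
    · rw [Nat.choose_eq_zero_of_lt (by omega : k < d), Nat.choose_eq_zero_of_lt (by omega : k < d + 1)]
      simp
  · subst h; simp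
  · have h1 : ¬ k ≤ N := by omega
    have h2 : ¬ k ≤ N + 1 := by omega
    simp [h1, h2]

lemma mm_succ (N k : ℕ) :
    ((N : ℝ) + 2) * mm (N + 2) (k + 1) = (k + 1) * (mm (N + 1) k + 2 * mm N k) := by
  unfold mm
  rcases lt_trichotomy k (N + 1) with h | h | h
  · have h1 : k ≤ N := by omega
    have h2 : k ≤ N + 1 := by omega
    have h3 : k + 1 ≤ N + 2 := by omega
    simp only [h1, h2, h3, if_true]
    obtain ⟨d, rfl⟩ := Nat.exists_eq_add_of_le h1
    have e1 : k + d + 1 - k = d + 1 := by omega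
    have e2 : k + d - k = d := by omega
    have e3 : k + d + 2 - (k + 1) = d + 1 := by omega
    rw [e1, e2, e3]
    have h4 : ((k : ℝ) + 1) * Nat.choose k d = Nat.choose (k + 1) (d + 1) * (d + 1) := by
      exact_mod_cast Nat.add_one_mul_choose_eq k d
    have h5 : (Nat.choose (k + 1) (d + 1) : ℝ) = Nat.choose k d + Nat.choose k (d + 1) := by
      exact_mod_cast Nat.choose_succ_succ k d
    push_cast
    rw [h5] at h4 ⊢
    linear_combination (-1 : ℝ) * h4
  · subst h
    have h1 : ¬ N + 1 ≤ N := by omega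
    have h3 : N + 1 + 1 ≤ N + 2 := by omega
    simp only [h1, h3, le_refl, if_true, if_false]
    have e1 : N + 1 - (N + 1) = 0 := by omega
    have e3 : N + 2 - (N + 1 + 1) = 0 := by omega
    rw [e1, e3]; push_cast; simp; ring
  · have h1 : ¬ k ≤ N := by omega
    have h2 : ¬ k ≤ N + 1 := by omega
    have h3 : ¬ k + 1 ≤ N + 2 := by omega
    simp [h1, h2, h3]

lemma QQ_rel (d N r : ℕ) :
    ((N : ℝ) + 1 - 2 * r) * QQ d (N + 1) r = -((d + 1 : ℝ) + N - r) * QQ d N r := by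
  unfold QQ
  rcases lt_trichotomy (2 * r) (N + 1) with h | h | h
  · have h1 : 2 * r ≤ N := by omega
    have h2 : 2 * r ≤ N + 1 := by omega
    simp only [h1, h2, if_true]
    obtain ⟨n, rfl⟩ := Nat.exists_eq_add_of_le h1
    have e1 : 2 * r + n + 1 - 2 * r = n + 1 := by omega
    have e2 : 2 * r + n - 2 * r = n := by omega
    rw [e1, e2]
    have h4 : ((d : ℝ) + r + n + 1) * Nat.choose (d + r + n) n
        = Nat.choose (d + r + n + 1) (n + 1) * (n + 1) := by
      exact_mod_cast Nat.add_one_mul_choose_eq (d + r + n) n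
    have e3 : d + r + (n + 1) = d + r + n + 1 := by ring
    rw [e3, pow_succ]
    push_cast
    linear_combination ((-1 : ℝ) ^ (2 * r + n)) * h4
  · have h1 : ¬ 2 * r ≤ N := by omega
    have h2 : 2 * r ≤ N + 1 := by omega
    simp only [h1, h2, if_true, if_false]
    have : (N : ℝ) + 1 - 2 * r = 0 := by
      have : ((2 * r : ℕ) : ℝ) = ((N + 1 : ℕ) : ℝ) := by rw [h]
      push_cast at this; linarith
    rw [this]; simp
  · have h1 : ¬ 2 * r ≤ N := by omega
    have h2 : ¬ 2 * r ≤ N + 1 := by omega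
    simp [h1, h2]

lemma QQ_succ (d N r : ℕ) :
    ((r : ℝ) + (d + 1)) * (2 * QQ d (N + 2) (r + 1) + QQ d (N + 1) (r + 1))
      = (N + 2 * (d + 1)) * QQ d N r := by
  unfold QQ
  by_cases h1 : 2 * r ≤ N
  · obtain ⟨n, rfl⟩ := Nat.exists_eq_add_of_le h1
    have h2 : 2 * (r + 1) ≤ 2 * r + n + 2 := by omega
    simp only [h1, h2, if_true]
    have e1 : 2 * r + n + 2 - 2 * (r + 1) = n := by omega
    have e2 : 2 * r + n - 2 * r = n := by omega
    rw [e1, e2]
    rcases n with _ | n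
    · have h3 : ¬ 2 * (r + 1) ≤ 2 * r + 0 + 1 := by omega
      simp only [h3, if_false]
      simp [pow_add]
      ring
    · have h3 : 2 * (r + 1) ≤ 2 * r + (n + 1) + 1 := by omega
      simp only [h3, if_true]
      have e3 : 2 * r + (n + 1) + 1 - 2 * (r + 1) = n := by omega
      rw [e3]
      have e4 : d + (r + 1) + (n + 1) = (d + r + n + 1) + 1 := by ring
      have e5 : d + (r + 1) + n = d + r + n + 1 := by ring
      have e6 : d + r + (n + 1) = d + r + n + 1 := by ring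
      rw [e4, e5, e6]
      have h5 : (Nat.choose (d + r + n + 1 + 1) (n + 1) : ℝ)
          = Nat.choose (d + r + n + 1) n + Nat.choose (d + r + n + 1) (n + 1) := by
        exact_mod_cast Nat.choose_succ_succ (d + r + n + 1) n
      have h6 : (Nat.choose (d + r + n + 1) (n + 1) : ℝ) * (n + 1)
          = Nat.choose (d + r + n + 1) n * (d + r + 1) := by
        have := Nat.choose_succ_right_eq (d + r + n + 1) n
        have e7 : d + r + n + 1 - n = d + r + 1 := by omega
        rw [e7] at this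
        exact_mod_cast this
      rw [h5]
      have e8 : (-1 : ℝ) ^ (2 * r + (n + 1) + 2) = -(-1) ^ (2 * r + n) := by
        rw [show 2 * r + (n + 1) + 2 = (2 * r + n) + 3 by ring, pow_add]; norm_num
      have e9 : (-1 : ℝ) ^ (2 * r + (n + 1) + 1) = (-1) ^ (2 * r + n) := by
        rw [show 2 * r + (n + 1) + 1 = (2 * r + n) + 2 by ring, pow_add]; norm_num
      have e10 : (-1 : ℝ) ^ (2 * r + (n + 1)) = -(-1) ^ (2 * r + n) := by
        rw [show 2 * r + (n + 1) = (2 * r + n) + 1 by ring, pow_add]; norm_num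
      rw [e8, e9, e10]
      push_cast
      linear_combination ((-1 : ℝ) ^ (2 * r + n)) * h6
  · have h2 : ¬ 2 * (r + 1) ≤ N + 2 := by omega
    have h3 : ¬ 2 * (r + 1) ≤ N + 1 := by omega
    simp [h1, h2, h3]

/-- The key identity on the `p` side. -/
lemma key_p (c y : ℝ) (N k : ℕ) :
    ((N : ℝ) + 2) * (4 * y + (N + 1) * (N + 2 + 2 * c)) * mm (N + 2) k
      + 2 * (N + 1 + c) * (2 * y + (N + 1) * (N + 1 + 2 * c)) * mm (N + 1) k
      + (N + 2 * c) * (4 * y + N * (N + 1 + 2 * c)) * mm N k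
    = ((N : ℝ) + 2) * (4 * y + (k - 1) * (k + 2 * c)) * mm (N + 2) k
      + 4 * (k + c) * (y + k * (k + c + 1 / 2)) * (mm (N + 1) k + 2 * mm N k) := by
  have h1 := mm_rel (N + 1) k
  have h0 := mm_rel N k
  push_cast at h1
  have e : (N + 1 + 1 : ℕ) = N + 2 := rfl
  rw [e] at h1
  linear_combination ((N : ℝ) + 2) * (N + 1 + k + 2 * c) * h1
    + (4 * y - (N + 2) * (5 * (N + 1) + 4 * c) + 2 * (N + 2) * (N + 1 - k)
      + 4 * (N + 1) * (2 * (N + 1 + c) + 1 / 2) + 4 * (N + 1 + c) ^ 2 + 2 * (N + 1 + c)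
      - 4 * (N + 1 - k) * (N + 1 + 2 * (N + 1 + c) + 1 / 2) + 4 * (N + 1 - k) ^ 2) * h0

/-- The key identity on the `q` side. -/
lemma key_q (d : ℕ) (y : ℝ) (N r : ℕ) :
    ((N : ℝ) + 2) * (4 * y + (N + 1) * (N + 2 + 2 * (d + 1))) * QQ d (N + 2) r
      + 2 * (N + 1 + (d + 1)) * (2 * y + (N + 1) * (N + 1 + 2 * (d + 1))) * QQ d (N + 1) r
      + (N + 2 * (d + 1)) * (4 * y + N * (N + 1 + 2 * (d + 1))) * QQ d N r
    = (r : ℝ) * (4 * y + (2 * r - 1) * (2 * r + 2 * (d + 1))) * (2 * QQ d (N + 2) r + QQ d (N + 1) r)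
      + (4 * y + (r - (d + 1)) * (r + (d + 1) + 1)) * ((N + 2 * (d + 1)) * QQ d N r) := by
  have h1 := QQ_rel d (N + 1) r
  have h0 := QQ_rel d N r
  push_cast at h1
  have e : (N + 1 + 1 : ℕ) = N + 2 := rfl
  rw [e] at h1
  set c : ℝ := (d : ℝ) + 1 with hc
  linear_combination (4 * y + ((N : ℝ) + 2) ^ 2 + (N + 2) * (2 * r) + (2 * r) ^ 2
      + (2 * c - 1) * (N + 2 + 2 * r) - 2 * c) * h1
    + ((N : ℝ) + 2 * c) * (N + c + r + 1) * h0

lemma rec_p (c y : ℝ) (g : ℕ → ℝ)
    (hg : ∀ k : ℕ, ((k : ℝ) + 1) * (4 * y + k * (k + 2 * c + 1)) * g (k + 1)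
      = -4 * (c + k) * (y + k * (k + c + 1 / 2)) * g k)
    (K N : ℕ) (hN : N + 2 ≤ K) :
    ((N : ℝ) + 2) * (4 * y + (N + 1) * (N + 2 + 2 * c)) * (∑ k ∈ range (K + 1), g k * mm (N + 2) k)
      + 2 * (N + 1 + c) * (2 * y + (N + 1) * (N + 1 + 2 * c)) *
        (∑ k ∈ range (K + 1), g k * mm (N + 1) k)
      + (N + 2 * c) * (4 * y + N * (N + 1 + 2 * c)) * (∑ k ∈ range (K + 1), g k * mm N k) = 0 := by
  have e1 : ((N : ℝ) + 2) * (4 * y + (N + 1) * (N + 2 + 2 * c)) *
        (∑ k ∈ range (K + 1), g k * mm (N + 2) k)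
      + 2 * (N + 1 + c) * (2 * y + (N + 1) * (N + 1 + 2 * c)) *
        (∑ k ∈ range (K + 1), g k * mm (N + 1) k)
      + (N + 2 * c) * (4 * y + N * (N + 1 + 2 * c)) * (∑ k ∈ range (K + 1), g k * mm N k)
      = (∑ k ∈ range (K + 1), g k * (((N : ℝ) + 2) * (4 * y + (k - 1) * (k + 2 * c)) * mm (N + 2) k))
        + ∑ k ∈ range (K + 1), g k * (4 * (k + c) * (y + k * (k + c + 1 / 2)) *
          (mm (N + 1) k + 2 * mm N k)) := by
    rw [Finset.mul_sum, Finset.mul_sum, Finset.mul_sum, ← Finset.sum_add_distrib,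
      ← Finset.sum_add_distrib, ← Finset.sum_add_distrib]
    refine Finset.sum_congr rfl fun k _ => ?_
    linear_combination g k * key_p c y N k
  rw [e1, Finset.sum_range_succ' (n := K) (f := fun k : ℕ =>
      g k * (((N : ℝ) + 2) * (4 * y + ((k : ℝ) - 1) * (k + 2 * c)) * mm (N + 2) k)),
    Finset.sum_range_succ (n := K) (f := fun k : ℕ =>
      g k * (4 * ((k : ℝ) + c) * (y + k * (k + c + 1 / 2)) * (mm (N + 1) k + 2 * mm N k)))]
  have e2 : ∀ k ∈ range K, g (k + 1) * (((N : ℝ) + 2) *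
      (4 * y + (((k + 1 : ℕ) : ℝ) - 1) * (((k + 1 : ℕ) : ℝ) + 2 * c)) * mm (N + 2) (k + 1))
      = - (g k * (4 * ((k : ℝ) + c) * (y + k * (k + c + 1 / 2)) * (mm (N + 1) k + 2 * mm N k))) := by
    intro k _
    push_cast
    linear_combination (4 * y + (k : ℝ) * (k + 2 * c + 1)) * g (k + 1) * mm_succ N k
      + (mm (N + 1) k + 2 * mm N k) * hg k
  rw [Finset.sum_congr rfl e2, Finset.sum_neg_distrib]
  have h0 : mm (N + 2) 0 = 0 := by simp [mm]
  have h1 : mm (N + 1) K = 0 := by unfold mm; rw [if_neg (by omega)]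
  have h2 : mm N K = 0 := by unfold mm; rw [if_neg (by omega)]
  rw [h0, h1, h2]; ring

lemma rec_q (d : ℕ) (y : ℝ) (h : ℕ → ℝ)
    (hh : ∀ r : ℕ, ((r : ℝ) + 1) * (4 * y + (2 * r + 1) * (2 * r + 2 + 2 * (d + 1))) * h (r + 1)
      = - (r + (d + 1)) * (4 * y + (r - (d + 1)) * (r + (d + 1) + 1)) * h r)
    (K N : ℕ) (hN : N + 2 ≤ K) :
    ((N : ℝ) + 2) * (4 * y + (N + 1) * (N + 2 + 2 * (d + 1))) *
        (∑ k ∈ range (K + 1), h k * QQ d (N + 2) k)
      + 2 * (N + 1 + (d + 1)) * (2 * y + (N + 1) * (N + 1 + 2 * (d + 1))) *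
        (∑ k ∈ range (K + 1), h k * QQ d (N + 1) k)
      + (N + 2 * (d + 1)) * (4 * y + N * (N + 1 + 2 * (d + 1))) *
        (∑ k ∈ range (K + 1), h k * QQ d N k) = 0 := by
  have e1 : ((N : ℝ) + 2) * (4 * y + (N + 1) * (N + 2 + 2 * (d + 1))) *
        (∑ k ∈ range (K + 1), h k * QQ d (N + 2) k)
      + 2 * (N + 1 + (d + 1)) * (2 * y + (N + 1) * (N + 1 + 2 * (d + 1))) *
        (∑ k ∈ range (K + 1), h k * QQ d (N + 1) k)
      + (N + 2 * (d + 1)) * (4 * y + N * (N + 1 + 2 * (d + 1))) *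
        (∑ k ∈ range (K + 1), h k * QQ d N k)
      = (∑ k ∈ range (K + 1), h k * ((k : ℝ) * (4 * y + (2 * k - 1) * (2 * k + 2 * (d + 1))) *
          (2 * QQ d (N + 2) k + QQ d (N + 1) k)))
        + ∑ k ∈ range (K + 1), h k * ((4 * y + ((k : ℝ) - (d + 1)) * (k + (d + 1) + 1)) *
          ((N + 2 * (d + 1)) * QQ d N k)) := by
    rw [Finset.mul_sum, Finset.mul_sum, Finset.mul_sum, ← Finset.sum_add_distrib,
      ← Finset.sum_add_distrib, ← Finset.sum_add_distrib]
    refine Finset.sum_congr rfl fun k _ => ?_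
    linear_combination h k * key_q d y N k
  rw [e1, Finset.sum_range_succ' (n := K) (f := fun k : ℕ =>
      h k * ((k : ℝ) * (4 * y + (2 * k - 1) * (2 * k + 2 * (d + 1))) *
          (2 * QQ d (N + 2) k + QQ d (N + 1) k))),
    Finset.sum_range_succ (n := K) (f := fun k : ℕ =>
      h k * ((4 * y + ((k : ℝ) - (d + 1)) * (k + (d + 1) + 1)) *
          (((N : ℝ) + 2 * (d + 1)) * QQ d N k)))]
  have e2 : ∀ k ∈ range K, h (k + 1) * (((k + 1 : ℕ) : ℝ) *
      (4 * y + (2 * ((k + 1 : ℕ) : ℝ) - 1) * (2 * ((k + 1 : ℕ) : ℝ) + 2 * (d + 1))) *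
      (2 * QQ d (N + 2) (k + 1) + QQ d (N + 1) (k + 1)))
      = - (h k * ((4 * y + ((k : ℝ) - (d + 1)) * (k + (d + 1) + 1)) *
          (((N : ℝ) + 2 * (d + 1)) * QQ d N k))) := by
    intro k _
    push_cast
    linear_combination (2 * QQ d (N + 2) (k + 1) + QQ d (N + 1) (k + 1)) * hh k
      - (4 * y + ((k : ℝ) - (d + 1)) * (k + (d + 1) + 1)) * h k * QQ_succ d N k
  rw [Finset.sum_congr rfl e2, Finset.sum_neg_distrib]
  have h2 : QQ d N K = 0 := by unfold QQ; rw [if_neg (by omega)]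
  rw [h2]; push_cast; ring

lemma alt_vander_int (d e M : ℕ) (h : d + 1 ≤ e) :
    ∑ n ∈ range (M + 1), (-1 : ℤ) ^ n * (Nat.choose (d + n) n : ℤ) * (Nat.choose e (M - n) : ℤ)
      = Nat.choose (e - (d + 1)) M := by
  have h1 : ∀ n : ℕ, Ring.choose (-((d : ℤ) + 1)) n = (-1 : ℤ) ^ n * (Nat.choose (d + n) n : ℤ) := by
    intro n
    rw [Ring.choose_neg]
    have e1 : (d : ℤ) + 1 + n - 1 = ((d + n : ℕ) : ℤ) := by push_cast; ring
    rw [e1, Ring.choose_natCast, Int.negOnePow_def]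
    simp [Units.smul_def]
  have h2 := Ring.add_choose_eq (R := ℤ) (r := -((d : ℤ) + 1)) (s := (e : ℤ)) M (Commute.all _ _)
  have e2 : -((d : ℤ) + 1) + e = ((e - (d + 1) : ℕ) : ℤ) := by
    rw [Nat.cast_sub h]; push_cast; ring
  rw [e2, Ring.choose_natCast] at h2
  rw [h2, Finset.Nat.sum_antidiagonal_eq_sum_range_succ_mk]
  refine Finset.sum_congr rfl fun n _ => ?_
  rw [h1 n, Ring.choose_natCast]

lemma vander_range (m n s : ℕ) :
    ∑ a ∈ range (s + 1), (Nat.choose m a : ℝ) * (Nat.choose n (s - a) : ℝ) = Nat.choose (m + n) s := by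
  rw [Nat.add_choose_eq, Finset.Nat.sum_antidiagonal_eq_sum_range_succ_mk]
  push_cast
  rfl

/-- Vandermonde, `p` side. -/
lemma vander_p (e i r : ℕ) :
    ∑ N ∈ range (2 * i + 2), mm N r * (Nat.choose e (2 * i + 1 - N) : ℝ)
      = if r ≤ 2 * i + 1 then (Nat.choose (e + r) (2 * i + 1 - r) : ℝ) else 0 := by
  split_ifs with hr
  · obtain ⟨s, hs⟩ := Nat.exists_eq_add_of_le hr
    have e0 : 2 * i + 2 = r + (s + 1) := by omega
    rw [e0, Finset.sum_range_add]
    have h0 : ∑ N ∈ range r, mm N r * (Nat.choose e (2 * i + 1 - N) : ℝ) = 0 := by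
      refine Finset.sum_eq_zero fun N hN => ?_
      have : ¬ r ≤ N := by have := Finset.mem_range.1 hN; omega
      simp [mm, this]
    rw [h0, zero_add]
    have e1 : 2 * i + 1 - r = s := by omega
    rw [e1, add_comm e r, ← vander_range r e s]
    refine Finset.sum_congr rfl fun a ha => ?_
    have ha' := Finset.mem_range.1 ha
    have e2 : 2 * i + 1 - (r + a) = s - a := by omega
    rw [e2]
    have e3 : r + a - r = a := by omega
    simp [mm, e3]
  · refine Finset.sum_eq_zero fun N hN => ?_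
    have : ¬ r ≤ N := by have := Finset.mem_range.1 hN; omega
    simp [mm, this]

/-- Vandermonde, `q` side. -/
lemma vander_q (d i r : ℕ) :
    ∑ N ∈ range (2 * i + 2), QQ d N r * (Nat.choose (d + 1 + i) (2 * i + 1 - N) : ℝ) = 0 := by
  by_cases hr : 2 * r ≤ 2 * i + 1
  · obtain ⟨s, hs⟩ := Nat.exists_eq_add_of_le hr
    have e0 : 2 * i + 2 = 2 * r + (s + 1) := by omega
    rw [e0, Finset.sum_range_add]
    have h0 : ∑ N ∈ range (2 * r), QQ d N r * (Nat.choose (d + 1 + i) (2 * i + 1 - N) : ℝ) = 0 := by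
      refine Finset.sum_eq_zero fun N hN => ?_
      have : ¬ 2 * r ≤ N := by have := Finset.mem_range.1 hN; omega
      simp [QQ, this]
    rw [h0, zero_add]
    have h1 := alt_vander_int (d + r) (d + 1 + i) s (by omega)
    have h2 : Nat.choose (d + 1 + i - (d + r + 1)) s = 0 := Nat.choose_eq_zero_of_lt (by omega)
    rw [h2] at h1
    have h3 : ∑ n ∈ range (s + 1), (-1 : ℝ) ^ n * (Nat.choose (d + r + n) n : ℝ) *
        (Nat.choose (d + 1 + i) (s - n) : ℝ) = 0 := by exact_mod_cast h1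
    rw [← h3]
    refine Finset.sum_congr rfl fun a ha => ?_
    have ha' := Finset.mem_range.1 ha
    have e2 : 2 * i + 1 - (2 * r + a) = s - a := by omega
    have e3 : 2 * r + a - 2 * r = a := by omega
    rw [e2]
    simp [QQ, e3, pow_add]
  · refine Finset.sum_eq_zero fun N hN => ?_
    have : ¬ 2 * r ≤ N := by have := Finset.mem_range.1 hN; omega
    simp [QQ, this]

/-- The sequence `h`. -/
noncomputable def hseq (c y : ℝ) : ℕ → ℝ
  | 0 => 1
  | r + 1 => -(r + c) * (4 * y + (r - c) * (r + c + 1)) /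
      ((r + 1) * (4 * y + (2 * r + 1) * (2 * r + 2 + 2 * c))) * hseq c y r

theorem p_eq_q (d : ℕ) (y : ℝ) (hy : ∀ l : ℕ, 4 * y + l * (l + 2 * (d + 1) + 1) ≠ 0)
    (g : ℕ → ℝ) (g0 : g 0 = 1)
    (hg : ∀ k : ℕ, ((k : ℝ) + 1) * (4 * y + k * (k + 2 * (d + 1) + 1)) * g (k + 1)
      = -4 * ((d + 1) + k) * (y + k * (k + (d + 1) + 1 / 2)) * g k) (K : ℕ) (hK : 1 ≤ K) :
    ∀ N ≤ K, ∑ k ∈ range (K + 1), g k * mm N k
      = ∑ k ∈ range (K + 1), hseq (d + 1) y k * QQ d N k := by
  have hh : ∀ r : ℕ, ((r : ℝ) + 1) * (4 * y + (2 * r + 1) * (2 * r + 2 + 2 * (d + 1)))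
      * hseq (d + 1) y (r + 1)
      = - (r + (d + 1)) * (4 * y + (r - (d + 1)) * (r + (d + 1) + 1)) * hseq (d + 1) y r := by
    intro r
    have h1 := hy (2 * r + 1)
    have h2 : (4 * y + (2 * (r : ℝ) + 1) * (2 * r + 2 + 2 * (d + 1))) ≠ 0 := by
      intro h; apply h1; push_cast; linarith
    have h3 : ((r : ℝ) + 1) ≠ 0 := by positivity
    have h4 := mul_ne_zero h3 h2
    rw [hseq]
    generalize ((r : ℝ) + 1) * (4 * y + (2 * (r : ℝ) + 1) * (2 * r + 2 + 2 * (d + 1))) = D at h4 ⊢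
    field_simp
  have hp0 : ∑ k ∈ range (K + 1), g k * mm 0 k = 1 := by
    rw [Finset.sum_eq_single 0]
    · simp [mm, g0]
    · intro b _ hb
      have : ¬ b ≤ 0 := by omega
      simp [mm, this]
    · simp
  have hq0 : ∑ k ∈ range (K + 1), hseq (d + 1) y k * QQ d 0 k = 1 := by
    rw [Finset.sum_eq_single 0]
    · simp [QQ, hseq]
    · intro b _ hb
      have : ¬ 2 * b ≤ 0 := by omega
      simp [QQ, this]
    · simp
  have hp1 : ∑ k ∈ range (K + 1), g k * mm 1 k = -(d + 1) := by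
    rw [Finset.sum_eq_single 1]
    · have h1 := hg 0
      have h2 := hy 0
      rw [g0] at h1
      push_cast at h1 h2
      have h3 : y ≠ 0 := by
        intro h; apply h2; rw [h]; ring
      have h4 : y * (g 1 + (d + 1)) = 0 := by
        have : (4 : ℝ) * (y * (g 1 + (d + 1))) = 0 := by
          simp only [zero_add] at h1
          linear_combination h1
        linarith
      have h5 : g 1 + ((d : ℝ) + 1) = 0 := by
        rcases mul_eq_zero.1 h4 with h | h
        · exact absurd h h3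
        · exact h
      simp [mm]; linarith
    · intro b _ hb
      rcases Nat.eq_zero_or_pos b with rfl | hb'
      · simp [mm]
      · have : ¬ b ≤ 1 := by omega
        simp [mm, this]
    · intro h
      exact absurd (Finset.mem_range.2 (by omega)) h
  have hq1 : ∑ k ∈ range (K + 1), hseq (d + 1) y k * QQ d 1 k = -(d + 1) := by
    rw [Finset.sum_eq_single 0]
    · simp [QQ, hseq]
    · intro b _ hb
      have : ¬ 2 * b ≤ 1 := by omega
      simp [QQ, this]
    · simp
  intro N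
  induction N using Nat.strong_induction_on with
  | _ N ih =>
    intro hN
    rcases N with _ | _ | N
    · rw [hp0, hq0]
    · rw [zero_add, hp1, hq1]
    · have i1 := ih (N + 1) (by omega) (by omega)
      have i0 := ih N (by omega) (by omega)
      have r1 := rec_p (d + 1) y g hg K N (by omega)
      have r2 := rec_q d y (hseq (d + 1) y) hh K N (by omega)
      rw [i1, i0] at r1
      have hne : ((N : ℝ) + 2) * (4 * y + (N + 1) * (N + 2 + 2 * (d + 1))) ≠ 0 := by
        refine mul_ne_zero (by positivity) ?_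
        intro h; apply hy (N + 1); push_cast; linarith
      apply mul_left_cancel₀ hne
      have e : N + 1 + 1 = N + 2 := rfl
      rw [e]
      linear_combination r1 - r2

/-- The vanishing sum for generic `y`. -/
theorem vanish (d i : ℕ) (y : ℝ) (hy : ∀ l : ℕ, 4 * y + l * (l + 2 * (d + 1) + 1) ≠ 0)
    (g : ℕ → ℝ) (g0 : g 0 = 1)
    (hg : ∀ k : ℕ, ((k : ℝ) + 1) * (4 * y + k * (k + 2 * (d + 1) + 1)) * g (k + 1)
      = -4 * ((d + 1) + k) * (y + k * (k + (d + 1) + 1 / 2)) * g k) :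
    ∑ r ∈ range (2 * i + 2), g r * (Nat.choose (d + 1 + i + r) (2 * i + 1 - r) : ℝ) = 0 := by
  have key := p_eq_q d y hy g g0 hg (2 * i + 1) (by omega)
  calc ∑ r ∈ range (2 * i + 2), g r * (Nat.choose (d + 1 + i + r) (2 * i + 1 - r) : ℝ)
      = ∑ r ∈ range (2 * i + 2), ∑ N ∈ range (2 * i + 2),
          g r * (mm N r * (Nat.choose (d + 1 + i) (2 * i + 1 - N) : ℝ)) := by
        refine Finset.sum_congr rfl fun r hr => ?_
        have hr' := Finset.mem_range.1 hr
        rw [← Finset.mul_sum, vander_p, if_pos (by omega)]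
    _ = ∑ N ∈ range (2 * i + 2), (∑ r ∈ range (2 * i + 1 + 1), g r * mm N r) *
          (Nat.choose (d + 1 + i) (2 * i + 1 - N) : ℝ) := by
        rw [Finset.sum_comm]
        refine Finset.sum_congr rfl fun N _ => ?_
        rw [Finset.sum_mul]
        refine Finset.sum_congr rfl fun r _ => ?_
        ring
    _ = ∑ N ∈ range (2 * i + 2), (∑ r ∈ range (2 * i + 1 + 1), hseq (d + 1) y r * QQ d N r) *
          (Nat.choose (d + 1 + i) (2 * i + 1 - N) : ℝ) := by
        refine Finset.sum_congr rfl fun N hN => ?_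
        have hN' := Finset.mem_range.1 hN
        rw [key N (by omega)]
    _ = ∑ r ∈ range (2 * i + 2), hseq (d + 1) y r * ∑ N ∈ range (2 * i + 2),
          QQ d N r * (Nat.choose (d + 1 + i) (2 * i + 1 - N) : ℝ) := by
        simp_rw [Finset.sum_mul, Finset.mul_sum]
        rw [Finset.sum_comm]
        refine Finset.sum_congr rfl fun r _ => Finset.sum_congr rfl fun N _ => ?_
        ring
    _ = 0 := by
        refine Finset.sum_eq_zero fun r _ => ?_
        rw [vander_q, mul_zero]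

end Pool.Agent.H75.Exact.ProdF
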