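import Mathlib
import Pool.Agent.H75.Exact.Defs
import Pool.Agent.H75.Exact.ProdA

set_option autoImplicit false
open Finset Filter Topology

/-! Product formula for `det binom(α+i+j, 2i+1-j)`, part B. -/

namespace Pool.Agent.H75.Exact.ProdF

/-- `(A+l)(B+l)` with `A+B = c+1/2`, `AB = y`. -/
noncomputable def aa (c y : ℝ) (l : ℕ) : ℝ := y + l * (l + c + 1 / 2)
/-- `(2A+2q+1)(2B+2q+1)` with `A+B = c+1/2`, `AB = y`. -/
noncomputable def bb (c y : ℝ) (q : ℕ) : ℝ := 4 * y + (2 * q + 1) * (2 * q + 2 * c + 2)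
/-- Regularised `(A)_r (B)_r / ((2A)_r (2B)_r)`. -/
noncomputable def vv (c y : ℝ) (r : ℕ) : ℝ :=
  (∏ l ∈ Ico ((r + 1) / 2) r, aa c y l) / (4 ^ ((r + 1) / 2) * ∏ q ∈ range (r / 2), bb c y q)
/-- The regularised coefficient sequence. -/
noncomputable def gg (c y : ℝ) (r : ℕ) : ℝ :=
  (-4) ^ r * (∏ l ∈ range r, (c + l) / (l + 1)) * vv c y r

lemma vv_zero (c y : ℝ) : vv c y 0 = 1 := by simp [vv]

lemma gg_zero (c y : ℝ) : gg c y 0 = 1 := by simp [gg, vv_zero]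

lemma vv_succ (c y : ℝ) (hb : ∀ q, bb c y q ≠ 0) (r : ℕ) :
    (4 * y + r * (r + 2 * c + 1)) * vv c y (r + 1) = aa c y r * vv c y r := by
  have hB : ∀ m, ∏ q ∈ range m, bb c y q ≠ 0 := fun m => Finset.prod_ne_zero_iff.2 fun q _ => hb q
  rcases Nat.even_or_odd' r with ⟨m, rfl | rfl⟩
  · have e1 : (2 * m + 1) / 2 = m := by omega
    have e2 : (2 * m + 1 + 1) / 2 = m + 1 := by omega
    have e3 : (2 * m) / 2 = m := by omega
    have h1 : (∏ l ∈ Ico m (2 * m + 1), aa c y l) = aa c y m * ∏ l ∈ Ico (m + 1) (2 * m + 1), aa c y l :=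
      Finset.prod_eq_prod_Ico_succ_bot (by omega) _
    have h2 : (∏ l ∈ Ico m (2 * m + 1), aa c y l) = (∏ l ∈ Ico m (2 * m), aa c y l) * aa c y (2 * m) :=
      Finset.prod_Ico_succ_top (by omega) _
    unfold vv
    rw [e1, e2, e3]
    have h3 := hB m
    have h4 : (4 * y + ((2 * m : ℕ) : ℝ) * (((2 * m : ℕ) : ℝ) + 2 * c + 1)) = 4 * aa c y m := by
      unfold aa; push_cast; ring
    rw [h4]
    rw [h1] at h2
    field_simp
    linear_combination (4 * 4 ^ m) * h2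
  · have e1 : (2 * m + 1 + 1) / 2 = m + 1 := by omega
    have e2 : (2 * m + 1 + 1 + 1) / 2 = m + 1 := by omega
    have e3 : (2 * m + 1) / 2 = m := by omega
    have h2 : (∏ l ∈ Ico (m + 1) (2 * m + 1 + 1), aa c y l)
        = (∏ l ∈ Ico (m + 1) (2 * m + 1), aa c y l) * aa c y (2 * m + 1) :=
      Finset.prod_Ico_succ_top (by omega) _
    unfold vv
    rw [e1, e2, e3, h2, Finset.prod_range_succ]
    have h3 := hB m
    have h5 := hb m
    have h4 : (4 * y + ((2 * m + 1 : ℕ) : ℝ) * (((2 * m + 1 : ℕ) : ℝ) + 2 * c + 1)) = bb c y m := by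
      unfold bb; push_cast; ring
    rw [h4]
    field_simp

lemma gg_succ (c y : ℝ) (hb : ∀ q, bb c y q ≠ 0) (r : ℕ) :
    ((r : ℝ) + 1) * (4 * y + r * (r + 2 * c + 1)) * gg c y (r + 1)
      = -4 * (c + r) * (y + r * (r + c + 1 / 2)) * gg c y r := by
  have h := vv_succ c y hb r
  unfold gg
  rw [Finset.prod_range_succ, pow_succ]
  have h3 : ((r : ℝ) + 1) ≠ 0 := by positivity
  unfold aa at h
  have e : ((r : ℝ) + 1) * (4 * y + r * (r + 2 * c + 1)) *
      ((-4) ^ r * -4 * ((∏ l ∈ range r, (c + l) / (l + 1)) * ((c + r) / (r + 1))) * vv c y (r + 1))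
      = ((-4) ^ r * -4 * ((∏ l ∈ range r, (c + l) / (l + 1)) * (c + r))) *
        ((4 * y + r * (r + 2 * c + 1)) * vv c y (r + 1)) := by
    field_simp
  rw [e, h]; ring

lemma cont_gg (c y : ℝ) (hb : ∀ q, bb c y q ≠ 0) (r : ℕ) : ContinuousAt (fun y => gg c y r) y := by
  unfold gg vv
  refine continuousAt_const.mul (ContinuousAt.div ?_ ?_ ?_)
  · refine Continuous.continuousAt ?_
    refine continuous_finsetProd _ fun l _ => ?_
    unfold aa; fun_prop
  · refine Continuous.continuousAt ?_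
    refine continuous_const.mul (continuous_finsetProd _ fun l _ => ?_)
    unfold bb; fun_prop
  · exact mul_ne_zero (by positivity) (Finset.prod_ne_zero_iff.2 fun q _ => hb q)

theorem vanish_all (d i : ℕ) (y : ℝ) (hb : ∀ q, bb (d + 1) y q ≠ 0) :
    ∑ r ∈ range (2 * i + 2), gg (d + 1) y r * (Nat.choose (d + 1 + i + r) (2 * i + 1 - r) : ℝ) = 0 := by
  have hc : ContinuousAt (fun y => ∑ r ∈ range (2 * i + 2), gg (d + 1) y r *
      (Nat.choose (d + 1 + i + r) (2 * i + 1 - r) : ℝ)) y := by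
    refine tendsto_finsetSum _ fun r _ => ?_
    exact (cont_gg _ y hb r).mul continuousAt_const
  have hfreq : ∃ᶠ y' in 𝓝 y, (∑ r ∈ range (2 * i + 2), gg (d + 1) y' r *
      (Nat.choose (d + 1 + i + r) (2 * i + 1 - r) : ℝ)) = (fun _ : ℝ => (0 : ℝ)) y' := by
    have h1 : ∃ᶠ y' in 𝓝 y, Irrational y' :=
      mem_closure_iff_frequently.1 (dense_irrational y)
    refine h1.mono fun y' hy' => ?_
    have hy : ∀ l : ℕ, 4 * y' + l * (l + 2 * ((d : ℝ) + 1) + 1) ≠ 0 := by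
      intro l hl
      apply hy'
      refine ⟨-((l : ℚ) * (l + 2 * (d + 1) + 1) / 4), ?_⟩
      push_cast
      linarith
    have hb' : ∀ q, bb (d + 1) y' q ≠ 0 := by
      intro q hq
      apply hy (2 * q + 1)
      unfold bb at hq
      push_cast
      linarith
    exact vanish d i y' hy _ (gg_zero _ _) (fun k => gg_succ _ y' hb' k)
  exact tendsto_nhds_unique_of_frequently_eq hc.tendsto tendsto_const_nhds hfreq

/-- The special values of `y`. -/
noncomputable def ys (c : ℝ) (j : ℕ) : ℝ := -(j * (c + j + 1 / 2))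

lemma aa_ys (c : ℝ) (j l : ℕ) : aa c (ys c j) l = (l - j) * (l + j + c + 1 / 2) := by
  unfold aa ys; ring

lemma bb_ys (c : ℝ) (j q : ℕ) :
    bb c (ys c j) q = (2 * q + 1 - 2 * j) * (2 * q + 2 * j + 2 * c + 2) := by
  unfold bb ys; ring

lemma bb_ys_ne (d j q : ℕ) : bb (d + 1) (ys (d + 1) j) q ≠ 0 := by
  rw [bb_ys]
  refine mul_ne_zero ?_ (by positivity)
  intro h
  have h1 : ((2 * q + 1 : ℕ) : ℝ) = ((2 * j : ℕ) : ℝ) := by push_cast; linarith
  have h2 : 2 * q + 1 = 2 * j := by exact_mod_cast h1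
  omega

lemma gg_ys_zero (c : ℝ) (j r : ℕ) (h1 : j < r) (h2 : r ≤ 2 * j) : gg c (ys c j) r = 0 := by
  unfold gg vv
  have : ∏ l ∈ Ico ((r + 1) / 2) r, aa c (ys c j) l = 0 := by
    refine Finset.prod_eq_zero (i := j) (Finset.mem_Ico.2 ⟨by omega, h1⟩) ?_
    rw [aa_ys]; ring
  rw [this]; simp

/-- The diagonal entries. -/
noncomputable def DD (c : ℝ) (j : ℕ) : ℝ :=
  (c + j) / (2 * j + 1) * ∏ l ∈ range j,
    ((4 * j + 2 * c + 3 + 2 * l) * (2 * j + 2 * c + 1 + l)) /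
      (2 * (2 * l + 1) * (2 * j + 2 * c + 1 + 2 * l))

lemma vv_ys (d j : ℕ) : ∀ r ≤ j, vv (d + 1) (ys (d + 1) j) r = ∏ l ∈ range r,
    ((j - l : ℝ) * (2 * j + 2 * (d + 1) + 1 + 2 * l)) / (2 * (2 * j - l) * (2 * j + 2 * (d + 1) + 1 + l)) := by
  intro r
  induction r with
  | zero => intro _; simp [vv_zero]
  | succ r ih =>
    intro hr
    have h := vv_succ (d + 1) (ys (d + 1) j) (bb_ys_ne d j) r
    rw [ih (by omega), aa_ys] at h
    rw [Finset.prod_range_succ]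
    have hrj : (r : ℝ) + 1 ≤ j := by exact_mod_cast hr
    have e : (4 * ys (d + 1) j + (r : ℝ) * (r + 2 * ((d : ℝ) + 1) + 1))
        = -((2 * j - r) * (2 * j + 2 * (d + 1) + 1 + r)) := by
      unfold ys; ring
    rw [e] at h
    have h1 : (2 * (j : ℝ) - r) ≠ 0 := by
      have : (0 : ℝ) ≤ r := by positivity
      intro h; linarith
    have h2 : (2 * (j : ℝ) + 2 * (d + 1) + 1 + r) ≠ 0 := by positivity
    set P := ∏ l ∈ range r,
      ((j - l : ℝ) * (2 * j + 2 * (d + 1) + 1 + 2 * l)) / (2 * (2 * j - l) * (2 * j + 2 * (d + 1) + 1 + l))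
    generalize vv ((d : ℝ) + 1) (ys (d + 1) j) (r + 1) = V at h ⊢
    have h3 : -((2 * (j : ℝ) - r) * (2 * j + 2 * (d + 1) + 1 + r)) ≠ 0 :=
      neg_ne_zero.2 (mul_ne_zero h1 h2)
    apply mul_left_cancel₀ h3
    rw [h]
    generalize 2 * (j : ℝ) + 2 * (d + 1) + 1 + r = X2 at h2 h3 ⊢
    generalize hX1 : 2 * (j : ℝ) - r = X1 at h1 h3 ⊢
    field_simp
    ring

lemma refl_prod (j : ℕ) (f : ℝ → ℝ) :
    ∏ l ∈ range j, f ((j : ℝ) - l) = ∏ l ∈ range j, f ((l : ℝ) + 1) := by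
  rw [← Finset.prod_range_reflect]
  refine Finset.prod_congr rfl fun l hl => ?_
  have hl' := Finset.mem_range.1 hl
  congr 1
  rw [Nat.sub_sub, Nat.cast_sub (by omega)]
  push_cast; ring

lemma gg_last (d j : ℕ) : -gg (d + 1) (ys (d + 1) j) (2 * j + 1)
    = DD (d + 1) j * gg (d + 1) (ys (d + 1) j) j := by
  have hv := vv_ys d j j le_rfl
  set c : ℝ := (d : ℝ) + 1 with hc
  have hc0 : 0 < c := by positivity
  unfold gg DD
  rw [hv]
  -- the value at `2j+1`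
  have e1 : (2 * j + 1 + 1) / 2 = j + 1 := by omega
  have e2 : (2 * j + 1) / 2 = j := by omega
  have hv2 : vv c (ys c j) (2 * j + 1) =
      (∏ l ∈ range j, (((l : ℝ) + 1) * ((4 * j + 2 * c + 3 + 2 * l) / 2))) /
        (4 ^ (j + 1) * ∏ q ∈ range j, ((-1) * (2 * ((j : ℝ) - q) - 1) * (2 * (c + j + 1 + q)))) := by
    unfold vv
    rw [e1, e2, Finset.prod_Ico_eq_prod_range]
    have e3 : 2 * j + 1 - (j + 1) = j := by omega
    rw [e3]
    congr 1
    · refine Finset.prod_congr rfl fun l _ => ?_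
      rw [aa_ys]; push_cast; ring
    · congr 1
      refine Finset.prod_congr rfl fun l _ => ?_
      rw [bb_ys]; ring
  rw [hv2]
  have hR1 := refl_prod j (fun x => x)
  have hR2 := refl_prod j (fun x => 2 * x - 1)
  have hR3 := refl_prod j (fun x => (j : ℝ) + x)
  have hP : ∏ l ∈ range (2 * j + 1), (c + l) / ((l : ℝ) + 1) =
      (∏ l ∈ range j, (c + l) / ((l : ℝ) + 1)) *
        (((c + j) * ∏ l ∈ range j, (c + j + 1 + l)) / ((∏ l ∈ range j, ((j : ℝ) + (l + 1))) * (2 * j + 1))) := by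
    have e3 : 2 * j + 1 = j + (j + 1) := by ring
    rw [e3, Finset.prod_range_add]
    congr 1
    rw [Finset.prod_div_distrib]
    congr 1
    · rw [Finset.prod_range_succ', mul_comm]
      refine congrArg₂ (· * ·) ?_ ?_
      · simp
      · refine Finset.prod_congr rfl fun l _ => ?_
        push_cast; ring
    · rw [Finset.prod_range_succ]
      congr 1
      · refine Finset.prod_congr rfl fun l _ => ?_
        push_cast; ring
      · push_cast; ring
  rw [hP]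
  have hS1 : ∏ l ∈ range j, (((l : ℝ) + 1) * ((4 * j + 2 * c + 3 + 2 * l) / 2))
      = (∏ l ∈ range j, ((l : ℝ) + 1)) * ((∏ l ∈ range j, (4 * j + 2 * c + 3 + 2 * (l : ℝ))) / 2 ^ j) := by
    rw [Finset.prod_mul_distrib, Finset.prod_div_distrib]; simp
  have hS2 : ∏ q ∈ range j, ((-1) * (2 * ((j : ℝ) - q) - 1) * (2 * (c + j + 1 + q)))
      = (-1) ^ j * (∏ l ∈ range j, (2 * ((l : ℝ) + 1) - 1)) * (2 ^ j * ∏ l ∈ range j, (c + j + 1 + (l : ℝ))) := by
    rw [Finset.prod_mul_distrib, Finset.prod_mul_distrib, Finset.prod_mul_distrib, hR2]; simp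
  have hS3 : ∏ l ∈ range j, ((j - l : ℝ) * (2 * j + 2 * c + 1 + 2 * l)) / (2 * (2 * j - l) * (2 * j + 2 * c + 1 + l))
      = ((∏ l ∈ range j, ((l : ℝ) + 1)) * ∏ l ∈ range j, (2 * j + 2 * c + 1 + 2 * (l : ℝ))) /
        (2 ^ j * (∏ l ∈ range j, ((j : ℝ) + (l + 1))) * ∏ l ∈ range j, (2 * j + 2 * c + 1 + (l : ℝ))) := by
    rw [Finset.prod_div_distrib, Finset.prod_mul_distrib, Finset.prod_mul_distrib,
      Finset.prod_mul_distrib, hR1]
    have : ∏ l ∈ range j, (2 * (j : ℝ) - l) = ∏ l ∈ range j, ((j : ℝ) + (l + 1)) := by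
      rw [← hR3]
      refine Finset.prod_congr rfl fun l _ => ?_
      ring
    rw [this]; simp
  have hS4 : ∏ l ∈ range j, ((4 * j + 2 * c + 3 + 2 * l) * (2 * j + 2 * c + 1 + l)) /
      (2 * (2 * (l : ℝ) + 1) * (2 * j + 2 * c + 1 + 2 * l))
      = ((∏ l ∈ range j, (4 * j + 2 * c + 3 + 2 * (l : ℝ))) * ∏ l ∈ range j, (2 * j + 2 * c + 1 + (l : ℝ))) /
        (2 ^ j * (∏ l ∈ range j, (2 * ((l : ℝ) + 1) - 1)) * ∏ l ∈ range j, (2 * j + 2 * c + 1 + 2 * (l : ℝ))) := by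
    rw [Finset.prod_div_distrib, Finset.prod_mul_distrib, Finset.prod_mul_distrib,
      Finset.prod_mul_distrib]
    have : ∏ l ∈ range j, (2 * (l : ℝ) + 1) = ∏ l ∈ range j, (2 * ((l : ℝ) + 1) - 1) := by
      refine Finset.prod_congr rfl fun l _ => ?_
      ring
    rw [this]; simp
  rw [hS1, hS2, hS3, hS4]
  have n1 : ∏ l ∈ range j, (c + j + 1 + (l : ℝ)) ≠ 0 :=
    Finset.prod_ne_zero_iff.2 fun l _ => by positivity
  have n2 : ∏ l ∈ range j, ((j : ℝ) + (l + 1)) ≠ 0 :=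
    Finset.prod_ne_zero_iff.2 fun l _ => by positivity
  have n3 : ∏ l ∈ range j, (2 * ((l : ℝ) + 1) - 1) ≠ 0 :=
    Finset.prod_ne_zero_iff.2 fun l _ => by
      have : (0 : ℝ) ≤ l := by positivity
      intro h; linarith
  have n4 : ∏ l ∈ range j, (2 * j + 2 * c + 1 + (l : ℝ)) ≠ 0 :=
    Finset.prod_ne_zero_iff.2 fun l _ => by positivity
  have n5 : ∏ l ∈ range j, (2 * j + 2 * c + 1 + 2 * (l : ℝ)) ≠ 0 :=
    Finset.prod_ne_zero_iff.2 fun l _ => by positivity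
  generalize ∏ l ∈ range j, (c + j + 1 + (l : ℝ)) = A1 at n1 ⊢
  generalize ∏ l ∈ range j, ((j : ℝ) + (l + 1)) = A2 at n2 ⊢
  generalize ∏ l ∈ range j, (2 * ((l : ℝ) + 1) - 1) = A5 at n3 ⊢
  generalize ∏ l ∈ range j, (2 * j + 2 * c + 1 + (l : ℝ)) = A6 at n4 ⊢
  generalize ∏ l ∈ range j, (2 * j + 2 * c + 1 + 2 * (l : ℝ)) = A7 at n5 ⊢
  generalize ∏ l ∈ range j, (4 * j + 2 * c + 3 + 2 * (l : ℝ)) = A4
  generalize ∏ l ∈ range j, ((l : ℝ) + 1) = A3
  generalize ∏ l ∈ range j, (c + l) / ((l : ℝ) + 1) = A0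
  have hj : (2 * (j : ℝ) + 1) ≠ 0 := by positivity
  have p4 : (-4 : ℝ) ^ (2 * j + 1) = -4 * (2 ^ j) ^ 4 := by
    rw [pow_succ, pow_mul]; norm_num
    rw [← pow_mul, mul_comm j 4, pow_mul]; norm_num; ring
  have p5 : (-4 : ℝ) ^ j = (-1) ^ j * (2 ^ j) ^ 2 := by
    rw [← pow_mul, mul_comm j 2, pow_mul, ← mul_pow]; norm_num
  have p6 : (4 : ℝ) ^ (j + 1) = 4 * (2 ^ j) ^ 2 := by
    rw [← pow_mul, mul_comm j 2, pow_mul, pow_succ]; norm_num; ring
  have p7 : ((-1 : ℝ) ^ j) * (-1) ^ j = 1 := by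
    rw [← mul_pow]; norm_num
  have p8 : (-1 : ℝ) ^ j ≠ 0 := by
    intro h; rw [h] at p7; norm_num at p7
  have p9 : (2 : ℝ) ^ j ≠ 0 := by positivity
  rw [p4, p5, p6]
  generalize (-1 : ℝ) ^ j = s at p7 p8 ⊢
  generalize (2 : ℝ) ^ j = t at p9 ⊢
  field_simp
  linear_combination (-(A0 * A3 * A4)) * p7

lemma DD_pos (d j : ℕ) : 0 < DD (d + 1) j := by
  unfold DD
  refine mul_pos (by positivity) (Finset.prod_pos fun l _ => by positivity)

lemma gg_ys_ne (d j : ℕ) : gg (d + 1) (ys (d + 1) j) j ≠ 0 := by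
  unfold gg
  rw [vv_ys d j j le_rfl]
  refine mul_ne_zero (mul_ne_zero (by positivity) ?_) ?_
  · exact Finset.prod_ne_zero_iff.2 fun l _ => by positivity
  · refine Finset.prod_ne_zero_iff.2 fun l hl => ?_
    have hl' : (l : ℝ) + 1 ≤ j := by exact_mod_cast Finset.mem_range.1 hl
    have h0 : (0 : ℝ) ≤ l := by positivity
    refine div_ne_zero (mul_ne_zero ?_ (by positivity)) (mul_ne_zero (mul_ne_zero two_ne_zero ?_)
      (by positivity))
    · intro h; linarith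
    · intro h; linarith

/-- The matrix entries, as a function on naturals. -/
noncomputable def FF (d i s r : ℕ) : ℝ :=
  (if r ≤ 2 * i + 1 then (Nat.choose (d + 1 + i + r) (2 * i + 1 - r) : ℝ) else 0) *
    gg (d + 1) (ys (d + 1) s) r

lemma sum_FF (d i s : ℕ) (his : i ≤ s) :
    ∑ r ∈ range (s + 1), FF d i s r = if i = s then -gg (d + 1) (ys (d + 1) s) (2 * s + 1) else 0 := by
  have h1 : ∑ r ∈ range (2 * s + 2), FF d i s r = 0 := by
    have h2 := vanish_all d i (ys (d + 1) s) (bb_ys_ne d s)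
    have e : 2 * s + 2 = (2 * i + 2) + (2 * s - 2 * i) := by omega
    rw [e, Finset.sum_range_add]
    have h3 : ∑ x ∈ range (2 * s - 2 * i), FF d i s (2 * i + 2 + x) = 0 := by
      refine Finset.sum_eq_zero fun x _ => ?_
      unfold FF
      rw [if_neg (by omega), zero_mul]
    rw [h3, add_zero, ← h2]
    refine Finset.sum_congr rfl fun r hr => ?_
    have hr' := Finset.mem_range.1 hr
    unfold FF
    rw [if_pos (by omega), mul_comm]
  have e : 2 * s + 2 = (s + 1) + (s + 1) := by ring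
  rw [e, Finset.sum_range_add, Finset.sum_range_succ (n := s) (f := fun x => FF d i s (s + 1 + x))] at h1
  have h3 : ∑ x ∈ range s, FF d i s (s + 1 + x) = 0 := by
    refine Finset.sum_eq_zero fun x hx => ?_
    have hx' := Finset.mem_range.1 hx
    unfold FF
    rw [gg_ys_zero _ s _ (by omega) (by omega), mul_zero]
  rw [h3, zero_add] at h1
  have e5 : s + 1 + s = 2 * s + 1 := by ring
  rw [e5] at h1
  have h4 : FF d i s (2 * s + 1) = if i = s then gg (d + 1) (ys (d + 1) s) (2 * s + 1) else 0 := by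
    unfold FF
    by_cases h : i = s
    · subst h
      simp
    · rw [if_neg (by omega), if_neg h, zero_mul]
  rw [h4] at h1
  split_ifs with h
  · rw [if_pos h] at h1; linarith
  · rw [if_neg h] at h1; linarith

lemma sum_trunc (F : ℕ → ℝ) (s n : ℕ) (h : s < n) :
    ∑ r ∈ range n, (if r ≤ s then F r else 0) = ∑ r ∈ range (s + 1), F r := by
  rw [← Finset.sum_filter]
  refine Finset.sum_congr ?_ fun _ _ => rfl
  ext r
  simp only [Finset.mem_filter, Finset.mem_range]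
  omega

/-- The real matrix. -/
noncomputable def MM (d n : ℕ) : Matrix (Fin n) (Fin n) ℝ := (bm (d + 1) n).map (fun x : ℚ => (x : ℝ))

/-- The triangularising matrix. -/
noncomputable def EE (d n : ℕ) : Matrix (Fin n) (Fin n) ℝ := fun r s =>
  if (r : ℕ) ≤ s then gg (d + 1) (ys (d + 1) (s : ℕ)) r else 0

lemma MM_mul_EE (d n : ℕ) (i s : Fin n) (his : (i : ℕ) ≤ s) :
    (MM d n * EE d n) i s
      = if (i : ℕ) = s then -gg (d + 1) (ys (d + 1) (s : ℕ)) (2 * (s : ℕ) + 1) else 0 := by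
  rw [← sum_FF d i s his, Matrix.mul_apply]
  have h1 : ∀ r : Fin n, MM d n i r * EE d n r s =
      (fun r : ℕ => if r ≤ s then FF d i s r else 0) r := by
    intro r
    unfold MM EE FF bm
    simp only [Matrix.map_apply]
    by_cases h : (r : ℕ) ≤ s
    · simp only [h, if_true]
      congr 1
      split_ifs <;> simp
    · simp [h]
  rw [Finset.sum_congr rfl fun r _ => h1 r,
    Fin.sum_univ_eq_sum_range (fun r : ℕ => if r ≤ s then FF d i s r else 0) n]
  exact sum_trunc _ _ _ s.2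

lemma det_MM (d n : ℕ) : (MM d n).det = ∏ j ∈ range n, DD (d + 1) j := by
  have h1 : (MM d n * EE d n).det = ∏ s : Fin n, -gg (d + 1) (ys (d + 1) (s : ℕ)) (2 * (s : ℕ) + 1) := by
    rw [Matrix.det_of_isLowerTriangular]
    · refine Finset.prod_congr rfl fun s _ => ?_
      rw [MM_mul_EE d n s s le_rfl, if_pos rfl]
    · intro i s his
      have h : (i : ℕ) < s := by simpa using his
      rw [MM_mul_EE d n i s h.le, if_neg h.ne]
  have h2 : (EE d n).det = ∏ s : Fin n, gg (d + 1) (ys (d + 1) (s : ℕ)) (s : ℕ) := by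
    rw [Matrix.det_of_isUpperTriangular]
    · refine Finset.prod_congr rfl fun s _ => ?_
      simp [EE]
    · intro i s his
      have h : (s : ℕ) < i := by simpa using his
      unfold EE
      rw [if_neg (by omega)]
  rw [Matrix.det_mul, h2] at h1
  have h3 : ∏ s : Fin n, gg (d + 1) (ys (d + 1) (s : ℕ)) (s : ℕ) ≠ 0 :=
    Finset.prod_ne_zero_iff.2 fun s _ => gg_ys_ne d s
  apply mul_right_cancel₀ h3
  rw [h1, Finset.prod_congr rfl fun (s : Fin n) _ => gg_last d s, Finset.prod_mul_distrib,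
    Fin.prod_univ_eq_prod_range (fun j : ℕ => DD (d + 1) j) n]

lemma DD_ratio (n : ℕ) :
    DD (3 + 1) n = ((3 * ((n : ℝ) + 1) + 5) * (2 * (n + 1) + 1)) / ((6 * (n + 1) + 5) * (n + 1 + 2))
      * DD (1 + 1) (n + 1) := by
  unfold DD
  push_cast
  have hA : ∏ l ∈ range n, ((4 * (n : ℝ) + 2 * (3 + 1) + 3 + 2 * l) * (2 * n + 2 * (3 + 1) + 1 + l)) /
      (2 * (2 * l + 1) * (2 * n + 2 * (3 + 1) + 1 + 2 * l)) =
      (∏ l ∈ range n, (4 * (n : ℝ) + 11 + 2 * l)) * (∏ l ∈ range n, (2 * (n : ℝ) + 9 + l)) /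
      ((∏ l ∈ range n, (2 * (2 * (l : ℝ) + 1))) * (∏ l ∈ range n, (2 * (n : ℝ) + 9 + 2 * l))) := by
    rw [← Finset.prod_mul_distrib, ← Finset.prod_mul_distrib, ← Finset.prod_div_distrib]
    refine Finset.prod_congr rfl fun l _ => ?_
    congr 1 <;> ring
  have hB : ∏ l ∈ range (n + 1), ((4 * ((n : ℝ) + 1) + 2 * (1 + 1) + 3 + 2 * l) * (2 * (n + 1) + 2 * (1 + 1) + 1 + l)) /
      (2 * (2 * l + 1) * (2 * (n + 1) + 2 * (1 + 1) + 1 + 2 * l)) =
      (∏ l ∈ range (n + 1), (4 * (n : ℝ) + 11 + 2 * l)) * (∏ l ∈ range (n + 1), (2 * (n : ℝ) + 7 + l)) /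
      ((∏ l ∈ range (n + 1), (2 * (2 * (l : ℝ) + 1))) * (∏ l ∈ range (n + 1), (2 * (n : ℝ) + 7 + 2 * l))) := by
    rw [← Finset.prod_mul_distrib, ← Finset.prod_mul_distrib, ← Finset.prod_div_distrib]
    refine Finset.prod_congr rfl fun l _ => ?_
    congr 1 <;> ring
  rw [hA, hB, Finset.prod_range_succ (fun l : ℕ => 4 * (n : ℝ) + 11 + 2 * l),
    Finset.prod_range_succ (fun l : ℕ => 2 * (2 * (l : ℝ) + 1)),
    Finset.prod_range_succ' (fun l : ℕ => 2 * (n : ℝ) + 7 + 2 * l)]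
  have hC : (∏ l ∈ range (n + 1), (2 * (n : ℝ) + 7 + l)) * (3 * n + 8)
      = (∏ l ∈ range n, (2 * (n : ℝ) + 9 + l)) * (2 * n + 8) * (2 * n + 7) := by
    have h1 : ∏ l ∈ range (n + 2), (2 * (n : ℝ) + 7 + l)
        = (∏ l ∈ range (n + 1), (2 * (n : ℝ) + 7 + l)) * (3 * n + 8) := by
      rw [Finset.prod_range_succ]; push_cast; ring
    rw [← h1, Finset.prod_range_succ', Finset.prod_range_succ']
    push_cast
    have h2 : ∏ l ∈ range n, (2 * (n : ℝ) + 7 + ((l : ℝ) + 1 + 1)) = ∏ l ∈ range n, (2 * (n : ℝ) + 9 + l) := by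
      refine Finset.prod_congr rfl fun l _ => ?_
      ring
    rw [h2]; ring
  have hD : ∏ l ∈ range n, (2 * (n : ℝ) + 7 + 2 * ((l + 1 : ℕ) : ℝ)) = ∏ l ∈ range n, (2 * (n : ℝ) + 9 + 2 * l) := by
    refine Finset.prod_congr rfl fun l _ => ?_
    push_cast; ring
  rw [hD]
  have n1 : ∏ l ∈ range n, (2 * (2 * (l : ℝ) + 1)) ≠ 0 :=
    Finset.prod_ne_zero_iff.2 fun l _ => by positivity
  have n2 : ∏ l ∈ range n, (2 * (n : ℝ) + 9 + 2 * l) ≠ 0 :=
    Finset.prod_ne_zero_iff.2 fun l _ => by positivity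
  have hC' : ∏ l ∈ range (n + 1), (2 * (n : ℝ) + 7 + l)
      = (∏ l ∈ range n, (2 * (n : ℝ) + 9 + l)) * (2 * n + 8) * (2 * n + 7) / (3 * n + 8) := by
    rw [eq_div_iff (by positivity)]; exact hC
  rw [hC']
  generalize ∏ l ∈ range n, (2 * (2 * (l : ℝ) + 1)) = P1 at n1 ⊢
  generalize ∏ l ∈ range n, (2 * (n : ℝ) + 9 + 2 * l) = P2 at n2 ⊢
  generalize ∏ l ∈ range n, (2 * (n : ℝ) + 9 + l) = P3
  generalize ∏ l ∈ range n, (4 * (n : ℝ) + 11 + 2 * l) = P4
  have m1 : (2 * (n : ℝ) + 1) ≠ 0 := by positivity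
  have m2 : (6 * ((n : ℝ) + 1) + 5) ≠ 0 := by positivity
  have m3 : ((n : ℝ) + 1 + 2) ≠ 0 := by positivity
  have m4 : (3 * (n : ℝ) + 8) ≠ 0 := by positivity
  have m5 : (2 * ((n : ℝ) + 1) + 1) ≠ 0 := by positivity
  push_cast
  field_simp
  ring

end Pool.Agent.H75.Exact.ProdF

namespace Pool.Agent.H75.Exact

open ProdF

/-- The product formula (with `c = d + 1`). -/
theorem det_bm_prod (d n : ℕ) : (((bm (d + 1) n).det : ℚ) : ℝ) = ∏ j ∈ range n, DD ((d : ℝ) + 1) j := by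
  rw [← det_MM]
  unfold MM
  exact RingHom.map_det (Rat.castHom ℝ) (bm (d + 1) n)

theorem det_bm_two_pos (n : ℕ) : 0 < (bm 2 n).det := by
  have h := det_bm_prod 1 n
  have h2 : (0 : ℝ) < ∏ j ∈ range n, DD (((1 : ℕ) : ℝ) + 1) j :=
    Finset.prod_pos fun j _ => DD_pos 1 j
  rw [← h] at h2
  exact_mod_cast h2

theorem det_bm_ratio (n : ℕ) :
    (((bm 4 n).det : ℚ) : ℝ) = hval (n + 1) * (((bm 2 (n + 1)).det : ℚ) : ℝ) := by
  rw [show (4 : ℕ) = 3 + 1 by rfl, show (2 : ℕ) = 1 + 1 by rfl, det_bm_prod 3 n, det_bm_prod 1 (n + 1)]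
  push_cast
  induction n with
  | zero =>
    simp [hval, DD]; norm_num
  | succ n ih =>
    rw [Finset.prod_range_succ, ih, Finset.prod_range_succ (fun j => DD ((1 : ℝ) + 1) j) (n + 1),
      DD_ratio n]
    have h : hval (n + 1 + 1) = hval (n + 1) *
        (((3 * ((n : ℝ) + 1) + 5) * (2 * (n + 1) + 1)) / ((6 * (n + 1) + 5) * (n + 1 + 2))) := by
      unfold hval
      rw [Finset.prod_range_succ (n := n + 1)]
      push_cast
      ring
    rw [h]; ring

end Pool.Agent.H75.Exact
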