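import Mathlib
import Pool.Agent.H75.Exact.Link
import Pool.Agent.H75.Exact.Det
import Pool.Agent.H75.Exact.Eig
import Pool.Agent.H75.Exact.Exchange
import Pool.Agent.H75.Exact.Prod
import Pool.Agent.H75.Exact.HarmTT
import Pool.Agent.H75.Exact.Asymp

set_option autoImplicit false
open Finset

/-! The value of the harmonic function at the corner state. -/

namespace Pool.Agent.H75.Exact

theorem heig_Psi (q : ℂ) (hq : q ^ 2 + q + 1 = 0) (n : ℕ) : HEig q n (Psi q n) :=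
  heig_Psi_of_exchange q hq
    (fun N n z hz i hi hiN D hD hc => exchange q hq N n z hz i hi hiN D hD hc) n

theorem exists_qa : ∃ q a : ℂ, q ^ 2 + q + 1 = 0 ∧ a ^ 2 = -q ^ 2 := by
  have hs : ((Real.sqrt 3 : ℝ) : ℂ) ^ 2 = 3 := by
    norm_cast
    exact Real.sq_sqrt (by norm_num)
  refine ⟨(-1 + Complex.I * Real.sqrt 3) / 2, Complex.I * ((-1 + Complex.I * Real.sqrt 3) / 2), ?_, ?_⟩
  · linear_combination (Complex.I ^ 2 / 4) * hs + (3 / 4) * Complex.I_sq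
  · rw [mul_pow, Complex.I_sq]
    ring

theorem harm_C0 (n : ℕ) (hn : 1 ≤ n) (h : Setoid (Pt n) → ℝ) (hh : Harm n h) :
    h (C0 n 1) = hval n := by
  obtain ⟨q, a, hq, ha⟩ := exists_qa
  have hq0 : q ≠ 0 := by
    rintro rfl
    norm_num at hq
  have ha0 : a ≠ 0 := by
    rintro rfl
    apply hq0
    have : q ^ 2 = 0 := by linear_combination ha
    exact pow_eq_zero_iff (two_ne_zero) |>.1 this
  have h1 := link_pairing q a hq ha n 1 le_rfl hn (Psi q n) (heig_Psi q hq n) h hh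
  rw [fA_eq q a hq ha, fC_eq q a hq ha n hn] at h1
  obtain ⟨N, rfl⟩ := Nat.exists_eq_add_of_le' hn
  rw [Nat.add_sub_cancel] at h1
  have h2 := det_bm_ratio N
  have hpos := det_bm_two_pos (N + 1)
  have h3 : (((bm 4 N).det : ℚ) : ℂ) = (hval (N + 1) : ℂ) * (((bm 2 (N + 1)).det : ℚ) : ℂ) := by
    have := congrArg (fun x : ℝ => (x : ℂ)) h2
    simpa using this
  rw [h3] at h1
  have h4 : (((bm 2 (N + 1)).det : ℚ) : ℂ) ≠ 0 := by
    exact_mod_cast hpos.ne'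
  have h5 : (hval (N + 1) : ℂ) = (h (C0 (N + 1) 1) : ℂ) := by
    have h6 : a⁻¹ ^ N ≠ 0 := pow_ne_zero _ (inv_ne_zero ha0)
    have h7 : a * a⁻¹ = 1 := mul_inv_cancel₀ ha0
    apply mul_left_cancel₀ (mul_ne_zero h6 h4)
    calc a⁻¹ ^ N * (((bm 2 (N + 1)).det : ℚ) : ℂ) * (hval (N + 1) : ℂ)
        = a⁻¹ ^ N * ((hval (N + 1) : ℂ) * (((bm 2 (N + 1)).det : ℚ) : ℂ)) := by ring
      _ = a * (h (C0 (N + 1) 1) : ℂ) * (a⁻¹ ^ (N + 1) * (((bm 2 (N + 1)).det : ℚ) : ℂ)) := h1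
      _ = (a * a⁻¹) * (a⁻¹ ^ N * (((bm 2 (N + 1)).det : ℚ) : ℂ) * (h (C0 (N + 1) 1) : ℂ)) := by
        rw [pow_succ]; ring
      _ = _ := by rw [h7, one_mul]
  exact_mod_cast h5.symm

end Pool.Agent.H75.Exact
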