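import Mathlib
import Pool.Agent.H75.Exact.Value
import Pool.Agent.H75.Exact.StripDet
import Pool.Agent.H75.Exact.StripProb

set_option autoImplicit false
open Finset MeasureTheory

/-! The exact corner one-arm probability of the half-infinite strip. -/

namespace Pool.Agent.H75.Exact

open Pool.Agent.H65.Perc (PConf planeMeasure)

theorem hval_zero : hval 0 = 1 := by unfold hval; simp

instance : IsProbabilityMeasure planeMeasure := by
  unfold planeMeasure; infer_instance

theorem strip_exact (n : ℕ) : (planeMeasure {ω | StripArm n 1 ω}).toReal = hval n := by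
  rcases Nat.eq_zero_or_pos n with hn | hn
  · subst hn
    have h : {ω | StripArm 0 1 ω} = Set.univ := by
      ext ω
      simp only [Set.mem_setOf_eq, Set.mem_univ, iff_true]
      exact ⟨0, one_pos, (0, 0), by simp, by simp⟩
    rw [h, hval_zero, measure_univ]
    simp
  · obtain ⟨h, hh, _⟩ := exists_harm n hn
    rw [strip_harm n 1 le_rfl hn h hh (fun ω t => run_sound n 1 le_rfl hn ω t)
      (fun ω => run_complete n 1 le_rfl hn ω), harm_C0 n hn h hh]

end Pool.Agent.H75.Exact
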