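import Pool.Agent.H75.Exact.EigLim

set_option autoImplicit false
open Finset Filter Topology

/-! Assembly: exchange relation + reflections imply the eigenvector equation in the limit. -/

namespace Pool.Agent.H75.Exact.EigP

/-- insert `x` at position `k` into the sequence `y` -/
noncomputable def ins (y : ℕ → ℂ) (k : ℕ) (x : ℂ) : ℕ → ℂ := fun j =>
  if j < k then y j else if j = k then x else y (j - 1)

lemma ins_lt (y : ℕ → ℂ) (k : ℕ) (x : ℂ) (j : ℕ) (h : j < k) : ins y k x j = y j := by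
  simp [ins, h]

lemma ins_eq (y : ℕ → ℂ) (k : ℕ) (x : ℂ) : ins y k x k = x := by
  simp [ins]

lemma ins_gt (y : ℕ → ℂ) (k : ℕ) (x : ℂ) (j : ℕ) (h : k < j) : ins y k x j = y (j - 1) := by
  simp [ins, not_lt.2 h.le, h.ne']

lemma sw_ins (y : ℕ → ℂ) (k : ℕ) (x : ℂ) : sw (ins y k x) k = ins y (k + 1) x := by
  funext j
  simp only [sw, Function.comp]
  rcases lt_trichotomy j k with h | h | h
  · rw [Equiv.swap_apply_of_ne_of_ne (by omega) (by omega), ins_lt _ _ _ _ h, ins_lt _ _ _ _ (by omega)]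
  · subst h
    rw [Equiv.swap_apply_left, ins_gt _ _ _ _ (by omega), ins_lt _ _ _ _ (by omega)]
    simp
  · rcases Nat.lt_or_ge j (k + 2) with h' | h'
    · have : j = k + 1 := by omega
      subst this
      rw [Equiv.swap_apply_right, ins_eq, ins_eq]
    · rw [Equiv.swap_apply_of_ne_of_ne (by omega) (by omega), ins_gt _ _ _ _ h,
        ins_gt _ _ _ _ (by omega)]

lemma sw_ins' (y : ℕ → ℂ) (k : ℕ) (x : ℂ) : sw (ins y (k + 1) x) k = ins y k x := by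
  rw [← sw_ins]
  funext j
  simp [sw]

lemma update_ins_one (y : ℕ → ℂ) (k : ℕ) (x x' : ℂ) :
    Function.update (ins y k x) k x' = ins y k x' := by
  funext j
  by_cases h : j = k
  · subst h; simp [ins_eq]
  · rw [Function.update_of_ne h]
    simp [ins, h]

lemma ins_mem (n k : ℕ) (y : ℕ → ℂ) (x : ℂ) (P : ℂ → Prop) (hk : k ∈ Icc 1 (2 * n + 1))
    (hy : ∀ i ∈ Icc 1 (2 * n), P (y i)) (hx : P x) : ∀ j ∈ Icc 1 (2 * n + 1), P (ins y k x j) := by
  intro j hj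
  rw [Finset.mem_Icc] at hk hj
  rcases lt_trichotomy j k with h | h | h
  · rw [ins_lt _ _ _ _ h]; exact hy j (Finset.mem_Icc.2 ⟨hj.1, by omega⟩)
  · subst h; rw [ins_eq]; exact hx
  · rw [ins_gt _ _ _ _ h]; exact hy _ (Finset.mem_Icc.2 ⟨by omega, by omega⟩)

lemma ins_injOn (n k : ℕ) (y : ℕ → ℂ) (x : ℂ) (hk : k ∈ Icc 1 (2 * n + 1))
    (hy : Set.InjOn y (Icc 1 (2 * n))) (hx : ∀ i ∈ Icc 1 (2 * n), y i ≠ x) :
    Set.InjOn (ins y k x) (Icc 1 (2 * n + 1)) := by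
  intro a ha b hb hab
  rw [Finset.coe_Icc, Set.mem_Icc] at ha hb
  rw [Finset.mem_Icc] at hk
  have hx' : ∀ i, 1 ≤ i → i ≤ 2 * n → y i ≠ x := fun i h1 h2 => hx i (Finset.mem_Icc.2 ⟨h1, h2⟩)
  have hy' : ∀ i j, 1 ≤ i → i ≤ 2 * n → 1 ≤ j → j ≤ 2 * n → y i = y j → i = j :=
    fun i j h1 h2 h3 h4 h => hy (by simp; omega) (by simp; omega) h
  rcases lt_trichotomy a k with h | h | h
  · rw [ins_lt _ _ _ _ h] at hab
    rcases lt_trichotomy b k with h' | h' | h'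
    · rw [ins_lt _ _ _ _ h'] at hab
      exact hy' a b (by omega) (by omega) (by omega) (by omega) hab
    · subst h'; rw [ins_eq] at hab; exact absurd hab (hx' a (by omega) (by omega))
    · rw [ins_gt _ _ _ _ h'] at hab
      have := hy' a (b - 1) (by omega) (by omega) (by omega) (by omega) hab
      omega
  · subst h
    rw [ins_eq] at hab
    rcases lt_trichotomy b a with h' | h' | h'
    · rw [ins_lt _ _ _ _ h'] at hab
      exact absurd hab.symm (hx' b (by omega) (by omega))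
    · exact h'.symm
    · rw [ins_gt _ _ _ _ h'] at hab
      exact absurd hab.symm (hx' _ (by omega) (by omega))
  · rw [ins_gt _ _ _ _ h] at hab
    rcases lt_trichotomy b k with h' | h' | h'
    · rw [ins_lt _ _ _ _ h'] at hab
      have := hy' (a - 1) b (by omega) (by omega) (by omega) (by omega) hab
      omega
    · subst h'; rw [ins_eq] at hab; exact absurd hab (hx' _ (by omega) (by omega))
    · rw [ins_gt _ _ _ _ h'] at hab
      have := hy' (a - 1) (b - 1) (by omega) (by omega) (by omega) (by omega) hab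
      omega

/-- genericity of `y 1, …, y (2n)`, `x`, `bar x` -/
structure Good (n : ℕ) (y : ℕ → ℂ) (x : ℂ) : Prop where
  ny : ∀ i ∈ Icc 1 (2 * n), ‖y i‖ ≤ 1 / 8
  nx : ‖x‖ ≤ 1 / 8
  nx' : ‖bar x‖ ≤ 1 / 8
  inj : Set.InjOn y (Icc 1 (2 * n))
  hx : ∀ i ∈ Icc 1 (2 * n), y i ≠ x
  hx' : ∀ i ∈ Icc 1 (2 * n), y i ≠ bar x
  hxx : x ≠ bar x

lemma one_add_ne {x : ℂ} (h : ‖x‖ ≤ 1 / 8) : 1 + x ≠ 0 := by
  intro h0
  have : x = -1 := by linear_combination h0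
  rw [this, norm_neg, norm_one] at h
  norm_num at h

lemma one_add_ne' {x : ℂ} (h : ‖x‖ ≤ 1 / 2) : 1 + x ≠ 0 := by
  intro h0
  have : x = -1 := by linear_combination h0
  rw [this, norm_neg, norm_one] at h
  norm_num at h

lemma den_ne {x y : ℂ} (hx : ‖x‖ ≤ 1 / 8) (hy : ‖y‖ ≤ 1 / 8) : 1 + x + x * y ≠ 0 := by
  rw [add_assoc]
  apply one_add_ne'
  calc ‖x + x * y‖ ≤ ‖x‖ + ‖x‖ * ‖y‖ := by rw [← norm_mul]; exact norm_add_le _ _
    _ ≤ 1 / 2 := by nlinarith [norm_nonneg x, norm_nonneg y]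

lemma den_ne2 {x y : ℂ} (hx : ‖x‖ ≤ 1 / 8) (hy : ‖y‖ ≤ 1 / 8) : 1 - x * y ≠ 0 := by
  rw [sub_eq_add_neg]
  apply one_add_ne'
  rw [norm_neg, norm_mul]
  nlinarith [norm_nonneg x, norm_nonneg y]

lemma den_ne3 {x y : ℂ} (hx : ‖x‖ ≤ 1 / 8) (hy : ‖y‖ ≤ 1 / 8) : 1 + x + y ≠ 0 := by
  rw [add_assoc]
  apply one_add_ne'
  calc ‖x + y‖ ≤ ‖x‖ + ‖y‖ := norm_add_le _ _
    _ ≤ 1 / 2 := by linarith

lemma bar_bar {x : ℂ} (hx : 1 + x ≠ 0) : bar (bar x) = x := by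
  unfold bar
  have : 1 + -x / (1 + x) = 1 / (1 + x) := by field_simp; ring
  rw [this]
  field_simp

lemma one_add_bar {x : ℂ} (hx : 1 + x ≠ 0) : 1 + bar x = (1 + x)⁻¹ := by
  unfold bar
  field_simp
  ring

lemma norm_bar_le {x : ℂ} (hx : ‖x‖ ≤ 1 / 8) : ‖bar x‖ ≤ 1 / 4 := by
  unfold bar
  rw [norm_div, norm_neg]
  have h1 : 7 / 8 ≤ ‖1 + x‖ := by
    have := norm_sub_le (1 + x) x
    simp at this
    linarith
  rw [div_le_iff₀ (by linarith)]
  linarith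

lemma bar_inj {x y : ℂ} (hx : 1 + x ≠ 0) (hy : 1 + y ≠ 0) (h : bar x = bar y) : x = y := by
  rw [← bar_bar hx, h, bar_bar hy]

variable (q : ℂ) (n : ℕ)

/-- pair prefactor -/
noncomputable def hh (x y : ℂ) : ℂ := (1 + x + x * y) * (1 - x * y)

/-- prefactor of the vector with `x` at position `k` -/
noncomputable def cc (y : ℕ → ℂ) (k : ℕ) (x : ℂ) : ℂ :=
  (∏ i ∈ Ico 1 k, hh (y i) x) * (∏ i ∈ Ico k (2 * n + 1), hh x (y i)) / (1 + x + x ^ 2) ^ n

/-- the normalized vector with `x` at position `k` -/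
noncomputable def FF (y : ℕ → ℂ) (k : ℕ) (x : ℂ) (D : Finset ℕ) : ℂ :=
  cc n y k x * ut q (2 * n + 1) n (ins y k x) D

lemma E_smul (i : ℕ) (c : ℂ) (Ψ : Finset ℕ → ℂ) (D : Finset ℕ) :
    E q i (fun D => c * Ψ D) D = c * E q i Ψ D := by
  unfold E
  split_ifs <;> ring

lemma cc_succ (y : ℕ → ℂ) (k : ℕ) (x : ℂ) (hk : k ∈ Icc 1 (2 * n)) :
    cc n y (k + 1) x * hh x (y k) = cc n y k x * hh (y k) x := by
  rw [Finset.mem_Icc] at hk
  unfold cc
  rw [Finset.prod_Ico_succ_top hk.1, Finset.prod_eq_prod_Ico_succ_bot (by omega : k < 2 * n + 1)]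
  ring

/-- the statement of the exchange relation -/
def Exch : Prop := ∀ (z : ℕ → ℂ) (_ : Gen (2 * n + 1) z) (i : ℕ) (_ : 1 ≤ i) (_ : i < 2 * n + 1)
  (D : Finset ℕ) (_ : D ⊆ Icc 1 (2 * n + 1)) (_ : D.card = n),
  ut q (2 * n + 1) n (sw z i) D = ut q (2 * n + 1) n z D +
    (z i - z (i + 1)) / (1 + z (i + 1) + z i * z (i + 1)) * E q i (ut q (2 * n + 1) n z) D

/-- the statement of the left reflection -/
def LRef : Prop := ∀ (m : ℕ) (_ : m = n ∨ m = n + 1) (z : ℕ → ℂ) (_ : Gen (2 * n + 1) z)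
    (_ : Gen (2 * n + 1) (Function.update z 1 (bar (z 1)))) (_ : z 1 ≠ bar (z 1)) (D : Finset ℕ)
    (_ : D ⊆ Icc 1 (2 * n + 1)) (_ : D.card = m),
    ut q (2 * n + 1) m (Function.update z 1 (bar (z 1))) D =
      (1 + z 1) ^ (2 * m) * ut q (2 * n + 1) m z D

/-- the statement of the mirror identity -/
def Mirr : Prop := ∀ (z : ℕ → ℂ) (_ : ∀ i ∈ Icc 1 (2 * n + 1), ‖z i‖ ≤ 1 / 8)
    (_ : Set.InjOn z (Icc 1 (2 * n + 1))) (D : Finset ℕ) (_ : D ⊆ Icc 1 (2 * n + 1))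
    (_ : D.card = n),
    ut q (2 * n + 1) (n + 1) (zst (2 * n + 1) z) (Dst (2 * n + 1) D) =
      gfac n z * ut q (2 * n + 1) n z D

variable {q n}

lemma gen_ins {y : ℕ → ℂ} {x : ℂ} (k : ℕ) (hk : k ∈ Icc 1 (2 * n + 1))
    (ny : ∀ i ∈ Icc 1 (2 * n), ‖y i‖ ≤ 1 / 8) (nx : ‖x‖ ≤ 1 / 8)
    (inj : Set.InjOn y (Icc 1 (2 * n))) (hx : ∀ i ∈ Icc 1 (2 * n), y i ≠ x) :
    Gen (2 * n + 1) (ins y k x) := by
  refine ⟨ins_mem n k y x (fun z => ‖z‖ ≤ 1 / 4) hk (fun i hi => (ny i hi).trans (by norm_num))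
    (nx.trans (by norm_num)), ins_injOn n k y x hk inj hx⟩

lemma alg1 (c U V d e s : ℂ) (hd : d ≠ 0) (he : e ≠ 0) (h : e = d - s) :
    c * e / d * (U + s / e * V) = c * U + s / d * (c * V - c * U) := by
  have h1 : c * e / d * (U + s / e * V) = c * e / d * U + c * s / d * V := by field_simp
  rw [h1, h]
  field_simp
  ring

lemma step_a (hex : Exch q n) {y : ℕ → ℂ} {x : ℂ} (k : ℕ) (hk : k ∈ Icc 1 (2 * n))
    (ny : ∀ i ∈ Icc 1 (2 * n), ‖y i‖ ≤ 1 / 8) (nx : ‖x‖ ≤ 1 / 8)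
    (inj : Set.InjOn y (Icc 1 (2 * n))) (hx : ∀ i ∈ Icc 1 (2 * n), y i ≠ x)
    (D : Finset ℕ) (hD : D ⊆ Icc 1 (2 * n + 1)) (hc : D.card = n) :
    FF q n y (k + 1) x D = FF q n y k x D + (x - y k) / (1 + x + x * y k) *
      (E q k (FF q n y k x) D - FF q n y k x D) := by
  have hk' := Finset.mem_Icc.1 hk
  have hk1 : k ∈ Icc 1 (2 * n + 1) := Finset.mem_Icc.2 ⟨hk'.1, by omega⟩
  have h1 := hex (ins y k x) (gen_ins k hk1 ny nx inj hx) k hk'.1 (by omega) D hD hc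
  rw [sw_ins, ins_eq, ins_gt y k x (k + 1) (by omega), Nat.add_sub_cancel] at h1
  have hcc := cc_succ n y k x hk
  have d1 := den_ne nx (ny k hk)
  have d2 := den_ne (ny k hk) nx
  have d3 := den_ne2 nx (ny k hk)
  unfold FF
  rw [E_smul, h1]
  generalize ut q (2 * n + 1) n (ins y k x) D = U
  generalize E q k (ut q (2 * n + 1) n (ins y k x)) D = V
  generalize cc n y (k + 1) x = c1 at *
  generalize cc n y k x = c0 at *
  unfold hh at hcc
  have hcc' : c1 * (1 + x + x * y k) = c0 * (1 + y k + y k * x) := by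
    have : (1 - x * y k) * (c1 * (1 + x + x * y k)) = (1 - x * y k) * (c0 * (1 + y k + y k * x)) := by
      linear_combination hcc
    exact mul_left_cancel₀ d3 this
  have d2' : 1 + y k + x * y k ≠ 0 := by rwa [mul_comm x]
  have hc1 : c1 = c0 * (1 + y k + x * y k) / (1 + x + x * y k) := by
    rw [eq_div_iff d1, hcc']; ring
  rw [hc1]
  exact alg1 _ _ _ _ _ _ d1 d2' (by ring)

lemma step_a' (hex : Exch q n) {y : ℕ → ℂ} {x : ℂ} (k : ℕ) (hk : k ∈ Icc 1 (2 * n))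
    (ny : ∀ i ∈ Icc 1 (2 * n), ‖y i‖ ≤ 1 / 8) (nx : ‖x‖ ≤ 1 / 8)
    (inj : Set.InjOn y (Icc 1 (2 * n))) (hx : ∀ i ∈ Icc 1 (2 * n), y i ≠ x)
    (D : Finset ℕ) (hD : D ⊆ Icc 1 (2 * n + 1)) (hc : D.card = n) :
    FF q n y k x D = FF q n y (k + 1) x D + (y k - x) / (1 + y k + x * y k) *
      (E q k (FF q n y (k + 1) x) D - FF q n y (k + 1) x D) := by
  have hk' := Finset.mem_Icc.1 hk
  have hk1 : k + 1 ∈ Icc 1 (2 * n + 1) := Finset.mem_Icc.2 ⟨by omega, by omega⟩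
  have h1 := hex (ins y (k + 1) x) (gen_ins (k + 1) hk1 ny nx inj hx) k hk'.1 (by omega) D hD hc
  rw [sw_ins', ins_eq, ins_lt y (k + 1) x k (by omega), mul_comm (y k) x] at h1
  have hcc := cc_succ n y k x hk
  have d1 := den_ne nx (ny k hk)
  have d2 := den_ne (ny k hk) nx
  have d3 := den_ne2 nx (ny k hk)
  unfold FF
  rw [E_smul, h1]
  generalize ut q (2 * n + 1) n (ins y (k + 1) x) D = U
  generalize E q k (ut q (2 * n + 1) n (ins y (k + 1) x)) D = V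
  generalize cc n y (k + 1) x = c1 at *
  generalize cc n y k x = c0 at *
  unfold hh at hcc
  have hcc' : c1 * (1 + x + x * y k) = c0 * (1 + y k + y k * x) := by
    have : (1 - x * y k) * (c1 * (1 + x + x * y k)) = (1 - x * y k) * (c0 * (1 + y k + y k * x)) := by
      linear_combination hcc
    exact mul_left_cancel₀ d3 this
  have d2' : 1 + y k + x * y k ≠ 0 := by rwa [mul_comm x]
  have d1' : 1 + x + y k * x ≠ 0 := by rwa [mul_comm (y k)]
  have hc0 : c0 = c1 * (1 + x + x * y k) / (1 + y k + x * y k) := by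
    rw [eq_div_iff d2', hcc']; ring
  rw [hc0]
  exact alg1 _ _ _ _ _ _ d2' d1 (by ring)

lemma bar_pair {x w : ℂ} (hx : 1 + x ≠ 0) :
    hh (bar x) w = hh x w / (1 + x) ^ 2 := by
  unfold hh bar
  field_simp
  ring

lemma bar_sq {x : ℂ} (hx : 1 + x ≠ 0) :
    1 + bar x + bar x ^ 2 = (1 + x + x ^ 2) / (1 + x) ^ 2 := by
  unfold bar
  field_simp
  ring

lemma den_ne4 {x : ℂ} (hx : ‖x‖ ≤ 1 / 8) : 1 + x + x ^ 2 ≠ 0 := by
  rw [pow_two]; exact den_ne hx hx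

lemma step_b (hlr : LRef q n) (hn : 1 ≤ n) {y : ℕ → ℂ} {x : ℂ} (hg : Good n y x)
    (D : Finset ℕ) (hD : D ⊆ Icc 1 (2 * n + 1)) (hc : D.card = n) :
    FF q n y 1 (bar x) D = FF q n y 1 x D := by
  have hx1 : 1 + x ≠ 0 := one_add_ne hg.nx
  have h1m : 1 ∈ Icc 1 (2 * n + 1) := Finset.mem_Icc.2 ⟨le_refl _, by omega⟩
  have e1 : Function.update (ins y 1 x) 1 (bar (ins y 1 x 1)) = ins y 1 (bar x) := by
    rw [ins_eq, update_ins_one]
  have h := hlr n (Or.inl rfl) (ins y 1 x) (gen_ins 1 h1m hg.ny hg.nx hg.inj hg.hx)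
    (by rw [e1]; exact gen_ins 1 h1m hg.ny hg.nx' hg.inj hg.hx')
    (by rw [ins_eq]; exact hg.hxx) D hD hc
  rw [e1, ins_eq] at h
  unfold FF
  rw [h]
  have e2 : cc n y 1 (bar x) * (1 + x) ^ (2 * n) = cc n y 1 x := by
    unfold cc
    simp only [Finset.Ico_self, Finset.prod_empty, one_mul]
    rw [Finset.prod_congr rfl fun i _ => bar_pair hx1, Finset.prod_div_distrib, Finset.prod_const,
      Nat.card_Ico, bar_sq hx1, div_pow]
    have h4 := den_ne4 hg.nx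
    have h5 : (1 + x + x ^ 2) ^ n ≠ 0 := pow_ne_zero _ h4
    rw [Nat.add_sub_cancel, ← pow_mul, ← pow_mul]
    have e3 : (1 + x) ^ (2 * (2 * n)) = (1 + x) ^ (2 * n) * (1 + x) ^ (2 * n) := by
      rw [← pow_add]; congr 1; ring
    rw [e3]
    have h6 : (1 + x) ^ (2 * n) ≠ 0 := pow_ne_zero _ hx1
    field_simp
  rw [← mul_assoc, e2]

/-- the part of `gfac` depending on the last parameter -/
noncomputable def gam (n : ℕ) (y : ℕ → ℂ) (x : ℂ) : ℂ :=
  (1 + x) ^ (2 * n + 2) / (1 + x + x ^ 2) * ∏ i ∈ Icc 1 (2 * n), ((1 - y i * x) / (1 + y i + x))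

lemma gfac_ins (y : ℕ → ℂ) : ∃ A : ℂ, (∀ i ∈ Icc 1 (2 * n), ‖y i‖ ≤ 1 / 8) → A ≠ 0 ∧
    ∀ x, gfac n (ins y (2 * n + 1) x) = A * gam n y x := by
  refine ⟨(-1) ^ (n + 1) * (∏ i ∈ Icc 1 (2 * n), (1 + y i) ^ (2 * n + 2) / (1 + y i + y i ^ 2)) *
    ∏ i ∈ Icc 1 (2 * n), ∏ j ∈ Icc (i + 1) (2 * n), (1 - y i * y j) / (1 + y i + y j), fun hy => ⟨?_, ?_⟩⟩
  · refine mul_ne_zero (mul_ne_zero (pow_ne_zero _ (by norm_num)) ?_) ?_
    · refine Finset.prod_ne_zero_iff.2 fun i hi => div_ne_zero (pow_ne_zero _ (one_add_ne (hy i hi)))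
        (den_ne4 (hy i hi))
    · refine Finset.prod_ne_zero_iff.2 fun i hi => Finset.prod_ne_zero_iff.2 fun j hj => ?_
      have hi' := Finset.mem_Icc.1 hi
      have hj' := Finset.mem_Icc.1 hj
      have hj2 : j ∈ Icc 1 (2 * n) := Finset.mem_Icc.2 ⟨by omega, hj'.2⟩
      exact div_ne_zero (den_ne2 (hy i hi) (hy j hj2)) (den_ne3 (hy i hi) (hy j hj2))
  · intro x
    unfold gfac gam
    have e1 : ∀ i ∈ Icc 1 (2 * n), ins y (2 * n + 1) x i = y i := fun i hi =>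
      ins_lt _ _ _ _ (by have := Finset.mem_Icc.1 hi; omega)
    rw [Finset.prod_Icc_succ_top (by omega), Finset.prod_Icc_succ_top (by omega), ins_eq]
    rw [Finset.Icc_eq_empty (by omega : ¬ (2 * n + 1 + 1 ≤ 2 * n + 1)), Finset.prod_empty, mul_one]
    rw [Finset.prod_congr rfl fun i hi => by rw [e1 i hi]]
    have e2 : ∏ i ∈ Icc 1 (2 * n), ∏ j ∈ Icc (i + 1) (2 * n + 1),
        (1 - ins y (2 * n + 1) x i * ins y (2 * n + 1) x j) /
          (1 + ins y (2 * n + 1) x i + ins y (2 * n + 1) x j) =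
        (∏ i ∈ Icc 1 (2 * n), ∏ j ∈ Icc (i + 1) (2 * n), (1 - y i * y j) / (1 + y i + y j)) *
        ∏ i ∈ Icc 1 (2 * n), ((1 - y i * x) / (1 + y i + x)) := by
      rw [← Finset.prod_mul_distrib]
      refine Finset.prod_congr rfl fun i hi => ?_
      have hi' := Finset.mem_Icc.1 hi
      rw [Finset.prod_Icc_succ_top (by omega), ins_eq, e1 i hi]
      congr 1
      refine Finset.prod_congr rfl fun j hj => ?_
      have hj' := Finset.mem_Icc.1 hj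
      rw [e1 j (Finset.mem_Icc.2 ⟨by omega, hj'.2⟩)]
    rw [e2]
    ring

lemma zst_ins (y : ℕ → ℂ) (x : ℂ) :
    zst (2 * n + 1) (ins y (2 * n + 1) (bar x)) =
      Function.update (zst (2 * n + 1) (ins y (2 * n + 1) x)) 1
        (bar (zst (2 * n + 1) (ins y (2 * n + 1) x) 1)) := by
  funext j
  by_cases hj : j = 1
  · subst hj
    simp [zst, ins_eq]
  · rw [Function.update_of_ne hj]
    unfold zst
    have : 2 * n + 1 + 1 - j ≠ 2 * n + 1 := by omega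
    simp [ins, this]

lemma gen_zst {z : ℕ → ℂ} (h1 : ∀ i ∈ Icc 1 (2 * n + 1), ‖z i‖ ≤ 1 / 8)
    (h2 : Set.InjOn z (Icc 1 (2 * n + 1))) : Gen (2 * n + 1) (zst (2 * n + 1) z) := by
  constructor
  · intro i hi
    have hi' := Finset.mem_Icc.1 hi
    exact norm_bar_le (h1 _ (Finset.mem_Icc.2 ⟨by omega, by omega⟩))
  · intro a ha b hb hab
    rw [Finset.coe_Icc, Set.mem_Icc] at ha hb
    have ha' : 2 * n + 1 + 1 - a ∈ Icc 1 (2 * n + 1) := Finset.mem_Icc.2 ⟨by omega, by omega⟩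
    have hb' : 2 * n + 1 + 1 - b ∈ Icc 1 (2 * n + 1) := Finset.mem_Icc.2 ⟨by omega, by omega⟩
    have := h2 (Finset.mem_coe.2 ha') (Finset.mem_coe.2 hb')
      (bar_inj (one_add_ne (h1 _ ha')) (one_add_ne (h1 _ hb')) hab)
    omega

lemma Dst_subset (D : Finset ℕ) : Dst (2 * n + 1) D ⊆ Icc 1 (2 * n + 1) := by
  intro j hj
  rw [Dst, Finset.mem_image] at hj
  obtain ⟨i, hi, rfl⟩ := hj
  have := Finset.mem_Icc.1 (Finset.mem_sdiff.1 hi).1
  exact Finset.mem_Icc.2 ⟨by omega, by omega⟩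

lemma Dst_card (D : Finset ℕ) (hD : D ⊆ Icc 1 (2 * n + 1)) (hc : D.card = n) :
    (Dst (2 * n + 1) D).card = n + 1 := by
  rw [Dst, Finset.card_image_of_injOn, Finset.card_sdiff_of_subset hD, Nat.card_Icc, hc]
  · omega
  · intro a ha b hb hab
    have ha' := Finset.mem_Icc.1 (Finset.mem_sdiff.1 (Finset.mem_coe.1 ha)).1
    have hb' := Finset.mem_Icc.1 (Finset.mem_sdiff.1 (Finset.mem_coe.1 hb)).1
    simp only at hab
    omega

lemma cc_gam {y : ℕ → ℂ} {x : ℂ} (ny : ∀ i ∈ Icc 1 (2 * n), ‖y i‖ ≤ 1 / 8) (nx : ‖x‖ ≤ 1 / 8) :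
    cc n y (2 * n + 1) (bar x) * gam n y x =
      cc n y (2 * n + 1) x * gam n y (bar x) * (1 + x) ^ (2 * n + 2) := by
  have hx1 : 1 + x ≠ 0 := one_add_ne nx
  have h4 := den_ne4 nx
  have hS : Ico 1 (2 * n + 1) = Icc 1 (2 * n) := rfl
  have hcard : (Icc 1 (2 * n)).card = 2 * n := by rw [Nat.card_Icc]; omega
  unfold cc gam
  simp only [Finset.Ico_self, Finset.prod_empty, mul_one, hS]
  have a1 : ∏ i ∈ Icc 1 (2 * n), hh (y i) (bar x) =
      (∏ i ∈ Icc 1 (2 * n), ((1 + x + x * y i) * (1 + y i + x))) / (1 + x) ^ (2 * (2 * n)) := by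
    have hp : (1 + x) ^ (2 * (2 * n)) = ∏ _i ∈ Icc 1 (2 * n), (1 + x) ^ 2 := by
      rw [Finset.prod_const, hcard, ← pow_mul]
    rw [hp, ← Finset.prod_div_distrib]
    refine Finset.prod_congr rfl fun i hi => ?_
    unfold hh bar
    field_simp
    ring
  have a2 : ∏ i ∈ Icc 1 (2 * n), ((1 - y i * bar x) / (1 + y i + bar x)) =
      ∏ i ∈ Icc 1 (2 * n), ((1 + x + x * y i) / (1 + y i + y i * x)) := by
    refine Finset.prod_congr rfl fun i hi => ?_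
    have d1 := den_ne (ny i hi) nx
    have d2 : 1 + y i + bar x = (1 + y i + y i * x) / (1 + x) := by
      unfold bar; field_simp; ring
    have d3 : 1 - y i * bar x = (1 + x + x * y i) / (1 + x) := by
      unfold bar; field_simp; ring
    rw [d2, d3, div_div_div_cancel_right₀ hx1]
  have a3 : (∏ i ∈ Icc 1 (2 * n), ((1 + x + x * y i) * (1 + y i + x))) *
      ∏ i ∈ Icc 1 (2 * n), ((1 - y i * x) / (1 + y i + x)) =
      (∏ i ∈ Icc 1 (2 * n), hh (y i) x) *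
        ∏ i ∈ Icc 1 (2 * n), ((1 + x + x * y i) / (1 + y i + y i * x)) := by
    rw [← Finset.prod_mul_distrib, ← Finset.prod_mul_distrib]
    refine Finset.prod_congr rfl fun i hi => ?_
    have d1 := den_ne (ny i hi) nx
    have d2 := den_ne3 (ny i hi) nx
    unfold hh
    rw [mul_div_assoc', div_eq_iff d2, mul_div_assoc', div_mul_eq_mul_div, eq_div_iff d1]
    ring
  have e1 : 1 + bar x = (1 + x)⁻¹ := one_add_bar hx1
  rw [a1, a2, bar_sq hx1, e1, div_pow]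
  generalize (∏ i ∈ Icc 1 (2 * n), ((1 + x + x * y i) * (1 + y i + x))) = A1 at a3 ⊢
  generalize ∏ i ∈ Icc 1 (2 * n), ((1 - y i * x) / (1 + y i + x)) = A2 at a3 ⊢
  generalize ∏ i ∈ Icc 1 (2 * n), hh (y i) x = A3 at a3 ⊢
  generalize ∏ i ∈ Icc 1 (2 * n), ((1 + x + x * y i) / (1 + y i + y i * x)) = A4 at a3 ⊢
  have h6 : (1 + x) ^ n ≠ 0 := pow_ne_zero _ hx1
  have h5 : (1 + x + x ^ 2) ^ n ≠ 0 := pow_ne_zero _ h4
  have e2 : (1 + x) ^ (2 * n + 2) = ((1 + x) ^ n) ^ 2 * (1 + x) ^ 2 := by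
    rw [← pow_mul, ← pow_add]; congr 1; ring
  have e3 : (1 + x) ^ (2 * (2 * n)) = ((1 + x) ^ n) ^ 4 := by
    rw [← pow_mul]; congr 1; ring
  have e4 : ((1 + x) ^ 2) ^ n = ((1 + x) ^ n) ^ 2 := by
    rw [← pow_mul, ← pow_mul]; congr 1; ring
  have e5 : (1 + x)⁻¹ ^ (2 * n + 2) = (((1 + x) ^ n) ^ 2 * (1 + x) ^ 2)⁻¹ := by
    rw [inv_pow, e2]
  rw [e5, e2, e3, e4]
  generalize (1 + x + x ^ 2) ^ n = B at *
  generalize (1 + x) ^ n = C at *
  field_simp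
  linear_combination a3

lemma step_c (hlr : LRef q n) (hmi : Mirr q n) {y : ℕ → ℂ} {x : ℂ} (hg : Good n y x)
    (D : Finset ℕ) (hD : D ⊆ Icc 1 (2 * n + 1)) (hc : D.card = n) :
    FF q n y (2 * n + 1) (bar x) D = FF q n y (2 * n + 1) x D := by
  have hx1 : 1 + x ≠ 0 := one_add_ne hg.nx
  have hNm : 2 * n + 1 ∈ Icc 1 (2 * n + 1) := Finset.mem_Icc.2 ⟨by omega, le_refl _⟩
  obtain ⟨A, hA⟩ := gfac_ins (n := n) y
  obtain ⟨hA0, hA⟩ := hA hg.ny
  have b1 := ins_mem n (2 * n + 1) y x (fun z => ‖z‖ ≤ 1 / 8) hNm hg.ny hg.nx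
  have b2 := ins_mem n (2 * n + 1) y (bar x) (fun z => ‖z‖ ≤ 1 / 8) hNm hg.ny hg.nx'
  have i1 := ins_injOn n (2 * n + 1) y x hNm hg.inj hg.hx
  have i2 := ins_injOn n (2 * n + 1) y (bar x) hNm hg.inj hg.hx'
  have m1 := hmi (ins y (2 * n + 1) x) b1 i1 D hD hc
  have m2 := hmi (ins y (2 * n + 1) (bar x)) b2 i2 D hD hc
  have e0 : zst (2 * n + 1) (ins y (2 * n + 1) x) 1 = bar x := by
    simp [zst, ins_eq]
  have h := hlr (n + 1) (Or.inr rfl) (zst (2 * n + 1) (ins y (2 * n + 1) x)) (gen_zst b1 i1)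
    (by rw [← zst_ins y x]; exact gen_zst b2 i2)
    (by rw [e0, bar_bar hx1]; exact hg.hxx.symm) (Dst (2 * n + 1) D) (Dst_subset D)
    (Dst_card D hD hc)
  rw [← zst_ins y x, m1, m2, e0, hA, hA, one_add_bar hx1] at h
  unfold FF
  have hcg := cc_gam hg.ny hg.nx
  have hgam : gam n y (bar x) ≠ 0 := by
    unfold gam
    refine mul_ne_zero (div_ne_zero (pow_ne_zero _ (one_add_ne hg.nx')) (den_ne4 hg.nx')) ?_
    refine Finset.prod_ne_zero_iff.2 fun i hi => div_ne_zero (den_ne2 (hg.ny i hi) hg.nx')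
      (den_ne3 (hg.ny i hi) hg.nx')
  have h' : gam n y (bar x) * ut q (2 * n + 1) n (ins y (2 * n + 1) (bar x)) D * (1 + x) ^ (2 * n + 2) =
      gam n y x * ut q (2 * n + 1) n (ins y (2 * n + 1) x) D := by
    have e3 : (1 + x)⁻¹ ^ (2 * (n + 1)) * (1 + x) ^ (2 * n + 2) = 1 := by
      rw [inv_pow, show 2 * (n + 1) = 2 * n + 2 by ring, inv_mul_cancel₀ (pow_ne_zero _ hx1)]
    apply mul_left_cancel₀ hA0
    linear_combination (1 + x) ^ (2 * n + 2) * h +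
      (A * gam n y x * ut q (2 * n + 1) n (ins y (2 * n + 1) x) D) * e3
  have hp : (1 + x) ^ (2 * n + 2) ≠ 0 := pow_ne_zero _ hx1
  apply mul_left_cancel₀ (mul_ne_zero hgam hp)
  linear_combination cc n y (2 * n + 1) (bar x) * h' +
    ut q (2 * n + 1) n (ins y (2 * n + 1) x) D * hcg

/-- The telescoped identity. -/
lemma total (hex : Exch q n) (hlr : LRef q n) (hmi : Mirr q n) (hn : 1 ≤ n) {y : ℕ → ℂ} {x : ℂ}
    (hg : Good n y x) (D : Finset ℕ) (hD : D ⊆ Icc 1 (2 * n + 1)) (hc : D.card = n) :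
    ∑ k ∈ Icc 1 (2 * n), ((x - y k) / (1 + x + x * y k) *
        (E q k (FF q n y k x) D - FF q n y k x D) +
      (y k - bar x) / (1 + y k + bar x * y k) *
        (E q k (FF q n y (k + 1) (bar x)) D - FF q n y (k + 1) (bar x) D)) = 0 := by
  have h1 : ∀ k ∈ Icc 1 (2 * n), ((x - y k) / (1 + x + x * y k) *
        (E q k (FF q n y k x) D - FF q n y k x D) +
      (y k - bar x) / (1 + y k + bar x * y k) *
        (E q k (FF q n y (k + 1) (bar x)) D - FF q n y (k + 1) (bar x) D)) =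
      (FF q n y (k + 1) x D - FF q n y (k + 1) (bar x) D) -
        (FF q n y k x D - FF q n y k (bar x) D) := by
    intro k hk
    have a := step_a hex k hk hg.ny hg.nx hg.inj hg.hx D hD hc
    have a' := step_a' hex k hk hg.ny hg.nx' hg.inj hg.hx' D hD hc
    linear_combination -a - a'
  rw [Finset.sum_congr rfl h1]
  have h2 : Icc 1 (2 * n) = Ico 1 (2 * n + 1) := rfl
  rw [h2, Finset.sum_Ico_sub (fun k => FF q n y k x D - FF q n y k (bar x) D) (by omega)]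
  rw [step_b hlr hn hg D hD hc, step_c hlr hmi hg D hD hc]
  ring

end Pool.Agent.H75.Exact.EigP
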