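import Pool.Agent.H75.Exact.Inh

set_option autoImplicit false
open Finset Filter Topology

/-! Divided differences of families of functions at points tending to zero (used for the
homogeneous limit of the inhomogeneous eigenvector). -/

namespace Pool.Agent.H75.Exact.EigP

/-- divided difference of `f` at the points `z i`, `i ∈ s` -/
noncomputable def dd (s : Finset ℕ) (z : ℕ → ℂ) (f : ℂ → ℂ) : ℂ :=
  ∑ j ∈ s, f (z j) / ∏ i ∈ s.erase j, (z j - z i)

lemma dd_empty (z : ℕ → ℂ) (f : ℂ → ℂ) : dd ∅ z f = 0 := by simp [dd]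

lemma dd_add (s : Finset ℕ) (z : ℕ → ℂ) (f g : ℂ → ℂ) :
    dd s z (fun v => f v + g v) = dd s z f + dd s z g := by
  simp only [dd, add_div, sum_add_distrib]

lemma dd_smul (s : Finset ℕ) (z : ℕ → ℂ) (c : ℂ) (f : ℂ → ℂ) :
    dd s z (fun v => c * f v) = c * dd s z f := by
  simp only [dd, mul_sum, mul_div_assoc]

lemma dd_congr (s : Finset ℕ) (z : ℕ → ℂ) (f g : ℂ → ℂ) (h : ∀ j ∈ s, f (z j) = g (z j)) :
    dd s z f = dd s z g := by
  unfold dd
  exact sum_congr rfl fun j hj => by rw [h j hj]

lemma dd_sub_mul (s : Finset ℕ) (z : ℕ → ℂ) (f : ℂ → ℂ) (k : ℕ) (hk : k ∈ s)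
    (hinj : Set.InjOn z s) :
    dd s z (fun v => (v - z k) * f v) = dd (s.erase k) z f := by
  unfold dd
  rw [← Finset.add_sum_erase s _ hk]
  simp only [sub_self, zero_mul, zero_div, zero_add]
  refine sum_congr rfl fun j hj => ?_
  have hjk : j ≠ k := (mem_erase.1 hj).1
  have hjs : j ∈ s := (mem_erase.1 hj).2
  have hne : z j - z k ≠ 0 := fun h => hjk (hinj hjs hk (sub_eq_zero.1 h))
  have hk' : k ∈ s.erase j := mem_erase.2 ⟨fun h => hjk h.symm, hk⟩
  rw [← Finset.mul_prod_erase (s.erase j) (fun i => z j - z i) hk', Finset.erase_right_comm]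
  rw [mul_div_mul_left _ _ hne]

lemma dd_mul_X (s : Finset ℕ) (z : ℕ → ℂ) (f : ℂ → ℂ) (k : ℕ) (hk : k ∈ s)
    (hinj : Set.InjOn z s) :
    dd s z (fun v => v * f v) = dd (s.erase k) z f + z k * dd s z f := by
  rw [← dd_sub_mul s z f k hk hinj, ← dd_smul, ← dd_add]
  congr 1; funext v; ring

lemma dd_one (s : Finset ℕ) (z : ℕ → ℂ) (hinj : Set.InjOn z s) :
    dd s z (fun _ => 1) = if s.card = 1 then 1 else 0 := by
  induction s using Finset.strongInduction with
  | H s ih =>
    rcases Nat.lt_or_ge s.card 2 with h | h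
    · interval_cases hc : s.card
      · rw [Finset.card_eq_zero] at hc
        subst hc; simp [dd]
      · obtain ⟨a, rfl⟩ := Finset.card_eq_one.1 hc
        simp [dd]
    · obtain ⟨k, hk, l, hl, hkl⟩ := Finset.one_lt_card.1 h
      have h1 := dd_mul_X s z (fun _ => 1) k hk hinj
      have h2 := dd_mul_X s z (fun _ => 1) l hl hinj
      have e1 := ih (s.erase k) (Finset.erase_ssubset hk) (hinj.mono (by simp))
      have e2 := ih (s.erase l) (Finset.erase_ssubset hl) (hinj.mono (by simp))
      rw [Finset.card_erase_of_mem hk] at e1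
      rw [Finset.card_erase_of_mem hl] at e2
      rw [e1] at h1
      rw [e2] at h2
      have hne : z k - z l ≠ 0 := fun h => hkl (hinj hk hl (sub_eq_zero.1 h))
      have : (z k - z l) * dd s z (fun _ => 1) = 0 := by
        have := h1.symm.trans h2
        linear_combination this
      rcases mul_eq_zero.1 this with h | h
      · exact absurd h hne
      · rw [h, if_neg (by omega)]

/-- divided differences of `f t` at subsets of `z t 1, …, z t N` tend to the coefficients of `p` -/
def LimAt {ι : Type*} (N : ℕ) (l : Filter ι) (z : ι → ℕ → ℂ) (f : ι → ℂ → ℂ)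
    (p : Polynomial ℂ) : Prop :=
  ∀ s ⊆ Icc 1 N, Tendsto (fun t => dd s (z t) (f t)) l (𝓝 ((Polynomial.X * p).coeff s.card))

section

variable {ι : Type*} {N : ℕ} {l : Filter ι} {z : ι → ℕ → ℂ}

lemma LimAt.one (hinj : ∀ᶠ t in l, Set.InjOn (z t) (Icc 1 N)) :
    LimAt N l z (fun _ _ => 1) 1 := by
  intro s hs
  refine tendsto_const_nhds.congr' ?_
  filter_upwards [hinj] with t ht
  rw [dd_one s (z t) (ht.mono (by exact_mod_cast hs)), mul_one, Polynomial.coeff_X]
  simp [eq_comm]

lemma LimAt.smul {f : ι → ℂ → ℂ} {p : Polynomial ℂ} {α : ι → ℂ} {a : ℂ}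
    (h : LimAt N l z f p) (hα : Tendsto α l (𝓝 a)) :
    LimAt N l z (fun t v => α t * f t v) (Polynomial.C a * p) := by
  intro s hs
  have := hα.mul (h s hs)
  simp only [dd_smul]
  convert this using 2
  rw [mul_left_comm, Polynomial.coeff_C_mul]

lemma LimAt.add {f g : ι → ℂ → ℂ} {p p' : Polynomial ℂ}
    (h : LimAt N l z f p) (h' : LimAt N l z g p') :
    LimAt N l z (fun t v => f t v + g t v) (p + p') := by
  intro s hs
  have := (h s hs).add (h' s hs)
  simp only [dd_add]
  convert this using 2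
  rw [mul_add, Polynomial.coeff_add]

lemma LimAt.mul_X {f : ι → ℂ → ℂ} {p : Polynomial ℂ}
    (hinj : ∀ᶠ t in l, Set.InjOn (z t) (Icc 1 N))
    (hz : ∀ i ∈ Icc 1 N, Tendsto (fun t => z t i) l (𝓝 0))
    (h : LimAt N l z f p) :
    LimAt N l z (fun t v => v * f t v) (Polynomial.X * p) := by
  intro s hs
  rcases s.eq_empty_or_nonempty with rfl | ⟨k, hk⟩
  · simp [dd_empty, tendsto_const_nhds]
  · have hcard : s.card = (s.erase k).card + 1 := by
      rw [Finset.card_erase_of_mem hk]
      have := Finset.card_pos.2 ⟨k, hk⟩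
      omega
    have h1 := (h (s.erase k) ((Finset.erase_subset k s).trans hs)).add
      ((hz k (hs hk)).mul (h s hs))
    rw [zero_mul, add_zero] at h1
    rw [hcard, Polynomial.coeff_X_mul]
    refine h1.congr' ?_
    filter_upwards [hinj] with t ht
    rw [dd_mul_X s (z t) (f t) k hk (ht.mono (by exact_mod_cast hs))]

lemma LimAt.mul_pow {f : ι → ℂ → ℂ} {p : Polynomial ℂ}
    (hinj : ∀ᶠ t in l, Set.InjOn (z t) (Icc 1 N))
    (hz : ∀ i ∈ Icc 1 N, Tendsto (fun t => z t i) l (𝓝 0))
    (h : LimAt N l z f p) (e : ℕ) :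
    LimAt N l z (fun t v => v ^ e * f t v) (Polynomial.X ^ e * p) := by
  induction e with
  | zero => simpa using h
  | succ e ih =>
    have := ih.mul_X hinj hz
    convert this using 1
    · funext t v; ring
    · ring

lemma LimAt.mul_poly {f : ι → ℂ → ℂ} {p : Polynomial ℂ}
    (hinj : ∀ᶠ t in l, Set.InjOn (z t) (Icc 1 N))
    (hz : ∀ i ∈ Icc 1 N, Tendsto (fun t => z t i) l (𝓝 0))
    (h : LimAt N l z f p) (Q : Polynomial ℂ) :
    LimAt N l z (fun t v => Q.eval v * f t v) (Q * p) := by
  induction Q using Polynomial.induction_on' with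
  | add Q1 Q2 h1 h2 =>
    have := h1.add h2
    convert this using 1
    · funext t v; rw [Polynomial.eval_add]; ring
    · ring
  | monomial e c =>
    have := (h.mul_pow hinj hz e).smul (α := fun _ => c) (a := c) tendsto_const_nhds
    convert this using 1
    · funext t v; rw [Polynomial.eval_monomial]; ring
    · rw [← Polynomial.C_mul_X_pow_eq_monomial]; ring

lemma LimAt.div {f : ι → ℂ → ℂ} {p : Polynomial ℂ}
    (hinj : ∀ᶠ t in l, Set.InjOn (z t) (Icc 1 N))
    (hz : ∀ i ∈ Icc 1 N, Tendsto (fun t => z t i) l (𝓝 0))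
    (h : LimAt N l z f p) {α β : ι → ℂ} (hα : Tendsto α l (𝓝 1)) (hβ : Tendsto β l (𝓝 0)) :
    LimAt N l z (fun t v => f t v / (α t + β t * v)) p := by
  intro s
  induction s using Finset.strongInduction with
  | H s ih =>
    intro hs
    rcases s.eq_empty_or_nonempty with rfl | ⟨k, hk⟩
    · simp [dd_empty, tendsto_const_nhds]
    · have h1 := ih (s.erase k) (Finset.erase_ssubset hk) ((Finset.erase_subset k s).trans hs)
      have hden : Tendsto (fun t => α t + β t * z t k) l (𝓝 1) := by
        have := hα.add (hβ.mul (hz k (hs hk)))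
        simpa using this
      have h2 := ((h s hs).sub (hβ.mul h1)).div hden one_ne_zero
      rw [zero_mul, sub_zero, div_one] at h2
      refine h2.congr' ?_
      have hne : ∀ j ∈ Icc 1 N, ∀ᶠ t in l, α t + β t * z t j ≠ 0 := by
        intro j hj
        have : Tendsto (fun t => α t + β t * z t j) l (𝓝 1) := by
          have := hα.add (hβ.mul (hz j hj))
          simpa using this
        exact this.eventually_ne one_ne_zero
      have hne' : ∀ᶠ t in l, ∀ j ∈ Icc 1 N, α t + β t * z t j ≠ 0 :=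
        (Finset.eventually_all (Icc 1 N)).2 hne
      filter_upwards [hinj, hne'] with t ht hnt
      have hts : Set.InjOn (z t) s := ht.mono (by exact_mod_cast hs)
      set F : ℂ → ℂ := fun v => f t v / (α t + β t * v) with hF
      have e1 : dd s (z t) (f t) = α t * dd s (z t) F +
          β t * (dd (s.erase k) (z t) F + z t k * dd s (z t) F) := by
        rw [← dd_mul_X s (z t) F k hk hts, ← dd_smul, ← dd_smul, ← dd_add]
        refine dd_congr _ _ _ _ fun j hj => ?_
        have := hnt j (hs hj)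
        simp only [hF]
        field_simp
      change (dd s (z t) (f t) - β t * dd (s.erase k) (z t) F) / (α t + β t * z t k) = dd s (z t) F
      rw [div_eq_iff (hnt k (hs hk)), e1]
      ring

lemma LimAt.div_prod {f : ι → ℂ → ℂ} {p : Polynomial ℂ}
    (hinj : ∀ᶠ t in l, Set.InjOn (z t) (Icc 1 N))
    (hz : ∀ i ∈ Icc 1 N, Tendsto (fun t => z t i) l (𝓝 0))
    (h : LimAt N l z f p) (S : Finset ℕ) (α β : ℕ → ι → ℂ)
    (hα : ∀ i ∈ S, Tendsto (α i) l (𝓝 1)) (hβ : ∀ i ∈ S, Tendsto (β i) l (𝓝 0)) :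
    LimAt N l z (fun t v => f t v / ∏ i ∈ S, (α i t + β i t * v)) p := by
  induction S using Finset.induction_on with
  | empty => simpa using h
  | insert i S hi ih =>
    have h1 := ih (fun j hj => hα j (mem_insert_of_mem hj)) (fun j hj => hβ j (mem_insert_of_mem hj))
    have h2 := h1.div hinj hz (hα i (mem_insert_self i S)) (hβ i (mem_insert_self i S))
    convert h2 using 1
    funext t v
    rw [Finset.prod_insert hi, div_div, mul_comm]

end

end Pool.Agent.H75.Exact.EigP
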