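import Pool.Agent.H75.Exact.EigAux

set_option autoImplicit false
open Finset Filter Topology

/-! The limit `z → 0` and the eigenvector equation, given the exchange relation, the left reflection
and the mirror identity. -/

namespace Pool.Agent.H75.Exact.EigP

/-- the parameters `y k = t (k + 1)` -/
noncomputable def yy (t : ℂ) (k : ℕ) : ℂ := t * (k + 1)

lemma good_of_small (n : ℕ) (t : ℂ) (ht0 : t ≠ 0) (ht : ‖t‖ * (16 * (2 * n + 1)) ≤ 1) :
    Good n (yy t) t := by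
  have hn0 : (0 : ℝ) ≤ n := Nat.cast_nonneg n
  have htn : (0 : ℝ) < ‖t‖ := norm_pos_iff.2 ht0
  have h16 : ‖t‖ ≤ 1 / 16 := by nlinarith
  have hyk : ∀ i ∈ Icc 1 (2 * n), ‖t * ((i : ℂ) + 1)‖ ≤ 1 / 16 := by
    intro i hi
    have hi' := Finset.mem_Icc.1 hi
    have hi2 : (i : ℝ) ≤ 2 * n := by exact_mod_cast hi'.2
    rw [norm_mul]
    have : ‖(i : ℂ) + 1‖ = (i : ℝ) + 1 := by
      have : (i : ℂ) + 1 = (((i : ℝ) + 1 : ℝ) : ℂ) := by push_cast; rfl
      rw [this, Complex.norm_of_nonneg (by positivity)]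
    rw [this]
    nlinarith
  have hb : ‖bar t‖ ≤ 1 / 8 := by
    unfold bar
    rw [norm_div, norm_neg]
    have h1 : 15 / 16 ≤ ‖1 + t‖ := by
      have := norm_sub_le (1 + t) t
      simp at this
      linarith
    rw [div_le_iff₀ (by linarith)]
    linarith
  have h1t : 1 + t ≠ 0 := one_add_ne (h16.trans (by norm_num))
  refine ⟨fun i hi => (hyk i hi).trans (by norm_num), h16.trans (by norm_num), hb, ?_, ?_, ?_, ?_⟩
  · intro i _ j _ hij
    have : (i : ℂ) + 1 = j + 1 := mul_left_cancel₀ ht0 hij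
    exact_mod_cast add_right_cancel this
  · intro i hi h
    have : (i : ℂ) + 1 = 1 := mul_left_cancel₀ ht0 (h.trans (mul_one t).symm)
    have : (i : ℂ) = 0 := by linear_combination this
    have : i = 0 := by exact_mod_cast this
    have := (Finset.mem_Icc.1 hi).1
    omega
  · intro i hi h
    unfold yy bar at h
    rw [eq_div_iff h1t] at h
    have h2 : t * (((i : ℂ) + 1) * (1 + t) + 1) = 0 := by linear_combination h
    rcases mul_eq_zero.1 h2 with h3 | h3
    · exact ht0 h3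
    · have h4 : t * ((i : ℂ) + 1) = -((i : ℂ) + 2) := by linear_combination h3
      have h5 := hyk i hi
      rw [h4, norm_neg] at h5
      have : ‖(i : ℂ) + 2‖ = (i : ℝ) + 2 := by
        have : (i : ℂ) + 2 = (((i : ℝ) + 2 : ℝ) : ℂ) := by push_cast; rfl
        rw [this, Complex.norm_of_nonneg (by positivity)]
      rw [this] at h5
      have : (0 : ℝ) ≤ i := Nat.cast_nonneg i
      linarith
  · intro h
    unfold bar at h
    rw [eq_div_iff h1t] at h
    have h2 : t * (2 + t) = 0 := by linear_combination h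
    rcases mul_eq_zero.1 h2 with h3 | h3
    · exact ht0 h3
    · have : t = -2 := by linear_combination h3
      rw [this] at h16
      norm_num at h16

lemma eventually_good (n : ℕ) : ∀ᶠ t in 𝓝[≠] (0 : ℂ), Good n (yy t) t := by
  have h1 : Tendsto (fun t : ℂ => ‖t‖ * (16 * (2 * (n : ℝ) + 1))) (𝓝[≠] 0) (𝓝 0) := by
    have : Tendsto (fun t : ℂ => ‖t‖) (𝓝[≠] 0) (𝓝 0) := by
      simpa using (continuous_norm.tendsto (0 : ℂ)).mono_left nhdsWithin_le_nhds
    simpa using this.mul_const (16 * (2 * (n : ℝ) + 1))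
  filter_upwards [h1.eventually (ge_mem_nhds (by norm_num : (0 : ℝ) < 1)),
    self_mem_nhdsWithin] with t ht ht0
  exact good_of_small n t ht0 ht

lemma tendsto_id' : Tendsto (fun t : ℂ => t) (𝓝[≠] 0) (𝓝 0) :=
  (tendsto_id (α := ℂ) (x := 𝓝 0)).mono_left nhdsWithin_le_nhds

lemma tendsto_yy (i : ℕ) : Tendsto (fun t : ℂ => yy t i) (𝓝[≠] 0) (𝓝 0) := by
  have h := tendsto_id'.mul_const ((i : ℂ) + 1)
  rw [zero_mul] at h
  exact h

lemma tendsto_bar : Tendsto (fun t : ℂ => bar t) (𝓝[≠] 0) (𝓝 0) := by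
  have h2 : Tendsto (fun t : ℂ => 1 + t) (𝓝[≠] 0) (𝓝 1) := by
    simpa using tendsto_id'.const_add (1 : ℂ)
  have h3 := tendsto_id'.neg.div h2 one_ne_zero
  have h4 : -(0 : ℂ) / 1 = 0 := by simp
  rw [h4] at h3
  exact h3

lemma tendsto_hh {x y : ℂ → ℂ} {l : Filter ℂ} (hx : Tendsto x l (𝓝 0)) (hy : Tendsto y l (𝓝 0)) :
    Tendsto (fun t => hh (x t) (y t)) l (𝓝 1) := by
  have := ((hx.const_add 1).add (hx.mul hy)).mul ((hx.mul hy).const_sub 1)
  simpa [hh] using this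

lemma tendsto_cc (n k : ℕ) {x : ℂ → ℂ} (hx : Tendsto x (𝓝[≠] 0) (𝓝 0)) :
    Tendsto (fun t => cc n (yy t) k (x t)) (𝓝[≠] 0) (𝓝 1) := by
  have h1 : Tendsto (fun t => ∏ i ∈ Ico 1 k, hh (yy t i) (x t)) (𝓝[≠] 0) (𝓝 (∏ i ∈ Ico 1 k, 1)) :=
    tendsto_finsetProd _ fun i _ => tendsto_hh (tendsto_yy i) hx
  have h2 : Tendsto (fun t => ∏ i ∈ Ico k (2 * n + 1), hh (x t) (yy t i)) (𝓝[≠] 0)
      (𝓝 (∏ i ∈ Ico k (2 * n + 1), 1)) :=
    tendsto_finsetProd _ fun i _ => tendsto_hh hx (tendsto_yy i)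
  have h3 : Tendsto (fun t => (1 + x t + x t ^ 2) ^ n) (𝓝[≠] 0) (𝓝 1) := by
    have := ((hx.const_add 1).add (hx.pow 2)).pow n
    simpa using this
  have h4 := (h1.mul h2).div h3 one_ne_zero
  simp only [Finset.prod_const_one, mul_one, div_one] at h4
  exact h4

lemma tendsto_FF (q : ℂ) (hq : q ^ 2 + q + 1 = 0) (n k : ℕ) (hk : k ∈ Icc 1 (2 * n + 1)) {x : ℂ → ℂ}
    (hx : Tendsto x (𝓝[≠] 0) (𝓝 0))
    (hev : ∀ᶠ t in 𝓝[≠] (0 : ℂ), ∀ i ∈ Icc 1 (2 * n), yy t i ≠ x t)
    (D : Finset ℕ) (hD : D ⊆ Icc 1 (2 * n + 1)) (hc : D.card = n) :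
    Tendsto (fun t => FF q n (yy t) k (x t) D) (𝓝[≠] 0) (𝓝 (sgn n * Psi q n D)) := by
  have h1 := tendsto_cc n k hx
  have h2 := ut_limit (l := 𝓝[≠] (0 : ℂ)) (z := fun t => ins (yy t) k (x t)) q hq n
    (by
      filter_upwards [hev, eventually_good n] with t ht hg
      exact ins_injOn n k (yy t) (x t) hk hg.inj ht)
    (by
      intro i _
      rcases lt_trichotomy i k with h | h | h
      · simp only [ins_lt _ _ _ _ h]; exact tendsto_yy i
      · subst h; simp only [ins_eq]; exact hx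
      · simp only [ins_gt _ _ _ _ h]; exact tendsto_yy _) D hD hc
  have h3 := h1.mul h2
  rw [one_mul] at h3
  exact h3

lemma tendsto_E (q : ℂ) (n k : ℕ) (hk : k ∈ Icc 1 (2 * n)) {Ψ : ℂ → Finset ℕ → ℂ}
    {L : Finset ℕ → ℂ}
    (h : ∀ D : Finset ℕ, D ⊆ Icc 1 (2 * n + 1) → D.card = n →
      Tendsto (fun t => Ψ t D) (𝓝[≠] 0) (𝓝 (L D)))
    (D : Finset ℕ) (hD : D ⊆ Icc 1 (2 * n + 1)) (hc : D.card = n) :
    Tendsto (fun t => E q k (Ψ t) D) (𝓝[≠] 0) (𝓝 (E q k L D)) := by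
  have hk' := Finset.mem_Icc.1 hk
  unfold E
  by_cases h1 : k ∈ D
  · by_cases h2 : k + 1 ∈ D
    · simp only [h1, h2, if_true]; exact tendsto_const_nhds
    · simp only [h1, h2, if_true, if_false]
      refine ((h D hD hc).const_mul (-q)).add (h _ ?_ ?_)
      · intro j hj
        rcases Finset.mem_insert.1 hj with rfl | hj
        · exact Finset.mem_Icc.2 ⟨by omega, by omega⟩
        · exact hD (Finset.mem_of_mem_erase hj)
      · rw [Finset.card_insert_of_notMem (fun h => h2 (Finset.mem_of_mem_erase h)),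
          Finset.card_erase_of_mem h1]
        have := Finset.card_pos.2 ⟨k, h1⟩
        omega
  · by_cases h2 : k + 1 ∈ D
    · simp only [h1, h2, if_true, if_false]
      refine (h _ ?_ ?_).sub ((h D hD hc).const_mul q⁻¹)
      · intro j hj
        rcases Finset.mem_insert.1 hj with rfl | hj
        · exact Finset.mem_Icc.2 ⟨by omega, by omega⟩
        · exact hD (Finset.mem_of_mem_erase hj)
      · rw [Finset.card_insert_of_notMem (fun h => h1 (Finset.mem_of_mem_erase h)),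
          Finset.card_erase_of_mem h2]
        have := Finset.card_pos.2 ⟨k + 1, h2⟩
        omega
    · simp only [h1, h2, if_false]; exact tendsto_const_nhds

lemma coef1 (k : ℕ) : Tendsto (fun t : ℂ => (t - yy t k) / (1 + t + t * yy t k) / t) (𝓝[≠] 0)
    (𝓝 (-(k : ℂ))) := by
  have hd : Tendsto (fun t : ℂ => 1 + t + t * yy t k) (𝓝[≠] 0) (𝓝 1) := by
    have := (tendsto_id'.const_add 1).add (tendsto_id'.mul (tendsto_yy k))
    simpa using this
  have h := (tendsto_const_nhds (x := -(k : ℂ)) (f := 𝓝[≠] (0 : ℂ))).div hd one_ne_zero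
  rw [div_one] at h
  refine h.congr' ?_
  filter_upwards [self_mem_nhdsWithin] with t ht
  have ht' : t ≠ 0 := ht
  simp only [Pi.div_apply]
  have : t - yy t k = t * (-(k : ℂ)) := by unfold yy; ring
  rw [this, div_div, mul_comm _ t, mul_div_mul_left _ _ ht']

lemma coef2 (k : ℕ) : Tendsto (fun t : ℂ => (yy t k - bar t) / (1 + yy t k + bar t * yy t k) / t)
    (𝓝[≠] 0) (𝓝 ((k : ℂ) + 2)) := by
  have hd : Tendsto (fun t : ℂ => 1 + yy t k + bar t * yy t k) (𝓝[≠] 0) (𝓝 1) := by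
    have := ((tendsto_yy k).const_add 1).add (tendsto_bar.mul (tendsto_yy k))
    simpa using this
  have h1t : Tendsto (fun t : ℂ => 1 + t) (𝓝[≠] 0) (𝓝 1) := by
    simpa using tendsto_id'.const_add (1 : ℂ)
  have hn : Tendsto (fun t : ℂ => ((k : ℂ) + 1) + (1 + t)⁻¹) (𝓝[≠] 0) (𝓝 ((k : ℂ) + 2)) := by
    have := (h1t.inv₀ one_ne_zero).const_add ((k : ℂ) + 1)
    convert this using 2
    norm_num
    ring
  have h := hn.div hd one_ne_zero
  rw [div_one] at h
  refine h.congr' ?_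
  filter_upwards [self_mem_nhdsWithin, h1t.eventually_ne one_ne_zero] with t ht ht1
  have ht' : t ≠ 0 := ht
  simp only [Pi.div_apply]
  have : yy t k - bar t = t * (((k : ℂ) + 1) + (1 + t)⁻¹) := by unfold yy bar; field_simp; ring
  rw [this, div_div, mul_comm _ t, mul_div_mul_left _ _ ht']

theorem heig_of (q : ℂ) (hq : q ^ 2 + q + 1 = 0) (n : ℕ) (hex : Exch q n) (hlr : LRef q n)
    (hmi : Mirr q n) : HEig q n (Psi q n) := by
  intro D hD hc
  rcases Nat.eq_zero_or_pos n with hn | hn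
  · subst hn; simp
  set L : Finset ℕ → ℂ := fun D => sgn n * Psi q n D with hL
  have hev1 : ∀ᶠ t in 𝓝[≠] (0 : ℂ), ∀ i ∈ Icc 1 (2 * n), yy t i ≠ t := by
    filter_upwards [eventually_good n] with t hg
    exact hg.hx
  have hev2 : ∀ᶠ t in 𝓝[≠] (0 : ℂ), ∀ i ∈ Icc 1 (2 * n), yy t i ≠ bar t := by
    filter_upwards [eventually_good n] with t hg
    exact hg.hx'
  have hlim : Tendsto (fun t : ℂ => ∑ k ∈ Icc 1 (2 * n),
      ((t - yy t k) / (1 + t + t * yy t k) / t *
        (E q k (FF q n (yy t) k t) D - FF q n (yy t) k t D) +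
      (yy t k - bar t) / (1 + yy t k + bar t * yy t k) / t *
        (E q k (FF q n (yy t) (k + 1) (bar t)) D - FF q n (yy t) (k + 1) (bar t) D))) (𝓝[≠] 0)
      (𝓝 (∑ k ∈ Icc 1 (2 * n), (-(k : ℂ) * (E q k L D - L D) + ((k : ℂ) + 2) * (E q k L D - L D)))) := by
    refine tendsto_finsetSum _ fun k hk => ?_
    have hk' := Finset.mem_Icc.1 hk
    have hk1 : k ∈ Icc 1 (2 * n + 1) := Finset.mem_Icc.2 ⟨hk'.1, by omega⟩
    have hk2 : k + 1 ∈ Icc 1 (2 * n + 1) := Finset.mem_Icc.2 ⟨by omega, by omega⟩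
    have a1 : ∀ D : Finset ℕ, D ⊆ Icc 1 (2 * n + 1) → D.card = n →
        Tendsto (fun t => FF q n (yy t) k t D) (𝓝[≠] 0) (𝓝 (L D)) :=
      fun D hD hc => tendsto_FF q hq n k hk1 tendsto_id' hev1 D hD hc
    have a2 : ∀ D : Finset ℕ, D ⊆ Icc 1 (2 * n + 1) → D.card = n →
        Tendsto (fun t => FF q n (yy t) (k + 1) (bar t) D) (𝓝[≠] 0) (𝓝 (L D)) :=
      fun D hD hc => tendsto_FF q hq n (k + 1) hk2 tendsto_bar hev2 D hD hc
    exact ((coef1 k).mul ((tendsto_E q n k hk a1 D hD hc).sub (a1 D hD hc))).add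
      ((coef2 k).mul ((tendsto_E q n k hk a2 D hD hc).sub (a2 D hD hc)))
  have hzero : (fun t : ℂ => ∑ k ∈ Icc 1 (2 * n),
      ((t - yy t k) / (1 + t + t * yy t k) / t *
        (E q k (FF q n (yy t) k t) D - FF q n (yy t) k t D) +
      (yy t k - bar t) / (1 + yy t k + bar t * yy t k) / t *
        (E q k (FF q n (yy t) (k + 1) (bar t)) D - FF q n (yy t) (k + 1) (bar t) D)))
      =ᶠ[𝓝[≠] 0] fun _ => 0 := by
    filter_upwards [eventually_good n] with t hg
    have := total hex hlr hmi hn hg D hD hc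
    have h2 : ∑ k ∈ Icc 1 (2 * n),
      ((t - yy t k) / (1 + t + t * yy t k) / t *
        (E q k (FF q n (yy t) k t) D - FF q n (yy t) k t D) +
      (yy t k - bar t) / (1 + yy t k + bar t * yy t k) / t *
        (E q k (FF q n (yy t) (k + 1) (bar t)) D - FF q n (yy t) (k + 1) (bar t) D)) =
      t⁻¹ * ∑ k ∈ Icc 1 (2 * n), ((t - yy t k) / (1 + t + t * yy t k) *
        (E q k (FF q n (yy t) k t) D - FF q n (yy t) k t D) +
      (yy t k - bar t) / (1 + yy t k + bar t * yy t k) *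
        (E q k (FF q n (yy t) (k + 1) (bar t)) D - FF q n (yy t) (k + 1) (bar t) D)) := by
      rw [Finset.mul_sum]
      refine Finset.sum_congr rfl fun k _ => ?_
      rw [div_eq_mul_inv _ t, div_eq_mul_inv _ t]
      ring
    rw [h2, this, mul_zero]
  have hfin := tendsto_nhds_unique (hlim.congr' hzero) tendsto_const_nhds
  have h3 : ∑ k ∈ Icc 1 (2 * n), (-(k : ℂ) * (E q k L D - L D) + ((k : ℂ) + 2) * (E q k L D - L D)) =
      2 * (sgn n * (∑ k ∈ Icc 1 (2 * n), E q k (Psi q n) D - 2 * n * Psi q n D)) := by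
    have h4 : ∀ k ∈ Icc 1 (2 * n), (-(k : ℂ) * (E q k L D - L D) + ((k : ℂ) + 2) * (E q k L D - L D)) =
        2 * sgn n * (E q k (Psi q n) D - Psi q n D) := by
      intro k _
      have : E q k L D = sgn n * E q k (Psi q n) D := E_smul q k (sgn n) (Psi q n) D
      rw [this, hL]
      ring
    rw [Finset.sum_congr rfl h4, ← Finset.mul_sum, Finset.sum_sub_distrib, Finset.sum_const,
      Nat.card_Icc, Nat.add_sub_cancel, nsmul_eq_mul]
    push_cast
    ring
  rw [h3] at hfin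
  have h5 : sgn n * (∑ k ∈ Icc 1 (2 * n), E q k (Psi q n) D - 2 * n * Psi q n D) = 0 := by
    rcases mul_eq_zero.1 hfin with h | h
    · norm_num at h
    · exact h
  rcases mul_eq_zero.1 h5 with h | h
  · exact absurd h (sgn_ne_zero n)
  · exact sub_eq_zero.1 h

end Pool.Agent.H75.Exact.EigP
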