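import Pool.Agent.H75.Exact.EigDD

set_option autoImplicit false
open Finset Filter Topology

/-! The homogeneous limit of the inhomogeneous vector `ut`. -/

namespace Pool.Agent.H75.Exact.EigP

/-- one-variable weight in the homogeneous limit -/
noncomputable def g0 (q : ℂ) : Polynomial ℂ :=
  Polynomial.C (-q) * ((Polynomial.X ^ 2 - 1) * (Polynomial.X - Polynomial.C q) *
    (Polynomial.X - Polynomial.C (q ^ 2)) ^ 2)

lemma sum_fin_Icc (N : ℕ) (f : ℕ → ℂ) : ∑ j : Fin N, f ((j : ℕ) + 1) = ∑ j ∈ Icc 1 N, f j := by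
  rw [Fin.sum_univ_eq_sum_range (fun j => f (j + 1)) N, Finset.range_eq_Ico,
    Finset.sum_Ico_add' f 0 N 1]
  rfl

lemma one_var_limit {ι : Type*} {l : Filter ι} {z : ι → ℕ → ℂ} (q : ℂ) (n : ℕ)
    (hinj : ∀ᶠ t in l, Set.InjOn (z t) (Icc 1 (2 * n + 1)))
    (hz : ∀ i ∈ Icc 1 (2 * n + 1), Tendsto (fun t => z t i) l (𝓝 0)) (a : ℕ)
    (ha : a ∈ Icc 1 (2 * n + 1)) (e : ℕ) :
    Tendsto (fun t => ∑ j : Fin (2 * n + 1),
      res q (2 * n + 1) n (z t) a ((j : ℕ) + 1) * z t ((j : ℕ) + 1) ^ e) l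
      (𝓝 ((g0 q * Polynomial.X ^ e).coeff (2 * n + 1 - a))) := by
  have ha' := Finset.mem_Icc.1 ha
  set Q : Polynomial ℂ := (Polynomial.X ^ 2 - 1) * (Polynomial.X - Polynomial.C q) *
    (Polynomial.X - Polynomial.C (q ^ 2)) ^ 2 * Polynomial.X ^ e with hQ
  have h0 := (LimAt.one hinj).mul_poly hinj hz Q
  have hza : Tendsto (fun t => z t a - q) l (𝓝 (-q)) := by
    simpa using (hz a ha).sub_const q
  have h1 := h0.smul hza
  have h2 := h1.div_prod hinj hz (Icc 1 a) (fun i t => 1 + z t i) (fun i t => z t i)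
    (fun i hi => by
      have hi' := Finset.mem_Icc.1 hi
      simpa using (hz i (Finset.mem_Icc.2 ⟨hi'.1, hi'.2.trans ha'.2⟩)).const_add 1)
    (fun i hi => by
      have hi' := Finset.mem_Icc.1 hi
      exact hz i (Finset.mem_Icc.2 ⟨hi'.1, hi'.2.trans ha'.2⟩))
  have h3 := h2.div_prod hinj hz (Icc 1 (2 * n + 1)) (fun i t => 1) (fun i t => - z t i)
    (fun i hi => tendsto_const_nhds)
    (fun i hi => by simpa using (hz i hi).neg)
  have h4 := h3 (Icc a (2 * n + 1)) (Finset.Icc_subset_Icc_left ha'.1)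
  have hc : (Icc a (2 * n + 1)).card = (2 * n + 1 - a) + 1 := by
    rw [Nat.card_Icc]; omega
  rw [hc, Polynomial.coeff_X_mul] at h4
  have e1 : Polynomial.C (-q) * (Q * 1) = g0 q * Polynomial.X ^ e := by
    rw [hQ, g0]; ring
  rw [e1] at h4
  refine h4.congr fun t => ?_
  rw [sum_fin_Icc (2 * n + 1) (fun j => res q (2 * n + 1) n (z t) a j * z t j ^ e)]
  rw [← Finset.sum_subset (Finset.Icc_subset_Icc_left ha'.1 :
    Icc a (2 * n + 1) ⊆ Icc 1 (2 * n + 1))]
  · unfold dd
    refine Finset.sum_congr rfl fun j hj => ?_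
    have hj' := Finset.mem_Icc.1 hj
    rw [res, if_pos hj'.1]
    have hε : ((2 * n + 1 : ℕ) : ℤ) - 2 * n = 1 := by push_cast; ring
    have hε2 : ((2 * n + 1 : ℕ) : ℤ) - 2 * n + 1 = ((2 : ℕ) : ℤ) := by push_cast; ring
    rw [hε2, hε, zpow_one, zpow_natCast]
    have p1 : ∏ i ∈ Icc 1 a, (1 + z t i + z t i * z t j) = ∏ i ∈ Icc 1 a, (1 + z t i + z t j * z t i) :=
      Finset.prod_congr rfl fun i _ => by ring
    have p2 : ∏ i ∈ Icc 1 (2 * n + 1), (1 + - z t i * z t j) =
        ∏ i ∈ Icc 1 (2 * n + 1), (1 - z t j * z t i) :=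
      Finset.prod_congr rfl fun i _ => by ring
    beta_reduce
    rw [p1, p2, hQ]
    simp only [Polynomial.eval_mul, Polynomial.eval_sub, Polynomial.eval_pow, Polynomial.eval_X,
      Polynomial.eval_C, Polynomial.eval_one, mul_one]
    rw [div_div, div_div, div_mul_eq_mul_div]
    congr 1 <;> ring
  · intro j hj hj'
    rw [res, if_neg, zero_mul]
    intro h
    exact hj' (Finset.mem_Icc.2 ⟨h, (Finset.mem_Icc.1 hj).2⟩)

lemma coeff_prod_aeval {n : ℕ} (p : Fin n → Polynomial ℂ) (m : Fin n →₀ ℕ) :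
    MvPolynomial.coeff m
      (∏ l, Polynomial.aeval (MvPolynomial.X l : MvPolynomial (Fin n) ℂ) (p l)) =
    ∏ l, (p l).coeff (m l) := by
  set K := (∑ l, ((p l).natDegree + m l)) + 1 with hK
  have hle : ∀ l, (p l).natDegree + m l < K := by
    intro l
    have := Finset.single_le_sum (f := fun l => (p l).natDegree + m l)
      (fun i _ => Nat.zero_le _) (Finset.mem_univ l)
    omega
  have h1 : ∀ l, Polynomial.aeval (MvPolynomial.X l : MvPolynomial (Fin n) ℂ) (p l) =
      ∑ k ∈ range K, (p l).coeff k • (MvPolynomial.X l : MvPolynomial (Fin n) ℂ) ^ k := fun l =>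
    Polynomial.aeval_eq_sum_range' (by have := hle l; omega) _
  simp only [h1]
  rw [Finset.prod_univ_sum, MvPolynomial.coeff_sum]
  have h2 : ∀ φ : Fin n → ℕ, MvPolynomial.coeff m
      (∏ l, (p l).coeff (φ l) • (MvPolynomial.X l : MvPolynomial (Fin n) ℂ) ^ (φ l)) =
      if φ = m then ∏ l, (p l).coeff (m l) else 0 := by
    intro φ
    have e : ∏ l, (p l).coeff (φ l) • (MvPolynomial.X l : MvPolynomial (Fin n) ℂ) ^ (φ l) =
        MvPolynomial.monomial (Finsupp.equivFunOnFinite.symm φ) (∏ l, (p l).coeff (φ l)) := by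
      rw [MvPolynomial.monomial_eq, Finsupp.prod_fintype _ _ (by simp)]
      simp only [MvPolynomial.smul_eq_C_mul, Finset.prod_mul_distrib, map_prod]
      rfl
    rw [e, MvPolynomial.coeff_monomial]
    by_cases h : φ = m
    · have : Finsupp.equivFunOnFinite.symm φ = m := by
        ext i; simp [h]
      rw [if_pos this, if_pos h, h]
    · rw [if_neg, if_neg h]
      intro h'
      apply h
      funext i
      have := DFunLike.congr_fun h' i
      simpa using this
  rw [Finset.sum_congr rfl fun φ _ => h2 φ]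
  rw [Finset.sum_ite_eq' (Fintype.piFinset fun _ => range K) (m : Fin n → ℕ)]
  rw [if_pos]
  rw [Fintype.mem_piFinset]
  intro l
  rw [Finset.mem_range]
  have := hle l
  omega

lemma multi_limit {ι : Type*} {l : Filter ι} {n N : ℕ} (w : ι → Fin n → Fin N → ℂ)
    (x : ι → Fin N → ℂ) (g : Polynomial ℂ) (M : Fin n →₀ ℕ)
    (h : ∀ i : Fin n, ∀ e : ℕ, Tendsto (fun t => ∑ j, w t i j * x t j ^ e) l
      (𝓝 ((g * Polynomial.X ^ e).coeff (M i)))) (F : MvPolynomial (Fin n) ℂ) :
    Tendsto (fun t => ∑ j : Fin n → Fin N, (∏ i, w t i (j i)) *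
      MvPolynomial.eval (fun i => x t (j i)) F) l
      (𝓝 (MvPolynomial.coeff M
        ((∏ i, Polynomial.aeval (MvPolynomial.X i : MvPolynomial (Fin n) ℂ) g) * F))) := by
  induction F using MvPolynomial.induction_on' with
  | monomial u c =>
    have e1 : ∀ t, ∑ j : Fin n → Fin N, (∏ i, w t i (j i)) *
        MvPolynomial.eval (fun i => x t (j i)) (MvPolynomial.monomial u c) =
        c * ∏ i, ∑ j, w t i j * x t j ^ (u i) := by
      intro t
      rw [Finset.prod_univ_sum, Fintype.piFinset_univ, Finset.mul_sum]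
      refine Finset.sum_congr rfl fun j _ => ?_
      rw [MvPolynomial.eval_monomial, Finsupp.prod_fintype _ _ (by simp), Finset.prod_mul_distrib]
      ring
    have e2 : (∏ i, Polynomial.aeval (MvPolynomial.X i : MvPolynomial (Fin n) ℂ) g) *
        MvPolynomial.monomial u c = MvPolynomial.C c *
        ∏ i, Polynomial.aeval (MvPolynomial.X i : MvPolynomial (Fin n) ℂ)
          (g * Polynomial.X ^ (u i)) := by
      rw [MvPolynomial.monomial_eq, Finsupp.prod_fintype _ _ (by simp)]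
      simp only [map_mul, map_pow, Polynomial.aeval_X, Finset.prod_mul_distrib]
      ring
    rw [e2, MvPolynomial.coeff_C_mul, coeff_prod_aeval]
    simp only [e1]
    exact (tendsto_finsetProd _ fun i _ => h i (u i)).const_mul c
  | add p p' hp hp' =>
    rw [mul_add, MvPolynomial.coeff_add]
    refine (hp.add hp').congr fun t => ?_
    rw [← Finset.sum_add_distrib]
    refine Finset.sum_congr rfl fun j _ => ?_
    rw [map_add, mul_add]

/-- polynomial form of the pair kernel -/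
noncomputable def KKp (n : ℕ) : MvPolynomial (Fin n) ℂ :=
  ∏ l : Fin n, ∏ m ∈ Ioi l,
    (MvPolynomial.X m - MvPolynomial.X l) * (1 + MvPolynomial.X l + MvPolynomial.X l * MvPolynomial.X m) *
      (1 - MvPolynomial.X l * MvPolynomial.X m) * (1 + MvPolynomial.X l + MvPolynomial.X m)

lemma eval_KKp {n : ℕ} (v : Fin n → ℂ) : MvPolynomial.eval v (KKp n) = KK v := by
  simp [KKp, KK, map_prod]

/-- the sign -/
noncomputable def sgn (n : ℕ) : ℂ := (∏ _l : Fin n, (-1)) * ∏ l : Fin n, ∏ _m ∈ Ioi l, (-1)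

lemma sgn_ne_zero (n : ℕ) : sgn n ≠ 0 := by
  unfold sgn
  refine mul_ne_zero (Finset.prod_ne_zero_iff.2 fun _ _ => by norm_num)
    (Finset.prod_ne_zero_iff.2 fun _ _ => Finset.prod_ne_zero_iff.2 fun _ _ => by norm_num)

lemma prod_pairs_rev {n : ℕ} {R : Type*} [CommMonoid R] (H : Fin n → Fin n → R) :
    ∏ k : Fin n, ∏ l ∈ Ioi k, H (Fin.rev l) (Fin.rev k) = ∏ k : Fin n, ∏ l ∈ Ioi k, H k l := by
  rw [Finset.prod_sigma', Finset.prod_sigma']
  refine Finset.prod_nbij' (fun p => ⟨Fin.rev p.2, Fin.rev p.1⟩) (fun p => ⟨Fin.rev p.2, Fin.rev p.1⟩)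
    ?_ ?_ ?_ ?_ ?_
  · rintro ⟨k, l⟩ h
    simp only [mem_sigma, mem_univ, mem_Ioi, true_and] at h ⊢
    exact Fin.rev_lt_rev.2 h
  · rintro ⟨k, l⟩ h
    simp only [mem_sigma, mem_univ, mem_Ioi, true_and] at h ⊢
    exact Fin.rev_lt_rev.2 h
  · rintro ⟨k, l⟩ h
    simp
  · rintro ⟨k, l⟩ h
    simp
  · rintro ⟨k, l⟩ h
    simp

lemma rename_Qp (q : ℂ) (hq : q ^ 2 + q + 1 = 0) (n : ℕ) :
    (∏ i, Polynomial.aeval (MvPolynomial.X i : MvPolynomial (Fin n) ℂ) (g0 q)) * KKp n =
      MvPolynomial.C (sgn n) * MvPolynomial.rename Fin.rev (Qp q n) := by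
  have hq3 : q ^ 3 = 1 := by linear_combination (q - 1) * hq
  have e1 : MvPolynomial.rename Fin.rev (Qp q n) =
      (∏ k : Fin n, (1 - MvPolynomial.C q * MvPolynomial.X k) * (1 - MvPolynomial.X k ^ 2) *
        (1 + MvPolynomial.X k + MvPolynomial.X k ^ 2)) *
      ∏ k : Fin n, ∏ l ∈ Ioi k,
        (MvPolynomial.X k - MvPolynomial.X l) * (1 + MvPolynomial.X k + MvPolynomial.X l * MvPolynomial.X k)
        * (1 - MvPolynomial.X l * MvPolynomial.X k) * (1 + MvPolynomial.X l + MvPolynomial.X k) := by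
    rw [Qp, map_mul]
    congr 1
    · rw [map_prod, ← Equiv.prod_comp Fin.revPerm]
      refine Finset.prod_congr rfl fun k _ => ?_
      simp
    · rw [map_prod, ← prod_pairs_rev (fun k l =>
        (MvPolynomial.X k - MvPolynomial.X l : MvPolynomial (Fin n) ℂ) *
        (1 + MvPolynomial.X k + MvPolynomial.X l * MvPolynomial.X k)
        * (1 - MvPolynomial.X l * MvPolynomial.X k) * (1 + MvPolynomial.X l + MvPolynomial.X k))]
      refine Finset.prod_congr rfl fun k _ => ?_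
      rw [map_prod]
      refine Finset.prod_congr rfl fun l _ => ?_
      simp
  rw [e1, sgn, KKp, map_mul]
  rw [mul_mul_mul_comm]
  congr 1
  · rw [map_prod, ← Finset.prod_mul_distrib]
    refine Finset.prod_congr rfl fun k _ => ?_
    simp only [g0, map_mul, map_sub, map_pow, Polynomial.aeval_X, Polynomial.aeval_C, map_one,
      map_neg, MvPolynomial.algebraMap_eq]
    have h1 : (MvPolynomial.C q : MvPolynomial (Fin n) ℂ) ^ 2 + MvPolynomial.C q + 1 = 0 := by
      rw [← map_pow, ← map_add, ← map_one MvPolynomial.C, ← map_add, hq, map_zero]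
    have h3 : (MvPolynomial.C q : MvPolynomial (Fin n) ℂ) ^ 3 = 1 := by
      rw [← map_pow, hq3, map_one]
    generalize (MvPolynomial.C q : MvPolynomial (Fin n) ℂ) = Q at h1 h3
    generalize (MvPolynomial.X k : MvPolynomial (Fin n) ℂ) = x
    have e2 : (x - Q) * (x - Q ^ 2) = 1 + x + x ^ 2 := by
      linear_combination (-x) * h1 + h3
    have e3 : -Q * (x - Q ^ 2) = 1 - Q * x := by
      linear_combination h3
    calc -Q * ((x ^ 2 - 1) * (x - Q) * (x - Q ^ 2) ^ 2)
        = (x ^ 2 - 1) * ((x - Q) * (x - Q ^ 2)) * (-Q * (x - Q ^ 2)) := by ring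
      _ = _ := by rw [e2, e3]; ring
  · rw [map_prod, ← Finset.prod_mul_distrib]
    refine Finset.prod_congr rfl fun k _ => ?_
    rw [map_prod, ← Finset.prod_mul_distrib]
    refine Finset.prod_congr rfl fun l _ => ?_
    simp only [map_neg, map_one]
    ring

theorem ut_limit {ι : Type*} {l : Filter ι} {z : ι → ℕ → ℂ} (q : ℂ) (hq : q ^ 2 + q + 1 = 0) (n : ℕ)
    (hinj : ∀ᶠ t in l, Set.InjOn (z t) (Icc 1 (2 * n + 1)))
    (hz : ∀ i ∈ Icc 1 (2 * n + 1), Tendsto (fun t => z t i) l (𝓝 0))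
    (D : Finset ℕ) (hD : D ⊆ Icc 1 (2 * n + 1)) (hc : D.card = n) :
    Tendsto (fun t => ut q (2 * n + 1) n (z t) D) l (𝓝 (sgn n * Psi q n D)) := by
  have h := multi_limit (l := l)
    (w := fun t i j => res q (2 * n + 1) n (z t) (D.orderEmbOfFin hc i) ((j : ℕ) + 1))
    (x := fun t (j : Fin (2 * n + 1)) => z t ((j : ℕ) + 1)) (g := g0 q)
    (M := Finsupp.equivFunOnFinite.symm fun i => 2 * n + 1 - D.orderEmbOfFin hc i)
    (fun i e => by
      have := one_var_limit q n hinj hz (D.orderEmbOfFin hc i)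
        (hD (Finset.orderEmbOfFin_mem D hc i)) e
      simpa using this) (KKp n)
  simp only [eval_KKp] at h
  have e1 : MvPolynomial.coeff (Finsupp.equivFunOnFinite.symm fun i => 2 * n + 1 - D.orderEmbOfFin hc i)
      ((∏ i, Polynomial.aeval (MvPolynomial.X i : MvPolynomial (Fin n) ℂ) (g0 q)) * KKp n) =
      sgn n * Psi q n D := by
    rw [rename_Qp q hq, MvPolynomial.coeff_C_mul, Psi, dif_pos hc]
    congr 1
    rw [← MvPolynomial.coeff_rename_mapDomain Fin.rev Fin.rev_injective (Qp q n)]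
    congr 1
    ext i
    obtain ⟨k, rfl⟩ := Fin.rev_surjective i
    rw [Finsupp.mapDomain_apply Fin.rev_injective]
    simp
  rw [e1] at h
  refine h.congr fun t => ?_
  rw [ut, dif_pos hc]

end Pool.Agent.H75.Exact.EigP
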