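import Pool.Agent.H75.Exact.Defs

set_option autoImplicit false
open Finset

/-! Inhomogeneous deformation of the explicit eigenvector: definitions.

`z 1, …, z N` are the parameters. For `D = {a_1 < ⋯ < a_n} ⊆ {1..N}` the component `ut q N n z D` is
the sum over `j_l ≥ a_l` of the residues at `v_l = z j_l` of
`∏_l u_{a_l}(v_l) s(v_l) * ∏_{l<m} (v_m-v_l)(1+v_l+v_l v_m)(1-v_l v_m)(1+v_l+v_m)`, where
`u_a(v) = (z_a - q) / (∏_{i ≤ a} (1 + z_i + v z_i) ∏_{i ≥ a} (v - z_i))`,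
`s(v) = (v²-1)(v-q)^ε (v-q²)^{ε+1} / ∏_i (1 - v z_i)`, `ε = N - 2n`. -/

namespace Pool.Agent.H75.Exact

/-- `z ↦ -z/(1+z)` -/
noncomputable def bar (z : ℂ) : ℂ := -z / (1 + z)

/-- residue at `v = z j` of `u_a(v) s(v)` -/
noncomputable def res (q : ℂ) (N n : ℕ) (z : ℕ → ℂ) (a j : ℕ) : ℂ :=
  if a ≤ j then
    (z a - q) * (z j ^ 2 - 1) * (z j - q) ^ ((N : ℤ) - 2 * n) * (z j - q ^ 2) ^ ((N : ℤ) - 2 * n + 1) /
      ((∏ i ∈ Icc 1 a, (1 + z i + z j * z i)) * (∏ i ∈ (Icc a N).erase j, (z j - z i)) *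
        ∏ i ∈ Icc 1 N, (1 - z j * z i))
  else 0

/-- the pair kernel -/
noncomputable def KK {n : ℕ} (v : Fin n → ℂ) : ℂ :=
  ∏ l : Fin n, ∏ m ∈ Ioi l,
    (v m - v l) * (1 + v l + v l * v m) * (1 - v l * v m) * (1 + v l + v m)

/-- the inhomogeneous vector; `j` runs over all maps `Fin n → Fin N`, the residue point of the `l`-th
variable is `z (j l + 1)` -/
noncomputable def ut (q : ℂ) (N n : ℕ) (z : ℕ → ℂ) (D : Finset ℕ) : ℂ :=
  if h : D.card = n then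
    ∑ j : Fin n → Fin N,
      (∏ l, res q N n z (D.orderEmbOfFin h l) ((j l : ℕ) + 1)) * KK fun l => z ((j l : ℕ) + 1)
  else 0

/-- generic small parameters -/
def Gen (N : ℕ) (z : ℕ → ℂ) : Prop :=
  (∀ i ∈ Icc 1 N, ‖z i‖ ≤ 1 / 4) ∧ Set.InjOn z (Icc 1 N)

/-- exchange `z i` and `z (i+1)` -/
def sw (z : ℕ → ℂ) (i : ℕ) : ℕ → ℂ := z ∘ Equiv.swap i (i + 1)

/-- mirror parameters -/
noncomputable def zst (N : ℕ) (z : ℕ → ℂ) (j : ℕ) : ℂ := bar (z (N + 1 - j))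

/-- mirror set: complement, reversed -/
def Dst (N : ℕ) (D : Finset ℕ) : Finset ℕ := (Icc 1 N \ D).image fun x => N + 1 - x

/-- the symmetric factor of the mirror identity -/
noncomputable def gfac (n : ℕ) (z : ℕ → ℂ) : ℂ :=
  (-1) ^ (n + 1) * (∏ i ∈ Icc 1 (2 * n + 1), (1 + z i) ^ (2 * n + 2) / (1 + z i + z i ^ 2)) *
    ∏ i ∈ Icc 1 (2 * n + 1), ∏ j ∈ Icc (i + 1) (2 * n + 1), (1 - z i * z j) / (1 + z i + z j)

end Pool.Agent.H75.Exact
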