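import Mathlib
import Pool.Agent.H75.Exact.StripExact

set_option autoImplicit false

/-! Critical bond percolation on `ℤ²` (every edge open with probability `1/2`, independently) in the
half-infinite strip `{-1 ≤ x + y ≤ 2n, y ≤ x}`, which has one short side (on the diagonal `x = y`) and
two long sides: the exact probability that the corner `(0,0)` is connected, by open edges of the
strip, to the opposite long side `{x + y = 2n}`, for every width, and its asymptotics.

The configuration `ω` gives the state of the edge from `u` to `u + (1,0)` (index `(u, true)`) and of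
the edge from `u` to `u + (0,1)` (index `(u, false)`); `μ` is the law under which the edges are open
(`ω e = true`) independently with probability `1/2`; `G n ω` is the graph of the open edges of the
strip. -/

namespace Pool.Agent.H75.Exact.StripCornerExactOld

open MeasureTheory

theorem result
    (μ : Measure ((ℤ × ℤ) × Bool → Bool))
    (hμ : μ = Measure.infinitePi (fun _ => (PMF.uniformOfFintype Bool).toMeasure))
    (G : ℕ → ((ℤ × ℤ) × Bool → Bool) → SimpleGraph (ℤ × ℤ))
    (hG : ∀ n ω, G n ω = SimpleGraph.fromRel (fun u v =>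
      (-1 ≤ u.1 + u.2 ∧ u.1 + u.2 ≤ 2 * (n : ℤ) ∧ u.2 ≤ u.1) ∧
      (-1 ≤ v.1 + v.2 ∧ v.1 + v.2 ≤ 2 * (n : ℤ) ∧ v.2 ≤ v.1) ∧
      ((v = (u.1 + 1, u.2) ∧ ω (u, true) = true) ∨
        (v = (u.1, u.2 + 1) ∧ ω (u, false) = true))))
    (p : ℕ → ℝ)
    (hp : ∀ n, p n =
      (μ {ω | ∃ v : ℤ × ℤ, v.1 + v.2 = 2 * (n : ℤ) ∧ (G n ω).Reachable (0, 0) v}).toReal) :
    (∀ n, p n = ∏ k ∈ Finset.range n, ((3 * k + 5) * (2 * k + 1) : ℝ) / ((6 * k + 5) * (k + 2))) ∧
    Filter.Tendsto (fun n : ℕ => (n : ℝ) ^ (2 / 3 : ℝ) * p n) Filter.atTop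
      (nhds (Real.Gamma (5 / 6) / (Real.Gamma (5 / 3) * Real.Gamma (1 / 2)))) := by
  subst hμ
  obtain rfl : G = Pool.Agent.H75.Exact.stripGraph := funext fun n => funext fun ω => hG n ω
  have h : ∀ n, p n = Pool.Agent.H75.Exact.hval n := by
    intro n
    rw [hp, ← Pool.Agent.H75.Exact.strip_exact]
    congr 2
    ext ω
    constructor
    · rintro ⟨v, h1, h2⟩
      exact ⟨0, one_pos, v, h1, h2⟩
    · rintro ⟨j, hj, v, h1, h2⟩
      obtain rfl : j = 0 := by omega
      exact ⟨v, h1, h2⟩
  refine ⟨h, ?_⟩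
  simp only [h]
  exact Pool.Agent.H75.Exact.hval_asymp

end Pool.Agent.H75.Exact.StripCornerExactOld
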